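import Pool.Agent.Lib_helper45.HS.DefsK
import Pool.Agent.Lib_helper45.HS.DefsK

/-!
# HS, block KI (KID): the monoid of ideals and the fractional ideals
-/

namespace Pool.Agent.HS

open NumberField IsDedekindDomain
open scoped nonZeroDivisors Classical

variable {K : Type} [Field K] [NumberField K]

theorem idl_zero : idl (0 : HeightOneSpectrum (𝓞 K) →₀ ℕ) = 1 := Finsupp.prod_zero_index

theorem idl_single (p : HeightOneSpectrum (𝓞 K)) (i : ℕ) :
    idl (Finsupp.single p i) = frP p ^ i := Finsupp.prod_single_index (pow_zero _)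

theorem idl_add (m n : HeightOneSpectrum (𝓞 K) →₀ ℕ) : idl (m + n) = idl m * idl n :=
  Finsupp.prod_add_index' (fun _ => pow_zero _) (fun _ _ _ => pow_add _ _ _)

theorem ki_coe (m : HeightOneSpectrum (𝓞 K) →₀ ℕ) :
    (idl m : FractionalIdeal (𝓞 K)⁰ K) =
      ∏ p ∈ m.support, (p.asIdeal : FractionalIdeal (𝓞 K)⁰ K) ^ m p := by
  rw [idl, Finsupp.prod, Units.coe_prod]
  rfl

theorem ki_coe' (m : HeightOneSpectrum (𝓞 K) →₀ ℕ) :
    (idl m : FractionalIdeal (𝓞 K)⁰ K) =
      ((∏ p ∈ m.support, p.asIdeal ^ m p : Ideal (𝓞 K)) : FractionalIdeal (𝓞 K)⁰ K) := by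
  rw [ki_coe]
  exact ((map_prod (FractionalIdeal.coeIdealHom (𝓞 K)⁰ K) (fun p => p.asIdeal ^ m p)
    m.support).trans (Finset.prod_congr rfl fun p _ => map_pow _ _ _)).symm

theorem ki_le_one (m : HeightOneSpectrum (𝓞 K) →₀ ℕ) :
    (idl m : FractionalIdeal (𝓞 K)⁰ K) ≤ 1 := by
  rw [ki_coe']
  exact FractionalIdeal.coeIdeal_le_one

theorem ki_count (m : HeightOneSpectrum (𝓞 K) →₀ ℕ) (p : HeightOneSpectrum (𝓞 K)) :
    FractionalIdeal.count K p (idl m : FractionalIdeal (𝓞 K)⁰ K) = m p := by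
  rw [ki_coe, FractionalIdeal.count_prod]
  · simp only [FractionalIdeal.count_pow, FractionalIdeal.count_maximal, mul_ite, mul_one,
      mul_zero, Finset.sum_ite_eq', Finsupp.mem_support_iff]
    split_ifs with h
    · rfl
    · push Not at h
      rw [h]; rfl
  · exact fun v _ => pow_ne_zero _ (FractionalIdeal.coeIdeal_ne_zero.mpr v.ne_bot)

theorem ki_ext {I J : FractionalIdeal (𝓞 K)⁰ K} (hI : I ≠ 0) (hJ : J ≠ 0)
    (h : ∀ p, FractionalIdeal.count K p I = FractionalIdeal.count K p J) : I = J := by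
  rw [← FractionalIdeal.finprod_heightOneSpectrum_factorization' K hI,
    ← FractionalIdeal.finprod_heightOneSpectrum_factorization' K hJ]
  refine finprod_congr fun p => ?_
  rw [h p]

theorem idl_inj : Function.Injective (idl (K := K)) := by
  intro m n h
  ext p
  have h1 := ki_count m p
  rw [h, ki_count] at h1
  exact_mod_cast h1.symm

/-- the integral ideals are the `idl m` -/
theorem idl_surj (a : (FractionalIdeal (𝓞 K)⁰ K)ˣ) :
    (a : FractionalIdeal (𝓞 K)⁰ K) ≤ 1 ↔ ∃ m, idl m = a := by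
  constructor
  · intro ha
    have hnn : ∀ p, 0 ≤ FractionalIdeal.count K p (a : FractionalIdeal (𝓞 K)⁰ K) := by
      intro p
      have h1 := FractionalIdeal.count_mono K p a.ne_zero ha
      rwa [FractionalIdeal.count_one] at h1
    have hfin := FractionalIdeal.finite_factors (K := K) (a : FractionalIdeal (𝓞 K)⁰ K)
    let m : HeightOneSpectrum (𝓞 K) →₀ ℕ := Finsupp.onFinset
      (Set.Finite.toFinset (Filter.eventually_cofinite.1 hfin))
      (fun p => (FractionalIdeal.count K p (a : FractionalIdeal (𝓞 K)⁰ K)).toNat) (by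
        intro p hp
        rw [Set.Finite.mem_toFinset]
        intro h0
        apply hp
        show (FractionalIdeal.count K p (a : FractionalIdeal (𝓞 K)⁰ K)).toNat = 0
        rw [h0]; rfl)
    refine ⟨m, Units.ext (ki_ext (idl m).ne_zero a.ne_zero fun p => ?_)⟩
    rw [ki_count]
    show (((FractionalIdeal.count K p (a : FractionalIdeal (𝓞 K)⁰ K)).toNat : ℕ) : ℤ) = _
    exact Int.toNat_of_nonneg (hnn p)
  · rintro ⟨m, rfl⟩
    exact ki_le_one m

theorem idl_nrm (m : HeightOneSpectrum (𝓞 K) →₀ ℕ) :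
    ((FractionalIdeal.absNorm (idl m : FractionalIdeal (𝓞 K)⁰ K) : ℚ) : ℝ) = (PK K).nrm m := by
  have h : FractionalIdeal.absNorm (idl m : FractionalIdeal (𝓞 K)⁰ K) =
      (((PK K).nrm m : ℕ) : ℚ) := by
    rw [ki_coe', FractionalIdeal.coeIdeal_absNorm, map_prod]
    simp only [map_pow]
    rfl
  rw [h]
  norm_cast

theorem idl_le (m n : HeightOneSpectrum (𝓞 K) →₀ ℕ) :
    m ≤ n ↔ (idl n : FractionalIdeal (𝓞 K)⁰ K) ≤ (idl m : FractionalIdeal (𝓞 K)⁰ K) := by
  constructor
  · intro h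
    have h1 : n = m + (n - m) := by
      ext p
      have := h p
      simp only [Finsupp.coe_add, Finsupp.coe_tsub, Pi.add_apply, Pi.sub_apply]
      omega
    rw [h1, idl_add, Units.val_mul]
    calc (idl m : FractionalIdeal (𝓞 K)⁰ K) * (idl (n - m) : FractionalIdeal (𝓞 K)⁰ K)
        ≤ (idl m : FractionalIdeal (𝓞 K)⁰ K) * 1 := mul_le_mul_right (ki_le_one _) _
      _ = _ := mul_one _
  · intro h p
    have h1 := FractionalIdeal.count_mono K p (idl n).ne_zero h
    rw [ki_count, ki_count] at h1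
    exact_mod_cast h1

end Pool.Agent.HS
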