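import Pool.Agent.Lib_helper45.HS.Defs

/-!
# Hilbert-Selberg, block P0 (PSY): the monoid of ideals
-/

namespace Pool.Agent.HS

open Complex MeasureTheory Filter Topology
open scoped ENNReal Classical
open Pool.Agent.WA (gd gk)
open Pool.Agent.SEL (NL Adm)
open Pool.Agent.SQS (hat)
open Pool.Agent.WS (st EE RT cc hl Step)
open Finset.HasAntidiagonal (antidiagonal)

variable {P : Type} (S : PSys P)

theorem p0_und_le (p : P) : S.und p ≤ S.q p := by
  rw [S.q_eq]
  calc S.und p = S.und p ^ 1 := (pow_one _).symm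
    _ ≤ S.und p ^ S.f p := Nat.pow_le_pow_right (S.prime p).pos (S.f_pos p)

theorem q_two (p : P) : 2 ≤ S.q p := (S.prime p).two_le.trans (p0_und_le S p)

theorem p0_fib_fin (l : ℕ) : {p | S.und p = l}.Finite :=
  Set.encard_lt_top_iff.1 (lt_of_le_of_lt (S.fib l) (ENat.natCast_lt_top _))

theorem p0_fin (N : ℕ) : {p | S.q p < N}.Finite := by
  refine Set.Finite.subset (Set.Finite.biUnion (Set.finite_Iio N) (fun l _ => p0_fib_fin S l)) ?_
  intro p hp
  simp only [Set.mem_iUnion]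
  exact ⟨S.und p, lt_of_le_of_lt (p0_und_le S p) hp, rfl⟩

theorem mem_PB {N : ℕ} {p : P} : p ∈ S.PB N ↔ S.q p < N := by
  unfold PSys.PB
  rw [dif_pos (p0_fin S N)]
  simp

theorem nrm_zero : S.nrm 0 = 1 := by
  simp [PSys.nrm]

theorem nrm_add (m n : P →₀ ℕ) : S.nrm (m + n) = S.nrm m * S.nrm n := by
  unfold PSys.nrm
  exact Finsupp.prod_add_index' (fun _ => pow_zero _) (fun _ _ _ => pow_add _ _ _)

theorem nrm_pos (m : P →₀ ℕ) : 0 < S.nrm m := by
  unfold PSys.nrm Finsupp.prod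
  exact Finset.prod_pos fun p _ => pow_pos (by have := q_two S p; omega) _

theorem nrm_single (p : P) (i : ℕ) : S.nrm (Finsupp.single p i) = S.q p ^ i := by
  unfold PSys.nrm
  exact Finsupp.prod_single_index (pow_zero _)

theorem nrm_mono {m n : P →₀ ℕ} (h : m ≤ n) : S.nrm m ≤ S.nrm n := by
  obtain ⟨c, rfl⟩ := exists_add_of_le h
  rw [nrm_add]
  exact Nat.le_mul_of_pos_right _ (nrm_pos S c)

theorem p0_pow_le (m : P →₀ ℕ) (p : P) : S.q p ^ m p ≤ S.nrm m := by
  rw [← nrm_single]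
  exact nrm_mono S (Finsupp.single_le_iff.2 le_rfl)

theorem nrm_eq_one {m : P →₀ ℕ} : S.nrm m = 1 ↔ m = 0 := by
  constructor
  · intro h
    ext p
    by_contra hp
    have h0 : m p ≠ 0 := hp
    have h1 := p0_pow_le S m p
    have h2 : S.q p ^ 1 ≤ S.q p ^ m p :=
      Nat.pow_le_pow_right (by have := q_two S p; omega) (by omega)
    have h3 := q_two S p
    rw [pow_one] at h2
    omega
  · rintro rfl
    exact nrm_zero S

/-- an ideal of norm `< N` is composed of primes of norm `< N` -/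
theorem supp_of_nrm {N : ℕ} {m : P →₀ ℕ} (h : S.nrm m < N) : m.support ⊆ S.PB N := by
  intro p hp
  rw [mem_PB]
  have h0 : m p ≠ 0 := Finsupp.mem_support_iff.1 hp
  have h1 := p0_pow_le S m p
  have h2 : S.q p ^ 1 ≤ S.q p ^ m p :=
    Nat.pow_le_pow_right (by have := q_two S p; omega) (by omega)
  rw [pow_one] at h2
  omega

theorem p0_BL_fin (N : ℕ) : {m | S.nrm m < N}.Finite := by
  refine Set.Finite.subset (Set.finite_Iic (∑ p ∈ S.PB N, Finsupp.single p N)) ?_
  intro m hm p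
  have hm' : S.nrm m < N := hm
  rw [Finsupp.finsetSum_apply]
  by_cases hp : p ∈ m.support
  · have hp' := supp_of_nrm S hm' hp
    have h1 : N ≤ ∑ x ∈ S.PB N, (Finsupp.single x N) p := by
      calc N = (Finsupp.single p N) p := by simp
        _ ≤ ∑ x ∈ S.PB N, (Finsupp.single x N) p :=
          Finset.single_le_sum (f := fun x => (Finsupp.single x N) p)
            (fun _ _ => Nat.zero_le _) hp'
    have h2 : m p < 2 ^ m p := Nat.lt_two_pow_self
    have h3 : 2 ^ m p ≤ S.q p ^ m p := Nat.pow_le_pow_left (q_two S p) _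
    have h4 := p0_pow_le S m p
    omega
  · rw [Finsupp.notMem_support_iff.1 hp]
    exact Nat.zero_le _

theorem mem_BL {N : ℕ} {m : P →₀ ℕ} : m ∈ S.BL N ↔ S.nrm m < N := by
  unfold PSys.BL
  rw [dif_pos (p0_BL_fin S N)]
  simp

theorem mem_dv {m n : P →₀ ℕ} : n ∈ dv m ↔ n ≤ m := by
  unfold dv
  rw [Finset.mem_image]
  constructor
  · rintro ⟨⟨a, b⟩, hab, rfl⟩
    rw [Finset.HasAntidiagonal.mem_antidiagonal] at hab
    rw [← hab]
    exact le_self_add
  · intro h
    obtain ⟨c, rfl⟩ := exists_add_of_le h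
    exact ⟨(n, c), by rw [Finset.HasAntidiagonal.mem_antidiagonal], rfl⟩

include S in
theorem P_countable : Countable P := by
  rw [← Set.countable_univ_iff]
  have h : (Set.univ : Set P) = ⋃ l : ℕ, {p | S.und p = l} := by
    ext p
    simp
  rw [h]
  exact Set.countable_iUnion fun l => (p0_fib_fin S l).countable

theorem p0_card (F : Finset P) (l : ℕ) : (F.filter (fun p => S.und p = l)).card ≤ S.d := by
  have h : ((F.filter (fun p => S.und p = l) : Finset P) : Set P).encard ≤ S.d := by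
    refine le_trans (Set.encard_le_encard ?_) (S.fib l)
    intro p hp
    simpa using (Finset.mem_filter.1 (Finset.mem_coe.1 hp)).2
  rw [Set.encard_coe_eq_coe_finsetCard] at h
  exact_mod_cast h

theorem sum_q {s : ℝ} (hs : 1 < s) : Summable (fun p : P => (S.q p : ℝ) ^ (-s)) := by
  have hsum : Summable (fun n : ℕ => (n : ℝ) ^ (-s)) := Real.summable_nat_rpow.2 (by linarith)
  refine summable_of_sum_le (c := (S.d : ℝ) * ∑' n : ℕ, (n : ℝ) ^ (-s))
    (fun p => by positivity) ?_
  intro F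
  have h1 : ∀ p ∈ F, (S.q p : ℝ) ^ (-s) ≤ (S.und p : ℝ) ^ (-s) := by
    intro p _
    refine Real.rpow_le_rpow_of_nonpos ?_ ?_ (by linarith)
    · exact_mod_cast (S.prime p).pos
    · exact_mod_cast p0_und_le S p
  refine (Finset.sum_le_sum h1).trans ?_
  have h2 : ∑ p ∈ F, (S.und p : ℝ) ^ (-s) =
      ∑ l ∈ F.image S.und, ∑ p ∈ F.filter (fun p => S.und p = l), (S.und p : ℝ) ^ (-s) :=
    (Finset.sum_fiberwise_of_maps_to (fun p hp => Finset.mem_image_of_mem _ hp) _).symm
  rw [h2]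
  have h3 : ∀ l ∈ F.image S.und,
      ∑ p ∈ F.filter (fun p => S.und p = l), (S.und p : ℝ) ^ (-s) ≤ (S.d : ℝ) * (l : ℝ) ^ (-s) := by
    intro l _
    have h4 : ∑ p ∈ F.filter (fun p => S.und p = l), (S.und p : ℝ) ^ (-s) =
        ∑ p ∈ F.filter (fun p => S.und p = l), (l : ℝ) ^ (-s) := by
      refine Finset.sum_congr rfl fun p hp => ?_
      rw [(Finset.mem_filter.1 hp).2]
    rw [h4, Finset.sum_const, nsmul_eq_mul]
    refine mul_le_mul_of_nonneg_right ?_ (by positivity)
    exact_mod_cast p0_card S F l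
  refine (Finset.sum_le_sum h3).trans ?_
  rw [← Finset.mul_sum]
  refine mul_le_mul_of_nonneg_left ?_ (by positivity)
  exact hsum.sum_le_tsum _ (fun _ _ => by positivity)

end Pool.Agent.HS
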