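import Pool.Agent.Lib_helper45.HS.Defs
import Pool.Agent.Lib_helper45.HSF.P0

/-! # Block P1 (EUL): Euler products -/

namespace Pool.Agent.HS

open Complex MeasureTheory Filter Topology
open scoped ENNReal Classical
open Pool.Agent.WA (gd gk)
open Pool.Agent.SEL (NL Adm)
open Pool.Agent.SQS (hat)
open Pool.Agent.WS (st EE RT cc hl Step)
open Finset.HasAntidiagonal (antidiagonal)

variable {P : Type} (S : PSys P)

/-! ### products over finsupps -/

theorem p1_prod_single_add {R : Type} [CommRing R] {f : P → ℕ → R} (hf : ∀ p, f p 0 = 1) {p : P}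
    {x : P →₀ ℕ} (hx : x p = 0) (i : ℕ) :
    (Finsupp.single p i + x).prod f = f p i * x.prod f := by
  rw [Finsupp.prod_add_index_of_disjoint, Finsupp.prod_single_index (hf p)]
  rw [Finset.disjoint_left]
  intro a ha hax
  have h1 := Finsupp.support_single_subset ha
  rw [Finset.mem_singleton] at h1
  rw [h1, Finsupp.mem_support_iff] at hax
  exact hax hx

theorem p1_erase (p : P) (x : P →₀ ℕ) : Finsupp.single p (x p) + x.erase p = x :=
  Finsupp.single_add_erase p x

theorem ad_prod {R : Type} [CommRing R] (m : P →₀ ℕ) (f g : P → ℕ → R) (hf : ∀ p, f p 0 = 1)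
    (hg : ∀ p, g p 0 = 1) :
    ∑ v ∈ antidiagonal m, v.1.prod f * v.2.prod g =
      m.prod fun p i => ∑ u ∈ antidiagonal i, f p u.1 * g p u.2 := by
  induction m using Finsupp.induction with
  | zero => simp
  | single_add p i m hp hi ih =>
    have hmp : m p = 0 := by simpa using hp
    have hfg : ∀ p, (fun (p : P) (i : ℕ) => ∑ u ∈ antidiagonal i, f p u.1 * g p u.2) p 0 = 1 := by
      intro p
      simp [hf, hg]
    rw [p1_prod_single_add hfg hmp, ← ih, Finset.sum_mul_sum, ← Finset.sum_product']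
    symm
    refine Finset.sum_bij' (fun w _ => (Finsupp.single p w.1.1 + w.2.1,
      Finsupp.single p w.1.2 + w.2.2)) (fun v _ => ((v.1 p, v.2 p), (v.1.erase p, v.2.erase p)))
      ?_ ?_ ?_ ?_ ?_
    · intro w hw
      rw [Finset.mem_product, Finset.HasAntidiagonal.mem_antidiagonal, Finset.HasAntidiagonal.mem_antidiagonal] at hw
      rw [Finset.HasAntidiagonal.mem_antidiagonal, ← hw.1, ← hw.2, Finsupp.single_add]
      exact add_add_add_comm _ _ _ _
    · intro v hv
      rw [Finset.HasAntidiagonal.mem_antidiagonal] at hv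
      rw [Finset.mem_product, Finset.HasAntidiagonal.mem_antidiagonal, Finset.HasAntidiagonal.mem_antidiagonal]
      refine ⟨?_, ?_⟩
      · show v.1 p + v.2 p = i
        have := congrArg (fun x : P →₀ ℕ => x p) hv
        simpa [hmp] using this
      · show v.1.erase p + v.2.erase p = m
        ext a
        have := congrArg (fun x : P →₀ ℕ => x a) hv
        by_cases ha : a = p
        · subst ha
          simp [hmp]
        · simp only [Finsupp.add_apply] at this ⊢
          rw [Finsupp.erase_ne ha, Finsupp.erase_ne ha, this, Finsupp.single_apply,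
            if_neg (fun h => ha h.symm), zero_add]
    · intro w hw
      rw [Finset.mem_product, Finset.HasAntidiagonal.mem_antidiagonal, Finset.HasAntidiagonal.mem_antidiagonal] at hw
      have h0 := congrArg (fun x : P →₀ ℕ => x p) hw.2
      simp only [Finsupp.add_apply, hmp] at h0
      have h1 : w.2.1 p = 0 := by omega
      have h2 : w.2.2 p = 0 := by omega
      have e : ∀ (x : P →₀ ℕ) (k : ℕ), x p = 0 → (Finsupp.single p k + x).erase p = x := by
        intro x k hx
        ext a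
        by_cases ha : a = p
        · subst ha
          simp [hx]
        · rw [Finsupp.erase_ne ha, Finsupp.add_apply, Finsupp.single_apply,
            if_neg (fun h => ha h.symm), zero_add]
      obtain ⟨⟨w1, w2⟩, ⟨w3, w4⟩⟩ := w
      simp only at h1 h2
      simp only [Finsupp.add_apply, Finsupp.single_eq_same, h1, h2, add_zero, e w3 w1 h1,
        e w4 w2 h2]
    · intro v hv
      obtain ⟨v1, v2⟩ := v
      simp only [p1_erase]
    · intro w hw
      rw [Finset.mem_product, Finset.HasAntidiagonal.mem_antidiagonal, Finset.HasAntidiagonal.mem_antidiagonal] at hw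
      have h0 := congrArg (fun x : P →₀ ℕ => x p) hw.2
      simp only [Finsupp.add_apply, hmp] at h0
      have h1 : w.2.1 p = 0 := by omega
      have h2 : w.2.2 p = 0 := by omega
      rw [p1_prod_single_add hf h1, p1_prod_single_add hg h2]
      ring

/-! ### finite Euler products -/

/-- adjoining one prime -/
noncomputable def p1_equiv {p : P} {F : Finset P} (hp : p ∉ F) :
    ℕ × {m : P →₀ ℕ // m.support ⊆ F} ≃ {m : P →₀ ℕ // m.support ⊆ insert p F} where
  toFun w := ⟨Finsupp.single p w.1 + w.2.1, by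
    intro a ha
    rw [Finsupp.mem_support_iff, Finsupp.add_apply] at ha
    by_cases h : a = p
    · rw [h]
      exact Finset.mem_insert_self p F
    · rw [Finsupp.single_apply, if_neg (fun h' => h h'.symm), zero_add] at ha
      exact Finset.mem_insert_of_mem (w.2.2 (Finsupp.mem_support_iff.2 ha))⟩
  invFun m := (m.1 p, ⟨m.1.erase p, by
    intro a ha
    rw [Finsupp.support_erase, Finset.mem_erase] at ha
    rcases Finset.mem_insert.1 (m.2 ha.2) with h | h
    · exact absurd h ha.1
    · exact h⟩)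
  left_inv := by
    rintro ⟨i, ⟨x, hx⟩⟩
    have hxp : x p = 0 := by
      by_contra h
      exact hp (hx (Finsupp.mem_support_iff.2 h))
    refine Prod.ext ?_ (Subtype.ext ?_)
    · simp [hxp]
    · show (Finsupp.single p i + x).erase p = x
      ext a
      by_cases ha : a = p
      · subst ha
        simp [hxp]
      · rw [Finsupp.erase_ne ha, Finsupp.add_apply, Finsupp.single_apply,
          if_neg (fun h => ha h.symm), zero_add]
  right_inv := by
    rintro ⟨m, hm⟩
    exact Subtype.ext (p1_erase p m)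

theorem euler_fin (F : Finset P) (f : P → ℕ → ℂ) (h0 : ∀ p, f p 0 = 1)
    (hf : ∀ p ∈ F, Summable (fun i : ℕ => ‖f p i‖)) :
    Summable (fun m : {m : P →₀ ℕ // m.support ⊆ F} => ‖m.1.prod f‖) ∧
    ∑' m : {m : P →₀ ℕ // m.support ⊆ F}, m.1.prod f = ∏ p ∈ F, ∑' i : ℕ, f p i := by
  induction F using Finset.induction_on with
  | empty =>
    have hz : (0 : P →₀ ℕ).support ⊆ (∅ : Finset P) := by simp
    have hu : ∀ m : {m : P →₀ ℕ // m.support ⊆ (∅ : Finset P)}, m = ⟨0, hz⟩ := by
      rintro ⟨m, hm⟩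
      exact Subtype.ext (Finsupp.support_eq_empty.1 (Finset.subset_empty.1 hm))
    have : Unique {m : P →₀ ℕ // m.support ⊆ (∅ : Finset P)} := ⟨⟨⟨0, hz⟩⟩, hu⟩
    refine ⟨(hasSum_unique _).summable, ?_⟩
    rw [Finset.prod_empty, tsum_eq_single ⟨0, hz⟩ (fun m hm => absurd (hu m) hm)]
    exact Finsupp.prod_zero_index
  | insert p F hp ih =>
    obtain ⟨ih1, ih2⟩ := ih fun a ha => hf a (Finset.mem_insert_of_mem ha)
    have hfp := hf p (Finset.mem_insert_self p F)
    have hprod : ∀ w : ℕ × {m : P →₀ ℕ // m.support ⊆ F}, ((p1_equiv hp w).1).prod f =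
        f p w.1 * w.2.1.prod f := by
      rintro ⟨i, ⟨x, hx⟩⟩
      have hxp : x p = 0 := by
        by_contra h
        exact hp (hx (Finsupp.mem_support_iff.2 h))
      exact p1_prod_single_add h0 hxp i
    refine ⟨?_, ?_⟩
    · rw [← (p1_equiv hp).summable_iff]
      have h1 := hfp.mul_of_nonneg ih1 (fun _ => norm_nonneg _) (fun _ => norm_nonneg _)
      refine h1.congr fun w => ?_
      rw [Function.comp, hprod, norm_mul]
    · rw [Finset.prod_insert hp, ← ih2, tsum_mul_tsum_of_summable_norm hfp ih1,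
        ← (p1_equiv hp).tsum_eq]
      exact tsum_congr fun w => hprod w

/-! ### infinite Euler products -/

theorem p1_norm_prod (f : P → ℕ → ℂ) (m : P →₀ ℕ) :
    ((‖m.prod f‖ : ℝ) : ℂ) = m.prod fun p i => ((‖f p i‖ : ℝ) : ℂ) := by
  unfold Finsupp.prod
  rw [norm_prod]
  push_cast
  rfl

theorem euler_inf (f : P → ℕ → ℂ) (h0 : ∀ p, f p 0 = 1)
    (hf : Summable (fun x : P × ℕ => ‖f x.1 (x.2 + 1)‖)) :
    Summable (fun m : P →₀ ℕ => ‖m.prod f‖) ∧
    HasProd (fun p : P => ∑' i : ℕ, f p i) (∑' m : P →₀ ℕ, m.prod f) := by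
  have hfp1 : ∀ p, Summable (fun i : ℕ => ‖f p (i + 1)‖) := fun p => hf.prod_factor p
  have hfp : ∀ p, Summable (fun i : ℕ => ‖f p i‖) := fun p => (summable_nat_add_iff 1).1 (hfp1 p)
  have htot : Summable (fun p : P => ∑' i : ℕ, ‖f p (i + 1)‖) := hf.prod
  set T := ∑' p : P, ∑' i : ℕ, ‖f p (i + 1)‖ with hT
  have hb : ∀ F : Finset P, ∑' m : {m : P →₀ ℕ // m.support ⊆ F}, ‖m.1.prod f‖ ≤ Real.exp T := by
    intro F
    have h1 := (euler_fin F (fun p i => ((‖f p i‖ : ℝ) : ℂ)) (by intro p; simp [h0])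
      (by
        intro p _
        simpa using hfp p)).2
    have h2 : ∑' m : {m : P →₀ ℕ // m.support ⊆ F}, ‖m.1.prod f‖ =
        ∏ p ∈ F, ∑' i : ℕ, ‖f p i‖ := by
      have h3 : ((∑' m : {m : P →₀ ℕ // m.support ⊆ F}, ‖m.1.prod f‖ : ℝ) : ℂ) =
          ((∏ p ∈ F, ∑' i : ℕ, ‖f p i‖ : ℝ) : ℂ) := by
        rw [Complex.ofReal_tsum, Complex.ofReal_prod]
        simp only [Complex.ofReal_tsum, p1_norm_prod]
        exact h1
      exact_mod_cast h3
    rw [h2]
    have h4 : ∀ p ∈ F, ∑' i : ℕ, ‖f p i‖ ≤ Real.exp (∑' i : ℕ, ‖f p (i + 1)‖) := by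
      intro p _
      rw [(hfp p).tsum_eq_zero_add, h0, norm_one]
      have := Real.add_one_le_exp (∑' i : ℕ, ‖f p (i + 1)‖)
      linarith
    calc ∏ p ∈ F, ∑' i : ℕ, ‖f p i‖ ≤ ∏ p ∈ F, Real.exp (∑' i : ℕ, ‖f p (i + 1)‖) :=
          Finset.prod_le_prod (fun p _ => tsum_nonneg fun i => norm_nonneg _) h4
      _ = Real.exp (∑ p ∈ F, ∑' i : ℕ, ‖f p (i + 1)‖) := (Real.exp_sum _ _).symm
      _ ≤ Real.exp T := by
        apply Real.exp_le_exp.2
        exact htot.sum_le_tsum F fun p _ => tsum_nonneg fun i => norm_nonneg _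
  have hsum : Summable (fun m : P →₀ ℕ => ‖m.prod f‖) := by
    refine summable_of_sum_le (c := Real.exp T) (fun m => norm_nonneg _) fun s => ?_
    set F : Finset P := s.biUnion fun m => m.support with hF
    have hs : ∀ m ∈ s, m.support ⊆ F := fun m hm => Finset.subset_biUnion_of_mem _ hm
    have h1 := (euler_fin F f h0 fun p _ => hfp p).1
    set s' : Finset {m : P →₀ ℕ // m.support ⊆ F} :=
      s.attach.image fun m => ⟨m.1, hs m.1 m.2⟩ with hs'
    have h2 : ∑ m ∈ s, ‖m.prod f‖ = ∑ m ∈ s', ‖m.1.prod f‖ := by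
      rw [hs', Finset.sum_image]
      · rw [Finset.sum_attach s fun m => ‖m.prod f‖]
      · intro a _ b _ hab
        have := congrArg Subtype.val hab
        exact Subtype.ext this
    rw [h2]
    exact (h1.sum_le_tsum s' fun m _ => norm_nonneg _).trans (hb F)
  refine ⟨hsum, ?_⟩
  have hlim : Tendsto (fun F : Finset P => ∑' m : P →₀ ℕ,
      (if m.support ⊆ F then m.prod f else 0)) atTop (𝓝 (∑' m : P →₀ ℕ, m.prod f)) := by
    refine tendsto_tsum_of_dominated_convergence hsum (fun m => ?_) ?_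
    · refine tendsto_const_nhds.congr' ?_
      filter_upwards [eventually_ge_atTop m.support] with F hF
      rw [if_pos hF]
    · refine Eventually.of_forall fun F m => ?_
      split_ifs
      · exact le_rfl
      · rw [norm_zero]
        exact norm_nonneg _
  have heq : ∀ F : Finset P, ∏ p ∈ F, ∑' i : ℕ, f p i =
      ∑' m : P →₀ ℕ, (if m.support ⊆ F then m.prod f else 0) := by
    intro F
    rw [← (euler_fin F f h0 fun p _ => hfp p).2]
    have h1 := tsum_subtype {m : P →₀ ℕ | m.support ⊆ F} (fun m : P →₀ ℕ => m.prod f)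
    rw [show (∑' m : {m : P →₀ ℕ // m.support ⊆ F}, m.1.prod f) =
      ∑' m : ({m : P →₀ ℕ | m.support ⊆ F} : Set (P →₀ ℕ)), (m : P →₀ ℕ).prod f from rfl, h1]
    refine tsum_congr fun m => ?_
    rw [Set.indicator_apply]
    rfl
  have h3 : Tendsto (fun F : Finset P => ∏ p ∈ F, ∑' i : ℕ, f p i) atTop
      (𝓝 (∑' m : P →₀ ℕ, m.prod f)) := by
    simp only [heq]
    exact hlim
  rw [HasProd, SummationFilter.unconditional_filter]
  exact h3

include S in
theorem sum_nrm {s : ℝ} (hs : 1 < s) :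
    Summable (fun m : P →₀ ℕ => (S.nrm m : ℝ) ^ (-s)) := by
  set f : P → ℕ → ℂ := fun p i => ((((S.q p : ℝ) ^ (-s)) ^ i : ℝ) : ℂ) with hf
  have hq0 : ∀ p, 0 ≤ (S.q p : ℝ) ^ (-s) := fun p => Real.rpow_nonneg (Nat.cast_nonneg _) _
  have hq1 : ∀ p, (S.q p : ℝ) ^ (-s) ≤ 1 / 2 := by
    intro p
    have h2 : (2 : ℝ) ≤ S.q p := by exact_mod_cast q_two S p
    calc (S.q p : ℝ) ^ (-s) ≤ (S.q p : ℝ) ^ (-1 : ℝ) :=
          Real.rpow_le_rpow_of_exponent_le (by linarith) (by linarith)
      _ = 1 / (S.q p : ℝ) := by rw [Real.rpow_neg_one, one_div]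
      _ ≤ 1 / 2 := one_div_le_one_div_of_le (by norm_num) h2
  have h1 : Summable (fun x : P × ℕ => ‖f x.1 (x.2 + 1)‖) := by
    have h2 := (sum_q S hs).mul_of_nonneg
      (summable_geometric_of_lt_one (by norm_num : (0 : ℝ) ≤ 1 / 2) (by norm_num)) hq0
      (fun i => by positivity)
    refine Summable.of_nonneg_of_le (fun _ => norm_nonneg _) (fun x => ?_) h2
    rw [hf]
    simp only
    rw [Complex.norm_real, Real.norm_eq_abs, abs_of_nonneg (pow_nonneg (hq0 _) _), pow_succ']
    exact mul_le_mul_of_nonneg_left (pow_le_pow_left₀ (hq0 _) (hq1 _) _) (hq0 _)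
  refine (euler_inf f (fun p => by simp [hf]) h1).1.congr fun m => ?_
  have h3 : m.prod f = (((S.nrm m : ℝ) ^ (-s) : ℝ) : ℂ) := by
    unfold PSys.nrm Finsupp.prod
    rw [hf]
    simp only
    rw [← Complex.ofReal_prod]
    congr 1
    push_cast
    rw [← Real.finsetProd_rpow _ _ (fun p _ => by positivity)]
    apply Finset.prod_congr rfl
    intro p _
    rw [← Real.rpow_natCast, ← Real.rpow_natCast, ← Real.rpow_mul (Nat.cast_nonneg _),
      ← Real.rpow_mul (Nat.cast_nonneg _), mul_comm]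
  rw [h3, Complex.norm_real, Real.norm_eq_abs,
    abs_of_nonneg (Real.rpow_nonneg (Nat.cast_nonneg _) _)]

end Pool.Agent.HS
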