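import Pool.Agent.Lib_helper45.HS.Defs
import Pool.Agent.Lib_helper68.SEL.Z1
import Pool.Agent.Lib_helper45.HSF.P0
import Pool.Agent.Lib_helper45.HSF.P1

/-! HS block H1C (HSC): the trivial bound and the Dirichlet series of `hs`.
Cites P0 (q_two, nrm_pos, sum_q), P1 (euler_inf). -/

namespace Pool.Agent.HS

open Complex MeasureTheory Filter Topology
open scoped ENNReal Classical
open Pool.Agent.WA (gd gk)
open Pool.Agent.SEL (NL Adm)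
open Pool.Agent.SQS (hat)
open Pool.Agent.WS (st EE RT cc hl Step)
open Finset.HasAntidiagonal (antidiagonal)

variable {P : Type} (S : PSys P)

/-! ### The root -/

theorem h1c_rt {x c : ℝ} (hc : 1 ≤ c) (hx : |x| ≤ c + 1 / c) : ‖SEL.rt x‖ ≤ c := by
  obtain ⟨h1, h2, -, h4⟩ := SEL.sel_Z1_rt_cases x
  have hne := SEL.sel_Z1_rt_ne x
  rcases h4 with h | h
  · -- modulus one
    have h5 : ‖SEL.rt x‖ = ‖SEL.rt x‖⁻¹ := by
      have := congrArg norm h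
      rwa [Complex.norm_conj, norm_inv] at this
    have h6 : ‖SEL.rt x‖ * ‖SEL.rt x‖ = 1 := by
      calc ‖SEL.rt x‖ * ‖SEL.rt x‖ = ‖SEL.rt x‖⁻¹ * ‖SEL.rt x‖ := by rw [← h5]
        _ = 1 := inv_mul_cancel₀ (norm_ne_zero_iff.mpr hne)
    nlinarith
  · -- real
    obtain ⟨r, hr⟩ := Complex.conj_eq_iff_real.mp h
    rw [hr] at h1 h2 hne ⊢
    have hr0 : r ≠ 0 := by exact_mod_cast hne
    have h5 : r + r⁻¹ = x := by exact_mod_cast h1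
    rw [Complex.norm_real, Real.norm_eq_abs] at h2 ⊢
    have hrp : 0 < |r| := abs_pos.mpr hr0
    have h6 : |x| = |r| + 1 / |r| := by
      rw [← h5]
      rcases lt_or_gt_of_ne hr0 with h | h
      · rw [abs_of_neg h, abs_of_neg (add_neg h (inv_lt_zero.mpr h))]
        field_simp
        ring
      · rw [abs_of_pos h, abs_of_pos (by positivity)]
        field_simp
    rw [h6] at hx
    by_contra hcon
    push Not at hcon
    have h7 : |r| + 1 / |r| - (c + 1 / c) = (|r| - c) * (1 - 1 / (|r| * c)) := by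
      field_simp
      ring
    have h8 : 1 / (|r| * c) < 1 := by
      rw [div_lt_one (by positivity)]
      nlinarith
    have h9 : 0 < (|r| - c) * (1 - 1 / (|r| * c)) := mul_pos (by linarith) (by linarith)
    linarith

theorem h1c_sqrt (p : P) : (1 : ℝ) ≤ √(S.q p : ℝ) := by
  rw [Real.one_le_sqrt]
  have := q_two S p
  exact_mod_cast (by omega : 1 ≤ S.q p)

theorem h1c_loc {θ : P → ℝ} (hθ : ∀ p, |θ p| ≤ √(S.q p : ℝ) + 1 / √(S.q p : ℝ)) (p : P) (i : ℕ)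
    {y : ℝ} (hy : |y| ≤ (i + 1) * ‖SEL.rt (θ p)‖ ^ i) : |y| ≤ (i + 1) * (√(S.q p : ℝ)) ^ i :=
  hy.trans (mul_le_mul_of_nonneg_left (pow_le_pow_left₀ (norm_nonneg _)
    (h1c_rt (h1c_sqrt S p) (hθ p)) i) (by positivity))

/-! ### The trivial bound -/

theorem h1c_psi (m : P →₀ ℕ) (s : ℝ) :
    (S.nrm m : ℝ) ^ s = m.prod fun p i => ((S.q p : ℝ) ^ s) ^ i := by
  rw [PSys.nrm, Finsupp.prod, Finsupp.prod, Nat.cast_prod,
    ← Real.finsetProd_rpow _ _ fun i _ => by positivity]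
  refine Finset.prod_congr rfl fun p _ => ?_
  rw [Nat.cast_pow, ← Real.rpow_natCast, ← Real.rpow_mul (by positivity), mul_comm,
    Real.rpow_mul (by positivity), Real.rpow_natCast]

theorem h1c_loc2 {θ : P → ℝ} (hθ : ∀ p, |θ p| ≤ √(S.q p : ℝ) + 1 / √(S.q p : ℝ)) (p : P) (i : ℕ)
    {y : ℝ} (hy : |y| ≤ (i + 1) * ‖SEL.rt (θ p)‖ ^ i) :
    |y| ≤ ((S.q p : ℝ) ^ (3 / 2 : ℝ)) ^ i := by
  have hpR : (2 : ℝ) ≤ S.q p := by exact_mod_cast q_two S p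
  have h2 : (S.q p : ℝ) ^ (3 / 2 : ℝ) = S.q p * √(S.q p : ℝ) := by
    rw [Real.sqrt_eq_rpow, show (3 / 2 : ℝ) = 1 + 1 / 2 by norm_num,
      Real.rpow_add (by linarith), Real.rpow_one]
  have h3 : ((i : ℝ) + 1) ≤ (S.q p : ℝ) ^ i := by
    have h4 : (1 : ℝ) + i * 1 ≤ (1 + 1) ^ i := one_add_mul_le_pow (by norm_num) i
    calc (i : ℝ) + 1 = 1 + i * 1 := by ring
      _ ≤ (1 + 1) ^ i := h4
      _ ≤ (S.q p : ℝ) ^ i := pow_le_pow_left₀ (by norm_num) (by linarith) i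
  calc |y| ≤ (i + 1) * (√(S.q p : ℝ)) ^ i := h1c_loc S hθ p i hy
    _ ≤ (S.q p : ℝ) ^ i * (√(S.q p : ℝ)) ^ i := mul_le_mul_of_nonneg_right h3 (by positivity)
    _ = ((S.q p : ℝ) ^ (3 / 2 : ℝ)) ^ i := by rw [h2, mul_pow]

/-- `|λ(m)| ≤ N(m)^{3/2}` etc. under the trivial bound for the `θ_p` -/
theorem triv {θ : P → ℝ} (hθ : ∀ p, |θ p| ≤ √(S.q p : ℝ) + 1 / √(S.q p : ℝ)) (m : P →₀ ℕ) :
    |hs θ m| ≤ (S.nrm m : ℝ) ^ (3 / 2 : ℝ) ∧ |al θ m| ≤ (S.nrm m : ℝ) ^ (3 / 2 : ℝ) := by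
  constructor
  · rw [h1c_psi S m, hs, Finsupp.prod, Finsupp.prod, Finset.abs_prod]
    exact Finset.prod_le_prod (fun p _ => abs_nonneg _) fun p _ =>
      h1c_loc2 S hθ p _ (SEL.Uc_le_pr _ _)
  · rw [h1c_psi S m, al, Finsupp.prod, Finsupp.prod, Finset.abs_prod]
    exact Finset.prod_le_prod (fun p _ => abs_nonneg _) fun p _ =>
      h1c_loc2 S hθ p _ (SEL.aloc_le_pr _ _)

/-! ### The local factors -/

theorem h1c_gen {θ : ℝ} {x : ℂ} (h : Summable (fun i : ℕ => (SEL.Uc θ i : ℂ) * x ^ i)) :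
    (∑' i : ℕ, (SEL.Uc θ i : ℂ) * x ^ i) * EE θ x = 1 := by
  set T := ∑' i : ℕ, (SEL.Uc θ i : ℂ) * x ^ i with hT
  have h1 : Summable (fun i : ℕ => (SEL.Uc θ (i + 1) : ℂ) * x ^ (i + 1)) :=
    (summable_nat_add_iff (f := fun i : ℕ => (SEL.Uc θ i : ℂ) * x ^ i) 1).2 h
  have h2 : Summable (fun i : ℕ => (SEL.Uc θ (i + 2) : ℂ) * x ^ (i + 2)) :=
    (summable_nat_add_iff (f := fun i : ℕ => (SEL.Uc θ i : ℂ) * x ^ i) 2).2 h
  have e1 : T = 1 + ∑' i : ℕ, (SEL.Uc θ (i + 1) : ℂ) * x ^ (i + 1) := by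
    rw [hT, h.tsum_eq_zero_add]
    simp [SEL.Uc]
  have e2 : ∑' i : ℕ, (SEL.Uc θ (i + 1) : ℂ) * x ^ (i + 1) =
      θ * x + ∑' i : ℕ, (SEL.Uc θ (i + 2) : ℂ) * x ^ (i + 2) := by
    rw [h1.tsum_eq_zero_add]
    simp [SEL.Uc]
  have e3 : ∑' i : ℕ, (SEL.Uc θ (i + 2) : ℂ) * x ^ (i + 2) =
      θ * x * ∑' i : ℕ, (SEL.Uc θ (i + 1) : ℂ) * x ^ (i + 1) - x ^ 2 * T := by
    rw [← tsum_mul_left, hT, ← tsum_mul_left, ← (h1.mul_left _).tsum_sub (h.mul_left _)]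
    refine tsum_congr fun i => ?_
    have : SEL.Uc θ (i + 2) = θ * SEL.Uc θ (i + 1) - SEL.Uc θ i := rfl
    rw [this]
    push_cast
    ring
  have e4 : ∑' i : ℕ, (SEL.Uc θ (i + 1) : ℂ) * x ^ (i + 1) = T - 1 := by rw [e1]; ring
  rw [e4] at e2 e3
  rw [e3] at e2
  unfold EE
  linear_combination e2

theorem h1c_norm (p : P) (s : ℂ) : ‖(S.q p : ℂ) ^ (-s)‖ = (S.q p : ℝ) ^ (-s.re) := by
  have h : 0 < S.q p := by have := q_two S p; omega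
  rw [Complex.norm_natCast_cpow_of_pos h, Complex.neg_re]

theorem h1c_cpow (m : P →₀ ℕ) (s : ℂ) :
    (S.nrm m : ℂ) ^ (-s) = m.prod fun p i => ((S.q p : ℂ) ^ (-s)) ^ i := by
  have key : ∀ F : Finset P, ((∏ p ∈ F, S.q p ^ m p : ℕ) : ℂ) ^ (-s) =
      ∏ p ∈ F, ((S.q p : ℂ) ^ (-s)) ^ m p := by
    intro F
    induction F using Finset.induction_on with
    | empty => simp
    | insert a F ha ih =>
      rw [Finset.prod_insert ha, Finset.prod_insert ha, Nat.cast_mul,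
        Complex.natCast_mul_natCast_cpow, ih]
      congr 1
      rw [Nat.cast_pow, ← Complex.cpow_nat_mul, ← Complex.natCast_cpow_natCast_mul]
  exact key m.support

/-- the terms of the Dirichlet series -/
noncomputable def h1c_f (θ : P → ℝ) (s : ℂ) (p : P) (i : ℕ) : ℂ :=
  (SEL.Uc (θ p) i : ℂ) * ((S.q p : ℂ) ^ (-s)) ^ i

theorem h1c_prod (θ : P → ℝ) (s : ℂ) (m : P →₀ ℕ) :
    m.prod (h1c_f S θ s) = (hs θ m : ℂ) * (S.nrm m : ℂ) ^ (-s) := by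
  rw [h1c_cpow, hs, Finsupp.prod, Finsupp.prod, Finsupp.prod, Complex.ofReal_prod,
    ← Finset.prod_mul_distrib]
  rfl

theorem h1c_fle {θ : P → ℝ} (hθ : ∀ p, |θ p| ≤ √(S.q p : ℝ) + 1 / √(S.q p : ℝ)) (s : ℂ) (p : P)
    (i : ℕ) : ‖h1c_f S θ s p i‖ ≤ (i + 1) * ((S.q p : ℝ) ^ (1 / 2 - s.re)) ^ i := by
  have hpR : (2 : ℝ) ≤ S.q p := by exact_mod_cast q_two S p
  have h1 : (S.q p : ℝ) ^ (1 / 2 - s.re) = √(S.q p : ℝ) * (S.q p : ℝ) ^ (-s.re) := by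
    rw [Real.sqrt_eq_rpow, ← Real.rpow_add (by linarith)]
    congr 1
  unfold h1c_f
  rw [norm_mul, norm_pow, h1c_norm, Complex.norm_real, Real.norm_eq_abs, h1, mul_pow, ← mul_assoc]
  exact mul_le_mul_of_nonneg_right (h1c_loc S hθ p i (SEL.Uc_le_pr _ _)) (by positivity)

theorem h1c_half (p : P) {s : ℂ} (hs' : 3 / 2 < s.re) : (S.q p : ℝ) ^ (1 / 2 - s.re) ≤ 1 / 2 := by
  have hpR : (2 : ℝ) ≤ S.q p := by exact_mod_cast q_two S p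
  calc (S.q p : ℝ) ^ (1 / 2 - s.re) ≤ (S.q p : ℝ) ^ (-1 : ℝ) :=
        Real.rpow_le_rpow_of_exponent_le (by linarith) (by linarith)
    _ = (S.q p : ℝ)⁻¹ := by rw [Real.rpow_neg_one]
    _ ≤ 1 / 2 := by
        rw [one_div]
        exact inv_anti₀ (by norm_num) hpR

theorem h1c_sumi : Summable (fun i : ℕ => ((i : ℝ) + 2) * (1 / 2) ^ i) := by
  have h1 : Summable (fun i : ℕ => (i : ℝ) * (1 / 2 : ℝ) ^ i) := by
    simpa using summable_pow_mul_geometric_of_norm_lt_one 1 (r := (1 / 2 : ℝ)) (by norm_num)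
  have h2 : Summable (fun i : ℕ => (2 : ℝ) * (1 / 2 : ℝ) ^ i) :=
    (summable_geometric_of_lt_one (by norm_num) (by norm_num)).mul_left 2
  refine (h1.add h2).congr fun i => ?_
  ring

theorem h1c_fsum {θ : P → ℝ} (hθ : ∀ p, |θ p| ≤ √(S.q p : ℝ) + 1 / √(S.q p : ℝ)) {s : ℂ}
    (hs' : 3 / 2 < s.re) : Summable (fun x : P × ℕ => ‖h1c_f S θ s x.1 (x.2 + 1)‖) := by
  have h1 : Summable (fun p : P => (S.q p : ℝ) ^ (1 / 2 - s.re)) := by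
    refine (sum_q S (s := s.re - 1 / 2) (by linarith)).congr fun p => ?_
    congr 1
    ring
  have h2 : Summable (fun x : P × ℕ => (S.q x.1 : ℝ) ^ (1 / 2 - s.re) *
      (((x.2 : ℝ) + 2) * (1 / 2) ^ x.2)) :=
    Summable.mul_of_nonneg h1 h1c_sumi (fun p => by positivity) (fun i => by positivity)
  refine Summable.of_nonneg_of_le (fun _ => norm_nonneg _) (fun x => ?_) h2
  refine (h1c_fle S hθ s x.1 (x.2 + 1)).trans ?_
  have h3 := h1c_half S x.1 hs'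
  have h4 : (0 : ℝ) ≤ (S.q x.1 : ℝ) ^ (1 / 2 - s.re) := by positivity
  have h5 : ((S.q x.1 : ℝ) ^ (1 / 2 - s.re)) ^ x.2 ≤ (1 / 2) ^ x.2 := pow_le_pow_left₀ h4 h3 _
  rw [pow_succ]
  push_cast
  calc ((x.2 : ℝ) + 1 + 1) * (((S.q x.1 : ℝ) ^ (1 / 2 - s.re)) ^ x.2 *
        (S.q x.1 : ℝ) ^ (1 / 2 - s.re))
      ≤ ((x.2 : ℝ) + 1 + 1) * ((1 / 2) ^ x.2 * (S.q x.1 : ℝ) ^ (1 / 2 - s.re)) := by gcongr
    _ = (S.q x.1 : ℝ) ^ (1 / 2 - s.re) * (((x.2 : ℝ) + 2) * (1 / 2) ^ x.2) := by ring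

theorem h1c_f_zero (θ : P → ℝ) (s : ℂ) (p : P) : h1c_f S θ s p 0 = 1 := by
  simp [h1c_f, SEL.Uc]

/-- the local factor is the inverse of `EE` -/
theorem h1c_local {θ : P → ℝ} (hθ : ∀ p, |θ p| ≤ √(S.q p : ℝ) + 1 / √(S.q p : ℝ)) {s : ℂ}
    (hs' : 3 / 2 < s.re) (p : P) :
    (∑' i : ℕ, h1c_f S θ s p i) * EE (θ p) ((S.q p : ℂ) ^ (-s)) = 1 := by
  have h1 : Summable (fun i : ℕ => ‖h1c_f S θ s p (i + 1)‖) :=
    (h1c_fsum S hθ hs').comp_injective (i := fun i : ℕ => (p, i)) fun a b h => by simpa using h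
  have h2 : Summable (fun i : ℕ => h1c_f S θ s p i) :=
    (summable_nat_add_iff (f := fun i : ℕ => h1c_f S θ s p i) 1).1 h1.of_norm
  exact h1c_gen h2

/-! ### The inverse -/

/-- the terms of the inverse -/
noncomputable def h1c_g (θ : P → ℝ) (s : ℂ) (p : P) (i : ℕ) : ℂ :=
  if i = 0 then 1 else if i = 1 then -(θ p * (S.q p : ℂ) ^ (-s))
    else if i = 2 then ((S.q p : ℂ) ^ (-s)) ^ 2 else 0

theorem h1c_gsum (θ : P → ℝ) (s : ℂ) (p : P) :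
    ∑' i : ℕ, h1c_g S θ s p i = EE (θ p) ((S.q p : ℂ) ^ (-s)) := by
  rw [tsum_eq_sum (s := Finset.range 3)]
  · simp only [Finset.sum_range_succ, Finset.sum_range_zero, h1c_g, EE]
    norm_num
    ring
  · intro i hi
    have : 3 ≤ i := by simpa using hi
    unfold h1c_g
    rw [if_neg (by omega), if_neg (by omega), if_neg (by omega)]

theorem h1c_xle {θ : P → ℝ} (hθ : ∀ p, |θ p| ≤ √(S.q p : ℝ) + 1 / √(S.q p : ℝ)) {s : ℂ}
    (hs' : 3 / 2 < s.re) (p : P) :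
    ‖(θ p : ℂ) * (S.q p : ℂ) ^ (-s)‖ ≤ 2 * (S.q p : ℝ) ^ (1 / 2 - s.re) ∧
    ‖((S.q p : ℂ) ^ (-s)) ^ 2‖ ≤ (S.q p : ℝ) ^ (1 / 2 - s.re) := by
  have hpR : (2 : ℝ) ≤ S.q p := by exact_mod_cast q_two S p
  have h1 : (S.q p : ℝ) ^ (1 / 2 - s.re) = √(S.q p : ℝ) * (S.q p : ℝ) ^ (-s.re) := by
    rw [Real.sqrt_eq_rpow, ← Real.rpow_add (by linarith)]
    congr 1
  have h2 := h1c_sqrt S p
  have h3 : 0 ≤ (S.q p : ℝ) ^ (-s.re) := by positivity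
  constructor
  · rw [norm_mul, h1c_norm, Complex.norm_real, Real.norm_eq_abs, h1, ← mul_assoc]
    refine mul_le_mul_of_nonneg_right ((hθ p).trans ?_) h3
    have : 1 / √(S.q p : ℝ) ≤ √(S.q p : ℝ) := by
      rw [div_le_iff₀ (by linarith)]
      nlinarith
    linarith
  · rw [norm_pow, h1c_norm, h1]
    have h4 : (S.q p : ℝ) ^ (-s.re) ≤ 1 := by
      rw [Real.rpow_neg (by linarith)]
      exact inv_le_one_of_one_le₀ (Real.one_le_rpow (by linarith) (by linarith))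
    nlinarith

theorem h1c_gabs {θ : P → ℝ} (hθ : ∀ p, |θ p| ≤ √(S.q p : ℝ) + 1 / √(S.q p : ℝ)) {s : ℂ}
    (hs' : 3 / 2 < s.re) : Summable (fun x : P × ℕ => ‖h1c_g S θ s x.1 (x.2 + 1)‖) := by
  have h1 : Summable (fun p : P => (S.q p : ℝ) ^ (1 / 2 - s.re)) := by
    refine (sum_q S (s := s.re - 1 / 2) (by linarith)).congr fun p => ?_
    congr 1
    ring
  have h2 : Summable (fun x : P × ℕ => (S.q x.1 : ℝ) ^ (1 / 2 - s.re) *
      (((x.2 : ℝ) + 2) * (1 / 2) ^ x.2)) :=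
    Summable.mul_of_nonneg h1 h1c_sumi (fun p => by positivity) (fun i => by positivity)
  refine Summable.of_nonneg_of_le (fun _ => norm_nonneg _) (fun x => ?_) h2
  obtain ⟨p, i⟩ := x
  obtain ⟨h3, h4⟩ := h1c_xle S hθ hs' p
  have h5 : (0 : ℝ) ≤ (S.q p : ℝ) ^ (1 / 2 - s.re) := by positivity
  rcases i with _ | _ | i
  · simp only [h1c_g]
    norm_num
    norm_num at h3
    linarith
  · simp only [h1c_g]
    norm_num
    norm_num at h4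
    nlinarith
  · have h6 : h1c_g S θ s p (i + 1 + 1 + 1) = 0 := by
      unfold h1c_g
      rw [if_neg (by omega), if_neg (by omega), if_neg (by omega)]
    change ‖h1c_g S θ s p (i + 1 + 1 + 1)‖ ≤ _
    rw [h6, norm_zero]
    positivity

/-- the inverse of the Dirichlet series -/
theorem h1c_inv {θ : P → ℝ} (hθ : ∀ p, |θ p| ≤ √(S.q p : ℝ) + 1 / √(S.q p : ℝ)) {s : ℂ}
    (hs' : 3 / 2 < s.re) :
    HasProd (fun p : P => EE (θ p) ((S.q p : ℂ) ^ (-s))) (∑' m : P →₀ ℕ, m.prod (h1c_g S θ s)) := by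
  have h := (euler_inf (h1c_g S θ s) (fun p => by simp [h1c_g]) (h1c_gabs S hθ hs')).2
  have e : (fun p : P => ∑' i : ℕ, h1c_g S θ s p i) =
      fun p : P => EE (θ p) ((S.q p : ℂ) ^ (-s)) := funext fun p => h1c_gsum S θ s p
  rwa [e] at h

/-- absolute convergence and Euler product -/
theorem h1c_main {θ : P → ℝ} (hθ : ∀ p, |θ p| ≤ √(S.q p : ℝ) + 1 / √(S.q p : ℝ)) {s : ℂ}
    (hs' : 3 / 2 < s.re) :
    Summable (fun m : P →₀ ℕ => ‖(hs θ m : ℂ) * (S.nrm m : ℂ) ^ (-s)‖) ∧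
    HasProd (fun p : P => (EE (θ p) ((S.q p : ℂ) ^ (-s)))⁻¹)
      (∑' m : P →₀ ℕ, (hs θ m : ℂ) * (S.nrm m : ℂ) ^ (-s)) := by
  have h := euler_inf (h1c_f S θ s) (h1c_f_zero S θ s) (h1c_fsum S hθ hs')
  have e : (fun m : P →₀ ℕ => m.prod (h1c_f S θ s)) =
      fun m : P →₀ ℕ => (hs θ m : ℂ) * (S.nrm m : ℂ) ^ (-s) := funext fun m => h1c_prod S θ s m
  have e1 : (fun m : P →₀ ℕ => ‖m.prod (h1c_f S θ s)‖) =
      fun m : P →₀ ℕ => ‖(hs θ m : ℂ) * (S.nrm m : ℂ) ^ (-s)‖ :=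
    funext fun m => by rw [h1c_prod]
  have e2 : (fun p : P => ∑' i : ℕ, h1c_f S θ s p i) =
      fun p : P => (EE (θ p) ((S.q p : ℂ) ^ (-s)))⁻¹ :=
    funext fun p => eq_inv_of_mul_eq_one_left (h1c_local S hθ hs' p)
  rw [e, e1, e2] at h
  exact h

theorem h1c_mul {θ : P → ℝ} (hθ : ∀ p, |θ p| ≤ √(S.q p : ℝ) + 1 / √(S.q p : ℝ)) {s : ℂ}
    (hs' : 3 / 2 < s.re) :
    (∑' m : P →₀ ℕ, (hs θ m : ℂ) * (S.nrm m : ℂ) ^ (-s)) *
      (∑' m : P →₀ ℕ, m.prod (h1c_g S θ s)) = 1 := by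
  have h := (h1c_main S hθ hs').2.mul (h1c_inv S hθ hs')
  have e : (fun p : P => (EE (θ p) ((S.q p : ℂ) ^ (-s)))⁻¹ * EE (θ p) ((S.q p : ℂ) ^ (-s))) =
      fun _ : P => (1 : ℂ) := by
    funext p
    exact inv_mul_cancel₀ (right_ne_zero_of_mul_eq_one (h1c_local S hθ hs' p))
  rw [e] at h
  exact h.unique hasProd_one

/-- absolute convergence for `Re s > 3/2` -/
theorem hs_sum {θ : P → ℝ} (hθ : ∀ p, |θ p| ≤ √(S.q p : ℝ) + 1 / √(S.q p : ℝ)) {s : ℂ}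
    (hs' : 3 / 2 < s.re) :
    Summable (fun m : P →₀ ℕ => ‖(hs θ m : ℂ) * (S.nrm m : ℂ) ^ (-s)‖) ∧
    HasProd (fun p : P => (EE (θ p) ((S.q p : ℂ) ^ (-s)))⁻¹)
      (∑' m : P →₀ ℕ, (hs θ m : ℂ) * (S.nrm m : ℂ) ^ (-s)) ∧
    ∑' m : P →₀ ℕ, (hs θ m : ℂ) * (S.nrm m : ℂ) ^ (-s) ≠ 0 :=
  ⟨(h1c_main S hθ hs').1, (h1c_main S hθ hs').2, left_ne_zero_of_mul_eq_one (h1c_mul S hθ hs')⟩

/-- a lower bound at `Re s = 7/2`, uniform in the `θ_p` -/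
theorem hs_low : ∃ c : ℝ, 0 < c ∧ ∀ θ : P → ℝ, (∀ p, |θ p| ≤ √(S.q p : ℝ) + 1 / √(S.q p : ℝ)) →
    ∀ t : ℝ, c ≤ ‖∑' m : P →₀ ℕ, (hs θ m : ℂ) * (S.nrm m : ℂ) ^ (-(7 / 2 + t * I))‖ := by
  have hsum : Summable (fun p : P => (S.q p : ℝ) ^ (-3 : ℝ)) := sum_q S (by norm_num)
  refine ⟨Real.exp (-(3 * ∑' p : P, (S.q p : ℝ) ^ (-3 : ℝ))), Real.exp_pos _,
    fun θ hθ t => ?_⟩
  have hre : ((7 / 2 + t * I : ℂ)).re = 7 / 2 := by simp
  have hs' : 3 / 2 < ((7 / 2 + t * I : ℂ)).re := by rw [hre]; norm_num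
  have h1 := h1c_mul S hθ hs'
  have h2 := h1c_inv S hθ hs'
  set T := ∑' m : P →₀ ℕ, (hs θ m : ℂ) * (S.nrm m : ℂ) ^ (-(7 / 2 + t * I))
  set T' := ∑' m : P →₀ ℕ, m.prod (h1c_g S θ (7 / 2 + t * I))
  have h3 : ‖T'‖ ≤ Real.exp (3 * ∑' p : P, (S.q p : ℝ) ^ (-3 : ℝ)) := by
    refine hasProd_le_of_prod_le h2.norm fun F => ?_
    calc ∏ p ∈ F, ‖EE (θ p) ((S.q p : ℂ) ^ (-(7 / 2 + t * I)))‖
        ≤ ∏ p ∈ F, Real.exp (3 * (S.q p : ℝ) ^ (-3 : ℝ)) := by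
          refine Finset.prod_le_prod (fun p _ => norm_nonneg _) fun p _ => ?_
          obtain ⟨h5, h6⟩ := h1c_xle S hθ hs' p
          rw [hre, show (1 / 2 - 7 / 2 : ℝ) = -3 by norm_num] at h5 h6
          unfold EE
          calc ‖1 - (θ p : ℂ) * (S.q p : ℂ) ^ (-(7 / 2 + t * I)) +
                ((S.q p : ℂ) ^ (-(7 / 2 + t * I))) ^ 2‖
              ≤ ‖1 - (θ p : ℂ) * (S.q p : ℂ) ^ (-(7 / 2 + t * I))‖ +
                ‖((S.q p : ℂ) ^ (-(7 / 2 + t * I))) ^ 2‖ := norm_add_le _ _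
            _ ≤ (1 + ‖(θ p : ℂ) * (S.q p : ℂ) ^ (-(7 / 2 + t * I))‖) +
                ‖((S.q p : ℂ) ^ (-(7 / 2 + t * I))) ^ 2‖ := by
                gcongr
                exact (norm_sub_le _ _).trans (by rw [norm_one])
            _ ≤ 3 * (S.q p : ℝ) ^ (-3 : ℝ) + 1 := by linarith
            _ ≤ Real.exp (3 * (S.q p : ℝ) ^ (-3 : ℝ)) := Real.add_one_le_exp _
      _ = Real.exp (∑ p ∈ F, 3 * (S.q p : ℝ) ^ (-3 : ℝ)) := (Real.exp_sum _ _).symm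
      _ ≤ Real.exp (3 * ∑' p : P, (S.q p : ℝ) ^ (-3 : ℝ)) := by
          rw [Real.exp_le_exp, ← Finset.mul_sum]
          exact mul_le_mul_of_nonneg_left (hsum.sum_le_tsum F fun p _ => by positivity)
            (by norm_num)
  have h4 : ‖T‖ * ‖T'‖ = 1 := by rw [← norm_mul, h1, norm_one]
  have h5 : 0 ≤ ‖T‖ := norm_nonneg _
  rw [Real.exp_neg]
  rw [inv_le_iff_one_le_mul₀ (Real.exp_pos _)]
  calc (1 : ℝ) = ‖T‖ * ‖T'‖ := h4.symm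
    _ ≤ ‖T‖ * Real.exp (3 * ∑' p : P, (S.q p : ℝ) ^ (-3 : ℝ)) := mul_le_mul_of_nonneg_left h3 h5


end Pool.Agent.HS
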