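import Pool.Agent.Lib_helper45.HS.Defs
import Pool.Agent.Lib_helper68.SEL.Z1
import Pool.Agent.Lib_helper45.HSF.P0
import Pool.Agent.Lib_helper45.HSF.P1

/-!
# HS block H1 (HSB): the multiplicative functions
-/

namespace Pool.Agent.HS

open Complex MeasureTheory Filter Topology
open scoped ENNReal Classical
open Pool.Agent.WA (gd gk)
open Pool.Agent.SEL (NL Adm)
open Pool.Agent.SQS (hat)
open Pool.Agent.WS (st EE RT cc hl Step)
open Finset.HasAntidiagonal (antidiagonal)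

variable {P : Type} (S : PSys P)

theorem hs_zero (θ : P → ℝ) : hs θ 0 = 1 := Finsupp.prod_zero_index

theorem hs_single (θ : P → ℝ) (p : P) (i : ℕ) :
    hs θ (Finsupp.single p i) = SEL.Uc (θ p) i :=
  Finsupp.prod_single_index (h := fun p i => SEL.Uc (θ p) i) (by simp [SEL.Uc])

theorem hs_disj (θ : P → ℝ) {m n : P →₀ ℕ} (h : Disjoint m.support n.support) :
    hs θ (m + n) = hs θ m * hs θ n :=
  Finsupp.prod_add_index_of_disjoint h (fun p i => SEL.Uc (θ p) i)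

theorem al_zero (θ : P → ℝ) : al θ 0 = 1 := Finsupp.prod_zero_index

theorem al_single (θ : P → ℝ) (p : P) (i : ℕ) :
    al θ (Finsupp.single p i) = SEL.aloc (θ p) i :=
  Finsupp.prod_single_index (h := fun p i => SEL.aloc (θ p) i) (SEL.aloc_zero_pr _)

theorem al_disj (θ : P → ℝ) {m n : P →₀ ℕ} (h : Disjoint m.support n.support) :
    al θ (m + n) = al θ m * al θ n :=
  Finsupp.prod_add_index_of_disjoint h (fun p i => SEL.aloc (θ p) i)

/-! bounds -/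

theorem h1_rt {x : ℝ} (hx : |x| ≤ 2) : ‖SEL.rt x‖ = 1 := by
  have h : x ^ 2 ≤ 4 := by
    have := sq_abs x
    have h2 := abs_nonneg x
    nlinarith
  have hr : SEL.rt x = ⟨x / 2, √(4 - x ^ 2) / 2⟩ := by unfold SEL.rt; rw [if_pos h]
  have hs : √(4 - x ^ 2) ^ 2 = 4 - x ^ 2 := Real.sq_sqrt (by linarith)
  have hn : normSq (SEL.rt x) = 1 := by
    rw [hr, normSq_mk]; nlinarith
  rw [← sq_eq_sq₀ (norm_nonneg _) zero_le_one, ← Complex.normSq_eq_norm_sq, hn, one_pow]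

theorem h1_prod_le (g : P → ℕ → ℝ) (hg : ∀ p i, |g p i| ≤ i + 1) (m : P →₀ ℕ) :
    |m.prod g| ≤ S.nrm m := by
  have e1 : (S.nrm m : ℝ) = ∏ p ∈ m.support, (S.q p : ℝ) ^ (m p) := by
    rw [PSys.nrm, Finsupp.prod]
    push_cast
    rfl
  rw [Finsupp.prod, Finset.abs_prod, e1]
  refine Finset.prod_le_prod (fun _ _ => abs_nonneg _) fun p _ => ?_
  refine (hg p _).trans ?_
  have hp2 : 2 ≤ S.q p := q_two S p
  have h1 : m p + 1 ≤ 2 ^ (m p) := Nat.lt_two_pow_self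
  have h2 : 2 ^ (m p) ≤ S.q p ^ (m p) := Nat.pow_le_pow_left hp2 _
  exact_mod_cast h1.trans h2

theorem hs_le {θ : P → ℝ} (hθ : ∀ p, |θ p| ≤ 2) (m : P →₀ ℕ) :
    |hs θ m| ≤ S.nrm m ∧ |al θ m| ≤ S.nrm m := by
  refine ⟨h1_prod_le S _ (fun p i => ?_) m, h1_prod_le S _ (fun p i => ?_) m⟩
  · have := SEL.Uc_le_pr (θ p) i
    rwa [h1_rt (hθ p), one_pow, mul_one] at this
  · have := SEL.aloc_le_pr (θ p) i
    rwa [h1_rt (hθ p), one_pow, mul_one] at this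

/-! the convolution identity -/

/-- `λ * α * α = 1` -/
theorem al_conv (θ : P → ℝ) (m : P →₀ ℕ) :
    ∑ v ∈ antidiagonal m, hs θ v.1 * ∑ w ∈ antidiagonal v.2, al θ w.1 * al θ w.2 =
      if m = 0 then 1 else 0 := by
  have hA0 : ∀ p, (fun (p : P) (i : ℕ) => SEL.aloc (θ p) i) p 0 = 1 :=
    fun p => SEL.aloc_zero_pr _
  have hU0 : ∀ p, (fun (p : P) (i : ℕ) => SEL.Uc (θ p) i) p 0 = 1 := fun p => by simp [SEL.Uc]
  have hG0 : ∀ p, (fun (p : P) (i : ℕ) => ∑ u ∈ antidiagonal i,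
      SEL.aloc (θ p) u.1 * SEL.aloc (θ p) u.2) p 0 = 1 := fun p => by
    simp [SEL.aloc_zero_pr]
  have h1 : ∀ n : P →₀ ℕ, ∑ w ∈ antidiagonal n, al θ w.1 * al θ w.2 =
      n.prod fun p i => ∑ u ∈ antidiagonal i, SEL.aloc (θ p) u.1 * SEL.aloc (θ p) u.2 :=
    fun n => ad_prod n _ _ hA0 hA0
  have h2 := ad_prod m (fun (p : P) (i : ℕ) => SEL.Uc (θ p) i)
    (fun (p : P) (i : ℕ) => ∑ u ∈ antidiagonal i, SEL.aloc (θ p) u.1 * SEL.aloc (θ p) u.2) hU0 hG0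
  have h3 : (m.prod fun p i => ∑ u ∈ antidiagonal i, SEL.Uc (θ p) u.1 *
      ∑ w ∈ antidiagonal u.2, SEL.aloc (θ p) w.1 * SEL.aloc (θ p) w.2) =
      if m = 0 then 1 else 0 := by
    simp only [SEL.aloc_conv_pr]
    split_ifs with hm
    · rw [hm, Finsupp.prod_zero_index]
    · obtain ⟨p, hp⟩ := Finsupp.support_nonempty_iff.2 hm
      exact Finset.prod_eq_zero hp (if_neg (Finsupp.mem_support_iff.1 hp))
  rw [← h3, ← h2]
  refine Finset.sum_congr rfl fun v _ => ?_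
  rw [h1]
  rfl

end Pool.Agent.HS
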