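import Pool.Agent.Lib_helper45.HS.Defs
import Pool.Agent.Lib_helper45.HSF.H1
import Pool.Agent.Lib_helper45.HSF.P0

/-! # Hilbert-Selberg, block C1 -/

namespace Pool.Agent.HS

open Complex MeasureTheory Filter Topology
open scoped ENNReal Classical
open Pool.Agent.WA (gd gk)
open Pool.Agent.SEL (NL Adm)
open Pool.Agent.SQS (hat)
open Pool.Agent.WS (st EE RT cc hl Step)
open Finset.HasAntidiagonal (antidiagonal)

variable {P : Type} (S : PSys P)

theorem c1_BL : S.BL 2 = {0} := by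
  ext m
  rw [mem_BL, Finset.mem_singleton, ← nrm_eq_one S]
  have := nrm_pos S m
  omega

theorem om_total {Δ C E : ℝ} {φ : (P →₀ ℕ) → ℝ} {k : ℕ} (hk : 1 ≤ k) {ι : Type} [Fintype ι]
    {θ : ι → P → ℝ} {ω : ι → ℝ} (F : HFam S Δ C E φ k θ ω) : ∑ i, ω i ≤ 2 * C := by
  have h := F.LS 1 fun _ => 1
  rw [show (1 : ℕ) + 1 = 2 from rfl, c1_BL S] at h
  simp only [Finset.sum_singleton, hs_zero, Complex.ofReal_one, mul_one, norm_one, one_pow,
    Nat.cast_one] at h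
  have hk1 : (1 : ℝ) ≤ (k : ℝ) ^ S.d := one_le_pow₀ (by exact_mod_cast hk)
  have hω : 0 ≤ ∑ i, ω i := Finset.sum_nonneg fun i _ => (F.pos i).le
  have hd : (0 : ℝ) < 1 / (k : ℝ) ^ S.d := by positivity
  have hd1 : 1 / (k : ℝ) ^ S.d ≤ 1 := by
    rw [div_le_one (by positivity)]
    exact hk1
  have hC : 0 ≤ C := by
    by_contra hC
    have : C * (1 + 1 / (k : ℝ) ^ S.d) < 0 := mul_neg_of_neg_of_pos (not_le.mp hC) (by linarith)
    linarith
  calc ∑ i, ω i ≤ C * (1 + 1 / (k : ℝ) ^ S.d) := h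
    _ ≤ C * 2 := mul_le_mul_of_nonneg_left (by linarith) hC
    _ = 2 * C := mul_comm _ _


end Pool.Agent.HS
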