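import Pool.Agent.Lib_helper45.HS.Defs
import Pool.Agent.Lib_helper98.WSF.G1

/-! # Hilbert-Selberg, block G0 (GDF): the density of the gamma factor -/

namespace Pool.Agent.HS

open Complex MeasureTheory Filter Topology
open scoped ENNReal Classical
open Pool.Agent.WA (gd gk)
open Pool.Agent.SEL (NL Adm)
open Pool.Agent.SQS (hat)
open Pool.Agent.WS (st EE RT cc hl Step)
open Finset.HasAntidiagonal (antidiagonal)

variable {P : Type} (S : PSys P)

theorem GD_nonneg (k n : ℕ) (v : ℝ) : 0 ≤ GD k n v := by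
  induction n using Nat.strong_induction_on generalizing v with
  | _ n ih =>
    match n, ih with
    | 0, _ => exact le_rfl
    | 1, _ => exact (WA.B5a_gd_pos k 1 v).le
    | (n + 2), ih =>
      exact integral_nonneg fun u => mul_nonneg (ih (n + 1) (by omega) _)
        (WA.B5a_gd_pos k 1 u).le

theorem g0_gd_up (k : ℕ) {A : ℝ} (hc : 0 < (k : ℝ) / 2 + A) : ∃ C : ℝ, 0 < C ∧
    ∀ v : ℝ, gd k 1 v ≤ C * Real.exp (-(A * v)) := by
  set c := (k : ℝ) / 2 + A with hcdef
  refine ⟨Real.exp (c * Real.log c - c), Real.exp_pos _, fun v => ?_⟩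
  unfold gd
  rw [← Real.exp_add]
  apply Real.exp_le_exp.2
  have h1 : (v - Real.log c) + 1 ≤ Real.exp (v - Real.log c) := Real.add_one_le_exp _
  rw [Real.exp_sub, Real.exp_log hc, le_div_iff₀ hc] at h1
  have hpi := Real.pi_gt_three
  have h2 : Real.exp v ≤ 2 * Real.pi * ((1 : ℕ) : ℝ) * Real.exp v := by
    push_cast
    nlinarith [Real.exp_pos v]
  have h3 : (k : ℝ) * v / 2 = c * v - A * v := by rw [hcdef]; ring
  rw [h3]
  nlinarith

theorem g0_int (k : ℕ) {x : ℝ} (hx : -((k : ℝ) / 2) < x) :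
    Integrable (fun u : ℝ => gd k 1 u * Real.exp (x * u)) :=
  WS.G1_int (n := 1) le_rfl hx

/-- pointwise decay (the constant depends on `k`) -/
theorem GD_up {k n : ℕ} (hk : 1 ≤ k) (A : ℝ) (hA : 0 ≤ A) : ∃ C : ℝ, 0 < C ∧
    ∀ v : ℝ, GD k n v ≤ C * Real.exp (-(A * v)) := by
  have hk' : (1 : ℝ) ≤ k := by exact_mod_cast hk
  induction n using Nat.strong_induction_on with
  | _ n ih =>
    match n, ih with
    | 0, _ => exact ⟨1, one_pos, fun v => by
        show (0 : ℝ) ≤ _
        positivity⟩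
    | 1, _ => exact g0_gd_up k (by linarith)
    | (n + 2), ih =>
      obtain ⟨C, hC, hv⟩ := ih (n + 1) (by omega)
      have hi := g0_int k (x := A) (by linarith)
      set D := ∫ u : ℝ, gd k 1 u * Real.exp (A * u)
      have hD : 0 ≤ D := integral_nonneg fun u =>
        mul_nonneg (WA.B5a_gd_pos k 1 u).le (Real.exp_nonneg _)
      refine ⟨C * (D + 1), by positivity, fun v => ?_⟩
      have h1 : GD k (n + 2) v ≤ ∫ u : ℝ, (C * Real.exp (-(A * v))) *
          (gd k 1 u * Real.exp (A * u)) := by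
        refine integral_mono_of_nonneg (Eventually.of_forall fun u =>
          mul_nonneg (GD_nonneg k (n + 1) _) (WA.B5a_gd_pos k 1 u).le)
          (hi.const_mul _) (Eventually.of_forall fun u => ?_)
        have h2 := mul_le_mul_of_nonneg_right (hv (v - u)) (WA.B5a_gd_pos k 1 u).le
        have h3 : C * Real.exp (-(A * (v - u))) * gd k 1 u =
            (C * Real.exp (-(A * v))) * (gd k 1 u * Real.exp (A * u)) := by
          have : Real.exp (-(A * (v - u))) = Real.exp (-(A * v)) * Real.exp (A * u) := by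
            rw [← Real.exp_add]
            congr 1
            ring
          rw [this]
          ring
        rw [h3] at h2
        exact h2
      refine h1.trans ?_
      rw [integral_const_mul]
      have h4 : 0 ≤ C * Real.exp (-(A * v)) := by positivity
      nlinarith

theorem g0_bdd {k n : ℕ} (hk : 1 ≤ k) : ∃ C : ℝ, 0 < C ∧ ∀ v : ℝ, GD k n v ≤ C := by
  obtain ⟨C, hC, h⟩ := GD_up (n := n) hk 0 le_rfl
  exact ⟨C, hC, fun v => by simpa using h v⟩

theorem GD_cont {k n : ℕ} (hk : 1 ≤ k) : Continuous (GD k n) := by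
  have hk' : (1 : ℝ) ≤ k := by exact_mod_cast hk
  induction n using Nat.strong_induction_on with
  | _ n ih =>
    match n, ih with
    | 0, _ => exact continuous_const
    | 1, _ => exact WA.B5a_gd_cont k 1
    | (n + 2), ih =>
      obtain ⟨C, hC, hv⟩ := g0_bdd (k := k) (n := n + 1) hk
      have hc := ih (n + 1) (by omega)
      have hi := g0_int k (x := 0) (by linarith)
      simp only [zero_mul, Real.exp_zero, mul_one] at hi
      have hg := WA.B5a_gd_cont k 1
      refine continuous_of_dominated (F := fun v u => GD k (n + 1) (v - u) * gd k 1 u)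
        (bound := fun u => C * gd k 1 u) (fun v => ?_) (fun v => ?_) (hi.const_mul C) ?_
      · exact ((hc.comp (by fun_prop)).mul hg).aestronglyMeasurable
      · refine Eventually.of_forall fun u => ?_
        rw [Real.norm_of_nonneg (mul_nonneg (GD_nonneg k (n + 1) _) (WA.B5a_gd_pos k 1 u).le)]
        exact mul_le_mul_of_nonneg_right (hv _) (WA.B5a_gd_pos k 1 u).le
      · exact Eventually.of_forall fun u => by
          exact (hc.comp (by fun_prop)).mul continuous_const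

theorem GD_mellin {k n : ℕ} (hk : 1 ≤ k) (hn : 1 ≤ n) {z : ℂ} (hz : -((k : ℝ) / 2) < z.re) :
    Integrable (fun u : ℝ => (GD k n u : ℂ) * cexp (z * u)) ∧
    ∫ u : ℝ, (GD k n u : ℂ) * cexp (z * u) =
      (Gamma ((k : ℂ) / 2 + z) * ((2 * Real.pi : ℝ) : ℂ) ^ (-((k : ℂ) / 2 + z))) ^ n := by
  have h1 := WS.gd_mellin (n := 1) hk le_rfl hz
  have e1 : ((2 * Real.pi * ((1 : ℕ) : ℝ) : ℝ) : ℂ) = ((2 * Real.pi : ℝ) : ℂ) := by
    push_cast
    ring
  rw [e1] at h1
  obtain ⟨hi1, hv1⟩ := h1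
  induction n, hn using Nat.le_induction with
  | base =>
    rw [pow_one]
    exact ⟨hi1, hv1⟩
  | succ n hn ih =>
    obtain ⟨hi, hv⟩ := ih
    obtain ⟨m, rfl⟩ : ∃ m, n = m + 1 := ⟨n - 1, by omega⟩
    have hconv : (fun v : ℝ => (GD k (m + 1 + 1) v : ℂ) * cexp (z * v)) =
        convolution (fun u : ℝ => (gd k 1 u : ℂ) * cexp (z * u))
          (fun u : ℝ => (GD k (m + 1) u : ℂ) * cexp (z * u))
          (ContinuousLinearMap.mul ℂ ℂ) volume := by
      funext v
      rw [convolution_def]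
      have e2 : GD k (m + 1 + 1) v = ∫ u : ℝ, GD k (m + 1) (v - u) * gd k 1 u := rfl
      rw [e2, ← integral_complex_ofReal, ← integral_mul_const]
      refine integral_congr_ae (Eventually.of_forall fun u => ?_)
      simp only [ContinuousLinearMap.mul_apply']
      have e3 : cexp (z * v) = cexp (z * u) * cexp (z * ((v - u : ℝ) : ℂ)) := by
        rw [← Complex.exp_add]
        congr 1
        push_cast
        ring
      rw [e3]
      push_cast
      ring
    constructor
    · rw [hconv]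
      exact hi1.integrable_convolution (ContinuousLinearMap.mul ℂ ℂ) hi
    · have h2 := integral_convolution (μ := volume) (ν := volume)
        (ContinuousLinearMap.mul ℂ ℂ) hi1 hi
      rw [hconv, h2, hv1, hv]
      simp only [ContinuousLinearMap.mul_apply']
      ring

theorem g0_gk (k : ℕ) : Gamma ((k : ℂ) / 2 + 0) * ((2 * Real.pi : ℝ) : ℂ) ^ (-((k : ℂ) / 2 + 0)) =
    ((gk k : ℝ) : ℂ) := by
  unfold gk
  have e : -((k : ℂ) / 2 + 0) = ((-(k : ℝ) / 2 : ℝ) : ℂ) := by
    push_cast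
    ring
  rw [e, ← Complex.ofReal_cpow (by positivity), Complex.ofReal_mul (Real.Gamma _),
    ← Complex.Gamma_ofReal, add_zero]
  push_cast
  rfl

theorem GD_int {k n : ℕ} (hk : 1 ≤ k) (hn : 1 ≤ n) : ∫ u : ℝ, GD k n u = gk k ^ n := by
  have hk' : (1 : ℝ) ≤ k := by exact_mod_cast hk
  have h := (GD_mellin hk hn (z := 0) (by simp; linarith)).2
  rw [g0_gk] at h
  simp only [zero_mul, Complex.exp_zero, mul_one] at h
  rw [integral_complex_ofReal] at h
  exact_mod_cast h

theorem g0_integrable {k n : ℕ} (hk : 1 ≤ k) (hn : 1 ≤ n) : Integrable (GD k n) := by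
  have hk' : (1 : ℝ) ≤ k := by exact_mod_cast hk
  have h := (GD_mellin hk hn (z := 0) (by simp; linarith)).1
  simp only [zero_mul, Complex.exp_zero, mul_one] at h
  exact h.re.congr (Eventually.of_forall fun u => by simp)

/-- the real Mellin transform at `k / 2` -/
theorem g0_half {k n : ℕ} (hk : 1 ≤ k) (hn : 1 ≤ n) :
    Integrable (fun u : ℝ => GD k n u * Real.exp ((k : ℝ) / 2 * u)) ∧
    ∫ u : ℝ, GD k n u * Real.exp ((k : ℝ) / 2 * u) =
      (Real.Gamma (k : ℝ) * (2 * Real.pi) ^ (-(k : ℝ))) ^ n := by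
  have hk' : (1 : ℝ) ≤ k := by exact_mod_cast hk
  have hz : -((k : ℝ) / 2) < (((k : ℝ) / 2 : ℝ) : ℂ).re := by
    rw [Complex.ofReal_re]
    linarith
  obtain ⟨h1, h2⟩ := GD_mellin hk hn (z := (((k : ℝ) / 2 : ℝ) : ℂ)) hz
  have e1 : ∀ u : ℝ, (GD k n u : ℂ) * cexp ((((k : ℝ) / 2 : ℝ) : ℂ) * u) =
      ((GD k n u * Real.exp ((k : ℝ) / 2 * u) : ℝ) : ℂ) := by
    intro u
    push_cast
    ring_nf
  have e2 : (k : ℂ) / 2 + (((k : ℝ) / 2 : ℝ) : ℂ) = ((k : ℝ) : ℂ) := by
    push_cast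
    ring
  simp only [e1] at h1 h2
  constructor
  · exact h1.re.congr (Eventually.of_forall fun u => by
      show (((GD k n u * Real.exp ((k : ℝ) / 2 * u) : ℝ) : ℂ)).re = _
      rw [Complex.ofReal_re])
  · rw [integral_complex_ofReal, e2, Complex.Gamma_ofReal, ← Complex.ofReal_neg,
      ← Complex.ofReal_cpow (by positivity)] at h2
    exact_mod_cast h2

theorem GD_rankin {k n : ℕ} (hk : 2 ≤ k) (he : Even k) (hn : 1 ≤ n) (u₀ : ℝ) :
    ∫ u in Set.Ioi u₀, GD k n u ≤ gk k ^ n *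
      (((k : ℝ) / (2 * Real.pi)) ^ n * Real.exp (-u₀)) ^ ((k : ℝ) / 2) := by
  have hk' : (0 : ℝ) < k := by exact_mod_cast (by omega : 0 < k)
  have hpi := Real.pi_pos
  obtain ⟨h1, h2⟩ := g0_half (k := k) (n := n) (by omega) hn
  have h3 : ∫ u in Set.Ioi u₀, GD k n u ≤ Real.exp (-((k : ℝ) / 2 * u₀)) *
      (Real.Gamma (k : ℝ) * (2 * Real.pi) ^ (-(k : ℝ))) ^ n := by
    calc ∫ u in Set.Ioi u₀, GD k n u
        ≤ ∫ u in Set.Ioi u₀, Real.exp (-((k : ℝ) / 2 * u₀)) *
            (GD k n u * Real.exp ((k : ℝ) / 2 * u)) := by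
          refine setIntegral_mono_on (g0_integrable (by omega) hn).integrableOn
            (h1.const_mul _).integrableOn measurableSet_Ioi fun u hu => ?_
          have hu' : u₀ < u := hu
          have e : Real.exp (-((k : ℝ) / 2 * u₀)) * (GD k n u * Real.exp ((k : ℝ) / 2 * u)) =
              GD k n u * Real.exp ((k : ℝ) / 2 * (u - u₀)) := by
            have : Real.exp ((k : ℝ) / 2 * (u - u₀)) =
                Real.exp (-((k : ℝ) / 2 * u₀)) * Real.exp ((k : ℝ) / 2 * u) := by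
              rw [← Real.exp_add]
              congr 1
              ring
            rw [this]
            ring
          rw [e]
          have h4 : 1 ≤ Real.exp ((k : ℝ) / 2 * (u - u₀)) := by
            apply Real.one_le_exp
            apply mul_nonneg (by positivity)
            linarith
          exact le_mul_of_one_le_right (GD_nonneg k n u) h4
      _ ≤ ∫ u : ℝ, Real.exp (-((k : ℝ) / 2 * u₀)) *
            (GD k n u * Real.exp ((k : ℝ) / 2 * u)) :=
          setIntegral_le_integral (h1.const_mul _) (Eventually.of_forall fun u =>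
            mul_nonneg (Real.exp_nonneg _) (mul_nonneg (GD_nonneg k n u) (Real.exp_nonneg _)))
      _ = _ := by rw [integral_const_mul, h2]
  refine h3.trans ?_
  have hG := WS.G1_gamma_even hk he
  have h2pi : (0 : ℝ) < 2 * Real.pi := by positivity
  have h5 : Real.Gamma (k : ℝ) * (2 * Real.pi) ^ (-(k : ℝ)) ≤
      gk k * ((k : ℝ) / (2 * Real.pi)) ^ ((k : ℝ) / 2) := by
    have e3 : gk k * ((k : ℝ) / (2 * Real.pi)) ^ ((k : ℝ) / 2) =
        ((k : ℝ) ^ ((k : ℝ) / 2) * Real.Gamma ((k : ℝ) / 2)) * (2 * Real.pi) ^ (-(k : ℝ)) := by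
      unfold gk
      rw [Real.div_rpow hk'.le h2pi.le]
      have a1 : -(k : ℝ) / 2 = -((k : ℝ) / 2) := by ring
      have a2 : (2 * Real.pi) ^ (-(k : ℝ)) =
          ((2 * Real.pi) ^ ((k : ℝ) / 2))⁻¹ * ((2 * Real.pi) ^ ((k : ℝ) / 2))⁻¹ := by
        rw [← Real.rpow_neg h2pi.le, ← Real.rpow_add h2pi]
        congr 1
        ring
      rw [a1, a2, Real.rpow_neg h2pi.le]
      field_simp
    rw [e3]
    exact mul_le_mul_of_nonneg_right hG (by positivity)
  have hG0 : 0 ≤ Real.Gamma (k : ℝ) := (Real.Gamma_pos_of_pos hk').le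
  have h6 := pow_le_pow_left₀ (by positivity) h5 n
  have h7 : gk k ^ n * (((k : ℝ) / (2 * Real.pi)) ^ n * Real.exp (-u₀)) ^ ((k : ℝ) / 2) =
      Real.exp (-((k : ℝ) / 2 * u₀)) * (gk k * ((k : ℝ) / (2 * Real.pi)) ^ ((k : ℝ) / 2)) ^ n := by
    rw [Real.mul_rpow (by positivity) (Real.exp_nonneg _), ← Real.exp_mul, mul_pow,
      ← Real.rpow_natCast (((k : ℝ) / (2 * Real.pi)) ^ ((k : ℝ) / 2)) n,
      ← Real.rpow_natCast ((k : ℝ) / (2 * Real.pi)) n,
      ← Real.rpow_mul (by positivity), ← Real.rpow_mul (by positivity),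
      mul_comm (n : ℝ) ((k : ℝ) / 2)]
    have : -u₀ * ((k : ℝ) / 2) = -((k : ℝ) / 2 * u₀) := by ring
    rw [this]
    ring
  rw [h7]
  exact mul_le_mul_of_nonneg_left h6 (Real.exp_nonneg _)

theorem gam_bd (Δ B : ℝ) (hB : 0 < B) : ∃ (C : ℝ) (k₀ : ℕ), 0 < C ∧ ∀ k : ℕ, k₀ ≤ k → ∀ z : ℂ,
    0 ≤ z.re → z.re ≤ B / (8 * Real.log k) →
    ‖cexp (Δ * z) * (Gamma ((k : ℂ) / 2 + z) *
      ((2 * Real.pi : ℝ) : ℂ) ^ (-((k : ℂ) / 2 + z))) ^ S.d‖ ≤ C * GK S k := by
  obtain ⟨C, k₀, hC, h⟩ := WS.gam_bd B hB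
  refine ⟨Real.exp (|Δ| * B) * C ^ S.d, max 3 k₀, by positivity, fun k hk z hz0 hz1 => ?_⟩
  have hk3 : 3 ≤ k := (le_max_left _ _).trans hk
  have hk' : (3 : ℝ) ≤ k := by exact_mod_cast hk3
  have h1 := h k ((le_max_right _ _).trans hk) z hz0 hz1
  have hlog : 1 ≤ Real.log k := by
    rw [Real.le_log_iff_exp_le (by linarith)]
    linarith [Real.exp_one_lt_d9]
  have hzB : z.re ≤ B := by
    refine hz1.trans ?_
    rw [div_le_iff₀ (by positivity)]
    nlinarith
  have h2 : ‖cexp (Δ * z)‖ ≤ Real.exp (|Δ| * B) := by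
    rw [Complex.norm_exp]
    apply Real.exp_le_exp.2
    have e : ((Δ : ℂ) * z).re = Δ * z.re := by simp
    rw [e]
    calc Δ * z.re ≤ |Δ| * z.re := mul_le_mul_of_nonneg_right (le_abs_self Δ) hz0
      _ ≤ |Δ| * B := mul_le_mul_of_nonneg_left hzB (abs_nonneg _)
  rw [norm_mul, norm_pow]
  unfold GK
  calc _ ≤ Real.exp (|Δ| * B) * (C * gk k) ^ S.d :=
        mul_le_mul h2 (pow_le_pow_left₀ (norm_nonneg _) h1 _) (by positivity) (by positivity)
    _ = _ := by rw [mul_pow]; ring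

end Pool.Agent.HS
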