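import Pool.Agent.Lib_helper45.HS.Defs
import Pool.Agent.Lib_helper45.HSF.G0
import Pool.Agent.Lib_helper45.HSF.H1C
import Pool.Agent.Lib_helper45.HSF.P0
import Pool.Agent.Lib_helper45.HSF.P1

/-! # HS block T2 (SYM): symmetry and integrability of the densities -/

namespace Pool.Agent.HS

open Complex MeasureTheory Filter Topology
open scoped ENNReal Classical
open Pool.Agent.WA (gd gk)
open Pool.Agent.SEL (NL Adm)
open Pool.Agent.SQS (hat)
open Pool.Agent.WS (st EE RT cc hl Step)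
open Finset.HasAntidiagonal (antidiagonal)

variable {P : Type} (S : PSys P)

/-- the bound for one term -/
theorem t2_term {k : ℕ} (hk : 1 ≤ k) (Δ : ℝ) : ∃ C : ℝ, 0 < C ∧ ∀ {θ : P → ℝ},
    (∀ p, |θ p| ≤ √(S.q p : ℝ) + 1 / √(S.q p : ℝ)) → ∀ (b m : P →₀ ℕ) (v : ℝ),
      |hs θ (b + m)| / √(S.nrm (b + m) : ℝ) * GD k S.d (v + Real.log (S.nrm (b + m)) - Δ) ≤
        C * Real.exp (-(3 * v)) * (S.nrm m : ℝ) ^ (-(2 : ℝ)) := by
  obtain ⟨C, hC, hG⟩ := GD_up (n := S.d) hk 3 (by norm_num)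
  refine ⟨C * Real.exp (3 * Δ), by positivity, fun {θ} hθ b m v => ?_⟩
  have hN : 0 < (S.nrm (b + m) : ℝ) := by exact_mod_cast nrm_pos S (b + m)
  have hm : 0 < (S.nrm m : ℝ) := by exact_mod_cast nrm_pos S m
  have hle : (S.nrm m : ℝ) ≤ S.nrm (b + m) := by
    exact_mod_cast nrm_mono S (le_add_of_nonneg_left zero_le)
  set N : ℝ := (S.nrm (b + m) : ℝ) with hNd
  have h1 := (triv S hθ (b + m)).1
  have h2 := hG (v + Real.log N - Δ)
  have h3 : Real.exp (-(3 * (v + Real.log N - Δ))) =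
      Real.exp (3 * Δ) * Real.exp (-(3 * v)) * N ^ (-(3 : ℝ)) := by
    rw [Real.rpow_def_of_pos hN, ← Real.exp_add, ← Real.exp_add]
    congr 1
    ring
  have h4 : |hs θ (b + m)| / √N ≤ N := by
    rw [div_le_iff₀ (Real.sqrt_pos.2 hN)]
    refine h1.trans (le_of_eq ?_)
    rw [← hNd, Real.sqrt_eq_rpow]
    nth_rewrite 2 [← Real.rpow_one N]
    rw [← Real.rpow_add hN]
    norm_num
  have h5 : N * N ^ (-(3 : ℝ)) ≤ (S.nrm m : ℝ) ^ (-(2 : ℝ)) := by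
    have e : N * N ^ (-(3 : ℝ)) = N ^ (-(2 : ℝ)) := by
      nth_rewrite 1 [← Real.rpow_one N]
      rw [← Real.rpow_add hN]
      norm_num
    rw [e]
    exact Real.rpow_le_rpow_of_nonpos hm hle (by norm_num)
  calc |hs θ (b + m)| / √N * GD k S.d (v + Real.log N - Δ)
      ≤ N * (C * (Real.exp (3 * Δ) * Real.exp (-(3 * v)) * N ^ (-(3 : ℝ)))) := by
        rw [← h3]
        exact mul_le_mul h4 h2 (GD_nonneg _ _ _) hN.le
    _ = C * Real.exp (3 * Δ) * Real.exp (-(3 * v)) * (N * N ^ (-(3 : ℝ))) := by ring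
    _ ≤ _ := by gcongr

theorem t2_abs {k : ℕ} (θ : P → ℝ) (b m : P →₀ ℕ) (u : ℝ) :
    ‖hs θ (b + m) / √(S.nrm (b + m) : ℝ) * GD k S.d u‖ =
      |hs θ (b + m)| / √(S.nrm (b + m) : ℝ) * GD k S.d u := by
  rw [Real.norm_eq_abs, abs_mul, abs_div, abs_of_nonneg (Real.sqrt_nonneg _),
    abs_of_nonneg (GD_nonneg _ _ _)]

theorem Db_facts {k : ℕ} (hk : 1 ≤ k) (Δ : ℝ) {θ : P → ℝ}
    (hθ : ∀ p, |θ p| ≤ √(S.q p : ℝ) + 1 / √(S.q p : ℝ)) (b : P →₀ ℕ) :
    (∀ v : ℝ, Summable (fun m : P →₀ ℕ => |hs θ (b + m)| / √(S.nrm (b + m) : ℝ) *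
      GD k S.d (v + Real.log (S.nrm (b + m)) - Δ))) ∧
    Continuous (Db S k Δ θ b) := by
  obtain ⟨C, hC, hb⟩ := t2_term S hk Δ
  have hsum : Summable (fun m : P →₀ ℕ => (S.nrm m : ℝ) ^ (-(2 : ℝ))) :=
    sum_nrm S (by norm_num)
  constructor
  · intro v
    refine Summable.of_nonneg_of_le (fun m => ?_) (fun m => hb hθ b m v)
      (hsum.mul_left (C * Real.exp (-(3 * v))))
    exact mul_nonneg (by positivity) (GD_nonneg _ _ _)
  · have hc : Continuous (fun v : ℝ => ∑' m : P →₀ ℕ, hs θ (b + m) / √(S.nrm (b + m) : ℝ) *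
        GD k S.d (v + Real.log (S.nrm (b + m)) - Δ)) := by
      rw [continuous_iff_continuousAt]
      intro v₀
      have hon : ContinuousOn (fun v : ℝ => ∑' m : P →₀ ℕ, hs θ (b + m) /
          √(S.nrm (b + m) : ℝ) * GD k S.d (v + Real.log (S.nrm (b + m)) - Δ))
          (Set.Ioi (v₀ - 1)) := by
        refine continuousOn_tsum (fun m => ?_)
          (hsum.mul_left (C * Real.exp (-(3 * (v₀ - 1))))) (fun m v hv => ?_)
        · exact (continuous_const.mul ((GD_cont hk).comp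
            ((continuous_id.add continuous_const).sub continuous_const))).continuousOn
        · rw [t2_abs]
          refine (hb hθ b m v).trans ?_
          have hv' : v₀ - 1 < v := hv
          gcongr
      exact hon.continuousAt (Ioi_mem_nhds (by linarith))
    exact continuous_const.mul hc

theorem Dd_eq (k : ℕ) (Δ : ℝ) (θ : P → ℝ) : Dd S k Δ θ = Db S k Δ θ 0 := by
  funext v
  unfold Dd Db
  rw [nrm_zero]
  simp only [Nat.cast_one, one_mul, zero_add]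

theorem t2_dd_le {k : ℕ} (hk : 1 ≤ k) {Δ : ℝ} {θ : P → ℝ} (H : TD S k Δ θ) :
    ∃ C : ℝ, 0 < C ∧ ∀ v : ℝ, |Dd S k Δ θ v| ≤ C * Real.exp (-(3 * |v|)) := by
  obtain ⟨C, hC, hb⟩ := t2_term S hk Δ
  have hsum : Summable (fun m : P →₀ ℕ => (S.nrm m : ℝ) ^ (-(2 : ℝ))) :=
    sum_nrm S (by norm_num)
  have h0 : 0 ≤ ∑' m : P →₀ ℕ, (S.nrm m : ℝ) ^ (-(2 : ℝ)) := tsum_nonneg fun m => by positivity
  have h1 : ∀ v : ℝ, |Dd S k Δ θ v| ≤
      C * (∑' m : P →₀ ℕ, (S.nrm m : ℝ) ^ (-(2 : ℝ)) + 1) * Real.exp (-(3 * v)) := by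
    intro v
    rw [Dd_eq, Db, nrm_zero, Nat.cast_one, one_mul]
    have hs' := (Db_facts S hk Δ H.triv 0).1 v
    have h2 : |∑' m : P →₀ ℕ, hs θ (0 + m) / √(S.nrm (0 + m) : ℝ) *
        GD k S.d (v + Real.log (S.nrm (0 + m)) - Δ)| ≤
        ∑' m : P →₀ ℕ, |hs θ (0 + m)| / √(S.nrm (0 + m) : ℝ) *
          GD k S.d (v + Real.log (S.nrm (0 + m)) - Δ) := by
      have h3 := norm_tsum_le_tsum_norm (f := fun m : P →₀ ℕ => hs θ (0 + m) /
        √(S.nrm (0 + m) : ℝ) * GD k S.d (v + Real.log (S.nrm (0 + m)) - Δ)) (by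
          simp_rw [t2_abs]
          exact hs')
      simp_rw [t2_abs] at h3
      exact h3
    refine h2.trans ?_
    refine (hs'.tsum_le_tsum (fun m => hb H.triv 0 m v)
      (hsum.mul_left (C * Real.exp (-(3 * v))))).trans ?_
    rw [tsum_mul_left]
    have hE := Real.exp_pos (-(3 * v))
    nlinarith [mul_pos hC hE]
  refine ⟨C * (∑' m : P →₀ ℕ, (S.nrm m : ℝ) ^ (-(2 : ℝ)) + 1), by positivity, fun v => ?_⟩
  rcases le_total 0 v with hv | hv
  · rw [abs_of_nonneg hv]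
    exact h1 v
  · obtain ⟨ε, hε, hsym⟩ := H.sym
    have h2 : |Dd S k Δ θ v| = |Dd S k Δ θ (-v)| := by
      rw [hsym v, abs_mul]
      rcases hε with h | h <;> simp [h]
    rw [h2, abs_of_nonpos hv]
    exact h1 (-v)

theorem Dd_nice {k : ℕ} (hk : 1 ≤ k) {Δ : ℝ} {θ : P → ℝ} (H : TD S k Δ θ) :
    ABS.Nice (fun u => (Dd S k Δ θ u : ℂ)) ∧ Continuous (Dd S k Δ θ) := by
  have hc : Continuous (Dd S k Δ θ) := by
    rw [Dd_eq]
    exact (Db_facts S hk Δ H.triv 0).2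
  obtain ⟨C, hC, hb⟩ := t2_dd_le S hk H
  have hc' : Continuous (fun u => (Dd S k Δ θ u : ℂ)) := Complex.continuous_ofReal.comp hc
  refine ⟨⟨hc'.measurable, ?_, C, fun u => ?_⟩, hc⟩
  · refine Integrable.mono' (integrable_inv_one_add_sq.const_mul C) hc'.aestronglyMeasurable
      (Eventually.of_forall fun u => ?_)
    rw [Complex.norm_real, Real.norm_eq_abs]
    refine (hb u).trans ?_
    have h1 : Real.exp (-(3 * |u|)) ≤ (1 + u ^ 2)⁻¹ := by
      rw [Real.exp_neg]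
      have h2 := Real.quadratic_le_exp_of_nonneg (x := 3 * |u|) (by positivity)
      have h3 : u ^ 2 = |u| ^ 2 := (sq_abs u).symm
      refine inv_anti₀ (by positivity) ?_
      nlinarith [abs_nonneg u]
    gcongr
  · rw [Complex.norm_real, Real.norm_eq_abs]
    refine (hb u).trans ?_
    have h1 : Real.exp (-(3 * |u|)) ≤ 1 := Real.exp_le_one_iff.2 (by
      have := abs_nonneg u
      linarith)
    nlinarith

theorem ff_nice {k : ℕ} (hk : 1 ≤ k) {Δ : ℝ} {θ : P → ℝ} (H : TD S k Δ θ) (L : ℝ)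
    (Θ : ℝ → ℝ) : ABS.Nice (ff S k Δ θ L Θ) ∧ Continuous (ff S k Δ θ L Θ) := by
  obtain ⟨h1, h2⟩ := Dd_nice S hk H
  have e : ff S k Δ θ L Θ = fun v => ∑ m ∈ S.BL (NL L), ∑ l ∈ S.BL (NL L),
      ((be S θ L Θ m * be S θ L Θ l / (√(S.nrm m : ℝ) * √(S.nrm l : ℝ)) : ℝ) : ℂ) *
        (Dd S k Δ θ (v + (Real.log (S.nrm m) - Real.log (S.nrm l))) : ℂ) := by
    funext v
    simp only [ff, Complex.ofReal_mul]
  rw [e]
  constructor
  · exact ABS.Nice.sum _ fun m _ => ABS.Nice.sum _ fun l _ => (h1.shift _).const_mul _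
  · exact continuous_finsetSum _ fun m _ => continuous_finsetSum _ fun l _ =>
      continuous_const.mul (Complex.continuous_ofReal.comp
        (h2.comp (continuous_id.add continuous_const)))

theorem DD_nice {k : ℕ} (hk : 1 ≤ k) {Δ : ℝ} {θ : P → ℝ} (H : TD S k Δ θ) (L : ℝ)
    (Θ : ℝ → ℝ) : ABS.Nice (DD S k Δ θ L Θ) := by
  obtain ⟨h1, h2⟩ := Dd_nice S hk H
  have e : DD S k Δ θ L Θ = fun v => ∑ m ∈ S.BL (NL L), ∑ l ∈ S.BL (NL L),
      ((be S θ L Θ m * be S θ L Θ l / (√(S.nrm m : ℝ) * √(S.nrm l : ℝ)) : ℝ) : ℂ) *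
        (Dd S k Δ θ (v + (Real.log (S.nrm m) + Real.log (S.nrm l))) : ℂ) := by
    funext v
    simp only [DD, Complex.ofReal_mul]
  rw [e]
  exact ABS.Nice.sum _ fun m _ => ABS.Nice.sum _ fun l _ => (h1.shift _).const_mul _

theorem ff_sym {k : ℕ} {Δ : ℝ} {θ : P → ℝ} (H : TD S k Δ θ) (L : ℝ) (Θ : ℝ → ℝ) :
    ∃ ε : ℝ, (ε = 1 ∨ ε = -1) ∧ ∀ v : ℝ,
      ff S k Δ θ L Θ (-v) = ε * ff S k Δ θ L Θ v := by
  obtain ⟨ε, hε, h⟩ := H.sym
  refine ⟨ε, hε, fun v => ?_⟩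
  unfold ff
  rw [Finset.sum_comm, Finset.mul_sum]
  refine Finset.sum_congr rfl fun l _ => ?_
  rw [Finset.mul_sum]
  refine Finset.sum_congr rfl fun m _ => ?_
  have e1 : -v + (Real.log (S.nrm m) - Real.log (S.nrm l)) =
      -(v + (Real.log (S.nrm l) - Real.log (S.nrm m))) := by ring
  rw [e1, h]
  have e2 : be S θ L Θ m * be S θ L Θ l / (√(S.nrm m : ℝ) * √(S.nrm l : ℝ)) =
      be S θ L Θ l * be S θ L Θ m / (√(S.nrm l : ℝ) * √(S.nrm m : ℝ)) := by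
    rw [mul_comm (be S θ L Θ m), mul_comm (√(S.nrm m : ℝ))]
  rw [e2]
  push_cast
  ring


end Pool.Agent.HS
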