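import Pool.Agent.Lib_helper45.HS.Defs
import Pool.Agent.Lib_helper24.ABS.Data
import Pool.Agent.Lib_helper68.GL2.LAM2
import Pool.Agent.Lib_helper45.HSF.G0
import Pool.Agent.Lib_helper45.HSF.H1C
import Pool.Agent.Lib_helper45.HSF.P0
import Pool.Agent.Lib_helper45.HSF.P1
import Pool.Agent.Lib_helper45.HSF.T2

/-! # HS block F1 (LDA): the `L`-function -/

namespace Pool.Agent.HS

open Complex MeasureTheory Filter Topology
open scoped ENNReal Classical
open Pool.Agent.WA (gd gk)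
open Pool.Agent.SEL (NL Adm)
open Pool.Agent.SQS (hat)
open Pool.Agent.WS (st EE RT cc hl Step)
open Finset.HasAntidiagonal (antidiagonal)

variable {P : Type} (S : PSys P)

theorem f1_gk_pos {k : ℕ} (hk : 1 ≤ k) : 0 < gk k := by
  unfold WA.gk
  apply mul_pos
  · apply Real.Gamma_pos_of_pos
    have : (0 : ℝ) < k := by exact_mod_cast hk
    linarith
  · positivity

theorem f1_GK_pos {k : ℕ} (hk : 1 ≤ k) : 0 < GK S k := by
  unfold GK
  exact pow_pos (f1_gk_pos hk) _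

/-- `|D(u)| ≤ C e^{-Au}` -/
theorem f1_bd1 {k : ℕ} (hk : 1 ≤ k) {Δ : ℝ} {θ : P → ℝ} (H : TD S k Δ θ) {A : ℝ} (hA : 3 ≤ A) :
    ∃ C : ℝ, 0 ≤ C ∧ ∀ u : ℝ, |Dd S k Δ θ u| ≤ C * Real.exp (-(A * u)) := by
  obtain ⟨C, hC, hG⟩ := GD_up (k := k) (n := S.d) hk A (by linarith)
  have hsum : Summable (fun m : P →₀ ℕ => (S.nrm m : ℝ) ^ (-(A - 1))) :=
    sum_nrm S (by linarith)
  set T : ℝ := ∑' m : P →₀ ℕ, (S.nrm m : ℝ) ^ (-(A - 1)) with hT
  have hT0 : 0 ≤ T := tsum_nonneg fun m => by positivity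
  refine ⟨C * Real.exp (A * Δ) * T, by positivity, fun u => ?_⟩
  have hterm : ∀ m : P →₀ ℕ, ‖hs θ m / √(S.nrm m : ℝ) *
      GD k S.d (u + Real.log (S.nrm m) - Δ)‖ ≤
      (C * Real.exp (A * Δ) * Real.exp (-(A * u))) * (S.nrm m : ℝ) ^ (-(A - 1)) := by
    intro m
    have hN : (0 : ℝ) < S.nrm m := by exact_mod_cast nrm_pos S m
    rw [norm_mul, norm_div, Real.norm_eq_abs, Real.norm_eq_abs, Real.norm_eq_abs,
      abs_of_nonneg (Real.sqrt_nonneg _), abs_of_nonneg (GD_nonneg k S.d _)]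
    have h1 := (triv S H.triv m).1
    have h2 := hG (u + Real.log (S.nrm m) - Δ)
    have h3 : Real.exp (-(A * (u + Real.log (S.nrm m) - Δ))) =
        Real.exp (A * Δ) * Real.exp (-(A * u)) * (S.nrm m : ℝ) ^ (-A) := by
      rw [Real.rpow_def_of_pos hN, ← Real.exp_add, ← Real.exp_add]
      congr 1
      ring
    rw [h3] at h2
    have h4 : |hs θ m| / √(S.nrm m : ℝ) ≤ (S.nrm m : ℝ) ^ (1 : ℝ) := by
      rw [div_le_iff₀ (Real.sqrt_pos.2 hN), Real.sqrt_eq_rpow, ← Real.rpow_add hN]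
      refine h1.trans (le_of_eq ?_)
      norm_num
    calc |hs θ m| / √(S.nrm m : ℝ) * GD k S.d (u + Real.log (S.nrm m) - Δ)
        ≤ (S.nrm m : ℝ) ^ (1 : ℝ) *
          (C * (Real.exp (A * Δ) * Real.exp (-(A * u)) * (S.nrm m : ℝ) ^ (-A))) :=
          mul_le_mul h4 h2 (GD_nonneg k S.d _) (by positivity)
      _ = (C * Real.exp (A * Δ) * Real.exp (-(A * u))) *
          ((S.nrm m : ℝ) ^ (1 : ℝ) * (S.nrm m : ℝ) ^ (-A)) := by ring
      _ = (C * Real.exp (A * Δ) * Real.exp (-(A * u))) * (S.nrm m : ℝ) ^ (-(A - 1)) := by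
          rw [← Real.rpow_add hN]
          congr 2
          ring
  have h5 : ‖Dd S k Δ θ u‖ ≤ (C * Real.exp (A * Δ) * Real.exp (-(A * u))) * T := by
    unfold Dd
    exact tsum_of_norm_bounded (hsum.hasSum.mul_left _) hterm
  rw [Real.norm_eq_abs] at h5
  refine h5.trans (le_of_eq ?_)
  ring

/-- `|D(u)| ≤ C e^{-A|u|}` -/
theorem f1_bd2 {k : ℕ} (hk : 1 ≤ k) {Δ : ℝ} {θ : P → ℝ} (H : TD S k Δ θ) {A : ℝ} (hA : 3 ≤ A) :
    ∃ C : ℝ, 0 ≤ C ∧ ∀ u : ℝ, |Dd S k Δ θ u| ≤ C * Real.exp (-(A * |u|)) := by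
  obtain ⟨C, hC, h⟩ := f1_bd1 S hk H hA
  refine ⟨C, hC, fun u => ?_⟩
  rcases le_total 0 u with hu | hu
  · rw [abs_of_nonneg hu]
    exact h u
  · rw [abs_of_nonpos hu]
    obtain ⟨ε, hε, hsym⟩ := H.sym
    have h1 : |Dd S k Δ θ (-u)| = |Dd S k Δ θ u| := by
      rw [hsym, abs_mul]
      rcases hε with rfl | rfl <;> simp
    rw [← h1]
    exact h (-u)

/-- the transform of the density -/
noncomputable def f1_L (k : ℕ) (Δ : ℝ) (θ : P → ℝ) (s : ℂ) : ℂ :=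
  ∫ u : ℝ, (Dd S k Δ θ u : ℂ) * cexp ((s - 1 / 2) * u)

theorem f1_diff {k : ℕ} (hk : 1 ≤ k) {Δ : ℝ} {θ : P → ℝ} (H : TD S k Δ θ) :
    Differentiable ℂ (f1_L S k Δ θ) ∧
    ∀ s : ℂ, Integrable (fun u : ℝ => (Dd S k Δ θ u : ℂ) * cexp ((s - 1 / 2) * u)) := by
  suffices hh : ∀ s₀ : ℂ,
      Integrable (fun u : ℝ => (Dd S k Δ θ u : ℂ) * cexp ((s₀ - 1 / 2) * u)) ∧
      DifferentiableAt ℂ (f1_L S k Δ θ) s₀ from ⟨fun s => (hh s).2, fun s => (hh s).1⟩
  intro s₀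
  set R : ℝ := |(s₀ - 1 / 2).re| + 1 with hR
  have hR1 : 1 ≤ R := by
    rw [hR]
    linarith [abs_nonneg (s₀ - 1 / 2).re]
  obtain ⟨C, hC0, hC⟩ := f1_bd2 S hk H (A := R + 2) (by linarith)
  have hcont : Continuous (fun u : ℝ => (Dd S k Δ θ u : ℂ)) :=
    Complex.continuous_ofReal.comp (Dd_nice S hk H).2
  have hre : ∀ s ∈ Metric.ball s₀ 1, |(s - 1 / 2).re| ≤ R := by
    intro s hs
    have h1 : |(s - s₀).re| ≤ 1 := (Complex.abs_re_le_norm _).trans (by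
      rw [Metric.mem_ball, dist_eq_norm] at hs
      exact hs.le)
    have h2 : (s - 1 / 2).re = (s₀ - 1 / 2).re + (s - s₀).re := by
      simp only [Complex.sub_re]
      ring
    rw [h2]
    exact (abs_add_le _ _).trans (by linarith)
  have hb : ∀ s ∈ Metric.ball s₀ 1, ∀ u : ℝ,
      ‖(Dd S k Δ θ u : ℂ) * cexp ((s - 1 / 2) * u)‖ ≤ C * Real.exp (-2 * |u|) := by
    intro s hs u
    rw [norm_mul, Complex.norm_real, Real.norm_eq_abs]
    calc |Dd S k Δ θ u| * ‖cexp ((s - 1 / 2) * u)‖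
        ≤ (C * Real.exp (-((R + 2) * |u|))) * Real.exp (R * |u|) :=
          mul_le_mul (hC u) (GL2.lam2_norm _ u (hre s hs)) (norm_nonneg _) (by positivity)
      _ = C * Real.exp (-2 * |u|) := by
          rw [mul_assoc, ← Real.exp_add]
          congr 2
          ring
  have hle : ∀ u : ℝ, Real.exp (-2 * |u|) ≤ Real.exp (-|u|) := fun u =>
    Real.exp_le_exp.mpr (by linarith [abs_nonneg u])
  have hule : ∀ u : ℝ, |u| * Real.exp (-2 * |u|) ≤ Real.exp (-|u|) := by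
    intro u
    have h1 : |u| ≤ Real.exp |u| := by linarith [Real.add_one_le_exp |u|]
    calc |u| * Real.exp (-2 * |u|) ≤ Real.exp |u| * Real.exp (-2 * |u|) :=
          mul_le_mul_of_nonneg_right h1 (Real.exp_nonneg _)
      _ = Real.exp (-|u|) := by rw [← Real.exp_add]; congr 1; ring
  have hs₀ : s₀ ∈ Metric.ball s₀ 1 := Metric.mem_ball_self one_pos
  have hint : Integrable (fun u : ℝ => C * Real.exp (-|u|)) := GL2.lam2_integrable.const_mul C
  have hmeas : ∀ s : ℂ, AEStronglyMeasurable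
      (fun u : ℝ => (Dd S k Δ θ u : ℂ) * cexp ((s - 1 / 2) * u)) volume := fun s =>
    (hcont.mul (by fun_prop)).aestronglyMeasurable
  have hI0 : Integrable (fun u : ℝ => (Dd S k Δ θ u : ℂ) * cexp ((s₀ - 1 / 2) * u)) :=
    Integrable.mono' hint (hmeas s₀) (Eventually.of_forall fun u =>
      (hb s₀ hs₀ u).trans (mul_le_mul_of_nonneg_left (hle u) hC0))
  refine ⟨hI0, ?_⟩
  have key := hasDerivAt_integral_of_dominated_loc_of_deriv_le (μ := volume) (𝕜 := ℂ)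
    (F := fun (s : ℂ) (u : ℝ) => (Dd S k Δ θ u : ℂ) * cexp ((s - 1 / 2) * u))
    (F' := fun (s : ℂ) (u : ℝ) => (Dd S k Δ θ u : ℂ) * (cexp ((s - 1 / 2) * u) * u))
    (x₀ := s₀) (s := Metric.ball s₀ 1) (bound := fun u : ℝ => C * Real.exp (-|u|))
    (Metric.ball_mem_nhds s₀ one_pos) (Eventually.of_forall fun s => hmeas s)
    hI0
    (hcont.mul (by fun_prop)).aestronglyMeasurable
    (Eventually.of_forall fun u s hs => by
      rw [← mul_assoc, norm_mul, Complex.norm_real, Real.norm_eq_abs]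
      calc ‖(Dd S k Δ θ u : ℂ) * cexp ((s - 1 / 2) * u)‖ * |u|
          ≤ (C * Real.exp (-2 * |u|)) * |u| :=
            mul_le_mul_of_nonneg_right (hb s hs u) (abs_nonneg u)
        _ = C * (|u| * Real.exp (-2 * |u|)) := by ring
        _ ≤ C * Real.exp (-|u|) := mul_le_mul_of_nonneg_left (hule u) hC0)
    hint
    (Eventually.of_forall fun u s hs => by
      have h1 : HasDerivAt (fun s : ℂ => (s - 1 / 2) * u) (u : ℂ) s := by
        simpa using ((hasDerivAt_id s).sub_const (1 / 2 : ℂ)).mul_const (u : ℂ)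
      exact (h1.cexp).const_mul (Dd S k Δ θ u : ℂ))
  exact key.2.differentiableAt

theorem f1_term (Δ : ℝ) (θ : P → ℝ) (s : ℂ) (m : P →₀ ℕ) :
    ((hs θ m / √(S.nrm m : ℝ) : ℝ) : ℂ) *
      cexp (-((s - 1 / 2) * ((Real.log (S.nrm m) - Δ : ℝ) : ℂ))) =
    (hs θ m : ℂ) * (S.nrm m : ℂ) ^ (-s) * cexp ((s - 1 / 2) * Δ) := by
  have hN : (0 : ℝ) < S.nrm m := by exact_mod_cast nrm_pos S m
  have hN' : (S.nrm m : ℂ) ≠ 0 := by exact_mod_cast (nrm_pos S m).ne'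
  have h1 : (√(S.nrm m : ℝ) : ℝ) = Real.exp (Real.log (S.nrm m) / 2) := by
    rw [Real.sqrt_eq_rpow, Real.rpow_def_of_pos hN]
    congr 1
    ring
  rw [Complex.cpow_def_of_ne_zero hN', ← Complex.natCast_log, h1, div_eq_mul_inv,
    ← Real.exp_neg]
  push_cast
  rw [mul_assoc, mul_assoc, ← Complex.exp_add, ← Complex.exp_add]
  congr 2
  ring

theorem f1_gam_ne {k : ℕ} (hk : 1 ≤ k) (Δ : ℝ) {s : ℂ} (hs : 3 / 2 < s.re) :
    gam S k Δ s ≠ 0 := by
  unfold gam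
  refine mul_ne_zero (Complex.exp_ne_zero _) (pow_ne_zero _ (mul_ne_zero ?_ ?_))
  · have h1 : (((2 * Real.pi : ℝ)) : ℂ) ≠ 0 := by
      exact_mod_cast (by positivity : (2 * Real.pi : ℝ) ≠ 0)
    exact (Complex.cpow_ne_zero_iff_of_exponent_ne_zero (by
      intro h
      have h2 := congrArg Complex.re h
      have h3 : (1 : ℝ) ≤ k := by exact_mod_cast hk
      simp at h2
      linarith)).2 h1
  · apply Complex.Gamma_ne_zero_of_re_pos
    have h3 : (1 : ℝ) ≤ k := by exact_mod_cast hk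
    simp
    linarith

theorem f1_series {k : ℕ} (hk : 1 ≤ k) {Δ : ℝ} {θ : P → ℝ} (H : TD S k Δ θ) {s : ℂ}
    (hs' : 3 / 2 < s.re) :
    cexp (Δ / 2) * f1_L S k Δ θ s =
      gam S k Δ s * ∑' m : P →₀ ℕ, (hs θ m : ℂ) * (S.nrm m : ℂ) ^ (-s) := by
  have hcP : Countable P := P_countable S
  have hkr : (1 : ℝ) ≤ k := by exact_mod_cast hk
  set z : ℂ := s - 1 / 2 with hz
  have hzre : -((k : ℝ) / 2) < z.re := by
    rw [hz]
    simp
    linarith
  obtain ⟨hGi, hGv⟩ := GD_mellin (k := k) (n := S.d) hk S.d_pos hzre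
  set g : ℝ → ℂ := fun u => (GD k S.d u : ℂ) * cexp (z * u) with hg
  set am : (P →₀ ℕ) → ℝ := fun m => Real.log (S.nrm m) - Δ with ham
  set F : (P →₀ ℕ) → ℝ → ℂ := fun m u =>
    ((hs θ m : ℂ) * (S.nrm m : ℂ) ^ (-s) * cexp (z * Δ)) * g (u + am m) with hF
  have hFe : ∀ (m : P →₀ ℕ) (u : ℝ), F m u = ((hs θ m / √(S.nrm m : ℝ) *
      GD k S.d (u + Real.log (S.nrm m) - Δ) : ℝ) : ℂ) * cexp (z * u) := by
    intro m u
    rw [hF]
    simp only []
    rw [← f1_term S Δ θ s m, hg]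
    simp only []
    have e1 : u + am m = u + Real.log (S.nrm m) - Δ := by rw [ham]; ring
    have e2 : cexp (z * ((u + am m : ℝ) : ℂ)) = cexp (z * u) * cexp (z * (am m : ℂ)) := by
      rw [← Complex.exp_add]
      congr 1
      push_cast
      ring
    have e3 : cexp (-((s - 1 / 2) * ((Real.log (S.nrm m) - Δ : ℝ) : ℂ))) * cexp (z * (am m : ℂ)) = 1 := by
      rw [← Complex.exp_add]
      have : -((s - 1 / 2) * ((Real.log (S.nrm m) - Δ : ℝ) : ℂ)) + z * (am m : ℂ) = 0 := by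
        rw [hz, ham]
        ring
      rw [this, Complex.exp_zero]
    rw [e2, ← e1]
    rw [Complex.ofReal_mul]
    linear_combination (((hs θ m / √(S.nrm m : ℝ) : ℝ) : ℂ) * (GD k S.d (u + am m) : ℂ) *
      cexp (z * u)) * e3
  have hFint : ∀ m, Integrable (F m) := fun m => (hGi.comp_add_right (am m)).const_mul _
  have hFsum : Summable (fun m => ∫ u, ‖F m u‖) := by
    have h1 : (fun m => ∫ u, ‖F m u‖) = fun m : P →₀ ℕ =>
        ‖(hs θ m : ℂ) * (S.nrm m : ℂ) ^ (-s)‖ * (‖cexp (z * Δ)‖ * ∫ u, ‖g u‖) := by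
      funext m
      rw [hF]
      simp only [norm_mul]
      rw [integral_const_mul, integral_add_right_eq_self (fun u => ‖g u‖) (am m)]
      ring
    rw [h1]
    exact (hs_sum S H.triv hs').1.mul_right _
  have key := hasSum_integral_of_summable_integral_norm hFint hFsum
  have h2 : ∀ u : ℝ, ∑' m, F m u = (Dd S k Δ θ u : ℂ) * cexp (z * u) := by
    intro u
    unfold Dd
    rw [Complex.ofReal_tsum, ← tsum_mul_right]
    exact tsum_congr fun m => hFe m u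
  have h3 : ∀ m, ∫ u, F m u =
      (hs θ m : ℂ) * (S.nrm m : ℂ) ^ (-s) * (cexp (z * Δ) * ∫ u, g u) := by
    intro m
    rw [hF]
    simp only []
    rw [integral_const_mul, integral_add_right_eq_self g (am m)]
    ring
  have h4 := key.tsum_eq
  simp only [h2, h3] at h4
  rw [tsum_mul_right] at h4
  have h5 : f1_L S k Δ θ s = ∫ u : ℝ, (Dd S k Δ θ u : ℂ) * cexp (z * u) := rfl
  rw [h5, ← h4, hGv]
  unfold gam
  have e1 : (k : ℂ) / 2 + z = s + ((k : ℂ) - 1) / 2 := by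
    rw [hz]
    ring
  have e2 : cexp (Δ / 2) * cexp (z * Δ) = cexp (Δ * s) := by
    rw [← Complex.exp_add, hz]
    congr 1
    ring
  rw [e1, ← e2]
  ring

theorem lam_mellin {k : ℕ} (hk : 1 ≤ k) {Δ : ℝ} {θ : P → ℝ} (H : TD S k Δ θ) :
    ∃ Λ : ℂ → ℂ, IsLam S k Δ θ Λ ∧
    ∀ s : ℂ, Integrable (fun u : ℝ => (Dd S k Δ θ u : ℂ) * cexp ((s - 1 / 2) * u)) ∧
      Λ s = cexp (Δ / 2) * ∫ u : ℝ, (Dd S k Δ θ u : ℂ) * cexp ((s - 1 / 2) * u) := by
  obtain ⟨h1, h2⟩ := f1_diff S hk H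
  refine ⟨fun s => cexp (Δ / 2) * f1_L S k Δ θ s, ⟨h1.const_mul _, fun s hs' => ?_⟩,
    fun s => ⟨h2 s, rfl⟩⟩
  have h3 := f1_series S hk H hs'
  have h4 := f1_gam_ne S hk Δ hs'
  have h5 := (hs_sum S H.triv hs').2.1
  simp only []
  rw [h3, mul_div_cancel_left₀ _ h4]
  exact h5

theorem lam_unique {k : ℕ} (hk : 1 ≤ k) {Δ : ℝ} {θ : P → ℝ} {Λ Λ' : ℂ → ℂ}
    (h : IsLam S k Δ θ Λ) (h' : IsLam S k Δ θ Λ') : Λ = Λ' := by
  refine AnalyticOnNhd.eq_of_eventuallyEq (𝕜 := ℂ) (z₀ := ((2 : ℝ) : ℂ))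
    (fun z _ => h.1.analyticAt z) (fun z _ => h'.1.analyticAt z) ?_
  have hopen : IsOpen {s : ℂ | (3 / 2 : ℝ) < s.re} :=
    isOpen_lt continuous_const Complex.continuous_re
  have hmem : ((2 : ℝ) : ℂ) ∈ {s : ℂ | (3 / 2 : ℝ) < s.re} := by
    rw [Set.mem_ofPred_eq, Complex.ofReal_re]
    norm_num
  filter_upwards [hopen.mem_nhds hmem] with s hs
  have h1 := (h.2 s hs).unique (h'.2 s hs)
  have h2 := f1_gam_ne S hk Δ hs
  field_simp at h1
  exact h1

theorem exists_ldata {k : ℕ} (hk : 1 ≤ k) {Δ : ℝ} {θ : P → ℝ} (H : TD S k Δ θ) {Λ : ℂ → ℂ}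
    (h : IsLam S k Δ θ Λ) :
    ∃ X : ABS.LData, X.A = 2 * c0 S k Δ ∧
      (X.dens = fun u => (Dd S k Δ θ (u + c0 S k Δ) : ℂ) / (GK S k : ℂ)) ∧
      ∀ t : ℝ, analyticOrderNatAt X.Λ (1 / 2 + t * I) = analyticOrderNatAt Λ (1 / 2 + t * I) := by
  have hg : 0 < GK S k := f1_GK_pos S hk
  have hg0 : (GK S k : ℂ) ≠ 0 := by exact_mod_cast hg.ne'
  obtain ⟨Λ₀, h0, hm⟩ := lam_mellin S hk H
  have hΛ : Λ = Λ₀ := lam_unique S hk h h0
  rw [← hΛ] at hm
  set c : ℝ := c0 S k Δ with hc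
  set dens : ℝ → ℂ := fun u => (Dd S k Δ θ (u + c) : ℂ) / (GK S k : ℂ) with hdens
  set E : ℂ → ℂ := fun s => cexp (-((s - 1 / 2) * (c : ℂ))) / (cexp (Δ / 2) * (GK S k : ℂ)) with hE
  set Λ' : ℂ → ℂ := fun s => E s * Λ s with hΛ'
  have hEd : Differentiable ℂ E := by
    rw [hE]
    fun_prop
  have hdiff : Differentiable ℂ Λ' := hEd.mul h.1
  have hnice : ABS.Nice dens := by
    have h1 := (Dd_nice S hk H).1
    have h2 := (h1.shift c).const_mul ((GK S k : ℂ)⁻¹)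
    have h3 : dens = fun u => (GK S k : ℂ)⁻¹ * (Dd S k Δ θ (u + c) : ℂ) := by
      funext u
      rw [hdens]
      simp only []
      rw [div_eq_mul_inv, mul_comm]
    rw [h3]
    exact h2
  have hrep : ∀ t : ℝ, hat dens t = Λ' (1 / 2 + t * I) := by
    intro t
    have h1 := (hm (1 / 2 + t * I)).2
    have h2 : hat dens t = ∫ u : ℝ, (fun v : ℝ => cexp (-(t * (c : ℂ) * I)) / (GK S k : ℂ) *
        ((Dd S k Δ θ v : ℂ) * cexp ((1 / 2 + t * I - 1 / 2) * v))) (u + c) := by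
      unfold SQS.hat
      congr 1
      funext u
      rw [hdens]
      simp only []
      have e1 : cexp (t * u * I) = cexp (-(t * (c : ℂ) * I)) *
          cexp ((1 / 2 + t * I - 1 / 2) * ((u + c : ℝ) : ℂ)) := by
        rw [← Complex.exp_add]
        congr 1
        push_cast
        ring
      rw [e1]
      ring
    rw [h2, integral_add_right_eq_self (fun v : ℝ => cexp (-(t * (c : ℂ) * I)) / (GK S k : ℂ) *
        ((Dd S k Δ θ v : ℂ) * cexp ((1 / 2 + t * I - 1 / 2) * v))) c,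
      integral_const_mul, hΛ', hE]
    simp only []
    rw [h1]
    have e2 : (1 / 2 + (t : ℂ) * I - 1 / 2) * (c : ℂ) = t * (c : ℂ) * I := by ring
    rw [e2]
    have e3 : cexp (Δ / 2) ≠ 0 := Complex.exp_ne_zero _
    field_simp
  obtain ⟨ε, hε, hsym⟩ := H.sym
  have hεε : (ε : ℂ) * ε = 1 := by
    rcases hε with rfl | rfl <;> simp
  have hfe : ∀ u : ℝ, dens u = (ε : ℂ) * starRingEnd ℂ (dens (-(2 * c) - u)) := by
    intro u
    rw [hdens]
    simp only []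
    rw [map_div₀, conj_ofReal, conj_ofReal]
    have e1 : -(2 * c) - u + c = -(u + c) := by ring
    rw [e1, hsym, Complex.ofReal_mul]
    linear_combination (-((Dd S k Δ θ (u + c) : ℂ) / (GK S k : ℂ))) * hεε
  have hε1 : ‖(ε : ℂ)‖ = 1 := by
    rcases hε with rfl | rfl <;> simp
  refine ⟨{ Λ := Λ', A := 2 * c, dens := dens, diff := hdiff, nice := hnice, rep := hrep,
            fe := ⟨ε, hε1, fun t => ABS.fe_of_dens hrep hε1 hfe t⟩ }, rfl, rfl, fun t => ?_⟩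
  show analyticOrderNatAt Λ' (1 / 2 + t * I) = _
  unfold analyticOrderNatAt
  have hmul : analyticOrderAt Λ' (1 / 2 + t * I) =
      analyticOrderAt E (1 / 2 + t * I) + analyticOrderAt Λ (1 / 2 + t * I) :=
    analyticOrderAt_mul (hEd.analyticAt _) (h.1.analyticAt _)
  have hE0 : analyticOrderAt E (1 / 2 + t * I) = 0 := by
    rw [(hEd.analyticAt _).analyticOrderAt_eq_zero, hE]
    simp only []
    apply div_ne_zero (Complex.exp_ne_zero _)
    exact mul_ne_zero (Complex.exp_ne_zero _) hg0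
  rw [hmul, hE0, zero_add]


end Pool.Agent.HS
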