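import Pool.Agent.Lib_helper45.HS.Defs
import Pool.Agent.Lib_helper98.WSF.F2
import Pool.Agent.Lib_helper45.HSF.G0

/-! # HS block F2 (REF), helper23 -/

namespace Pool.Agent.HS

open Complex MeasureTheory Filter Topology
open scoped ENNReal Classical
open Pool.Agent.WA (gd gk)
open Pool.Agent.SEL (NL Adm)
open Pool.Agent.SQS (hat)
open Pool.Agent.WS (st EE RT cc hl Step)
open Finset.HasAntidiagonal (antidiagonal)

variable {P : Type} (S : PSys P)

/-- the Mellin transform of the reference density on the imaginary axis -/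
theorem f2_shift {k n : ℕ} (hk : 1 ≤ k) (hn : 1 ≤ n) (t : ℝ) :
    hat (fun u => (GD k n (u + n * Real.log (k / (4 * Real.pi))) : ℂ) / ((gk k ^ n : ℝ) : ℂ)) t =
      (cexp (-(t * Real.log (k / (4 * Real.pi)) * I)) / (gk k : ℂ) *
        (Gamma ((k : ℂ) / 2 + t * I) *
          ((2 * Real.pi : ℝ) : ℂ) ^ (-((k : ℂ) / 2 + t * I)))) ^ n := by
  have hre : -((k : ℝ) / 2) < ((t : ℂ) * I).re := by
    have h1 : ((t : ℂ) * I).re = 0 := by simp
    rw [h1]
    have h2 : (0 : ℝ) < k := by exact_mod_cast hk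
    linarith
  have h := (GD_mellin (n := n) hk hn hre).2
  have hc : (k : ℂ) / 2 + t * I = (k : ℂ) / 2 + (t : ℂ) * I := rfl
  rw [mul_pow, ← h, div_pow, ← Complex.exp_nat_mul]
  unfold hat
  have e1 : ∀ u : ℝ, (GD k n (u + n * Real.log (k / (4 * Real.pi))) : ℂ) / ((gk k ^ n : ℝ) : ℂ) *
      cexp (t * u * I) = cexp (n * -(t * Real.log (k / (4 * Real.pi)) * I)) / (gk k : ℂ) ^ n *
        (fun w : ℝ => (GD k n w : ℂ) * cexp ((t : ℂ) * I * w))
          (u + n * Real.log (k / (4 * Real.pi))) := by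
    intro u
    have e2 : cexp (t * u * I) = cexp (n * -(t * Real.log (k / (4 * Real.pi)) * I)) *
        cexp ((t : ℂ) * I * ((u + n * Real.log (k / (4 * Real.pi)) : ℝ) : ℂ)) := by
      rw [← Complex.exp_add]
      congr 1
      push_cast
      ring
    rw [e2]
    push_cast
    ring
  simp_rw [e1]
  rw [integral_const_mul, integral_add_right_eq_self
    (fun w : ℝ => (GD k n w : ℂ) * cexp ((t : ℂ) * I * w))]

theorem f2_pow {k : ℕ} (hk : 1 ≤ k) (t : ℝ) :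
    hat (fun u => (GD k S.d (u + cG S k) : ℂ) / (GK S k : ℂ)) t =
      hat (fun u => ((WS.f2_h k u : ℝ) : ℂ)) t ^ S.d := by
  have h1 := f2_shift (k := k) hk S.d_pos t
  have h2 := f2_shift (k := k) hk le_rfl t
  have h3 : (fun u : ℝ => (GD k 1 (u + (1 : ℕ) * Real.log (k / (4 * Real.pi))) : ℂ) /
      ((gk k ^ 1 : ℝ) : ℂ)) = fun u => ((WS.f2_h k u : ℝ) : ℂ) := by
    funext u
    have h4 : GD k 1 = gd k 1 := rfl
    rw [h4]
    unfold WS.f2_h WS.c0
    rw [Nat.cast_one, one_mul, pow_one]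
    push_cast
    rfl
  rw [h3, pow_one] at h2
  rw [h2]
  exact h1

theorem f2_Int {k : ℕ} (hk : 1 ≤ k) : Integrable (GD k S.d) := by
  have h := (GD_mellin (z := 0) (n := S.d) hk S.d_pos (by
    have h2 : (0 : ℝ) < k := by exact_mod_cast hk
    simp only [Complex.zero_re]
    linarith)).1
  have e : (fun u : ℝ => (GD k S.d u : ℂ) * cexp (0 * u)) = fun u => ((GD k S.d u : ℝ) : ℂ) := by
    funext u
    rw [zero_mul, Complex.exp_zero, mul_one]
  rw [e] at h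
  have h3 := h.re
  simpa using h3

theorem f2_gk {k : ℕ} (hk : 1 ≤ k) : 0 < GK S k := pow_pos (WA.gk_pos hk) _

theorem ref_nice {k : ℕ} (hk : 1 ≤ k) :
    ABS.Nice (fun u => (GD k S.d (u + cG S k) : ℂ) / (GK S k : ℂ)) ∧
      ∫ u, ‖(GD k S.d (u + cG S k) : ℂ) / (GK S k : ℂ)‖ ≤ 1 := by
  have hg := f2_gk S hk
  have hI := f2_Int S hk
  have en : ∀ u, ‖(GD k S.d (u + cG S k) : ℂ) / (GK S k : ℂ)‖ =
      GD k S.d (u + cG S k) / GK S k := fun u => by
    rw [norm_div, Complex.norm_real, Complex.norm_real, Real.norm_of_nonneg (GD_nonneg k _ _),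
      Real.norm_of_nonneg hg.le]
  have hint : Integrable (fun u => GD k S.d (u + cG S k) / GK S k) :=
    (hI.comp_add_right (cG S k)).div_const _
  have hcont : Continuous (fun u => (GD k S.d (u + cG S k) : ℂ) / (GK S k : ℂ)) :=
    (Complex.continuous_ofReal.comp ((GD_cont hk).comp (continuous_id.add continuous_const))).div_const
      _
  refine ⟨⟨hcont.measurable, ?_, ?_⟩, ?_⟩
  · have e : (fun u => (GD k S.d (u + cG S k) : ℂ) / (GK S k : ℂ)) =
        fun u => ((GD k S.d (u + cG S k) / GK S k : ℝ) : ℂ) := by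
      funext u
      push_cast
      rfl
    rw [e]
    exact hint.ofReal
  · obtain ⟨C, _, hC⟩ := GD_up (n := S.d) hk 0 le_rfl
    refine ⟨C / GK S k, fun u => ?_⟩
    rw [en]
    apply div_le_div_of_nonneg_right _ hg.le
    have h1 := hC (u + cG S k)
    rw [zero_mul, neg_zero, Real.exp_zero, mul_one] at h1
    exact h1
  · simp only [en]
    rw [integral_div, integral_add_right_eq_self (fun u => GD k S.d u), GD_int hk S.d_pos]
    exact (div_self (f2_gk S hk).ne').le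

theorem f2_le {k : ℕ} (hk : 1 ≤ k) (t : ℝ) :
    ‖hat (fun u => ((WS.f2_h k u : ℝ) : ℂ)) t‖ ≤ 1 := by
  unfold hat
  refine (norm_integral_le_integral_norm _).trans ?_
  have e : ∀ u : ℝ, ‖((WS.f2_h k u : ℝ) : ℂ) * cexp (t * u * I)‖ = WS.f2_h k u := by
    intro u
    have h1 : (t : ℂ) * u = ((t * u : ℝ) : ℂ) := by push_cast; rfl
    rw [norm_mul, h1, Complex.norm_exp_ofReal_mul_I, mul_one, Complex.norm_real,
      Real.norm_of_nonneg (WS.f2_h_nonneg hk u)]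
  simp_rw [e]
  exact (WS.f2_h_one hk).le

theorem f2_powdiff (a b : ℂ) (ha : ‖a‖ ≤ 1) (hb : ‖b‖ ≤ 1) (n : ℕ) :
    ‖a ^ n - b ^ n‖ ≤ n * ‖a - b‖ := by
  induction n with
  | zero => simp
  | succ n ih =>
    have e : a ^ (n + 1) - b ^ (n + 1) = a * (a ^ n - b ^ n) + (a - b) * b ^ n := by ring
    rw [e]
    refine (norm_add_le _ _).trans ?_
    rw [norm_mul, norm_mul, norm_pow]
    have h1 : ‖a‖ * ‖a ^ n - b ^ n‖ ≤ 1 * (n * ‖a - b‖) :=
      mul_le_mul ha ih (norm_nonneg _) zero_le_one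
    have h2 : ‖a - b‖ * ‖b‖ ^ n ≤ ‖a - b‖ * 1 :=
      mul_le_mul_of_nonneg_left (pow_le_one₀ (norm_nonneg _) hb) (norm_nonneg _)
    push_cast
    linarith

theorem ref_low : ∃ (c₁ : ℝ) (k₀ : ℕ), 0 < c₁ ∧ ∀ k : ℕ, k₀ ≤ k →
    (∀ t : ℝ, |t| ≤ c₁ * √k →
      1 / 2 ≤ ‖hat (fun u => (GD k S.d (u + cG S k) : ℂ) / (GK S k : ℂ)) t‖) ∧
    ∀ t s : ℝ, |t| ≤ c₁ * √k → |s| ≤ c₁ * √k → |t - s| < 1 →
      ‖hat (fun u => (GD k S.d (u + cG S k) : ℂ) / (GK S k : ℂ)) t -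
        hat (fun u => (GD k S.d (u + cG S k) : ℂ) / (GK S k : ℂ)) s‖ ≤ 1 / 2 / 2 := by
  obtain ⟨C, k₀, hC, h⟩ := WS.f2_moment
  have hd : (0 : ℝ) < S.d := by exact_mod_cast S.d_pos
  refine ⟨1 / (S.d * (C + 1)), k₀ + ⌈(2 * (S.d * (C + 1))) ^ 2⌉₊, by positivity, fun k hk => ?_⟩
  obtain ⟨hk1, h1, h2⟩ := h k (by omega)
  have hkr : (0 : ℝ) < k := by exact_mod_cast hk1
  have hsq : 0 < √(k : ℝ) := Real.sqrt_pos.2 hkr
  have hbig : 2 * (S.d * (C + 1)) ≤ √(k : ℝ) := by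
    apply Real.le_sqrt_of_sq_le
    have h3 : (2 * (S.d * (C + 1))) ^ 2 ≤ (⌈(2 * (S.d * (C + 1))) ^ 2⌉₊ : ℝ) := Nat.le_ceil _
    have h4 : ((k₀ + ⌈(2 * (S.d * (C + 1))) ^ 2⌉₊ : ℕ) : ℝ) ≤ k := by exact_mod_cast hk
    push_cast at h4
    have h5 : (0 : ℝ) ≤ k₀ := by positivity
    linarith
  have hdiff : ∀ t s : ℝ, ‖hat (fun u => ((WS.f2_h k u : ℝ) : ℂ)) t ^ S.d -
      hat (fun u => ((WS.f2_h k u : ℝ) : ℂ)) s ^ S.d‖ ≤
      S.d * (|t - s| * ((C + 1) / (2 * √k))) := by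
    intro t s
    refine (f2_powdiff _ _ (f2_le hk1 t) (f2_le hk1 s) S.d).trans ?_
    exact mul_le_mul_of_nonneg_left (WS.f2_diff hk1 h1 h2 t s) hd.le
  refine ⟨fun t ht => ?_, fun t s _ _ hts => ?_⟩
  · rw [f2_pow S hk1]
    have h3 := hdiff t 0
    have h4 : hat (fun u => ((WS.f2_h k u : ℝ) : ℂ)) 0 = 1 := by
      unfold hat
      simp only [ofReal_zero, zero_mul, Complex.exp_zero, mul_one]
      rw [integral_complex_ofReal, WS.f2_h_one hk1, ofReal_one]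
    rw [h4, one_pow, sub_zero] at h3
    have h5 : S.d * (|t| * ((C + 1) / (2 * √(k : ℝ)))) ≤ 1 / 2 := by
      calc (S.d : ℝ) * (|t| * ((C + 1) / (2 * √(k : ℝ)))) ≤
            S.d * ((1 / (S.d * (C + 1)) * √k) * ((C + 1) / (2 * √(k : ℝ)))) :=
            mul_le_mul_of_nonneg_left (mul_le_mul_of_nonneg_right ht (by positivity)) hd.le
        _ = 1 / 2 := by field_simp
    have h6 : ‖(1 : ℂ)‖ ≤ ‖hat (fun u => ((WS.f2_h k u : ℝ) : ℂ)) t ^ S.d‖ +
        ‖hat (fun u => ((WS.f2_h k u : ℝ) : ℂ)) t ^ S.d - 1‖ := by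
      have := norm_sub_le (hat (fun u => ((WS.f2_h k u : ℝ) : ℂ)) t ^ S.d)
        (hat (fun u => ((WS.f2_h k u : ℝ) : ℂ)) t ^ S.d - 1)
      simpa using this
    rw [norm_one] at h6
    linarith
  · rw [f2_pow S hk1, f2_pow S hk1]
    have h3 := hdiff t s
    have h5 : S.d * (|t - s| * ((C + 1) / (2 * √(k : ℝ)))) ≤ 1 / 4 := by
      calc (S.d : ℝ) * (|t - s| * ((C + 1) / (2 * √(k : ℝ)))) ≤
            S.d * (1 * ((C + 1) / (2 * (2 * (S.d * (C + 1)))))) := by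
            apply mul_le_mul_of_nonneg_left _ hd.le
            apply mul_le_mul hts.le _ (by positivity) (by norm_num)
            apply div_le_div_of_nonneg_left (by positivity) (by positivity)
            linarith
        _ = 1 / 4 := by field_simp; norm_num
    linarith


end Pool.Agent.HS
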