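import Pool.Agent.Lib_helper45.HS.Defs
import Pool.Agent.Lib_helper98.WSF.H1B
import Pool.Agent.Lib_helper45.HSF.P0

/-!
# Hilbert-Selberg, block H1B (HSM): Hecke multiplicativity
-/

namespace Pool.Agent.HS

open Complex MeasureTheory Filter Topology
open scoped ENNReal Classical
open Pool.Agent.WA (gd gk)
open Pool.Agent.SEL (NL Adm)
open Pool.Agent.SQS (hat)
open Pool.Agent.WS (st EE RT cc hl Step)
open Finset.HasAntidiagonal (antidiagonal)

variable {P : Type} (S : PSys P)

/-- the sum over the divisors of a product of local functions -/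
theorem h1b_dv (g : P →₀ ℕ) (F : Finset P) (hF : g.support ⊆ F) (φ : P → ℕ → ℝ) :
    ∑ a ∈ dv g, ∏ p ∈ F, φ p (a p) = ∏ p ∈ F, ∑ u ∈ Finset.range (g p + 1), φ p u := by
  have h1 : dv g = F.finsupp (fun p => Finset.range (g p + 1)) := by
    ext a
    rw [mem_dv, Finset.mem_finsupp_iff]
    constructor
    · intro h
      refine ⟨?_, fun p _ => ?_⟩
      · intro p hp
        refine hF ?_
        rw [Finsupp.mem_support_iff] at hp ⊢
        have := h p
        omega
      · rw [Finset.mem_range]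
        have := h p
        omega
    · rintro ⟨h2, h3⟩ p
      by_cases hp : p ∈ F
      · have := Finset.mem_range.1 (h3 p hp)
        omega
      · have : p ∉ a.support := fun h => hp (h2 h)
        rw [Finsupp.notMem_support_iff.1 this]
        exact Nat.zero_le _
  rw [h1, Finset.prod_sum]
  unfold Finset.finsupp
  rw [Finset.sum_map]
  refine Finset.sum_congr rfl fun f _ => ?_
  rw [← Finset.prod_attach F (fun p => φ p _)]
  refine Finset.prod_congr rfl fun x _ => ?_
  congr 1
  exact Finsupp.indicator_of_mem x.2 f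

theorem h1b_prod (θ : P → ℝ) (m : P →₀ ℕ) (F : Finset P) (hF : m.support ⊆ F) :
    hs θ m = ∏ p ∈ F, SEL.Uc (θ p) (m p) := by
  unfold hs
  exact Finsupp.prod_of_support_subset m hF _ (fun p _ => rfl)

theorem h1b_loc (x : ℝ) (i j : ℕ) : SEL.Uc x i * SEL.Uc x j =
    ∑ g ∈ Finset.range (min i j + 1), SEL.Uc x (i + j - 2 * g) := by
  rcases le_total i j with h | h
  · rw [min_eq_left h, mul_comm, WS.h1b_U _ _ _ h, add_comm i j]
  · rw [min_eq_right h, WS.h1b_U _ _ _ h]

theorem hs_mul (θ : P → ℝ) (m n : P →₀ ℕ) :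
    hs θ m * hs θ n = ∑ a ∈ dv (m ⊓ n), hs θ (m + n - (a + a)) := by
  set F := m.support ∪ n.support with hF
  have hm : m.support ⊆ F := Finset.subset_union_left
  have hn : n.support ⊆ F := Finset.subset_union_right
  have hmn : (m ⊓ n).support ⊆ F := by
    intro p hp
    refine hm ?_
    rw [Finsupp.mem_support_iff] at hp ⊢
    intro h
    apply hp
    rw [Finsupp.inf_apply, h]
    exact Nat.zero_min _
  rw [h1b_prod θ m F hm, h1b_prod θ n F hn, ← Finset.prod_mul_distrib]
  have h1 : ∀ a ∈ dv (m ⊓ n), hs θ (m + n - (a + a)) =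
      ∏ p ∈ F, SEL.Uc (θ p) (m p + n p - 2 * a p) := by
    intro a _
    have hs1 : (m + n - (a + a)).support ⊆ F := by
      intro p hp
      rw [Finsupp.mem_support_iff, Finsupp.tsub_apply, Finsupp.add_apply] at hp
      rw [hF, Finset.mem_union, Finsupp.mem_support_iff, Finsupp.mem_support_iff]
      omega
    rw [h1b_prod θ _ F hs1]
    refine Finset.prod_congr rfl fun p _ => ?_
    rw [Finsupp.tsub_apply, Finsupp.add_apply, Finsupp.add_apply, two_mul]
  rw [Finset.sum_congr rfl h1,
    h1b_dv (m ⊓ n) F hmn (fun p u => SEL.Uc (θ p) (m p + n p - 2 * u))]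
  refine Finset.prod_congr rfl fun p _ => ?_
  rw [h1b_loc, Finsupp.inf_apply]

theorem hs_sq (θ : P → ℝ) (m : P →₀ ℕ) : hs θ m ^ 2 = ∑ l ∈ dv m, hs θ (l + l) := by
  rw [sq, hs_mul, inf_idem]
  refine Finset.sum_nbij' (fun a => m - a) (fun a => m - a) ?_ ?_ ?_ ?_ ?_
  · intro a _
    rw [mem_dv]
    exact tsub_le_self
  · intro a _
    rw [mem_dv]
    exact tsub_le_self
  · intro a ha
    exact tsub_tsub_cancel_of_le (mem_dv.1 ha)
  · intro a ha
    exact tsub_tsub_cancel_of_le (mem_dv.1 ha)
  · intro a ha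
    have h := mem_dv.1 ha
    congr 1
    ext p
    have := h p
    simp only [Finsupp.tsub_apply, Finsupp.add_apply]
    omega

end Pool.Agent.HS
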