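import Pool.Agent.Lib_helper45.HS.Defs
import Pool.Agent.Lib_helper45.HSF.G0
import Pool.Agent.Lib_helper45.HSF.H1B
import Pool.Agent.Lib_helper45.HSF.P0
import Pool.Agent.Lib_helper45.HSF.T2

/-! # Hilbert-Selberg, PART I: block H3 (FAR), the Hecke operators -/

namespace Pool.Agent.HS

open Complex MeasureTheory Filter Topology
open scoped ENNReal Classical
open Pool.Agent.WA (gd gk)
open Pool.Agent.SEL (NL Adm)
open Pool.Agent.SQS (hat)
open Pool.Agent.WS (st EE RT cc hl Step)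
open Finset.HasAntidiagonal (antidiagonal)

variable {P : Type} (S : PSys P)

theorem h3_pos (m : P →₀ ℕ) : (0 : ℝ) < S.nrm m := by exact_mod_cast nrm_pos S m

theorem h3_one (m : P →₀ ℕ) : (1 : ℝ) ≤ S.nrm m := by exact_mod_cast nrm_pos S m

theorem h3_sub {r : P →₀ ℕ} {p : (P →₀ ℕ) × (P →₀ ℕ)} (hp : p ∈ antidiagonal r) :
    r - p.2 = p.1 ∧ p.2 ≤ r ∧ p.1 ≤ r := by
  have h := Finset.HasAntidiagonal.mem_antidiagonal.1 hp
  refine ⟨?_, ?_, ?_⟩
  · rw [← h, add_tsub_cancel_right]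
  · rw [← h]
    exact le_add_self
  · rw [← h]
    exact le_self_add

theorem h3_swap (R : Finset (P →₀ ℕ)) (F : (P →₀ ℕ) → (P →₀ ℕ) → ℂ) (c : P →₀ ℕ) :
    ∑ b ∈ (R.biUnion dv).filter (fun b => c ≤ b), ∑ r ∈ R.filter (fun r => b ≤ r), F r b =
      ∑ r ∈ R, ∑ p ∈ (antidiagonal r).filter (fun p => c ≤ p.2), F r p.2 := by
  have h1 : ∑ b ∈ (R.biUnion dv).filter (fun b => c ≤ b), ∑ r ∈ R.filter (fun r => b ≤ r), F r b =
      ∑ r ∈ R, ∑ b ∈ (dv r).filter (fun b => c ≤ b), F r b := by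
    refine Finset.sum_comm' fun b r => ?_
    simp only [Finset.mem_filter, Finset.mem_biUnion, mem_dv]
    constructor
    · rintro ⟨⟨_, h2⟩, h3, h4⟩
      exact ⟨⟨h4, h2⟩, h3⟩
    · rintro ⟨⟨h4, h2⟩, h3⟩
      exact ⟨⟨⟨r, h3, h4⟩, h2⟩, h3, h4⟩
  rw [h1]
  refine Finset.sum_congr rfl fun r _ => ?_
  symm
  refine Finset.sum_nbij' (fun p => p.2) (fun b => (r - b, b)) ?_ ?_ ?_ ?_ ?_
  · intro p hp
    rw [Finset.mem_filter] at hp ⊢
    exact ⟨mem_dv.2 (h3_sub hp.1).2.1, hp.2⟩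
  · intro b hb
    rw [Finset.mem_filter] at hb ⊢
    refine ⟨Finset.HasAntidiagonal.mem_antidiagonal.2 ?_, hb.2⟩
    exact tsub_add_cancel_of_le (mem_dv.1 hb.1)
  · intro p hp
    rw [Finset.mem_filter] at hp
    exact Prod.ext (h3_sub hp.1).1 rfl
  · intro b _
    rfl
  · intro p _
    rfl

theorem h3_num {a b m r : ℝ} (ha : 0 < a) (hb : 0 < b) (hm : 0 < m) (hr : r = a * b) :
    1 / √(a * m) = 1 / √r * (b * (1 / √(b * m))) := by
  rw [hr, Real.sqrt_mul ha.le, Real.sqrt_mul ha.le, Real.sqrt_mul hb.le]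
  have h1 : √b * √b = b := Real.mul_self_sqrt hb.le
  have h2 := Real.sqrt_pos.2 ha
  have h3 := Real.sqrt_pos.2 hb
  have h4 := Real.sqrt_pos.2 hm
  field_simp
  nlinarith

theorem hecke_Dd {k : ℕ} (hk : 1 ≤ k) (Δ : ℝ) {θ : P → ℝ}
    (hθ : ∀ p, |θ p| ≤ √(S.q p : ℝ) + 1 / √(S.q p : ℝ)) (r : P →₀ ℕ) (v : ℝ) :
    hs θ r * Dd S k Δ θ v = 1 / √(S.nrm r : ℝ) * ∑ p ∈ antidiagonal r,
      Db S k Δ θ p.2 (v + Real.log ((S.nrm p.1 : ℝ) / S.nrm p.2)) := by
  set g : (P →₀ ℕ) → (P →₀ ℕ) → ℝ := fun a n => if a ≤ n then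
    hs θ (r + n - (a + a)) / √(S.nrm n : ℝ) * GD k S.d (v + Real.log (S.nrm n) - Δ) else 0 with hg
  -- each term of the antidiagonal
  have h1 : ∀ p ∈ antidiagonal r, HasSum (g p.1) (1 / √(S.nrm r : ℝ) *
      Db S k Δ θ p.2 (v + Real.log ((S.nrm p.1 : ℝ) / S.nrm p.2))) := by
    rintro ⟨a, b⟩ hp
    have hab : a + b = r := Finset.HasAntidiagonal.mem_antidiagonal.1 hp
    show HasSum (g a) (1 / √(S.nrm r : ℝ) *
      Db S k Δ θ b (v + Real.log ((S.nrm a : ℝ) / S.nrm b)))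
    have hinj : Function.Injective (fun m : P →₀ ℕ => a + m) := add_right_injective a
    have hran : ∀ n ∉ Set.range (fun m : P →₀ ℕ => a + m), g a n = 0 := by
      intro n hn
      simp only [hg]
      rw [if_neg]
      intro h2
      exact hn ⟨n - a, add_tsub_cancel_of_le h2⟩
    rw [← hinj.hasSum_iff hran]
    have ha0 := h3_pos S a
    have hb0 := h3_pos S b
    have hrn : (S.nrm r : ℝ) = S.nrm a * S.nrm b := by
      rw [← hab, nrm_add]
      push_cast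
      ring
    have h3 : ∀ m : P →₀ ℕ, (g a ∘ fun m : P →₀ ℕ => a + m) m = 1 / √(S.nrm r : ℝ) *
        ((S.nrm b : ℝ) * (hs θ (b + m) / √(S.nrm (b + m) : ℝ) *
        GD k S.d (v + Real.log ((S.nrm a : ℝ) / S.nrm b) + Real.log (S.nrm (b + m)) - Δ))) := by
      intro m
      have hm0 := h3_pos S m
      have h4 : r + (a + m) - (a + a) = b + m := by
        rw [← hab, show a + b + (a + m) = b + m + (a + a) by abel, add_tsub_cancel_right]
      have h5 : (S.nrm (a + m) : ℝ) = S.nrm a * S.nrm m := by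
        rw [nrm_add]
        push_cast
        ring
      have h6 : (S.nrm (b + m) : ℝ) = S.nrm b * S.nrm m := by
        rw [nrm_add]
        push_cast
        ring
      have h7 : Real.log ((S.nrm a : ℝ) / S.nrm b) + Real.log (S.nrm (b + m)) =
          Real.log (S.nrm (a + m)) := by
        rw [h5, h6, Real.log_div ha0.ne' hb0.ne', Real.log_mul hb0.ne' hm0.ne',
          Real.log_mul ha0.ne' hm0.ne']
        ring
      simp only [Function.comp, hg]
      rw [if_pos le_self_add, h4, add_assoc v, h7, h5, h6]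
      have h8 := h3_num ha0 hb0 hm0 hrn
      rw [div_eq_mul_one_div (hs θ (b + m)), h8]
      ring
    have h4 := (Db_facts S hk Δ hθ b).1 (v + Real.log ((S.nrm a : ℝ) / S.nrm b))
    have h5 : Summable (fun m : P →₀ ℕ => hs θ (b + m) / √(S.nrm (b + m) : ℝ) *
        GD k S.d (v + Real.log ((S.nrm a : ℝ) / S.nrm b) + Real.log (S.nrm (b + m)) - Δ)) := by
      refine Summable.of_norm (h4.congr fun m => ?_)
      rw [norm_mul, norm_div, Real.norm_eq_abs, Real.norm_eq_abs, Real.norm_eq_abs,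
        abs_of_nonneg (Real.sqrt_nonneg _), abs_of_nonneg (GD_nonneg _ _ _)]
    have h6 := (h5.hasSum.mul_left (S.nrm b : ℝ)).mul_left (1 / √(S.nrm r : ℝ))
    rw [funext h3]
    exact h6
  -- the sum over the antidiagonal
  have h2 := hasSum_sum h1
  have h3 : ∀ n : P →₀ ℕ, ∑ p ∈ antidiagonal r, g p.1 n = hs θ r *
      (hs θ n / √(S.nrm n : ℝ) * GD k S.d (v + Real.log (S.nrm n) - Δ)) := by
    intro n
    have h4 : hs θ r * (hs θ n / √(S.nrm n : ℝ) * GD k S.d (v + Real.log (S.nrm n) - Δ)) =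
        (hs θ r * hs θ n) * (1 / √(S.nrm n : ℝ) * GD k S.d (v + Real.log (S.nrm n) - Δ)) := by
      ring
    rw [h4, hs_mul, Finset.sum_mul]
    simp only [hg]
    rw [← Finset.sum_filter]
    have h5 : dv (r ⊓ n) = ((antidiagonal r).filter (fun p => p.1 ≤ n)).image Prod.fst := by
      ext a
      rw [mem_dv, Finset.mem_image]
      constructor
      · intro h6
        refine ⟨(a, r - a), Finset.mem_filter.2 ⟨Finset.HasAntidiagonal.mem_antidiagonal.2
          (add_tsub_cancel_of_le (h6.trans inf_le_left)), h6.trans inf_le_right⟩, rfl⟩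
      · rintro ⟨p, hp, rfl⟩
        rw [Finset.mem_filter] at hp
        exact le_inf (h3_sub hp.1).2.2 hp.2
    rw [h5, Finset.sum_image]
    · refine Finset.sum_congr rfl fun p _ => ?_
      ring
    · intro p hp p' hp' h6
      rw [Finset.mem_coe, Finset.mem_filter] at hp hp'
      have h7 := Finset.HasAntidiagonal.mem_antidiagonal.1 hp.1
      have h8 := Finset.HasAntidiagonal.mem_antidiagonal.1 hp'.1
      refine Prod.ext h6 ?_
      rw [← h8, ← h6] at h7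
      exact add_left_cancel h7
  have h4 : HasSum (fun n : P →₀ ℕ => hs θ r *
      (hs θ n / √(S.nrm n : ℝ) * GD k S.d (v + Real.log (S.nrm n) - Δ)))
      (∑ p ∈ antidiagonal r, 1 / √(S.nrm r : ℝ) *
        Db S k Δ θ p.2 (v + Real.log ((S.nrm p.1 : ℝ) / S.nrm p.2))) := by
    rw [← funext h3]
    exact h2
  rw [Dd, ← tsum_mul_left, h4.tsum_eq, Finset.mul_sum]

theorem h3_logle {X : ℕ} {r b : P →₀ ℕ} (hr : S.nrm r ≤ X) (hb : b ≤ r) :
    |Real.log ((S.nrm (r - b) : ℝ) / S.nrm b)| ≤ Real.log X := by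
  have h1 : S.nrm (r - b) ≤ X := (nrm_mono S tsub_le_self).trans hr
  have h2 : S.nrm b ≤ X := (nrm_mono S hb).trans hr
  have h3 : (S.nrm (r - b) : ℝ) ≤ X := by exact_mod_cast h1
  have h4 : (S.nrm b : ℝ) ≤ X := by exact_mod_cast h2
  have h5 := h3_one S (r - b)
  have h6 := h3_one S b
  rw [Real.log_div (h3_pos S _).ne' (h3_pos S _).ne', abs_le]
  have h7 := Real.log_le_log (h3_pos S _) h3
  have h8 := Real.log_le_log (h3_pos S _) h4
  have h9 := Real.log_nonneg h5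
  have h10 := Real.log_nonneg h6
  constructor <;> linarith

theorem h3_shift {W : ℝ → ℂ} {V X x : ℝ} (hW : ∀ u, V < |u| → W u = 0) (hx : |x| ≤ X) {u : ℝ}
    (hu : V + X < |u|) : W (u - x) = 0 := by
  refine hW _ ?_
  have h1 := abs_sub_abs_le_abs_sub u x
  linarith

theorem phf_bound {X : ℕ} {R : Finset (P →₀ ℕ)} (hR : ∀ r ∈ R, S.nrm r ≤ X)
    {Wr : (P →₀ ℕ) → ℝ → ℂ} {M V : ℝ} (hm : ∀ r, Measurable (Wr r)) (hb : ∀ r u, ‖Wr r u‖ ≤ M)
    (hWs : ∀ r u, V < |u| → Wr r u = 0) (b : P →₀ ℕ) :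
    Measurable (PhF S R Wr b) ∧ (∀ u, ‖PhF S R Wr b u‖ ≤ R.card * M) ∧
      ∀ u, V + Real.log X < |u| → PhF S R Wr b u = 0 := by
  have hM : 0 ≤ M := (norm_nonneg _).trans (hb 0 0)
  refine ⟨?_, fun u => ?_, fun u hu => ?_⟩
  · unfold PhF
    refine Finset.measurable_fun_sum _ fun r _ => ?_
    exact ((hm r).comp (measurable_id.sub_const _)).const_mul _
  · have h1 : ∀ r ∈ R.filter (fun r => b ≤ r), ‖((1 / √(S.nrm r : ℝ) : ℝ) : ℂ) *
        Wr r (u - Real.log ((S.nrm (r - b) : ℝ) / S.nrm b))‖ ≤ M := by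
      intro r _
      rw [norm_mul, Complex.norm_real, Real.norm_eq_abs, abs_of_nonneg (by positivity)]
      have h2 : 1 / √(S.nrm r : ℝ) ≤ 1 := by
        rw [div_le_one (Real.sqrt_pos.2 (h3_pos S r))]
        exact Real.one_le_sqrt.2 (h3_one S r)
      calc 1 / √(S.nrm r : ℝ) * ‖Wr r (u - Real.log ((S.nrm (r - b) : ℝ) / S.nrm b))‖ ≤ 1 * M :=
            mul_le_mul h2 (hb _ _) (norm_nonneg _) zero_le_one
        _ = M := one_mul M
    calc ‖PhF S R Wr b u‖ ≤ ∑ r ∈ R.filter (fun r => b ≤ r), M :=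
          (norm_sum_le _ _).trans (Finset.sum_le_sum h1)
      _ = (R.filter (fun r => b ≤ r)).card * M := by rw [Finset.sum_const, nsmul_eq_mul]
      _ ≤ R.card * M := mul_le_mul_of_nonneg_right
          (by exact_mod_cast Finset.card_filter_le _ _) hM
  · refine Finset.sum_eq_zero fun r hr => ?_
    rw [Finset.mem_filter] at hr
    rw [h3_shift (hWs r) (h3_logle S (hR r hr.1) hr.2) hu, mul_zero]

theorem psf_eq (R : Finset (P →₀ ℕ)) (Wr : (P →₀ ℕ) → ℝ → ℂ) (c : P →₀ ℕ) (u : ℝ) :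
    ∑ b ∈ (R.biUnion dv).filter (fun b => c ≤ b), PhF S R Wr b u = PsF S R Wr c u := by
  unfold PhF PsF
  rw [h3_swap R (fun r b => ((1 / √(S.nrm r : ℝ) : ℝ) : ℂ) *
    Wr r (u - Real.log ((S.nrm (r - b) : ℝ) / S.nrm b))) c]
  refine Finset.sum_congr rfl fun r _ => Finset.sum_congr rfl fun p hp => ?_
  rw [(h3_sub (Finset.mem_filter.1 hp).1).1]

theorem h3_int {W : ℝ → ℂ} (hm : Measurable W) {M V : ℝ} (hb : ∀ u, ‖W u‖ ≤ M)
    (hWs : ∀ u, V < |u| → W u = 0) {D : ℝ → ℝ} (hD : Continuous D) (x : ℝ) :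
    Integrable (fun u : ℝ => W (u - x) * (D u : ℂ)) := by
  have h0 : ∀ u, u ∉ Set.Icc (-(V + |x|)) (V + |x|) → W (u - x) * (D u : ℂ) = 0 := by
    intro u hu
    have h1 : V + |x| < |u| := by
      by_contra h2
      exact hu (abs_le.1 (not_lt.1 h2))
    rw [h3_shift hWs le_rfl h1, zero_mul]
  have h1 : IntegrableOn (fun u : ℝ => (D u : ℂ)) (Set.Icc (-(V + |x|)) (V + |x|)) :=
    (Complex.continuous_ofReal.comp hD).continuousOn.integrableOn_compact isCompact_Icc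
  have h2 : IntegrableOn (fun u : ℝ => W (u - x) * (D u : ℂ))
      (Set.Icc (-(V + |x|)) (V + |x|)) := by
    refine h1.bdd_mul (c := M) ?_ (Eventually.of_forall fun u => hb _)
    exact (hm.comp (measurable_id.sub_const x)).aestronglyMeasurable
  exact (integrableOn_iff_integrable_of_support_subset
    (Function.support_subset_iff'.2 h0)).1 h2

theorem farey_lin {k : ℕ} (hk : 1 ≤ k) (Δ : ℝ) {θ : P → ℝ}
    (hθ : ∀ p, |θ p| ≤ √(S.q p : ℝ) + 1 / √(S.q p : ℝ)) (R : Finset (P →₀ ℕ))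
    {Wr : (P →₀ ℕ) → ℝ → ℂ} {M V : ℝ} (hm : ∀ r, Measurable (Wr r)) (hb : ∀ r u, ‖Wr r u‖ ≤ M)
    (hWs : ∀ r u, V < |u| → Wr r u = 0) :
    ∑ r ∈ R, (hs θ r : ℂ) * ∫ u : ℝ, Wr r u * (Dd S k Δ θ u : ℂ) =
      ∑ b ∈ R.biUnion dv, ∫ u : ℝ, PhF S R Wr b u * (Db S k Δ θ b u : ℂ) := by
  set F : (P →₀ ℕ) → (P →₀ ℕ) → ℂ := fun r b => ∫ u : ℝ, ((1 / √(S.nrm r : ℝ) : ℝ) : ℂ) *
    (Wr r (u - Real.log ((S.nrm (r - b) : ℝ) / S.nrm b)) * (Db S k Δ θ b u : ℂ)) with hF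
  have hint : ∀ r b x, Integrable (fun u : ℝ => Wr r (u - x) * (Db S k Δ θ b u : ℂ)) :=
    fun r b x => h3_int (hm r) (hb r) (hWs r) (Db_facts S hk Δ hθ b).2 x
  -- the right side
  have h1 : ∑ b ∈ R.biUnion dv, ∫ u : ℝ, PhF S R Wr b u * (Db S k Δ θ b u : ℂ) =
      ∑ b ∈ (R.biUnion dv).filter (fun b => 0 ≤ b), ∑ r ∈ R.filter (fun r => b ≤ r), F r b := by
    rw [Finset.filter_true_of_mem fun b _ => zero_le]
    refine Finset.sum_congr rfl fun b _ => ?_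
    simp only [hF]
    rw [← integral_finsetSum _ fun r _ => (hint r b _).const_mul _]
    refine integral_congr_ae (Eventually.of_forall fun u => ?_)
    simp only [PhF]
    rw [Finset.sum_mul]
    exact Finset.sum_congr rfl fun r _ => mul_assoc _ _ _
  rw [h1, h3_swap R F 0]
  refine Finset.sum_congr rfl fun r _ => ?_
  rw [Finset.filter_true_of_mem fun p _ => zero_le, ← integral_const_mul]
  -- the left side
  have h2 : ∀ u : ℝ, (hs θ r : ℂ) * (Wr r u * (Dd S k Δ θ u : ℂ)) = ∑ p ∈ antidiagonal r,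
      ((1 / √(S.nrm r : ℝ) : ℝ) : ℂ) * (Wr r u *
        (Db S k Δ θ p.2 (u + Real.log ((S.nrm p.1 : ℝ) / S.nrm p.2)) : ℂ)) := by
    intro u
    have h3 : (hs θ r : ℂ) * (Dd S k Δ θ u : ℂ) = ((1 / √(S.nrm r : ℝ) : ℝ) : ℂ) *
        ∑ p ∈ antidiagonal r, (Db S k Δ θ p.2 (u + Real.log ((S.nrm p.1 : ℝ) / S.nrm p.2)) : ℂ) := by
      rw [← Complex.ofReal_mul, hecke_Dd S hk Δ hθ r u, Complex.ofReal_mul,
        Complex.ofReal_sum]
    calc (hs θ r : ℂ) * (Wr r u * (Dd S k Δ θ u : ℂ)) =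
          Wr r u * ((hs θ r : ℂ) * (Dd S k Δ θ u : ℂ)) := by ring
      _ = _ := by
        rw [h3, Finset.mul_sum, Finset.mul_sum]
        refine Finset.sum_congr rfl fun p _ => ?_
        ring
  have h4 : ∀ p ∈ antidiagonal r, F r p.2 = ∫ u : ℝ, ((1 / √(S.nrm r : ℝ) : ℝ) : ℂ) * (Wr r u *
        (Db S k Δ θ p.2 (u + Real.log ((S.nrm p.1 : ℝ) / S.nrm p.2)) : ℂ)) := by
    intro p hp
    simp only [hF]
    rw [(h3_sub hp).1]
    rw [← integral_add_right_eq_self (fun u : ℝ => ((1 / √(S.nrm r : ℝ) : ℝ) : ℂ) *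
      (Wr r (u - Real.log ((S.nrm p.1 : ℝ) / S.nrm p.2)) * (Db S k Δ θ p.2 u : ℂ)))
      (Real.log ((S.nrm p.1 : ℝ) / S.nrm p.2))]
    simp only [add_sub_cancel_right]
  rw [Finset.sum_congr rfl h4, ← integral_finsetSum]
  · exact integral_congr_ae (Eventually.of_forall h2)
  · intro p _
    have h5 := ((hint r p.2 (Real.log ((S.nrm p.1 : ℝ) / S.nrm p.2))).comp_add_right
      (Real.log ((S.nrm p.1 : ℝ) / S.nrm p.2))).const_mul ((1 / √(S.nrm r : ℝ) : ℝ) : ℂ)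
    simpa only [add_sub_cancel_right] using h5

end Pool.Agent.HS
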