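import Pool.Agent.Lib_helper45.HS.Defs
import Pool.Agent.Lib_helper98.WSF.M6
import Pool.Agent.Lib_helper45.HSF.P0

/-! # Hilbert-Selberg, block M6 (LIN): linearisation of the products (cites P0) -/

namespace Pool.Agent.HS

open Complex MeasureTheory Filter Topology
open scoped ENNReal Classical
open Pool.Agent.WA (gd gk)
open Pool.Agent.SEL (NL Adm)
open Pool.Agent.SQS (hat)
open Pool.Agent.WS (st EE RT cc hl Step)
open Finset.HasAntidiagonal (antidiagonal)

variable {P : Type} (S : PSys P)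

theorem m6_div (G : P → ℕ → ℝ) (N : P →₀ ℕ) :
    ∑ M ∈ dv N, ∏ p ∈ N.support, G p (M p) =
      ∏ p ∈ N.support, ∑ f ∈ Finset.range (N p + 1), G p f := by
  have h1 : dv N = N.support.finsupp (fun p => Finset.range (N p + 1)) := by
    ext M
    rw [mem_dv, Finset.mem_finsupp_iff]
    constructor
    · intro h
      refine ⟨Finsupp.support_mono h, fun p _ => ?_⟩
      rw [Finset.mem_range]
      have := h p
      omega
    · rintro ⟨h2, h3⟩ p
      by_cases hp : p ∈ N.support
      · have := Finset.mem_range.1 (h3 p hp)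
        omega
      · have h4 : M p = 0 := Finsupp.notMem_support_iff.1 fun h => hp (h2 h)
        rw [h4]
        exact Nat.zero_le _
  rw [h1, Finset.finsupp, Finset.sum_map, Finset.prod_sum]
  refine Finset.sum_congr rfl fun g _ => ?_
  rw [← Finset.prod_attach]
  refine Finset.prod_congr rfl fun p _ => ?_
  congr 1
  exact Finsupp.indicator_of_mem p.2 g

theorem m6_ext (g : P → ℕ → ℝ) (hg : ∀ p, g p 0 = 1) {d N : P →₀ ℕ} (h : d ≤ N) :
    (d.prod fun p i => g p i) = ∏ p ∈ N.support, g p (d p) :=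
  Finsupp.prod_of_support_subset _ (Finsupp.support_mono h) _ fun p _ => hg p

theorem lin (m l n : P →₀ ℕ) (θ : P → ℝ) :
    al θ m * al θ l * hs θ n = ∑ M ∈ dv (m + l + n), CC m l n M * hs θ M := by
  have hal : ∀ d, d ≤ m + l + n → al θ d =
      ∏ p ∈ (m + l + n).support, SEL.aloc (θ p) (d p) := fun d hd =>
    m6_ext (fun p i => SEL.aloc (θ p) i) (fun p => SEL.aloc_zero_pr _) hd
  have hhs : ∀ d, d ≤ m + l + n → hs θ d =
      ∏ p ∈ (m + l + n).support, SEL.Uc (θ p) (d p) := fun d hd =>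
    m6_ext (fun p i => SEL.Uc (θ p) i) (fun p => by simp [SEL.Uc]) hd
  have hdm : m ≤ m + l + n := by rw [add_assoc]; exact le_self_add
  have hdl : l ≤ m + l + n := le_add_self.trans le_self_add
  have hdn : n ≤ m + l + n := le_add_self
  have h1 : ∑ M ∈ dv (m + l + n), CC m l n M * hs θ M =
      ∏ p ∈ (m + l + n).support, ∑ f ∈ Finset.range ((m + l + n) p + 1),
        cc (m p) (l p) (n p) f * SEL.Uc (θ p) f := by
    rw [← m6_div (fun p f => cc (m p) (l p) (n p) f * SEL.Uc (θ p) f)]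
    refine Finset.sum_congr rfl fun M hM => ?_
    have hM' := mem_dv.1 hM
    rw [CC, if_pos hM', hhs M hM', ← Finset.prod_mul_distrib]
  rw [h1, hal m hdm, hal l hdl, hhs n hdn, ← Finset.prod_mul_distrib,
    ← Finset.prod_mul_distrib]
  refine Finset.prod_congr rfl fun p _ => ?_
  rw [WS.lin_loc]
  rfl

theorem CC_bd (m l n M : P →₀ ℕ) : |CC m l n M| ≤ (S.nrm (m + l + n) : ℝ) ^ 2 := by
  unfold CC
  split_ifs with h
  · rw [Finset.abs_prod]
    have h1 : (S.nrm (m + l + n) : ℝ) ^ 2 =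
        ∏ p ∈ (m + l + n).support, ((S.q p : ℝ) ^ ((m + l + n) p)) ^ 2 := by
      rw [Finset.prod_pow]
      congr 1
      unfold PSys.nrm Finsupp.prod
      push_cast
      rfl
    rw [h1]
    refine Finset.prod_le_prod (fun p _ => abs_nonneg _) fun p _ => ?_
    have hfac : (m + l + n) p = m p + l p + n p := rfl
    set i := m p
    set j := l p
    set e := n p
    have hf : M p ≤ i + j + e := by
      rw [← hfac]
      exact h p
    have h2 : ((M p : ℕ) : ℝ) + 1 ≤ 2 ^ (i + j + e) := by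
      refine le_trans ?_ (WS.M6_two_pow _)
      have : ((M p : ℕ) : ℝ) ≤ ((i + j + e : ℕ) : ℝ) := by exact_mod_cast hf
      linarith
    have h3 : (2 : ℝ) ≤ S.q p := by exact_mod_cast q_two S p
    calc |cc i j e (M p)| ≤ ((i : ℝ) + 1) * (j + 1) * (e + 1) *
          (M p + 1) := WS.M6_cc_le _ _ _ _
      _ ≤ 2 ^ i * 2 ^ j * 2 ^ e * 2 ^ (i + j + e) := by
          have a1 := WS.M6_two_pow i
          have a2 := WS.M6_two_pow j
          have a3 := WS.M6_two_pow e
          gcongr
      _ = (2 ^ (i + j + e)) ^ 2 := by ring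
      _ ≤ ((S.q p : ℝ) ^ (i + j + e)) ^ 2 := by gcongr
      _ = ((S.q p : ℝ) ^ ((m + l + n) p)) ^ 2 := by rw [hfac]
  · simp only [abs_zero]
    positivity

end Pool.Agent.HS
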