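import Pool.Agent.Lib_helper45.HS.Defs
import Pool.Agent.Lib_helper98.WSF.S1A
import Pool.Agent.Lib_helper45.HSF.H1
import Pool.Agent.Lib_helper45.HSF.M6
import Pool.Agent.Lib_helper45.HSF.P0
import Pool.Agent.Lib_helper45.HSF.T2

/-!
# HS block S1A (SLI), helper16: the first mean value as a linear functional (cites M6, T2, P0, H1)
-/

namespace Pool.Agent.HS

open Complex MeasureTheory Filter Topology
open scoped ENNReal Classical
open Pool.Agent.WA (gd gk)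
open Pool.Agent.SEL (NL Adm)
open Pool.Agent.SQS (hat)
open Pool.Agent.WS (st EE RT cc hl Step)
open Finset.HasAntidiagonal (antidiagonal)

variable {P : Type} (S : PSys P)

theorem RS_spec (L : ℝ) : ∀ r ∈ S.RS L, S.nrm r ≤ NL L * NL L ∧
    r.support ⊆ S.PB (NL L) := by
  intro r hr
  rw [PSys.RS, Finset.mem_filter, mem_BL] at hr
  exact ⟨Nat.lt_succ_iff.1 hr.1, hr.2⟩

theorem s1a_mem {L : ℝ} {m l r : P →₀ ℕ} (hm : m ∈ S.BL (NL L)) (hl : l ∈ S.BL (NL L))
    (hr : r ≤ m + l) : r ∈ S.RS L := by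
  rw [mem_BL] at hm hl
  rw [PSys.RS, Finset.mem_filter, mem_BL]
  constructor
  · have h1 := nrm_mono S hr
    rw [nrm_add] at h1
    have h2 : S.nrm m * S.nrm l ≤ NL L * NL L := Nat.mul_le_mul hm.le hl.le
    omega
  · intro p hp
    have h1 : r p ≠ 0 := Finsupp.mem_support_iff.1 hp
    have h2 : r p ≤ m p + l p := by
      have := hr p
      rwa [Finsupp.add_apply] at this
    by_cases h3 : m p = 0
    · apply supp_of_nrm S hl
      rw [Finsupp.mem_support_iff]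
      omega
    · exact supp_of_nrm S hm (Finsupp.mem_support_iff.2 h3)

theorem s1a_int2 {D : ℝ → ℝ} (H : ABS.Nice (fun u => (D u : ℂ))) {W : ℝ → ℂ}
    (hW : Measurable W) {M V : ℝ}
    (hWb : ∀ v, ‖W v‖ ≤ M) (hWs : ∀ v, V < |v| → W v = 0) (s : ℝ) :
    Integrable (fun u : ℝ => W (u - s) * (D u : ℂ)) := by
  obtain ⟨C, hC⟩ := H.bdd
  have h1 : Integrable (fun u : ℝ => W (u - s)) := (WS.s1a_int hW hWb hWs).comp_sub_right s
  exact h1.mul_bdd (c := C) H.meas.aestronglyMeasurable (ae_of_all _ fun u => hC u)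

theorem s1a_shift (D : ℝ → ℝ) (W : ℝ → ℂ) (s : ℝ) :
    ∫ v : ℝ, (D (v + s) : ℂ) * W v = ∫ u : ℝ, W (u - s) * (D u : ℂ) := by
  rw [← integral_add_right_eq_self (fun u : ℝ => W (u - s) * (D u : ℂ)) s]
  refine integral_congr_ae (ae_of_all _ fun v => ?_)
  simp only [add_sub_cancel_right]
  ring

theorem s1_lin {k : ℕ} (hk : 1 ≤ k) {Δ : ℝ} {θ : P → ℝ} (H : TD S k Δ θ) (L : ℝ) (Θ : ℝ → ℝ)
    {W : ℝ → ℂ} (hW : Measurable W) {M V : ℝ} (hWb : ∀ v, ‖W v‖ ≤ M)
    (hWs : ∀ v, V < |v| → W v = 0) :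
    ∫ v, ff S k Δ θ L Θ v * W v = ∑ r ∈ S.RS L, (hs θ r : ℂ) *
      ∫ u, Wr S L Θ W r u * (Dd S k Δ θ u : ℂ) := by
  have HN := (Dd_nice S hk H).1
  have hint := fun s => s1a_int2 HN hW hWb hWs s
  have hint2 : ∀ s, Integrable (fun v : ℝ => (Dd S k Δ θ (v + s) : ℂ) * W v) := by
    intro s
    have h1 := (hint s).comp_add_right s
    refine h1.congr (ae_of_all _ fun v => ?_)
    simp only [add_sub_cancel_right]
    ring
  -- left side
  have e1 : ∫ v, ff S k Δ θ L Θ v * W v = ∑ m ∈ S.BL (NL L), ∑ l ∈ S.BL (NL L),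
      ((be S θ L Θ m * be S θ L Θ l / (√(S.nrm m : ℝ) * √(S.nrm l : ℝ)) : ℝ) : ℂ) *
        ∫ u : ℝ, W (u - (Real.log (S.nrm m) - Real.log (S.nrm l))) * (Dd S k Δ θ u : ℂ) := by
    have e2 : ∀ v, ff S k Δ θ L Θ v * W v = ∑ m ∈ S.BL (NL L), ∑ l ∈ S.BL (NL L),
        ((be S θ L Θ m * be S θ L Θ l / (√(S.nrm m : ℝ) * √(S.nrm l : ℝ)) : ℝ) : ℂ) *
          ((Dd S k Δ θ (v + (Real.log (S.nrm m) - Real.log (S.nrm l))) : ℂ) * W v) := by
      intro v
      simp only [ff, Finset.sum_mul]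
      refine Finset.sum_congr rfl fun m _ => Finset.sum_congr rfl fun l _ => ?_
      rw [Complex.ofReal_mul, mul_assoc]
    simp only [e2]
    rw [integral_finsetSum _ fun m _ => integrable_finsetSum _ fun l _ =>
      (hint2 _).const_mul _]
    refine Finset.sum_congr rfl fun m _ => ?_
    rw [integral_finsetSum _ fun l _ => (hint2 _).const_mul _]
    refine Finset.sum_congr rfl fun l _ => ?_
    rw [integral_const_mul, s1a_shift]
  -- right side
  have e3 : ∀ r, ∫ u, Wr S L Θ W r u * (Dd S k Δ θ u : ℂ) =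
      ∑ m ∈ S.BL (NL L), ∑ l ∈ S.BL (NL L),
        ((xm S L Θ m * xm S L Θ l * CC m l 0 r : ℝ) : ℂ) *
        ∫ u : ℝ, W (u - (Real.log (S.nrm m) - Real.log (S.nrm l))) * (Dd S k Δ θ u : ℂ) := by
    intro r
    have e2 : ∀ u, Wr S L Θ W r u * (Dd S k Δ θ u : ℂ) =
        ∑ m ∈ S.BL (NL L), ∑ l ∈ S.BL (NL L),
        ((xm S L Θ m * xm S L Θ l * CC m l 0 r : ℝ) : ℂ) *
          (W (u - (Real.log (S.nrm m) - Real.log (S.nrm l))) * (Dd S k Δ θ u : ℂ)) := by
      intro u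
      simp only [Wr, Finset.sum_mul, mul_assoc]
    simp only [e2]
    rw [integral_finsetSum _ fun m _ => integrable_finsetSum _ fun l _ =>
      (hint _).const_mul _]
    refine Finset.sum_congr rfl fun m _ => ?_
    rw [integral_finsetSum _ fun l _ => (hint _).const_mul _]
    refine Finset.sum_congr rfl fun l _ => ?_
    rw [integral_const_mul]
  rw [e1]
  simp only [e3, Finset.mul_sum]
  rw [Finset.sum_comm]
  conv_rhs => rw [Finset.sum_comm]
  rw [Finset.sum_comm]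
  refine Finset.sum_congr rfl fun m hm => ?_
  conv_rhs => rw [Finset.sum_comm]
  refine Finset.sum_congr rfl fun l hl => ?_
  -- linearisation
  have h1 := lin m l 0 θ
  rw [hs_zero, mul_one] at h1
  have h2 : ∑ M ∈ dv (m + l + 0), CC m l 0 M * hs θ M = ∑ r ∈ S.RS L, CC m l 0 r * hs θ r := by
    rw [add_zero]
    have hsub : dv (m + l) ⊆ S.RS L := by
      intro r hr
      exact s1a_mem S hm hl (mem_dv.1 hr)
    rw [← Finset.sum_subset hsub]
    intro r _ hr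
    have : ¬ r ≤ m + l + 0 := by
      intro h
      rw [add_zero] at h
      exact hr (mem_dv.2 h)
    rw [CC, if_neg this, zero_mul]
  rw [h2] at h1
  have h3 : be S θ L Θ m * be S θ L Θ l / (√(S.nrm m : ℝ) * √(S.nrm l : ℝ)) =
      ∑ r ∈ S.RS L, hs θ r * (xm S L Θ m * xm S L Θ l * CC m l 0 r) := by
    have e4 : be S θ L Θ m * be S θ L Θ l / (√(S.nrm m : ℝ) * √(S.nrm l : ℝ)) =
        xm S L Θ m * xm S L Θ l * (al θ m * al θ l) := by
      simp only [be, xm]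
      rw [div_mul_div_comm]
      ring
    rw [e4, h1, Finset.mul_sum]
    refine Finset.sum_congr rfl fun r _ => ?_
    ring
  rw [h3]
  push_cast
  rw [Finset.sum_mul]
  refine Finset.sum_congr rfl fun r _ => ?_
  ring

theorem s1a_xm {L : ℝ} {Θ : ℝ → ℝ} (hΘ : ∀ x, 0 ≤ Θ x ∧ Θ x ≤ 1) (m : P →₀ ℕ) :
    |xm S L Θ m| ≤ 1 := by
  have h1 : (1 : ℝ) ≤ √(S.nrm m : ℝ) := by
    rw [Real.one_le_sqrt]; exact_mod_cast nrm_pos S m
  rw [xm, abs_div, abs_of_nonneg (hΘ _).1, abs_of_nonneg (by positivity),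
    div_le_one (by linarith)]
  exact (hΘ _).2.trans h1

theorem s1a_log {L : ℝ} {m : P →₀ ℕ} (hm : m ∈ S.BL (NL L)) :
    0 ≤ Real.log (S.nrm m) ∧ Real.log (S.nrm m) ≤ L := by
  rw [mem_BL] at hm
  have h1 : (1 : ℝ) ≤ S.nrm m := by exact_mod_cast nrm_pos S m
  refine ⟨Real.log_nonneg h1, ?_⟩
  have h2 : (S.nrm m : ℝ) < Real.exp L := by
    have := hm
    rw [NL, Nat.lt_ceil] at this
    exact this
  rw [← Real.log_exp L]
  exact Real.log_le_log (by linarith) h2.le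

theorem wr_bound {L : ℝ} (hL : 0 ≤ L) {Θ : ℝ → ℝ} (hΘ : ∀ x, 0 ≤ Θ x ∧ Θ x ≤ 1) {W : ℝ → ℂ}
    (hW : Measurable W) {M V : ℝ} (hWb : ∀ v, ‖W v‖ ≤ M) (hWs : ∀ v, V < |v| → W v = 0)
    (r : P →₀ ℕ) :
    Measurable (Wr S L Θ W r) ∧
      (∀ u, ‖Wr S L Θ W r u‖ ≤ ((S.BL (NL L)).card : ℝ) ^ 2 * (NL L : ℝ) ^ 4 * M) ∧
      ∀ u, V + L < |u| → Wr S L Θ W r u = 0 := by
  have hM : 0 ≤ M := (norm_nonneg _).trans (hWb 0)
  refine ⟨?_, ?_, ?_⟩
  · unfold Wr
    refine Finset.measurable_fun_sum _ fun m _ => Finset.measurable_fun_sum _ fun l _ => ?_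
    exact (hW.comp (measurable_id.sub_const _)).const_mul _
  · intro u
    have hterm : ∀ m ∈ S.BL (NL L), ∀ l ∈ S.BL (NL L),
        ‖((xm S L Θ m * xm S L Θ l * CC m l 0 r : ℝ) : ℂ) *
          W (u - (Real.log (S.nrm m) - Real.log (S.nrm l)))‖ ≤ (NL L : ℝ) ^ 4 * M := by
      intro m hm l hl
      have hm' := (mem_BL S).1 hm
      have hl' := (mem_BL S).1 hl
      rw [norm_mul, Complex.norm_real, Real.norm_eq_abs, abs_mul, abs_mul]
      have h1 := s1a_xm S (L := L) hΘ m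
      have h2 := s1a_xm S (L := L) hΘ l
      have h3 := CC_bd S m l 0 r
      have h4 : ((S.nrm (m + l + 0) : ℕ) : ℝ) ^ 2 ≤ (NL L : ℝ) ^ 4 := by
        have : ((S.nrm (m + l + 0) : ℕ) : ℝ) ≤ (NL L : ℝ) ^ 2 := by
          rw [add_zero, nrm_add]
          push_cast
          rw [pow_two]
          exact mul_le_mul (by exact_mod_cast hm'.le) (by exact_mod_cast hl'.le)
            (Nat.cast_nonneg _) (Nat.cast_nonneg _)
        calc ((S.nrm (m + l + 0) : ℕ) : ℝ) ^ 2 ≤ ((NL L : ℝ) ^ 2) ^ 2 :=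
              pow_le_pow_left₀ (Nat.cast_nonneg _) this 2
          _ = (NL L : ℝ) ^ 4 := by ring
      have h5 : |xm S L Θ m| * |xm S L Θ l| ≤ 1 := mul_le_one₀ h1 (abs_nonneg _) h2
      have h6 : |xm S L Θ m| * |xm S L Θ l| * |CC m l 0 r| ≤ (NL L : ℝ) ^ 4 := by
        calc |xm S L Θ m| * |xm S L Θ l| * |CC m l 0 r| ≤ 1 * |CC m l 0 r| :=
              mul_le_mul_of_nonneg_right h5 (abs_nonneg _)
          _ ≤ (NL L : ℝ) ^ 4 := by rw [one_mul]; exact h3.trans h4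
      exact mul_le_mul h6 (hWb _) (norm_nonneg _) (by positivity)
    unfold Wr
    have h7 : ∀ m ∈ S.BL (NL L), ‖∑ l ∈ S.BL (NL L),
        ((xm S L Θ m * xm S L Θ l * CC m l 0 r : ℝ) : ℂ) *
          W (u - (Real.log (S.nrm m) - Real.log (S.nrm l)))‖ ≤
            ((S.BL (NL L)).card : ℝ) * ((NL L : ℝ) ^ 4 * M) := by
      intro m hm
      refine (norm_sum_le_of_le _ (fun l hl => hterm m hm l hl)).trans ?_
      rw [Finset.sum_const, nsmul_eq_mul]
    refine (norm_sum_le_of_le _ h7).trans ?_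
    rw [Finset.sum_const, nsmul_eq_mul]
    exact le_of_eq (by ring)
  · intro u hu
    unfold Wr
    refine Finset.sum_eq_zero fun m hm => Finset.sum_eq_zero fun l hl => ?_
    have hm1 := s1a_log S hm
    have hl1 := s1a_log S hl
    rw [hWs, mul_zero]
    have h1 : |Real.log (S.nrm m) - Real.log (S.nrm l)| ≤ L := by
      rw [abs_le]; constructor <;> linarith [hm1.1, hm1.2, hl1.1, hl1.2]
    have h2 := abs_sub_abs_le_abs_sub u (Real.log (S.nrm m) - Real.log (S.nrm l))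
    linarith

end Pool.Agent.HS
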