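import Pool.Agent.Lib_helper45.HS.Defs
import Pool.Agent.Lib_helper98.WSF.S1B

/-! # HS block S1B (SPL), helper16 -/

namespace Pool.Agent.HS

open Complex MeasureTheory Filter Topology
open scoped ENNReal Classical
open Pool.Agent.WA (gd gk)
open Pool.Agent.SEL (NL Adm)
open Pool.Agent.SQS (hat PL1)
open Pool.Agent.WS (st EE RT cc hl Step)
open Pool.Agent.ABS (Nice hat_sum hat_shift hat_const_mul)
open Finset.HasAntidiagonal (antidiagonal)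

variable {P : Type} (S : PSys P)

theorem s1b_wr_nice (L : ℝ) (Θ : ℝ → ℝ) {W : ℝ → ℂ} (H : Nice W) (r : P →₀ ℕ) :
    Nice (Wr S L Θ W r) := by
  unfold Wr
  exact Nice.sum _ fun m _ => Nice.sum _ fun l _ => (WS.s1b_shift_nice H _).const_mul _

theorem s1b_wr_hat (L : ℝ) (Θ : ℝ → ℝ) {W : ℝ → ℂ} (H : Nice W) (r : P →₀ ℕ) (t : ℝ) :
    hat (Wr S L Θ W r) t = AA S L Θ t r * hat W t := by
  have e : hat (Wr S L Θ W r) t = ∑ m ∈ S.BL (NL L), ∑ l ∈ S.BL (NL L),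
      ((xm S L Θ m * xm S L Θ l * CC m l 0 r : ℝ) : ℂ) *
        (cexp (t * ((Real.log (S.nrm m) - Real.log (S.nrm l) : ℝ) : ℂ) * I) * hat W t) := by
    have h1 : hat (Wr S L Θ W r) t = ∑ m ∈ S.BL (NL L),
        hat (fun u => ∑ l ∈ S.BL (NL L), ((xm S L Θ m * xm S L Θ l * CC m l 0 r : ℝ) : ℂ) *
          W (u - (Real.log (S.nrm m) - Real.log (S.nrm l)))) t :=
      hat_sum _ (fun m _ => (Nice.sum _ fun l _ => (WS.s1b_shift_nice H _).const_mul _).int) t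
    rw [h1]
    refine Finset.sum_congr rfl fun m _ => ?_
    rw [hat_sum _ (fun l _ => ((WS.s1b_shift_nice H _).const_mul _).int)]
    refine Finset.sum_congr rfl fun l _ => ?_
    rw [hat_const_mul, WS.s1b_hat_shift]
  rw [e]
  unfold AA
  rw [Finset.sum_mul]
  refine Finset.sum_congr rfl fun m _ => ?_
  rw [Finset.sum_mul]
  exact Finset.sum_congr rfl fun l _ => by ring

theorem s1b_psf_nice (L : ℝ) (Θ : ℝ → ℝ) {W : ℝ → ℂ} (H : Nice W) (R : Finset (P →₀ ℕ))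
    (c : P →₀ ℕ) : Nice (PsF S R (Wr S L Θ W) c) := by
  unfold PsF
  exact Nice.sum _ fun r _ => Nice.sum _ fun p _ =>
    (WS.s1b_shift_nice (s1b_wr_nice S L Θ H r) _).const_mul _

theorem s1b_psf_hat (L : ℝ) (Θ : ℝ → ℝ) {W : ℝ → ℂ} (H : Nice W) (R : Finset (P →₀ ℕ))
    (c : P →₀ ℕ) (t : ℝ) :
    hat (PsF S R (Wr S L Θ W) c) t = hat W t * PsH S R (AA S L Θ t) c t := by
  have h1 : hat (PsF S R (Wr S L Θ W) c) t = ∑ r ∈ R,
      hat (fun u => ∑ p ∈ (antidiagonal r).filter (fun p => c ≤ p.2),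
        ((1 / √(S.nrm r : ℝ) : ℝ) : ℂ) *
          Wr S L Θ W r (u - Real.log ((S.nrm p.1 : ℝ) / S.nrm p.2))) t :=
    hat_sum _ (fun r _ => (Nice.sum _ fun p _ =>
      (WS.s1b_shift_nice (s1b_wr_nice S L Θ H r) _).const_mul _).int) t
  rw [h1]
  unfold PsH
  rw [Finset.mul_sum]
  refine Finset.sum_congr rfl fun r _ => ?_
  rw [hat_sum _ (fun p _ => ((WS.s1b_shift_nice (s1b_wr_nice S L Θ H r) _).const_mul _).int),
    Finset.mul_sum]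
  refine Finset.sum_congr rfl fun p _ => ?_
  rw [hat_const_mul, WS.s1b_hat_shift, s1b_wr_hat S L Θ H]
  ring

theorem s1_planch (L : ℝ) (Θ : ℝ → ℝ) {W : ℝ → ℂ} (hW : Measurable W) {M V : ℝ}
    (hWb : ∀ v, ‖W v‖ ≤ M) (hWs : ∀ v, V < |v| → W v = 0) (c : P →₀ ℕ) :
    Integrable (fun t : ℝ => ‖hat W t‖ ^ 2 * ‖PsH S (S.RS L) (AA S L Θ t) c t‖ ^ 2) ∧
    ∫ u, ‖PsF S (S.RS L) (Wr S L Θ W) c u‖ ^ 2 = 1 / (2 * Real.pi) *
      ∫ t, ‖hat W t‖ ^ 2 * ‖PsH S (S.RS L) (AA S L Θ t) c t‖ ^ 2 := by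
  have H := WS.s1b_nice hW hWb hWs
  have HP := s1b_psf_nice S L Θ H (S.RS L) c
  obtain ⟨h1, h2⟩ := PL1 _ HP.int HP.sq
  have e : (fun t : ℝ => ‖hat (PsF S (S.RS L) (Wr S L Θ W) c) t‖ ^ 2) =
      fun t : ℝ => ‖hat W t‖ ^ 2 * ‖PsH S (S.RS L) (AA S L Θ t) c t‖ ^ 2 := by
    funext t
    rw [s1b_psf_hat S L Θ H, norm_mul, mul_pow]
  rw [e] at h1 h2
  refine ⟨h1, ?_⟩
  rw [h2]
  have := Real.pi_pos
  field_simp

end Pool.Agent.HS
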