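import Pool.Agent.Lib_helper45.HS.Defs
import Pool.Agent.Lib_helper98.WSF.M10
import Pool.Agent.Lib_helper45.HSF.H1
import Pool.Agent.Lib_helper45.HSF.P0
import Pool.Agent.Lib_helper45.HSF.P1

/-! HS M10 (MBR): the mollifier as an integral of Euler products. -/

namespace Pool.Agent.HS

open Complex MeasureTheory Filter Topology
open scoped ENNReal Classical
open Pool.Agent.WA (gd gk)
open Pool.Agent.SEL (NL Adm)
open Pool.Agent.SQS (hat)
open Pool.Agent.WS (st EE RT cc hl Step)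
open Finset.HasAntidiagonal (antidiagonal)

variable {P : Type} (S : PSys P)

include S in
theorem m10_countable : Countable P := by
  rw [← Set.countable_univ_iff]
  have h : (Set.univ : Set P) = ⋃ l : ℕ, {p | S.und p = l} := by
    ext p
    simp
  rw [h]
  refine Set.countable_iUnion fun l => Set.Finite.countable ?_
  rw [← Set.encard_lt_top_iff]
  exact lt_of_le_of_lt (S.fib l) (by simp)

theorem m10_q_norm (p : P) {s : ℂ} (hσ : 0 < s.re) : ‖(S.q p : ℂ) ^ (-s)‖ < 1 := by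
  have h2 : 2 ≤ S.q p := q_two S p
  rw [Complex.norm_natCast_cpow_of_pos (by omega)]
  have h1 : (1 : ℝ) < S.q p := by exact_mod_cast (by omega : 1 < S.q p)
  rw [Complex.neg_re]
  exact Real.rpow_lt_one_of_one_lt_of_neg h1 (by linarith)

theorem m10_nrm_cpow (m : P →₀ ℕ) (s : ℂ) :
    (S.nrm m : ℂ) ^ (-s) = m.prod fun p i => ((S.q p : ℂ) ^ (-s)) ^ i := by
  classical
  induction m using Finsupp.induction with
  | zero => rw [nrm_zero]; simp
  | single_add p i m hp hi ih =>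
    rw [nrm_add, nrm_single, Nat.cast_mul, Complex.natCast_mul_natCast_cpow, ih,
      WS.m10_cpow_pow]
    rw [Finsupp.prod_add_index_of_disjoint]
    · rw [Finsupp.prod_single_index (by simp)]
    · rw [Finsupp.support_single p hi, Finset.disjoint_singleton_left]
      exact hp

theorem m10_prod {x : (P →₀ ℕ) → ℝ} (loc : P → ℕ → ℝ) (hx : ∀ m, x m = m.prod loc)
    (m : P →₀ ℕ) (s : ℂ) : (x m : ℂ) * (S.nrm m : ℂ) ^ (-s) =
      m.prod fun p i => (loc p i : ℂ) * ((S.q p : ℂ) ^ (-s)) ^ i := by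
  rw [m10_nrm_cpow, hx]
  simp only [Finsupp.prod]
  push_cast
  rw [← Finset.prod_mul_distrib]

/-- generic Euler product over finitely many primes for `f m = x m * N(m)^(-s)` -/
theorem m10_euler {x : (P →₀ ℕ) → ℝ} (loc : P → ℕ → ℝ) (hx : ∀ m, x m = m.prod loc)
    (h0 : ∀ p, loc p 0 = 1) (N : ℕ) {s : ℂ}
    (hs : ∀ p, Summable fun n : ℕ => ‖(loc p n : ℂ) * ((S.q p : ℂ) ^ (-s)) ^ n‖) :
    Summable (fun m : {m : P →₀ ℕ // m.support ⊆ S.PB N} =>
      ‖(x m.1 : ℂ) * (S.nrm m.1 : ℂ) ^ (-s)‖) ∧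
    ∑' m : {m : P →₀ ℕ // m.support ⊆ S.PB N}, (x m.1 : ℂ) * (S.nrm m.1 : ℂ) ^ (-s) =
      ∏ p ∈ S.PB N, ∑' n : ℕ, (loc p n : ℂ) * ((S.q p : ℂ) ^ (-s)) ^ n := by
  have key := euler_fin (S.PB N) (fun p i => (loc p i : ℂ) * ((S.q p : ℂ) ^ (-s)) ^ i)
    (fun p => by simp [h0]) (fun p _ => hs p)
  have e : ∀ m : {m : P →₀ ℕ // m.support ⊆ S.PB N}, (x m.1 : ℂ) * (S.nrm m.1 : ℂ) ^ (-s) =
      m.1.prod fun p i => (loc p i : ℂ) * ((S.q p : ℂ) ^ (-s)) ^ i := fun m =>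
    m10_prod S loc hx m.1 s
  simp_rw [e]
  exact key

theorem m10_aloc_zero (θ : ℝ) : SEL.aloc θ 0 = 1 := by
  have h := al_single (P := Unit) (fun _ => θ) () 0
  rw [Finsupp.single_zero, al_zero] at h
  exact h.symm

theorem m10_Uc_zero (θ : ℝ) : SEL.Uc θ 0 = 1 := by
  have h := hs_single (P := Unit) (fun _ => θ) () 0
  rw [Finsupp.single_zero, hs_zero] at h
  exact h.symm

theorem al_euler {θ : P → ℝ} (hθ : ∀ p, |θ p| ≤ 2) (N : ℕ) {s : ℂ} (hσ : 0 < s.re) :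
    Summable (fun m : {m : P →₀ ℕ // m.support ⊆ S.PB N} =>
      ‖(al θ m.1 : ℂ) * (S.nrm m.1 : ℂ) ^ (-s)‖) ∧
    ∑' m : {m : P →₀ ℕ // m.support ⊆ S.PB N}, (al θ m.1 : ℂ) * (S.nrm m.1 : ℂ) ^ (-s) =
      ∏ p ∈ S.PB N, RT (θ p) ((S.q p : ℂ) ^ (-s)) :=
  m10_euler S (fun p i => SEL.aloc (θ p) i) (fun _ => rfl) (fun p => m10_aloc_zero (θ p)) N
    (fun p => WS.m10_al_summable (hθ p) (m10_q_norm S p hσ))

theorem hs_euler {θ : P → ℝ} (hθ : ∀ p, |θ p| ≤ 2) (N : ℕ) {s : ℂ} (hσ : 0 < s.re) :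
    Summable (fun m : {m : P →₀ ℕ // m.support ⊆ S.PB N} =>
      ‖(hs θ m.1 : ℂ) * (S.nrm m.1 : ℂ) ^ (-s)‖) ∧
    ∑' m : {m : P →₀ ℕ // m.support ⊆ S.PB N}, (hs θ m.1 : ℂ) * (S.nrm m.1 : ℂ) ^ (-s) =
      LX S N θ s := by
  have h := m10_euler S (x := hs θ) (fun p i => SEL.Uc (θ p) i) (fun _ => rfl)
    (fun p => m10_Uc_zero (θ p)) N (s := s)
    (fun p => WS.m10_hs_summable (hθ p) (m10_q_norm S p hσ))
  refine ⟨h.1, h.2.trans ?_⟩
  unfold LX
  refine Finset.prod_congr rfl fun p _ => ?_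
  exact (WS.Uc_gen (hθ p) (m10_q_norm S p hσ)).tsum_eq

theorem mb_rep {Θ : ℝ → ℝ} {g : ℝ → ℂ} (hg : Continuous g) (hgi : Integrable g)
    (hrep : ∀ x : ℝ, 0 ≤ x → (Θ x : ℂ) = ∫ u : ℝ, g u * cexp ((-1 + u * I) * x))
    (h1 : ∀ x, 1 ≤ x → Θ x = 0) {L : ℝ} (hL : 0 < L) {θ : P → ℝ} (hθ : ∀ p, |θ p| ≤ 2) {s : ℂ}
    (hσ : 0 < s.re + 1 / L) :
    mol S L Θ θ s = ∫ u : ℝ, g u * ∏ p ∈ S.PB (NL L),
      RT (θ p) ((S.q p : ℂ) ^ (-(s + (1 - u * I) / L))) := by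
  set N := NL L with hN
  have hre : ∀ u : ℝ, (s + (1 - u * I) / L).re = s.re + 1 / L := by
    intro u
    simp [Complex.div_re, Complex.normSq_ofReal]
  haveI : Countable P := m10_countable S
  haveI : Countable {m : P →₀ ℕ // m.support ⊆ S.PB N} := Subtype.countable
  -- the series over the ideals composed of small primes
  have hstep : ∀ m : {m : P →₀ ℕ // m.support ⊆ S.PB N},
      ((al θ m.1 * Θ (Real.log (S.nrm m.1 : ℕ) / L) : ℝ) : ℂ) * ((S.nrm m.1 : ℕ) : ℂ) ^ (-s) =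
      ∫ u : ℝ, g u * ((al θ m.1 : ℂ) * ((S.nrm m.1 : ℕ) : ℂ) ^ (-(s + (1 - u * I) / L))) := by
    intro m
    have hm0 : S.nrm m.1 ≠ 0 := (nrm_pos S m.1).ne'
    have hm1 : (1 : ℝ) ≤ (S.nrm m.1 : ℕ) := by exact_mod_cast Nat.one_le_iff_ne_zero.2 hm0
    have hmc : ((S.nrm m.1 : ℕ) : ℂ) ≠ 0 := by exact_mod_cast hm0
    have hx : 0 ≤ Real.log (S.nrm m.1 : ℕ) / L := div_nonneg (Real.log_nonneg hm1) hL.le
    push_cast
    rw [hrep _ hx]
    have e : ∀ u : ℝ, g u * ((al θ m.1 : ℂ) *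
          ((S.nrm m.1 : ℕ) : ℂ) ^ (-(s + (1 - u * I) / L))) =
        ((al θ m.1 : ℂ) * ((S.nrm m.1 : ℕ) : ℂ) ^ (-s)) * (g u *
          cexp ((-1 + u * I) * ((Real.log (S.nrm m.1 : ℕ) / L : ℝ) : ℂ))) := by
      intro u
      have e1 : -(s + (1 - u * I) / L) = -s + (-1 + u * I) / L := by ring
      rw [e1, Complex.cpow_add _ _ hmc]
      have e2 : ((S.nrm m.1 : ℕ) : ℂ) ^ ((-1 + u * I) / L) =
          cexp ((-1 + u * I) * ((Real.log (S.nrm m.1 : ℕ) / L : ℝ) : ℂ)) := by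
        rw [Complex.cpow_def_of_ne_zero hmc]
        congr 1
        rw [← Complex.natCast_log]
        push_cast
        ring
      rw [e2]
      ring
    simp_rw [e]
    rw [integral_const_mul]
    ring
  have hsumm := (al_euler S hθ N (s := ((s.re + 1 / L : ℝ) : ℂ)) (by simpa using hσ)).1
  -- left side
  have hleft : mol S L Θ θ s = ∑' m : {m : P →₀ ℕ // m.support ⊆ S.PB N},
      ((al θ m.1 * Θ (Real.log (S.nrm m.1 : ℕ) / L) : ℝ) : ℂ) *
        ((S.nrm m.1 : ℕ) : ℂ) ^ (-s) := by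
    unfold mol
    rw [← hN]
    have e1 : ∑' m : {m : P →₀ ℕ // m.support ⊆ S.PB N},
        ((al θ m.1 * Θ (Real.log (S.nrm m.1 : ℕ) / L) : ℝ) : ℂ) *
          ((S.nrm m.1 : ℕ) : ℂ) ^ (-s) =
        ∑' m : P →₀ ℕ, {m : P →₀ ℕ | m.support ⊆ S.PB N}.indicator
          (fun m : P →₀ ℕ => ((al θ m * Θ (Real.log (S.nrm m) / L) : ℝ) : ℂ) *
            (S.nrm m : ℂ) ^ (-s)) m :=
      tsum_subtype {m : P →₀ ℕ | m.support ⊆ S.PB N}
        (fun m : P →₀ ℕ => ((al θ m * Θ (Real.log (S.nrm m) / L) : ℝ) : ℂ) *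
            (S.nrm m : ℂ) ^ (-s))
    rw [e1, tsum_eq_sum (s := S.BL N)]
    · refine Finset.sum_congr rfl fun m hm => ?_
      have hm' : m ∈ {m : P →₀ ℕ | m.support ⊆ S.PB N} := supp_of_nrm S ((mem_BL S).1 hm)
      rw [Set.indicator_of_mem hm']
    · intro m hm
      by_cases hms : m ∈ {m : P →₀ ℕ | m.support ⊆ S.PB N}
      · rw [Set.indicator_of_mem hms]
        have hmN : N ≤ S.nrm m := by
          by_contra hc
          exact hm ((mem_BL S).2 (by omega))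
        have h3 : Real.exp L ≤ S.nrm m := by
          have : Real.exp L ≤ (NL L : ℝ) := Nat.le_ceil _
          refine this.trans ?_
          exact_mod_cast hmN
        have h4 : 1 ≤ Real.log (S.nrm m) / L := by
          rw [le_div_iff₀ hL, one_mul]
          rw [Real.le_log_iff_exp_le (lt_of_lt_of_le (Real.exp_pos _) h3)]
          exact h3
        rw [h1 _ h4]
        simp
      · rw [Set.indicator_of_notMem hms]
  rw [hleft]
  simp_rw [hstep]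
  rw [integral_tsum_of_summable_integral_norm]
  · refine integral_congr_ae (Filter.Eventually.of_forall fun u => ?_)
    simp only
    rw [tsum_mul_left, (al_euler S hθ N (s := s + (1 - u * I) / L) (by rw [hre]; exact hσ)).2]
  · intro m
    have hm0 : S.nrm m.1 ≠ 0 := (nrm_pos S m.1).ne'
    have hmc : ((S.nrm m.1 : ℕ) : ℂ) ≠ 0 := by exact_mod_cast hm0
    refine (hgi.norm.mul_const (‖(al θ m.1 : ℂ)‖ * ‖((S.nrm m.1 : ℕ) : ℂ) ^
      (-((s.re + 1 / L : ℝ) : ℂ))‖)).mono' ?_ ?_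
    · refine Continuous.aestronglyMeasurable ?_
      refine hg.mul (continuous_const.mul ?_)
      refine Continuous.const_cpow ?_ (Or.inl hmc)
      fun_prop
    · refine Filter.Eventually.of_forall fun u => ?_
      rw [norm_mul, norm_mul, WS.m10_norm_cpow (Nat.pos_of_ne_zero hm0)]
  · have e : ∀ m : {m : P →₀ ℕ // m.support ⊆ S.PB N}, ∫ u : ℝ, ‖g u * ((al θ m.1 : ℂ) *
        ((S.nrm m.1 : ℕ) : ℂ) ^ (-(s + (1 - u * I) / L)))‖ = (∫ u : ℝ, ‖g u‖) *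
          ‖(al θ m.1 : ℂ) * ((S.nrm m.1 : ℕ) : ℂ) ^ (-((s.re + 1 / L : ℝ) : ℂ))‖ := by
      intro m
      have hm0 : S.nrm m.1 ≠ 0 := (nrm_pos S m.1).ne'
      rw [← integral_mul_const]
      refine integral_congr_ae (Filter.Eventually.of_forall fun u => ?_)
      simp only
      rw [norm_mul, norm_mul, norm_mul, WS.m10_norm_cpow (Nat.pos_of_ne_zero hm0)]
    simp_rw [e]
    exact hsumm.mul_left _

end Pool.Agent.HS
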