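import Pool.Agent.Lib_helper98.WSF.M7
import Pool.Agent.Lib_helper45.HS.Defs

/-!
# HS, block M7 (MBL): the local integrals
-/

namespace Pool.Agent.HS

open Complex MeasureTheory Filter Topology
open scoped ENNReal Classical
open Pool.Agent.WA (gd gk)
open Pool.Agent.SEL (NL Adm)
open Pool.Agent.SQS (hat)
open Pool.Agent.WS (st EE RT cc hl Step)
open Finset.HasAntidiagonal (antidiagonal)

/-- Block M7 -/
theorem mb_local {q : ℕ} (hq : 2 ≤ q) {x z : ℂ} (hx0 : x ≠ 0) (hx : ‖x‖ ^ 2 ≤ 1 / q)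
    (hz : ‖z‖ ≤ ‖x‖) {δ : ℝ} (hδ : δ ≤ 2) (hxz : ‖x - z‖ ≤ δ * ‖x‖) :
    ∫ y, (‖EE (2 * Real.cos y) x‖ ^ 2)⁻¹ * ‖EE (2 * Real.cos y) z‖ ^ 2 ∂st ≤
      Real.exp (12 * δ / q) := by
  have hp2 : (2 : ℝ) ≤ q := by exact_mod_cast hq
  have hpos : 0 < ‖x‖ := norm_pos_iff.2 hx0
  have hδ0 : 0 ≤ δ := by
    by_contra h
    rw [not_le] at h
    have := (norm_nonneg (x - z)).trans hxz
    nlinarith
  have hp1 : 1 / (q : ℝ) ≤ 1 / 2 := one_div_le_one_div_of_le (by norm_num) hp2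
  have hx1 : ‖x‖ < 1 := by nlinarith [norm_nonneg x]
  rw [WS.m7_mean hx0 hx1]
  set P : ℝ := 1 / (q : ℝ) with hP
  have hP0 : 0 < P := by rw [hP]; positivity
  have hxx : ‖x‖ * ‖x‖ ≤ P := by rw [← sq]; exact hx
  have a1 : ‖1 - z * (x - z)‖ ≤ 1 + δ * P := by
    calc ‖1 - z * (x - z)‖ ≤ ‖(1 : ℂ)‖ + ‖z * (x - z)‖ := norm_sub_le _ _
      _ = 1 + ‖z‖ * ‖x - z‖ := by rw [norm_one, norm_mul]
      _ ≤ 1 + ‖x‖ * (δ * ‖x‖) := by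
        have := mul_le_mul hz hxz (norm_nonneg _) (norm_nonneg _)
        linarith
      _ = 1 + δ * (‖x‖ * ‖x‖) := by ring
      _ ≤ 1 + δ * P := by nlinarith
  have a2 : ‖1 - z * x‖ ≤ 3 / 2 := by
    calc ‖1 - z * x‖ ≤ ‖(1 : ℂ)‖ + ‖z * x‖ := norm_sub_le _ _
      _ = 1 + ‖z‖ * ‖x‖ := by rw [norm_one, norm_mul]
      _ ≤ 1 + ‖x‖ * ‖x‖ := by nlinarith [norm_nonneg x]
      _ ≤ 3 / 2 := by linarith
  have a3 : ‖(x - z) * (1 - z * x)‖ ^ 2 ≤ δ ^ 2 * P * (9 / 4) := by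
    rw [norm_mul, mul_pow]
    have b1 : ‖x - z‖ ^ 2 ≤ δ ^ 2 * P := by
      calc ‖x - z‖ ^ 2 ≤ (δ * ‖x‖) ^ 2 := pow_le_pow_left₀ (norm_nonneg _) hxz 2
        _ = δ ^ 2 * (‖x‖ * ‖x‖) := by ring
        _ ≤ δ ^ 2 * P := by nlinarith [sq_nonneg δ]
    have b2 : ‖1 - z * x‖ ^ 2 ≤ 9 / 4 := by
      calc ‖1 - z * x‖ ^ 2 ≤ (3 / 2 : ℝ) ^ 2 := pow_le_pow_left₀ (norm_nonneg _) a2 2
        _ = 9 / 4 := by norm_num
    exact mul_le_mul b1 b2 (by positivity) (by positivity)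
  have a4 : 1 / 2 ≤ 1 - ‖x‖ ^ 2 := by
    have : ‖x‖ ^ 2 ≤ P := hx
    linarith
  have a5 : ‖(x - z) * (1 - z * x)‖ ^ 2 / (1 - ‖x‖ ^ 2) ≤ 9 * δ * P := by
    rw [div_le_iff₀ (by linarith)]
    have c1 : δ ^ 2 * P * (9 / 4) ≤ 9 / 2 * δ * P := by
      have : δ ^ 2 ≤ 2 * δ := by nlinarith
      nlinarith
    have c2 : 9 * δ * P * (1 / 2) ≤ 9 * δ * P * (1 - ‖x‖ ^ 2) :=
      mul_le_mul_of_nonneg_left a4 (by positivity)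
    linarith
  have a6 : ‖1 - z * (x - z)‖ ^ 2 ≤ 1 + 3 * δ * P := by
    calc ‖1 - z * (x - z)‖ ^ 2 ≤ (1 + δ * P) ^ 2 := pow_le_pow_left₀ (norm_nonneg _) a1 2
      _ = 1 + 2 * (δ * P) + (δ * P) * (δ * P) := by ring
      _ ≤ 1 + 2 * (δ * P) + (δ * P) * 1 := by
        have : δ * P ≤ 1 := by nlinarith
        have h0 : 0 ≤ δ * P := by positivity
        nlinarith
      _ = 1 + 3 * δ * P := by ring
  have a7 : 12 * δ / q = 12 * δ * P := by rw [hP]; ring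
  rw [a7]
  have := Real.add_one_le_exp (12 * δ * P)
  linarith


end Pool.Agent.HS
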