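import Pool.Agent.Lib_helper45.HS.Defs
import Pool.Agent.Lib_helper98.WSF.M8
import Pool.Agent.Lib_helper45.HSF.P0
import Pool.Agent.Lib_helper45.HSF.P1

/-! # Hilbert-Selberg, PART I: block M8, sums over primes -/

namespace Pool.Agent.HS

open Complex MeasureTheory Filter Topology
open scoped ENNReal Classical
open Pool.Agent.WA (gd gk)
open Pool.Agent.SEL (NL Adm)
open Pool.Agent.SQS (hat)
open Pool.Agent.WS (st EE RT cc hl Step)
open Finset.HasAntidiagonal (antidiagonal)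

variable {P : Type} (S : PSys P)

theorem m8_fib (F : Finset P) (l : ℕ) : (F.filter fun p => S.und p = l).card ≤ S.d := by
  have h1 : ((F.filter fun p => S.und p = l : Finset P) : Set P) ⊆ {p | S.und p = l} := by
    intro p hp
    rw [Finset.mem_coe, Finset.mem_filter] at hp
    exact hp.2
  have h2 := (Set.encard_le_encard h1).trans (S.fib l)
  rw [Set.encard_coe_eq_coe_finsetCard] at h2
  exact_mod_cast h2

/-- grouping by the rational prime -/
theorem m8_group (F : Finset P) (T : Finset ℕ) (g : P → ℝ) (G : ℕ → ℝ) (hG : ∀ l ∈ T, 0 ≤ G l)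
    (hT : ∀ p ∈ F, S.und p ∈ T) (hg : ∀ p ∈ F, g p ≤ G (S.und p)) :
    ∑ p ∈ F, g p ≤ S.d * ∑ l ∈ T, G l := by
  rw [← Finset.sum_fiberwise_of_maps_to hT, Finset.mul_sum]
  apply Finset.sum_le_sum
  intro l hl
  calc ∑ p ∈ F.filter (fun p => S.und p = l), g p
      ≤ ∑ p ∈ F.filter (fun p => S.und p = l), G l := by
        apply Finset.sum_le_sum
        intro p hp
        rw [Finset.mem_filter] at hp
        rw [← hp.2]
        exact hg p hp.1
    _ = ((F.filter fun p => S.und p = l).card : ℝ) * G l := by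
        rw [Finset.sum_const, nsmul_eq_mul]
    _ ≤ S.d * G l := by
        apply mul_le_mul_of_nonneg_right _ (hG l hl)
        exact_mod_cast m8_fib S F l

theorem m8_sq (p : P) (h : S.f p ≠ 1) : (S.und p) ^ 2 ≤ S.q p := by
  have h1 := S.f_pos p
  rw [S.q_eq]
  exact Nat.pow_le_pow_right (S.prime p).pos (by omega)

theorem m8_one (p : P) (h : S.f p = 1) : S.q p = S.und p := by
  rw [S.q_eq, h, pow_one]

theorem m8_sum_sq (T : Finset ℕ) : ∑ l ∈ T, 1 / (l : ℝ) ^ 2 ≤ ∑' n : ℕ, 1 / (n : ℝ) ^ 2 :=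
  (Real.summable_one_div_nat_pow.2 (by norm_num)).sum_le_tsum T fun n _ => by positivity

theorem m8_K2 : 0 ≤ ∑' n : ℕ, 1 / (n : ℝ) ^ 2 := tsum_nonneg fun n => by positivity

/-- the primes of degree at least two -/
theorem m8_deg (F : Finset P) (g : P → ℝ) (hF : ∀ p ∈ F, S.f p ≠ 1)
    (hg : ∀ p ∈ F, g p ≤ 2 / (S.q p : ℝ)) :
    ∑ p ∈ F, g p ≤ S.d * (2 * ∑' n : ℕ, 1 / (n : ℝ) ^ 2) := by
  have h1 : ∑ p ∈ F, g p ≤ S.d * ∑ l ∈ F.image S.und, 2 * (1 / (l : ℝ) ^ 2) := by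
    apply m8_group S F _ g (fun l => 2 * (1 / (l : ℝ) ^ 2))
    · intro l _
      positivity
    · intro p hp
      exact Finset.mem_image_of_mem _ hp
    · intro p hp
      have h2 : ((S.und p : ℕ) : ℝ) ^ 2 ≤ (S.q p : ℝ) := by exact_mod_cast m8_sq S p (hF p hp)
      have h3 : (0 : ℝ) < (S.und p : ℝ) := by exact_mod_cast (S.prime p).pos
      calc g p ≤ 2 / (S.q p : ℝ) := hg p hp
        _ ≤ 2 / ((S.und p : ℕ) : ℝ) ^ 2 := by
          apply div_le_div_of_nonneg_left (by norm_num) (by positivity) h2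
        _ = 2 * (1 / (S.und p : ℝ) ^ 2) := by ring
  refine h1.trans ?_
  apply mul_le_mul_of_nonneg_left _ (Nat.cast_nonneg _)
  rw [← Finset.mul_sum]
  apply mul_le_mul_of_nonneg_left (m8_sum_sq _) (by norm_num)

theorem m8_q_pos (p : P) : (0 : ℝ) < (S.q p : ℝ) := by
  have := q_two S p
  exact_mod_cast (by omega : 0 < S.q p)

theorem prime_sum : ∃ C : ℝ, 0 < C ∧ ∀ L A : ℝ, 1 ≤ L → 0 ≤ A →
    ∑ p ∈ S.PB (NL L), min 2 (A * Real.log (S.q p)) / (S.q p : ℝ) ≤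
      C * (1 + Real.log (1 + A * L)) := by
  obtain ⟨C₀, hC₀, h0⟩ := WS.prime_sum
  have hK := m8_K2
  have hd : (0 : ℝ) < S.d := by exact_mod_cast S.d_pos
  refine ⟨S.d * C₀ + S.d * (2 * ∑' n : ℕ, 1 / (n : ℝ) ^ 2), by positivity, ?_⟩
  intro L A hL hA
  have hlog : 0 ≤ Real.log (1 + A * L) := Real.log_nonneg (by nlinarith)
  rw [← Finset.sum_filter_add_sum_filter_not (S.PB (NL L)) (fun p => S.f p = 1)]
  have hl2 : ∀ p : P, 0 ≤ Real.log (S.q p : ℝ) := fun p => by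
    apply Real.log_nonneg
    have := q_two S p
    exact_mod_cast (by omega : 1 ≤ S.q p)
  have h1 : ∑ p ∈ (S.PB (NL L)).filter (fun p => S.f p = 1),
      min 2 (A * Real.log (S.q p)) / (S.q p : ℝ) ≤
      S.d * ∑ l ∈ Nat.primesBelow (NL L), min 2 (A * Real.log l) / (l : ℝ) := by
    apply m8_group S _ _ _ (fun l : ℕ => min 2 (A * Real.log l) / (l : ℝ))
    · intro l hl
      have h2 := (Nat.mem_primesBelow.1 hl).2.one_lt.le
      have h3 : 0 ≤ Real.log (l : ℝ) := Real.log_nonneg (by exact_mod_cast h2)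
      positivity
    · intro p hp
      rw [Finset.mem_filter, mem_PB] at hp
      rw [Nat.mem_primesBelow]
      exact ⟨by rw [← m8_one S p hp.2]; exact hp.1, S.prime p⟩
    · intro p hp
      rw [Finset.mem_filter] at hp
      rw [m8_one S p hp.2]
  have h2 : ∑ p ∈ (S.PB (NL L)).filter (fun p => ¬ S.f p = 1),
      min 2 (A * Real.log (S.q p)) / (S.q p : ℝ) ≤ S.d * (2 * ∑' n : ℕ, 1 / (n : ℝ) ^ 2) := by
    apply m8_deg
    · intro p hp
      exact (Finset.mem_filter.1 hp).2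
    · intro p _
      exact div_le_div_of_nonneg_right (min_le_left _ _) (m8_q_pos S p).le
  have h3 := h0 L A hL hA
  calc _ ≤ S.d * ∑ l ∈ Nat.primesBelow (NL L), min 2 (A * Real.log l) / (l : ℝ) +
        S.d * (2 * ∑' n : ℕ, 1 / (n : ℝ) ^ 2) := add_le_add h1 h2
    _ ≤ S.d * (C₀ * (1 + Real.log (1 + A * L))) +
        S.d * (2 * ∑' n : ℕ, 1 / (n : ℝ) ^ 2) * (1 + Real.log (1 + A * L)) := by
        apply add_le_add (mul_le_mul_of_nonneg_left h3 hd.le)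
        apply le_mul_of_one_le_right (by positivity)
        linarith
    _ = _ := by ring

theorem prime_tail : ∃ C : ℝ, 0 < C ∧ ∀ (L : ℝ) (N : ℕ), 1 ≤ L →
    ∑ p ∈ (S.PB N).filter (fun p => NL L ≤ S.q p), (S.q p : ℝ) ^ (-(1 + 1 / (4 * L))) ≤ C := by
  obtain ⟨C₀, hC₀, h0⟩ := WS.prime_tail
  have hK := m8_K2
  have hd : (0 : ℝ) < S.d := by exact_mod_cast S.d_pos
  refine ⟨S.d * C₀ + S.d * (2 * ∑' n : ℕ, 1 / (n : ℝ) ^ 2), by positivity, ?_⟩
  intro L N hL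
  rw [← Finset.sum_filter_add_sum_filter_not _ (fun p => S.f p = 1)]
  have h1 : ∑ p ∈ ((S.PB N).filter (fun p => NL L ≤ S.q p)).filter (fun p => S.f p = 1),
      (S.q p : ℝ) ^ (-(1 + 1 / (4 * L))) ≤
      S.d * ∑ l ∈ (Nat.primesBelow N).filter (fun l : ℕ => NL L ≤ l),
        (l : ℝ) ^ (-(1 + 1 / (4 * L))) := by
    apply m8_group S _ _ _ (fun l : ℕ => (l : ℝ) ^ (-(1 + 1 / (4 * L))))
    · intro l _
      positivity
    · intro p hp
      rw [Finset.mem_filter, Finset.mem_filter, mem_PB] at hp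
      rw [Finset.mem_filter, Nat.mem_primesBelow, ← m8_one S p hp.2]
      exact ⟨⟨hp.1.1, by rw [m8_one S p hp.2]; exact S.prime p⟩, hp.1.2⟩
    · intro p hp
      rw [Finset.mem_filter] at hp
      rw [m8_one S p hp.2]
  have h2 : ∑ p ∈ ((S.PB N).filter (fun p => NL L ≤ S.q p)).filter (fun p => ¬ S.f p = 1),
      (S.q p : ℝ) ^ (-(1 + 1 / (4 * L))) ≤ S.d * (2 * ∑' n : ℕ, 1 / (n : ℝ) ^ 2) := by
    apply m8_deg
    · intro p hp
      exact (Finset.mem_filter.1 hp).2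
    · intro p _
      have hq : (1 : ℝ) ≤ (S.q p : ℝ) := by
        have := q_two S p
        exact_mod_cast (by omega : 1 ≤ S.q p)
      have h3 : (S.q p : ℝ) ^ (-(1 + 1 / (4 * L))) ≤ (S.q p : ℝ) ^ (-1 : ℝ) := by
        apply Real.rpow_le_rpow_of_exponent_le hq
        have : 0 < 1 / (4 * L) := by positivity
        linarith
      rw [Real.rpow_neg_one] at h3
      refine h3.trans ?_
      rw [div_eq_mul_inv]
      have : 0 ≤ (S.q p : ℝ)⁻¹ := by positivity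
      linarith
  have h3 := h0 L N hL
  calc _ ≤ S.d * ∑ l ∈ (Nat.primesBelow N).filter (fun l : ℕ => NL L ≤ l),
          (l : ℝ) ^ (-(1 + 1 / (4 * L))) +
        S.d * (2 * ∑' n : ℕ, 1 / (n : ℝ) ^ 2) := add_le_add h1 h2
    _ ≤ S.d * C₀ + S.d * (2 * ∑' n : ℕ, 1 / (n : ℝ) ^ 2) := by
        apply add_le_add (mul_le_mul_of_nonneg_left h3 hd.le) le_rfl

theorem m8_nrm_prod (m : P →₀ ℕ) :
    m.prod (fun p i => (((S.q p : ℂ)⁻¹) ^ i)) = (((S.nrm m : ℝ)⁻¹ : ℝ) : ℂ) := by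
  unfold PSys.nrm Finsupp.prod
  push_cast
  rw [← Finset.prod_inv_distrib]
  apply Finset.prod_congr rfl
  intro p _
  rw [inv_pow]

theorem mertens_up {c C : ℝ} (hS : S.Ax c C) {N : ℕ} (hN : 2 ≤ N) :
    ∏ p ∈ S.PB N, (1 - 1 / (S.q p : ℝ)) ≤ 1 / (c * Real.log N) := by
  have hq : ∀ p : P, ‖((S.q p : ℂ)⁻¹)‖ < 1 := by
    intro p
    rw [norm_inv, Complex.norm_natCast]
    have := q_two S p
    apply inv_lt_one_of_one_lt₀
    exact_mod_cast (by omega : 1 < S.q p)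
  obtain ⟨hs, ht⟩ := euler_fin (S.PB N) (fun (p : P) (i : ℕ) => ((S.q p : ℂ)⁻¹) ^ i)
    (fun p => pow_zero _) (fun p _ => by
      have := summable_geometric_of_lt_one (norm_nonneg _) (hq p)
      refine this.congr ?_
      intro i
      rw [norm_pow])
  have hlogpos : 0 < Real.log (N : ℝ) := Real.log_pos (by exact_mod_cast (by omega : 1 < N))
  have hc := hS.c_pos
  -- the sum over the ideals
  have hnr : ∀ m : {m : P →₀ ℕ // m.support ⊆ S.PB N},
      m.1.prod (fun (p : P) (i : ℕ) => ((S.q p : ℂ)⁻¹) ^ i) = (((S.nrm m.1 : ℝ)⁻¹ : ℝ) : ℂ) :=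
    fun m => m8_nrm_prod S m.1
  have hsum : Summable (fun m : {m : P →₀ ℕ // m.support ⊆ S.PB N} => (S.nrm m.1 : ℝ)⁻¹) := by
    refine hs.congr ?_
    intro m
    rw [hnr m, Complex.norm_real, Real.norm_of_nonneg (by positivity)]
  have hreal : ∑' m : {m : P →₀ ℕ // m.support ⊆ S.PB N}, (S.nrm m.1 : ℝ)⁻¹ =
      ∏ p ∈ S.PB N, (1 - 1 / (S.q p : ℝ))⁻¹ := by
    have h1 : ((∑' m : {m : P →₀ ℕ // m.support ⊆ S.PB N}, (S.nrm m.1 : ℝ)⁻¹ : ℝ) : ℂ) =
        ((∏ p ∈ S.PB N, (1 - 1 / (S.q p : ℝ))⁻¹ : ℝ) : ℂ) := by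
      rw [Complex.ofReal_tsum]
      have h2 : (fun m : {m : P →₀ ℕ // m.support ⊆ S.PB N} => (((S.nrm m.1 : ℝ)⁻¹ : ℝ) : ℂ)) =
          fun m => m.1.prod (fun (p : P) (i : ℕ) => ((S.q p : ℂ)⁻¹) ^ i) := by
        funext m
        rw [hnr m]
      rw [h2, ht]
      push_cast
      apply Finset.prod_congr rfl
      intro p _
      rw [tsum_geometric_of_norm_lt_one (hq p), one_div]
    exact_mod_cast h1
  have hge : c * Real.log N ≤ ∏ p ∈ S.PB N, (1 - 1 / (S.q p : ℝ))⁻¹ := by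
    rw [← hreal]
    refine (hS.mert N hN).trans ?_
    have hinj : ∀ m ∈ S.BL N, m.support ⊆ S.PB N := fun m hm =>
      supp_of_nrm S ((mem_BL S).1 hm)
    have e : ∑ m ∈ S.BL N, 1 / (S.nrm m : ℝ) =
        ∑ m ∈ (S.BL N).attach.map ⟨fun m => (⟨m.1, hinj m.1 m.2⟩ :
          {m : P →₀ ℕ // m.support ⊆ S.PB N}), fun a b hab => by
            apply Subtype.ext
            exact congrArg (fun z : {m : P →₀ ℕ // m.support ⊆ S.PB N} => z.1) hab⟩, (S.nrm m.1 : ℝ)⁻¹ := by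
      rw [Finset.sum_map, ← Finset.sum_attach]
      apply Finset.sum_congr rfl
      intro m _
      rw [one_div]
      rfl
    rw [e]
    exact hsum.sum_le_tsum _ fun m _ => by positivity
  have hpos : ∀ p ∈ S.PB N, 0 < 1 - 1 / (S.q p : ℝ) := by
    intro p _
    have := q_two S p
    have h2 : (2 : ℝ) ≤ (S.q p : ℝ) := by exact_mod_cast this
    have h3 : 1 / (S.q p : ℝ) ≤ 1 / 2 := one_div_le_one_div_of_le (by norm_num) h2
    linarith
  have hprod : 0 < ∏ p ∈ S.PB N, (1 - 1 / (S.q p : ℝ)) := Finset.prod_pos hpos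
  rw [Finset.prod_inv_distrib] at hge
  rw [le_div_iff₀ (by positivity)]
  calc (∏ p ∈ S.PB N, (1 - 1 / (S.q p : ℝ))) * (c * Real.log N)
      ≤ (∏ p ∈ S.PB N, (1 - 1 / (S.q p : ℝ))) * (∏ p ∈ S.PB N, (1 - 1 / (S.q p : ℝ)))⁻¹ :=
        mul_le_mul_of_nonneg_left hge hprod.le
    _ = 1 := mul_inv_cancel₀ hprod.ne'


end Pool.Agent.HS
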