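import Pool.Agent.Lib_helper45.HS.Defs
import Pool.Agent.Lib_helper98.WSF.M9
import Pool.Agent.Lib_helper45.HSF.M1
import Pool.Agent.Lib_helper45.HSF.M7
import Pool.Agent.Lib_helper45.HSF.M8
import Pool.Agent.Lib_helper45.HSF.P0

/-! # HS block M9: the product of the local integrals -/

namespace Pool.Agent.HS

open Complex MeasureTheory Filter Topology
open scoped ENNReal Classical
open Pool.Agent.WA (gd gk)
open Pool.Agent.SEL (NL Adm)
open Pool.Agent.SQS (hat)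
open Pool.Agent.WS (st EE RT cc hl Step)
open Finset.HasAntidiagonal (antidiagonal)

variable {P : Type} (S : PSys P)

theorem m9_local {q : ℕ} (hq : 2 ≤ q) {s w : ℂ} (hs : 1 / 2 ≤ s.re) (hw : 0 ≤ w.re) :
    ∫ y, (‖EE (2 * Real.cos y) ((q : ℂ) ^ (-s))‖ ^ 2)⁻¹ *
      ‖EE (2 * Real.cos y) ((q : ℂ) ^ (-(s + w)))‖ ^ 2 ∂st ≤
      Real.exp (12 * (min 2 (‖w‖ * Real.log q) / q)) := by
  have hqp : 0 < q := by omega
  have hp0 : (0 : ℝ) < q := by exact_mod_cast hqp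
  have hp1 : (1 : ℝ) < q := by
    have : 1 < q := by omega
    exact_mod_cast this
  have hpc : (q : ℂ) ≠ 0 := by
    have : q ≠ 0 := by omega
    exact_mod_cast this
  have hlog : 0 < Real.log q := Real.log_pos hp1
  have hn : ∀ z : ℂ, ‖(q : ℂ) ^ (-z)‖ = (q : ℝ) ^ (-z.re) := by
    intro z
    rw [Complex.norm_natCast_cpow_of_pos hqp, Complex.neg_re]
  have h := mb_local hq (x := (q : ℂ) ^ (-s)) (z := (q : ℂ) ^ (-(s + w)))
    (δ := min 2 (‖w‖ * Real.log q)) ?_ ?_ ?_ (min_le_left _ _) ?_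
  · rw [mul_div_assoc] at h
    exact h
  · rw [Ne, Complex.cpow_eq_zero_iff]
    exact fun hh => hpc hh.1
  · rw [hn, ← Real.rpow_natCast, ← Real.rpow_mul hp0.le, one_div, ← Real.rpow_neg_one]
    apply Real.rpow_le_rpow_of_exponent_le hp1.le
    push_cast
    linarith
  · rw [hn, hn]
    apply Real.rpow_le_rpow_of_exponent_le hp1.le
    rw [Complex.add_re]
    linarith
  · have h1 : (q : ℂ) ^ (-s) - (q : ℂ) ^ (-(s + w)) =
        (1 - cexp (-(w * Real.log q))) * (q : ℂ) ^ (-s) := by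
      rw [neg_add, Complex.cpow_add _ _ hpc]
      have h2 : (q : ℂ) ^ (-w) = cexp (-(w * Real.log q)) := by
        rw [Complex.cpow_def_of_ne_zero hpc, ← Complex.natCast_log]
        congr 1
        ring
      rw [h2]
      ring
    rw [h1, norm_mul]
    have h3 := WS.m9_exp (v := w * Real.log q) (by
      rw [Complex.re_mul_ofReal]
      positivity)
    rw [norm_mul, Complex.norm_real, Real.norm_of_nonneg hlog.le] at h3
    gcongr

theorem m9_inv {q : ℕ} (hq : 2 ≤ q) {s : ℂ} {L : ℝ} (hL : 1 ≤ L)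
    (hs : 1 / 2 + 1 / (8 * L) ≤ s.re) :
    ∫ y, (‖EE (2 * Real.cos y) ((q : ℂ) ^ (-s))‖ ^ 2)⁻¹ ∂st ≤
      Real.exp (2 * (q : ℝ) ^ (-(1 + 1 / (4 * L)))) := by
  have hqp : 0 < q := by omega
  have hp0 : (0 : ℝ) < q := by exact_mod_cast hqp
  have hp1 : (1 : ℝ) < q := by
    have : 1 < q := by omega
    exact_mod_cast this
  have hp2 : (2 : ℝ) ≤ q := by exact_mod_cast hq
  have hL0 : 0 < L := by linarith
  have hn : ‖(q : ℂ) ^ (-s)‖ = (q : ℝ) ^ (-s.re) := by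
    rw [Complex.norm_natCast_cpow_of_pos hqp, Complex.neg_re]
  have h8 : 0 < 1 / (8 * L) := by positivity
  have hsq : ‖(q : ℂ) ^ (-s)‖ ^ 2 ≤ (q : ℝ) ^ (-(1 + 1 / (4 * L))) := by
    rw [hn, ← Real.rpow_natCast, ← Real.rpow_mul hp0.le]
    apply Real.rpow_le_rpow_of_exponent_le hp1.le
    push_cast
    have h9 : 1 / (4 * L) = 2 * (1 / (8 * L)) := by
      field_simp
      norm_num
    rw [h9]
    linarith
  have hhalf : (q : ℝ) ^ (-(1 + 1 / (4 * L))) ≤ 1 / 2 := by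
    calc (q : ℝ) ^ (-(1 + 1 / (4 * L))) ≤ (q : ℝ) ^ (-1 : ℝ) := by
          apply Real.rpow_le_rpow_of_exponent_le hp1.le
          have : 0 < 1 / (4 * L) := by positivity
          linarith
      _ = 1 / q := by rw [Real.rpow_neg_one, one_div]
      _ ≤ 1 / 2 := by gcongr
  have hlt : ‖(q : ℂ) ^ (-s)‖ < 1 := by
    rw [hn]
    apply Real.rpow_lt_one_of_one_lt_of_neg hp1
    linarith
  rw [WS.mb_inv hlt]
  set y : ℝ := ‖(q : ℂ) ^ (-s)‖ ^ 2 with hy
  have hy0 : 0 ≤ y := by positivity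
  have hyh : y ≤ 1 / 2 := hsq.trans hhalf
  have h1 : 1 / (1 - y) ≤ 1 + 2 * y := by
    rw [div_le_iff₀ (by linarith)]
    nlinarith
  calc 1 / (1 - y) ≤ 1 + 2 * y := h1
    _ ≤ Real.exp (2 * y) := by linarith [Real.add_one_le_exp (2 * y)]
    _ ≤ _ := by
        apply Real.exp_le_exp.2
        linarith

theorem mb_int : ∃ C : ℝ, 0 < C ∧ ∀ (L : ℝ) (N : ℕ) (s w : ℂ), 1 ≤ L → NL L ≤ N → 0 ≤ w.re →
    (s.re = 1 / 2 ∧ N = NL L) ∨ 1 / 2 + 1 / (8 * L) ≤ s.re →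
    ∫ X, ‖LX S N (th S X) s‖ ^ 2 * ∏ p ∈ S.PB (NL L),
      ‖EE (th S X p) ((S.q p : ℂ) ^ (-(s + w)))‖ ^ 2 ∂(mu S N) ≤ C * (1 + ‖w‖ * L) ^ C := by
  obtain ⟨C₀, hC₀, hps⟩ := prime_sum S
  obtain ⟨C₁, hC₁, hpt⟩ := prime_tail S
  set K : ℝ := max (Real.exp (12 * C₀ + 2 * C₁)) (12 * C₀) with hK
  have hK0 : 0 < K := lt_of_lt_of_le (Real.exp_pos _) (le_max_left _ _)
  refine ⟨K, hK0, fun L N s w hL hN hw hs => ?_⟩
  have hL0 : 0 < L := by linarith
  have hsr : 1 / 2 ≤ s.re := by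
    rcases hs with hs | hs
    · rw [hs.1]
    · have : 0 < 1 / (8 * L) := by positivity
      linarith
  set f : P → ℝ → ℝ := fun p x => (‖EE (2 * Real.cos x) ((S.q p : ℂ) ^ (-s))‖ ^ 2)⁻¹ *
    (if S.q p < NL L then ‖EE (2 * Real.cos x) ((S.q p : ℂ) ^ (-(s + w)))‖ ^ 2 else 1) with hf
  have hpb : (S.PB N).filter (fun p => S.q p < NL L) = S.PB (NL L) := by
    ext p
    simp only [Finset.mem_filter, mem_PB]
    constructor
    · rintro ⟨_, h3⟩
      exact h3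
    · intro h1
      exact ⟨lt_of_lt_of_le h1 hN, h1⟩
  have e1 : ∀ X : S.PB N → ℝ, ‖LX S N (th S X) s‖ ^ 2 * ∏ p ∈ S.PB (NL L),
      ‖EE (th S X p) ((S.q p : ℂ) ^ (-(s + w)))‖ ^ 2 = ∏ p : S.PB N, f p (X p) := by
    intro X
    unfold LX
    rw [norm_prod, ← Finset.prod_pow, ← hpb, Finset.prod_filter, ← Finset.prod_mul_distrib,
      ← Finset.prod_coe_sort]
    refine Finset.prod_congr rfl fun p _ => ?_
    have hth : th S X (p : P) = 2 * Real.cos (X p) := by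
      unfold th
      rw [dif_pos p.2]
    rw [hth, norm_inv, inv_pow, hf]
  have e2 : ∫ X, ‖LX S N (th S X) s‖ ^ 2 * ∏ p ∈ S.PB (NL L),
      ‖EE (th S X p) ((S.q p : ℂ) ^ (-(s + w)))‖ ^ 2 ∂(mu S N) =
      ∏ p ∈ S.PB N, ∫ x, f p x ∂st := by
    have h1 := mu_prod S N (fun p x => ((f p x : ℝ) : ℂ))
    have h2 : (fun X : S.PB N → ℝ => ∏ p : S.PB N, ((f p (X p) : ℝ) : ℂ)) =
        fun X => ((‖LX S N (th S X) s‖ ^ 2 * ∏ p ∈ S.PB (NL L),
          ‖EE (th S X p) ((S.q p : ℂ) ^ (-(s + w)))‖ ^ 2 : ℝ) : ℂ) := by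
      funext X
      rw [e1]
      push_cast
      rfl
    rw [h2, integral_complex_ofReal] at h1
    simp_rw [integral_complex_ofReal] at h1
    exact_mod_cast h1
  rw [e2]
  have hf0 : ∀ p, 0 ≤ ∫ x, f p x ∂st := by
    intro p
    apply integral_nonneg
    intro x
    simp only [hf]
    show 0 ≤ _
    split_ifs <;> positivity
  set b : P → ℝ := fun p => if S.q p < NL L then
    12 * (min 2 (‖w‖ * Real.log (S.q p)) / (S.q p : ℝ)) else
    2 * (S.q p : ℝ) ^ (-(1 + 1 / (4 * L))) with hb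
  have hloc : ∀ p ∈ S.PB N, ∫ x, f p x ∂st ≤ Real.exp (b p) := by
    intro p hp
    simp only [hf, hb]
    by_cases hlt : S.q p < NL L
    · simp only [hlt, if_true]
      exact m9_local (q_two S p) hsr hw
    · simp only [hlt, if_false, mul_one]
      rcases hs with hs | hs
      · exfalso
        apply hlt
        rw [← hs.2]
        exact (mem_PB S).1 hp
      · exact m9_inv (q_two S p) hL hs
  have h3 : ∏ p ∈ S.PB N, ∫ x, f p x ∂st ≤ Real.exp (∑ p ∈ S.PB N, b p) := by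
    rw [Real.exp_sum]
    exact Finset.prod_le_prod (fun p _ => hf0 p) hloc
  refine h3.trans ?_
  have h4 : ∑ p ∈ S.PB N, b p ≤
      12 * (C₀ * (1 + Real.log (1 + ‖w‖ * L))) + 2 * C₁ := by
    rw [← Finset.sum_filter_add_sum_filter_not (S.PB N) (fun p => S.q p < NL L) b]
    have h5 : ∑ p ∈ (S.PB N).filter (fun p => S.q p < NL L), b p =
        12 * ∑ p ∈ S.PB (NL L), min 2 (‖w‖ * Real.log (S.q p)) / (S.q p : ℝ) := by
      rw [← hpb, Finset.mul_sum]
      refine Finset.sum_congr rfl fun p hp => ?_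
      simp only [hb]
      rw [if_pos (Finset.mem_filter.1 hp).2]
    have h6 : ∑ p ∈ (S.PB N).filter (fun p => ¬ S.q p < NL L), b p =
        2 * ∑ p ∈ (S.PB N).filter (fun p => NL L ≤ S.q p),
          (S.q p : ℝ) ^ (-(1 + 1 / (4 * L))) := by
      rw [Finset.mul_sum]
      have h7 : (S.PB N).filter (fun p => ¬ S.q p < NL L) =
          (S.PB N).filter (fun p => NL L ≤ S.q p) := by
        refine Finset.filter_congr fun p _ => ?_
        rw [not_lt]
      rw [h7]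
      refine Finset.sum_congr rfl fun p hp => ?_
      simp only [hb]
      rw [if_neg (not_lt.2 (Finset.mem_filter.1 hp).2)]
    rw [h5, h6]
    have h8 := hps L ‖w‖ hL (norm_nonneg w)
    have h9 := hpt L N hL
    linarith
  have hA1 : 1 ≤ 1 + ‖w‖ * L := by
    have : 0 ≤ ‖w‖ * L := by positivity
    linarith
  have hA0 : 0 < 1 + ‖w‖ * L := by linarith
  calc Real.exp (∑ p ∈ S.PB N, b p)
      ≤ Real.exp (12 * (C₀ * (1 + Real.log (1 + ‖w‖ * L))) + 2 * C₁) := Real.exp_le_exp.2 h4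
    _ = Real.exp (12 * C₀ + 2 * C₁) * (1 + ‖w‖ * L) ^ (12 * C₀) := by
        rw [Real.rpow_def_of_pos hA0, ← Real.exp_add]
        congr 1
        ring
    _ ≤ K * (1 + ‖w‖ * L) ^ K := by
        have h5 : Real.exp (12 * C₀ + 2 * C₁) ≤ K := le_max_left _ _
        have h6 : (1 + ‖w‖ * L) ^ (12 * C₀) ≤ (1 + ‖w‖ * L) ^ K :=
          Real.rpow_le_rpow_of_exponent_le hA1 (le_max_right _ _)
        gcongr


end Pool.Agent.HS
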