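import Pool.Agent.Lib_helper45.HS.Defs
import Pool.Agent.Lib_helper98.WSF.M10
import Pool.Agent.Lib_helper45.HSF.M1
import Pool.Agent.Lib_helper45.HSF.M10
import Pool.Agent.Lib_helper45.HSF.M9
import Pool.Agent.Lib_helper45.HSF.P0

/-!
# Hilbert-Selberg, PART I: block M11 (MBF), the mollified mean value in the model
-/

namespace Pool.Agent.HS

open Complex MeasureTheory Filter Topology
open scoped ENNReal Classical
open Pool.Agent.WA (gd gk)
open Pool.Agent.SEL (NL Adm)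
open Pool.Agent.SQS (hat)
open Pool.Agent.WS (st EE RT cc hl Step)
open Finset.HasAntidiagonal (antidiagonal)

variable {P : Type} (S : PSys P)

theorem m11_q1 (p : P) : 1 < S.q p := by
  have := q_two S p
  omega

/-- Block M11 -/
theorem mol_cont (L : ℝ) (Θ : ℝ → ℝ) (N : ℕ) (s : ℂ) :
    Continuous (fun X : S.PB N → ℝ => mol S L Θ (th S X) s) := by
  unfold mol
  refine continuous_finsetSum _ fun m _ => ?_
  exact (continuous_ofReal.comp ((al_cont S N m).mul continuous_const)).mul continuous_const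

theorem m11_holder {a b : ℝ → ℝ≥0∞} (ha : AEMeasurable a) (hb : AEMeasurable b) :
    (∫⁻ u, a u * b u) ^ 4 ≤ (∫⁻ u, a u) ^ 3 * ∫⁻ u, a u * b u ^ 4 := by
  have hpq : (4 / 3 : ℝ).HolderConjugate 4 := by
    rw [Real.holderConjugate_iff]; norm_num
  have h := ENNReal.lintegral_mul_le_Lp_mul_Lq volume hpq
    (f := fun u => a u ^ (3 / 4 : ℝ)) (g := fun u => a u ^ (1 / 4 : ℝ) * b u)
    (ha.pow_const _) ((ha.pow_const _).mul hb)
  have e1 : ∀ u, ((fun u => a u ^ (3 / 4 : ℝ)) * fun u => a u ^ (1 / 4 : ℝ) * b u) u =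
      a u * b u := by
    intro u
    rw [Pi.mul_apply, ← mul_assoc, ← ENNReal.rpow_add_of_nonneg _ _ (by norm_num) (by norm_num)]
    norm_num
  have e2 : ∀ u, (a u ^ (3 / 4 : ℝ)) ^ (4 / 3 : ℝ) = a u := by
    intro u
    rw [← ENNReal.rpow_mul]; norm_num
  have e3 : ∀ u, (a u ^ (1 / 4 : ℝ) * b u) ^ (4 : ℝ) = a u * b u ^ 4 := by
    intro u
    rw [ENNReal.mul_rpow_of_nonneg _ _ (by norm_num), ← ENNReal.rpow_mul]
    norm_num
  simp only [e1, e2, e3] at h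
  calc (∫⁻ u, a u * b u) ^ 4
      ≤ ((∫⁻ u, a u) ^ (1 / (4 / 3) : ℝ) * (∫⁻ u, a u * b u ^ 4) ^ (1 / 4 : ℝ)) ^ 4 :=
        pow_le_pow_left' h 4
    _ = (∫⁻ u, a u) ^ 3 * ∫⁻ u, a u * b u ^ 4 := by
        rw [mul_pow, ← ENNReal.rpow_natCast, ← ENNReal.rpow_natCast, ← ENNReal.rpow_mul,
          ← ENNReal.rpow_mul]
        norm_num

/-- the shift -/
noncomputable def m11_w (L κ u : ℝ) : ℂ := (1 - κ - u * I) / L

theorem m11_w_re {L κ u : ℝ} : (m11_w L κ u).re = (1 - κ) / L := by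
  rw [m11_w, Complex.div_ofReal_re]
  simp

theorem m11_w_norm {L κ u : ℝ} (hL : 1 ≤ L) (h0 : 0 ≤ κ) (h1 : κ ≤ 1) :
    ‖m11_w L κ u‖ * L ≤ 1 + |u| := by
  have hL0 : 0 < L := by linarith
  rw [m11_w, norm_div, Complex.norm_real, Real.norm_of_nonneg hL0.le, div_mul_cancel₀ _ hL0.ne']
  calc ‖(1 : ℂ) - κ - u * I‖ ≤ ‖(1 : ℂ) - κ‖ + ‖(u : ℂ) * I‖ := norm_sub_le _ _
    _ = |1 - κ| + |u| := by
      rw [norm_mul, Complex.norm_I, mul_one, Complex.norm_real, Real.norm_eq_abs,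
        ← Complex.ofReal_one, ← Complex.ofReal_sub, Complex.norm_real, Real.norm_eq_abs]
    _ ≤ 1 + |u| := by
      rw [abs_of_nonneg (by linarith)]; linarith

/-- `∏ |E(p^{-(s+w)})|` -/
noncomputable def m11_Q (L κ : ℝ) (N : ℕ) (s : ℂ) (u : ℝ) (X : S.PB N → ℝ) : ℝ :=
  ∏ p ∈ S.PB (NL L), ‖EE (th S X p) ((S.q p : ℂ) ^ (-(s + m11_w L κ u)))‖

theorem m11_Q_nonneg (L κ : ℝ) (N : ℕ) (s : ℂ) (u : ℝ) (X : S.PB N → ℝ) :
    0 ≤ m11_Q S L κ N s u X := Finset.prod_nonneg fun _ _ => norm_nonneg _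

theorem m11_Q_cont (L κ : ℝ) (N : ℕ) (s : ℂ) :
    Continuous (fun v : ℝ × (S.PB N → ℝ) => m11_Q S L κ N s v.1 v.2) := by
  unfold m11_Q
  refine continuous_finsetProd _ fun p hp => ?_
  have hp0 : (S.q p : ℂ) ≠ 0 := by
    exact_mod_cast (by have := m11_q1 S p; omega : S.q p ≠ 0)
  have h1 : Continuous (fun v : ℝ × (S.PB N → ℝ) => th S v.2 p) :=
    (th_cont S N p).comp continuous_snd
  have h2 : Continuous (fun v : ℝ × (S.PB N → ℝ) =>
      (S.q p : ℂ) ^ (-(s + m11_w L κ v.1))) := by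
    refine Continuous.const_cpow ?_ (Or.inl hp0)
    unfold m11_w
    fun_prop
  unfold EE
  exact ((continuous_const.sub ((continuous_ofReal.comp h1).mul h2)).add (h2.pow 2)).norm

theorem m11_Q_cont_u (L κ : ℝ) (N : ℕ) (s : ℂ) (X : S.PB N → ℝ) :
    Continuous (fun u : ℝ => m11_Q S L κ N s u X) := by
  have h : Continuous (fun u : ℝ => ((u, X) : ℝ × (S.PB N → ℝ))) :=
    Continuous.prodMk continuous_id continuous_const
  exact Continuous.comp (g := fun v : ℝ × (S.PB N → ℝ) => m11_Q S L κ N s v.1 v.2)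
    (f := fun u : ℝ => ((u, X) : ℝ × (S.PB N → ℝ))) (m11_Q_cont S L κ N s) h

theorem m11_Q_cont_X (L κ : ℝ) (N : ℕ) (s : ℂ) (u : ℝ) :
    Continuous (fun X : S.PB N → ℝ => m11_Q S L κ N s u X) := by
  have h : Continuous (fun X : S.PB N → ℝ => ((u, X) : ℝ × (S.PB N → ℝ))) :=
    Continuous.prodMk continuous_const continuous_id
  exact Continuous.comp (g := fun v : ℝ × (S.PB N → ℝ) => m11_Q S L κ N s v.1 v.2)
    (f := fun X : S.PB N → ℝ => ((u, X) : ℝ × (S.PB N → ℝ)))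
    (m11_Q_cont S L κ N s) h

theorem m11_EE_le {θ : ℝ} (hθ : |θ| ≤ 2) {x : ℂ} (hx : ‖x‖ ≤ 1) : ‖EE θ x‖ ≤ 4 := by
  unfold EE
  calc ‖1 - (θ : ℂ) * x + x ^ 2‖ ≤ ‖1 - (θ : ℂ) * x‖ + ‖x ^ 2‖ := norm_add_le _ _
    _ ≤ (‖(1 : ℂ)‖ + ‖(θ : ℂ) * x‖) + ‖x ^ 2‖ := by gcongr; exact norm_sub_le _ _
    _ ≤ (1 + 2 * 1) + 1 := by
      rw [norm_one, norm_mul, norm_pow, Complex.norm_real, Real.norm_eq_abs]
      have := norm_nonneg x
      have h2 : ‖x‖ ^ 2 ≤ 1 := pow_le_one₀ this hx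
      have h3 : |θ| * ‖x‖ ≤ 2 * 1 := mul_le_mul hθ hx this (by norm_num)
      linarith
    _ = 4 := by norm_num

theorem m11_Q_le {L κ : ℝ} {N : ℕ} {s : ℂ} {u : ℝ} (hL : 1 ≤ L) (h1 : κ ≤ 1) (hs : 1 / 2 ≤ s.re)
    (X : S.PB N → ℝ) :
    m11_Q S L κ N s u X ≤ 4 ^ (S.PB (NL L)).card := by
  unfold m11_Q
  refine (Finset.prod_le_prod (fun _ _ => norm_nonneg _) (fun p hp => ?_)).trans
    (le_of_eq (Finset.prod_const _))
  have hpp := m11_q1 S p
  refine m11_EE_le (th_le S X p) ?_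
  rw [Complex.norm_natCast_cpow_of_pos (by omega : 0 < S.q p)]
  refine Real.rpow_le_one_of_one_le_of_nonpos (by exact_mod_cast hpp.le) ?_
  rw [neg_re, add_re, m11_w_re]
  have : 0 ≤ (1 - κ) / L := div_nonneg (by linarith) (by linarith)
  linarith

theorem m11_PQ {L κ : ℝ} (hL : 1 ≤ L) (hκ : κ ≤ 1) {N : ℕ} {s : ℂ}
    (hs : 1 / 2 ≤ s.re) (X : S.PB N → ℝ) (u : ℝ) :
    ‖∏ p ∈ S.PB (NL L), RT (th S X p) ((S.q p : ℂ) ^ (-(s - κ / L + (1 - u * I) / L)))‖ =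
      √(m11_Q S L κ N s u X) := by
  rw [eq_comm, Real.sqrt_eq_iff_mul_self_eq (m11_Q_nonneg S _ _ _ _ _ _) (norm_nonneg _), ← sq,
    ← norm_pow, ← Finset.prod_pow, norm_prod, m11_Q]
  refine Finset.prod_congr rfl fun p hp => ?_
  have hpp := m11_q1 S p
  have e : s - κ / L + (1 - u * I) / L = s + m11_w L κ u := by
    rw [m11_w]; ring
  rw [e]
  have hx : ‖(S.q p : ℂ) ^ (-(s + m11_w L κ u))‖ < 1 := by
    rw [Complex.norm_natCast_cpow_of_pos (by omega : 0 < S.q p)]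
    refine Real.rpow_lt_one_of_one_lt_of_neg (by exact_mod_cast hpp) ?_
    rw [neg_re, add_re, m11_w_re]
    have : 0 ≤ (1 - κ) / L := div_nonneg (by linarith) (by linarith)
    linarith
  rw [(WS.RT_sq (th_le S X p) hx).2]

attribute [local irreducible] m11_Q

/-- pointwise bound for the fourth power of the mollifier -/
theorem m11_point {Θ : ℝ → ℝ} {g : ℝ → ℂ} (hg : Continuous g) (hgi : Integrable g)
    (hrep : ∀ x : ℝ, 0 ≤ x → (Θ x : ℂ) = ∫ u : ℝ, g u * cexp ((-1 + u * I) * x))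
    (h1 : ∀ x, 1 ≤ x → Θ x = 0) {L κ : ℝ} (hL : 1 ≤ L) (hκ : κ ≤ 1) {N : ℕ} {s : ℂ}
    (hs : 1 / 2 ≤ s.re) (X : S.PB N → ℝ) :
    ENNReal.ofReal (‖mol S L Θ (th S X) (s - κ / L)‖ ^ 4) ≤
      (∫⁻ u, ‖g u‖ₑ) ^ 3 * ∫⁻ u, ‖g u‖ₑ * ENNReal.ofReal (m11_Q S L κ N s u X ^ 2) := by
  have hL0 : 0 < L := by linarith
  have hre : (s - κ / L).re = s.re - κ / L := by
    rw [sub_re, ← Complex.ofReal_div, Complex.ofReal_re]
  have hκL : κ / L ≤ 1 / L := by gcongr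
  have hrepm := mb_rep S hg hgi hrep h1 hL0 (θ := th S X) (th_le S X) (s := s - κ / L)
    (by rw [hre]; linarith)
  set PF : ℝ → ℂ := fun u => ∏ p ∈ S.PB (NL L),
      RT (th S X p) ((S.q p : ℂ) ^ (-(s - κ / L + (1 - u * I) / L))) with hPF
  have hPQ : ∀ u, ‖PF u‖ = √(m11_Q S L κ N s u X) := fun u => m11_PQ S hL hκ hs X u
  have hQc : Continuous (fun u => m11_Q S L κ N s u X) := m11_Q_cont_u S L κ N s X
  have e1 : ENNReal.ofReal (‖mol S L Θ (th S X) (s - κ / L)‖ ^ 4) =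
      ‖mol S L Θ (th S X) (s - κ / L)‖ₑ ^ 4 := by
    rw [ENNReal.ofReal_pow (norm_nonneg _), ofReal_norm]
  have e2 : ‖mol S L Θ (th S X) (s - κ / L)‖ₑ ≤
      ∫⁻ u, ‖g u‖ₑ * ENNReal.ofReal (√(m11_Q S L κ N s u X)) := by
    rw [hrepm]
    refine (enorm_integral_le_lintegral_enorm _).trans (le_of_eq ?_)
    refine lintegral_congr fun u => ?_
    rw [enorm_mul, ← hPQ u, ofReal_norm]
  rw [e1]
  refine (pow_le_pow_left' e2 4).trans ?_
  have h3 := m11_holder (a := fun u => ‖g u‖ₑ)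
    (b := fun u => ENNReal.ofReal (√(m11_Q S L κ N s u X)))
    hg.measurable.enorm.aemeasurable
    (ENNReal.continuous_ofReal.comp (Real.continuous_sqrt.comp hQc)).measurable.aemeasurable
  refine h3.trans (le_of_eq ?_)
  congr 1
  refine lintegral_congr fun u => ?_
  rw [← ENNReal.ofReal_pow (Real.sqrt_nonneg _)]
  congr 2
  have : √(m11_Q S L κ N s u X) ^ 4 = (√(m11_Q S L κ N s u X) ^ 2) ^ 2 := by ring
  rw [this, Real.sq_sqrt (m11_Q_nonneg S _ _ _ _ _ _)]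

/-- Block M11 -/
theorem mb_final {Θ : ℝ → ℝ} (hA : Adm Θ) (h1 : ∀ x, 1 ≤ x → Θ x = 0) :
    ∃ C : ℝ, 0 < C ∧ ∀ (L : ℝ) (N : ℕ) (s : ℂ) (κ : ℝ), 1 ≤ L → NL L ≤ N → 0 ≤ κ → κ ≤ 1 →
      (s.re = 1 / 2 ∧ N = NL L) ∨ 1 / 2 + 1 / (8 * L) ≤ s.re →
      ∫ X, ‖LX S N (th S X) s‖ ^ 2 * ‖mol S L Θ (th S X) (s - κ / L)‖ ^ 4 ∂(mu S N) ≤ C := by
  obtain ⟨C0, hC0, hint⟩ := mb_int S
  obtain ⟨g, hg, hgm, hrep⟩ := hA
  have hgi : Integrable g := by
    have h := hgm 0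
    simp only [pow_zero, mul_one] at h
    exact (integrable_norm_iff hg.aestronglyMeasurable).1 h
  set m : ℕ := ⌈C0⌉₊ with hm
  set G1 : ℝ := ∫ u, ‖g u‖ * (1 + |u|) ^ m with hG1
  set G0 : ℝ := ∫ u, ‖g u‖ with hG0
  have hG1' : 0 ≤ G1 := integral_nonneg fun u => by positivity
  have hG0' : 0 ≤ G0 := integral_nonneg fun u => by positivity
  refine ⟨G0 ^ 3 * (C0 * 2 ^ m * G1) + 1, by positivity, ?_⟩
  intro L N s κ hL hN hκ0 hκ hcase
  have := mu_prob S N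
  have hL0 : 0 < L := by linarith
  have hs2 : 1 / 2 ≤ s.re := by
    rcases hcase with ⟨h, -⟩ | h
    · exact h.ge
    · have : 0 < 1 / (8 * L) := by positivity
      linarith
  have hs0 : 0 < s.re := by linarith
  -- continuity
  have hLc : Continuous (fun X : S.PB N → ℝ => ‖LX S N (th S X) s‖ ^ 2) :=
    (LX_cont S N hs0).norm.pow 2
  have hmc : Continuous (fun X : S.PB N → ℝ => ‖mol S L Θ (th S X) (s - κ / L)‖ ^ 4) :=
    (mol_cont S L Θ N (s - κ / L)).norm.pow 4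
  obtain ⟨K, hK⟩ := LX_bdd S N hs0
  -- the inner integral
  have hinner : ∀ u : ℝ, ∫⁻ X, ENNReal.ofReal (‖LX S N (th S X) s‖ ^ 2) *
      ENNReal.ofReal (m11_Q S L κ N s u X ^ 2) ∂(mu S N) ≤
        ENNReal.ofReal (C0 * 2 ^ m * (1 + |u|) ^ m) := by
    intro u
    have hw : 0 ≤ (m11_w L κ u).re := by
      rw [m11_w_re]; exact div_nonneg (by linarith) (by linarith)
    have h2 := hint L N s (m11_w L κ u) hL hN hw hcase
    have hQc : Continuous (fun X : S.PB N → ℝ => m11_Q S L κ N s u X) :=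
      m11_Q_cont_X S L κ N s u
    have e1 : ∀ X : S.PB N → ℝ, ‖LX S N (th S X) s‖ ^ 2 *
        ∏ p ∈ S.PB (NL L), ‖EE (th S X p) ((S.q p : ℂ) ^ (-(s + m11_w L κ u)))‖ ^ 2 =
        ‖LX S N (th S X) s‖ ^ 2 * m11_Q S L κ N s u X ^ 2 := by
      intro X
      rw [m11_Q, ← Finset.prod_pow]
    simp only [e1] at h2
    have hi : Integrable (fun X : S.PB N → ℝ =>
        ‖LX S N (th S X) s‖ ^ 2 * m11_Q S L κ N s u X ^ 2) (mu S N) := by
      refine Integrable.of_bound (hLc.mul (hQc.pow 2)).aestronglyMeasurable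
        (K ^ 2 * (4 ^ (S.PB (NL L)).card) ^ 2) (Eventually.of_forall fun X => ?_)
      rw [Real.norm_of_nonneg (by positivity)]
      refine mul_le_mul (pow_le_pow_left₀ (norm_nonneg _) (hK X) 2)
        (pow_le_pow_left₀ (m11_Q_nonneg S _ _ _ _ _ _) (m11_Q_le S hL hκ hs2 X) 2)
        (by positivity) (by positivity)
    have e2 : ∫⁻ X, ENNReal.ofReal (‖LX S N (th S X) s‖ ^ 2) *
        ENNReal.ofReal (m11_Q S L κ N s u X ^ 2) ∂(mu S N) = ENNReal.ofReal (∫ X,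
          ‖LX S N (th S X) s‖ ^ 2 * m11_Q S L κ N s u X ^ 2 ∂(mu S N)) := by
      rw [ofReal_integral_eq_lintegral_ofReal hi (Eventually.of_forall fun X => by
        show 0 ≤ ‖LX S N (th S X) s‖ ^ 2 * m11_Q S L κ N s u X ^ 2
        positivity)]
      refine lintegral_congr fun X => ?_
      rw [ENNReal.ofReal_mul (by positivity)]
    rw [e2]
    refine ENNReal.ofReal_le_ofReal (h2.trans ?_)
    rw [mul_assoc]
    refine mul_le_mul_of_nonneg_left ?_ hC0.le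
    have h3 := m11_w_norm (u := u) hL hκ0 hκ
    have h4 : 1 ≤ 1 + ‖m11_w L κ u‖ * L := by
      have : 0 ≤ ‖m11_w L κ u‖ * L := by positivity
      linarith
    calc (1 + ‖m11_w L κ u‖ * L) ^ C0 ≤ (1 + ‖m11_w L κ u‖ * L) ^ (m : ℝ) :=
          Real.rpow_le_rpow_of_exponent_le h4 (Nat.le_ceil _)
      _ = (1 + ‖m11_w L κ u‖ * L) ^ m := Real.rpow_natCast _ _
      _ ≤ (2 * (1 + |u|)) ^ m := by
          refine pow_le_pow_left₀ (by linarith) ?_ m
          have := abs_nonneg u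
          linarith
      _ = 2 ^ m * (1 + |u|) ^ m := mul_pow _ _ _
  -- the double integral
  have hmeas : Measurable (fun v : ℝ × (S.PB N → ℝ) =>
      ‖g v.1‖ₑ * (ENNReal.ofReal (‖LX S N (th S v.2) s‖ ^ 2) *
        ENNReal.ofReal (m11_Q S L κ N s v.1 v.2 ^ 2))) := by
    have a1 : Measurable (fun v : ℝ × (S.PB N → ℝ) => ‖g v.1‖ₑ) :=
      (hg.comp continuous_fst).measurable.enorm
    have a2 : Measurable (fun v : ℝ × (S.PB N → ℝ) =>
        ENNReal.ofReal (‖LX S N (th S v.2) s‖ ^ 2)) :=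
      (ENNReal.continuous_ofReal.comp (hLc.comp continuous_snd)).measurable
    have a3 : Measurable (fun v : ℝ × (S.PB N → ℝ) =>
        ENNReal.ofReal (m11_Q S L κ N s v.1 v.2 ^ 2)) :=
      (ENNReal.continuous_ofReal.comp ((m11_Q_cont S L κ N s).pow 2)).measurable
    exact a1.mul (a2.mul a3)
  have hQu : ∀ X : S.PB N → ℝ, Measurable (fun u =>
      ‖g u‖ₑ * ENNReal.ofReal (m11_Q S L κ N s u X ^ 2)) := by
    intro X
    have hQc : Continuous (fun u => m11_Q S L κ N s u X) := m11_Q_cont_u S L κ N s X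
    have a1 : Measurable (fun u : ℝ => ‖g u‖ₑ) := hg.measurable.enorm
    have a2 : Measurable (fun u : ℝ => ENNReal.ofReal (m11_Q S L κ N s u X ^ 2)) :=
      (ENNReal.continuous_ofReal.comp (hQc.pow 2)).measurable
    exact a1.mul a2
  have hQX : ∀ u : ℝ, Measurable (fun X : S.PB N → ℝ =>
      ENNReal.ofReal (‖LX S N (th S X) s‖ ^ 2) * ENNReal.ofReal (m11_Q S L κ N s u X ^ 2)) := by
    intro u
    have a1 : Measurable (fun X : S.PB N → ℝ =>
        ENNReal.ofReal (‖LX S N (th S X) s‖ ^ 2)) :=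
      (ENNReal.continuous_ofReal.comp hLc).measurable
    have a2 : Measurable (fun X : S.PB N → ℝ =>
        ENNReal.ofReal (m11_Q S L κ N s u X ^ 2)) :=
      (ENNReal.continuous_ofReal.comp ((m11_Q_cont_X S L κ N s u).pow 2)).measurable
    exact a1.mul a2
  have hg0 : ∫⁻ u, ‖g u‖ₑ = ENNReal.ofReal G0 := by
    rw [hG0, ofReal_integral_norm_eq_lintegral_enorm hgi]
  have hmain : ∫⁻ X, ENNReal.ofReal (‖LX S N (th S X) s‖ ^ 2 * ‖mol S L Θ (th S X) (s - κ / L)‖ ^ 4)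
      ∂(mu S N) ≤ ENNReal.ofReal (G0 ^ 3 * (C0 * 2 ^ m * G1)) := by
    calc ∫⁻ X, ENNReal.ofReal (‖LX S N (th S X) s‖ ^ 2 * ‖mol S L Θ (th S X) (s - κ / L)‖ ^ 4) ∂(mu S N)
        ≤ ∫⁻ X, (ENNReal.ofReal (G0 ^ 3) * ∫⁻ u : ℝ, ‖g u‖ₑ *
            (ENNReal.ofReal (‖LX S N (th S X) s‖ ^ 2) *
              ENNReal.ofReal (m11_Q S L κ N s u X ^ 2))) ∂(mu S N) := by
          refine lintegral_mono fun X => ?_
          rw [ENNReal.ofReal_mul (by positivity)]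
          have h3 := m11_point S hg hgi hrep h1 hL hκ hs2 X
          rw [hg0, ← ENNReal.ofReal_pow hG0'] at h3
          refine (mul_le_mul_right h3 _).trans (le_of_eq ?_)
          rw [← mul_assoc, mul_comm (ENNReal.ofReal (‖LX S N (th S X) s‖ ^ 2)), mul_assoc,
            ← lintegral_const_mul _ (hQu X)]
          congr 1
          refine lintegral_congr fun u => ?_
          ring
      _ = ENNReal.ofReal (G0 ^ 3) * ∫⁻ X, (∫⁻ u : ℝ, ‖g u‖ₑ *
            (ENNReal.ofReal (‖LX S N (th S X) s‖ ^ 2) *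
              ENNReal.ofReal (m11_Q S L κ N s u X ^ 2))) ∂(mu S N) := by
          rw [lintegral_const_mul]
          exact hmeas.lintegral_prod_left'
      _ = ENNReal.ofReal (G0 ^ 3) * ∫⁻ u : ℝ, (∫⁻ X, ‖g u‖ₑ *
            (ENNReal.ofReal (‖LX S N (th S X) s‖ ^ 2) *
              ENNReal.ofReal (m11_Q S L κ N s u X ^ 2)) ∂(mu S N)) := by
          congr 1
          exact (lintegral_lintegral_swap (μ := volume) (ν := mu S N)
            (f := fun (u : ℝ) (X : S.PB N → ℝ) => ‖g u‖ₑ *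
              (ENNReal.ofReal (‖LX S N (th S X) s‖ ^ 2) *
                ENNReal.ofReal (m11_Q S L κ N s u X ^ 2))) hmeas.aemeasurable).symm
      _ ≤ ENNReal.ofReal (G0 ^ 3) * ∫⁻ u : ℝ, ‖g u‖ₑ *
            ENNReal.ofReal (C0 * 2 ^ m * (1 + |u|) ^ m) := by
          refine mul_le_mul_right (lintegral_mono fun u => ?_) _
          rw [lintegral_const_mul _ (hQX u)]
          exact mul_le_mul_right (hinner u) _
      _ = ENNReal.ofReal (G0 ^ 3 * (C0 * 2 ^ m * G1)) := by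
          rw [ENNReal.ofReal_mul (by positivity)]
          congr 1
          rw [hG1, ← integral_const_mul, ofReal_integral_eq_lintegral_ofReal
            ((hgm m).const_mul _) (Eventually.of_forall fun u => by
              show 0 ≤ C0 * 2 ^ m * (‖g u‖ * (1 + |u|) ^ m)
              positivity)]
          refine lintegral_congr fun u => ?_
          rw [← ofReal_norm, ← ENNReal.ofReal_mul (norm_nonneg _)]
          congr 1; ring
  have hcont : Continuous (fun X : S.PB N → ℝ =>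
      ‖LX S N (th S X) s‖ ^ 2 * ‖mol S L Θ (th S X) (s - κ / L)‖ ^ 4) := hLc.mul hmc
  rw [integral_eq_lintegral_of_nonneg_ae (Eventually.of_forall fun X => by
    show 0 ≤ ‖LX S N (th S X) s‖ ^ 2 * ‖mol S L Θ (th S X) (s - κ / L)‖ ^ 4
    positivity) hcont.aestronglyMeasurable]
  exact (ENNReal.toReal_le_of_le_ofReal (by positivity) hmain).trans (by linarith)


end Pool.Agent.HS
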