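import Pool.Agent.Lib_helper45.HS.Defs
import Pool.Agent.Lib_helper98.WSF.M2

/-! # Block M2 (KER): the local factor -/

namespace Pool.Agent.HS

open Complex MeasureTheory Filter Topology
open scoped ENNReal Classical
open Pool.Agent.WA (gd gk)
open Pool.Agent.SEL (NL Adm)
open Pool.Agent.WS (st EE RT cc hl Step M2_congr M2_hl M2_geo st_local)

theorem kern {p : ℕ} (hp : 2 ≤ p) (t : ℝ) (i j : ℕ) :
    (((1 - 1 / (p : ℝ)) * ∫ y, (‖EE (2 * Real.cos y) ((p : ℂ) ^ (-(1 / 2 + t * I)))‖ ^ 2)⁻¹ *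
      (SEL.Uc (2 * Real.cos y) i * SEL.Uc (2 * Real.cos y) j) ∂st : ℝ) : ℂ) = Kp p t i j := by
  have hp0 : (0 : ℝ) < p := by exact_mod_cast (by omega : 0 < p)
  have hp1 : (1 : ℝ) < p := by exact_mod_cast (by omega : 1 < p)
  have hpc : (p : ℂ) ≠ 0 := by exact_mod_cast (by omega : p ≠ 0)
  set x : ℂ := (p : ℂ) ^ (-(1 / 2 + t * I)) with hx
  set q : ℝ := 1 / p with hq
  have hq0 : 0 ≤ q := by positivity
  have hq1 : q < 1 := by
    rw [hq, div_lt_one hp0]
    exact hp1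
  have hxe : x = cexp (-(1 / 2 + t * I) * Real.log p) := by
    rw [hx, Complex.cpow_def_of_ne_zero hpc, ← Complex.natCast_log, mul_comm]
  have hx0 : x ≠ 0 := by
    rw [hxe]
    exact Complex.exp_ne_zero _
  have hxn : ‖x‖ ^ 2 = q := by
    rw [hx, Complex.norm_natCast_cpow_of_pos (by omega : 0 < p)]
    have h1 : (-(1 / 2 + (t : ℂ) * I)).re = -(1 / 2) := by simp
    rw [h1, ← Real.rpow_natCast, ← Real.rpow_mul hp0.le, hq]
    norm_num
    rw [Real.rpow_neg_one]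
  have hxl : ‖x‖ < 1 := by
    have h1 : ‖x‖ ^ 2 < 1 := by rw [hxn]; exact hq1
    nlinarith [norm_nonneg x]
  set J : ℝ := ∫ y, (‖EE (2 * Real.cos y) x‖ ^ 2)⁻¹ * (SEL.Uc (2 * Real.cos y) i *
        SEL.Uc (2 * Real.cos y) j) ∂st with hJ
  have h1 := st_local hx0 hxl i j
  rw [hxn, ← hJ] at h1
  have h2 : HasSum (fun ν : ℕ => (q : ℂ) ^ ν * (hl x i ν * starRingEnd ℂ (hl x j ν)))
      (∑ α ∈ Finset.range (i + 1), ∑ β ∈ Finset.range (j + 1),
        (x ^ ((i : ℤ) - 2 * α) * starRingEnd ℂ (x ^ ((j : ℤ) - 2 * β))) *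
          ((q : ℂ) ^ (max α β) * (1 - (q : ℂ))⁻¹)) := by
    have h3 : HasSum (fun ν : ℕ => ∑ α ∈ Finset.range (i + 1), ∑ β ∈ Finset.range (j + 1),
        (x ^ ((i : ℤ) - 2 * α) * starRingEnd ℂ (x ^ ((j : ℤ) - 2 * β))) *
          (if max α β ≤ ν then (q : ℂ) ^ ν else 0))
      (∑ α ∈ Finset.range (i + 1), ∑ β ∈ Finset.range (j + 1),
        (x ^ ((i : ℤ) - 2 * α) * starRingEnd ℂ (x ^ ((j : ℤ) - 2 * β))) *
          ((q : ℂ) ^ (max α β) * (1 - (q : ℂ))⁻¹)) :=
      hasSum_sum fun α _ => hasSum_sum fun β _ => (M2_geo hq0 hq1 _).mul_left _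
    refine M2_congr h3 fun ν => ?_
    rw [M2_hl, M2_hl, map_sum, Finset.sum_mul_sum, Finset.mul_sum]
    refine Finset.sum_congr rfl fun α _ => ?_
    rw [Finset.mul_sum]
    refine Finset.sum_congr rfl fun β _ => ?_
    by_cases hα : α ≤ ν
    · by_cases hβ : β ≤ ν
      · rw [if_pos (max_le hα hβ), if_pos hα, if_pos hβ]
        ring
      · rw [if_neg (fun h => hβ ((le_max_right _ _).trans h)), if_neg hβ, map_zero]
        ring
    · rw [if_neg (fun h => hα ((le_max_left _ _).trans h)), if_neg hα]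
      ring
  have h3 := h1.unique h2
  have h4 : (1 - (q : ℂ)) ≠ 0 := by
    have : (1 - q : ℝ) ≠ 0 := by linarith
    exact_mod_cast this
  have h5 : (((1 - q) * J : ℝ) : ℂ) = ∑ α ∈ Finset.range (i + 1), ∑ β ∈ Finset.range (j + 1),
        (x ^ ((i : ℤ) - 2 * α) * starRingEnd ℂ (x ^ ((j : ℤ) - 2 * β))) * (q : ℂ) ^ (max α β) := by
    rw [Complex.ofReal_mul, h3, Finset.mul_sum]
    refine Finset.sum_congr rfl fun α _ => ?_
    rw [Finset.mul_sum]
    refine Finset.sum_congr rfl fun β _ => ?_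
    push_cast
    field_simp
  rw [← Complex.conj_ofReal, h5, map_sum]
  unfold Kp
  refine Finset.sum_congr rfl fun α _ => ?_
  rw [map_sum]
  refine Finset.sum_congr rfl fun β _ => ?_
  have hxz : ∀ n : ℤ, x ^ n = cexp ((n : ℂ) * (-(1 / 2 + t * I) * Real.log p)) := by
    intro n
    rw [hxe, ← Complex.exp_int_mul]
  have hqe : (q : ℂ) ^ (max α β) = cexp (-((max α β : ℕ) : ℂ) * Real.log p) := by
    have h6 : (q : ℂ) = cexp (-(Real.log p : ℂ)) := by
      rw [hq, ← Complex.ofReal_neg, ← Complex.ofReal_exp, Real.exp_neg, Real.exp_log hp0, one_div]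
    rw [h6, ← Complex.exp_nat_mul]
    congr 1
    ring
  have hpe : (((p : ℝ) ^ (-((i : ℝ) + j) / 2 + (min α β : ℕ)) : ℝ) : ℂ) =
      cexp ((-((i : ℂ) + j) / 2 + ((min α β : ℕ) : ℂ)) * Real.log p) := by
    rw [Real.rpow_def_of_pos hp0, Complex.ofReal_exp]
    congr 1
    simp only [Complex.ofReal_mul, Complex.ofReal_add, Complex.ofReal_div, Complex.ofReal_neg,
      Complex.ofReal_natCast, Complex.ofReal_ofNat]
    ring
  rw [map_mul, map_mul, Complex.conj_conj, hxz, hxz, hqe, hpe, ← Complex.exp_conj, ← Complex.exp_conj,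
    ← Complex.exp_add, ← Complex.exp_add, ← Complex.exp_add]
  congr 1
  have hmm : ((min α β : ℕ) : ℂ) = α + β - ((max α β : ℕ) : ℂ) := by
    have : min α β + max α β = α + β := min_add_max α β
    rw [eq_sub_iff_add_eq]
    exact_mod_cast this
  rw [hmm]
  simp only [map_mul, map_neg, map_add, map_div₀, map_one, Complex.conj_ofReal, Complex.conj_I,
    map_intCast, map_natCast, map_ofNat]
  push_cast
  ring

end Pool.Agent.HS
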