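import Pool.Agent.Lib_helper45.HS.Defs
import Pool.Agent.Lib_helper45.HSF.P0

/-!
# HS, block M3 (KPR): the arithmetic side of the quadratic form
(adapted from WSF/M3.lean of helper29)
-/

set_option autoImplicit false

namespace Pool.Agent.HS

open Complex MeasureTheory Filter Topology
open scoped ENNReal Classical
open Pool.Agent.WA (gd gk)
open Pool.Agent.SEL (NL Adm)
open Pool.Agent.SQS (hat)
open Pool.Agent.WS (st EE RT cc hl Step)
open Finset.HasAntidiagonal (antidiagonal)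

variable {P : Type} (S : PSys P)

/-! ### form_arith -/

theorem m3_form {α : Type} {φ : (P →₀ ℕ) → ℝ} (hφ : Tot S φ) {X : ℕ} (T : Finset α)
    (den : α → (P →₀ ℕ)) (hT : ∀ x ∈ T, S.nrm (den x) ≤ X) (G : α → ℂ) :
    ∑ c ∈ S.BL (X + 1), (φ c : ℂ) * ((∑ x ∈ T, if c ≤ den x then G x else 0) *
      starRingEnd ℂ (∑ x ∈ T, if c ≤ den x then G x else 0)) =
    ∑ x ∈ T, ∑ y ∈ T, (S.nrm (den x ⊓ den y) : ℂ) * (G x * starRingEnd ℂ (G y)) := by
  have h1 : ∀ c ∈ S.BL (X + 1), (φ c : ℂ) * ((∑ x ∈ T, if c ≤ den x then G x else 0) *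
      starRingEnd ℂ (∑ x ∈ T, if c ≤ den x then G x else 0)) =
      ∑ x ∈ T, ∑ y ∈ T, (if c ≤ den x ⊓ den y then (φ c : ℂ) else 0) *
        (G x * starRingEnd ℂ (G y)) := by
    intro c _
    rw [map_sum, Finset.sum_mul_sum, Finset.mul_sum]
    apply Finset.sum_congr rfl
    intro x _
    rw [Finset.mul_sum]
    apply Finset.sum_congr rfl
    intro y _
    by_cases hx : c ≤ den x
    · by_cases hy : c ≤ den y
      · rw [if_pos hx, if_pos hy, if_pos (le_inf hx hy)]
      · rw [if_pos hx, if_neg hy, if_neg (show ¬ c ≤ den x ⊓ den y from fun h => hy (h.trans inf_le_right))]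
        simp
    · rw [if_neg hx, if_neg (show ¬ c ≤ den x ⊓ den y from fun h => hx (h.trans inf_le_left))]
      simp
  rw [Finset.sum_congr rfl h1, Finset.sum_comm]
  apply Finset.sum_congr rfl
  intro x hx
  rw [Finset.sum_comm]
  apply Finset.sum_congr rfl
  intro y _
  rw [← Finset.sum_mul]
  congr 1
  rw [← Finset.sum_filter]
  have h2 : (S.BL (X + 1)).filter (fun c => c ≤ den x ⊓ den y) = dv (den x ⊓ den y) := by
    ext c
    rw [Finset.mem_filter, mem_BL, mem_dv]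
    constructor
    · rintro ⟨_, h⟩; exact h
    · intro h
      refine ⟨?_, h⟩
      have h3 : S.nrm c ≤ S.nrm (den x) := nrm_mono S (h.trans inf_le_left)
      have h4 := hT x hx
      omega
  rw [h2]
  have h3 := hφ.sum (den x ⊓ den y)
  exact_mod_cast h3

theorem form_arith {φ : (P →₀ ℕ) → ℝ} (hφ : Tot S φ) {X : ℕ} {R : Finset (P →₀ ℕ)}
    (hR : ∀ r ∈ R, S.nrm r ≤ X) (A : (P →₀ ℕ) → ℂ) (t : ℝ) :
    ((∑ c ∈ S.BL (X + 1), φ c * ‖PsH S R A c t‖ ^ 2 : ℝ) : ℂ) =
      ∑ r ∈ R, ∑ r' ∈ R, A r * starRingEnd ℂ (A r') * KD S t r r' := by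
  set T : Finset (Σ _ : P →₀ ℕ, (P →₀ ℕ) × (P →₀ ℕ)) := R.sigma (fun r => antidiagonal r)
    with hTdef
  set G : (Σ _ : P →₀ ℕ, (P →₀ ℕ) × (P →₀ ℕ)) → ℂ := fun x =>
    ((1 / √(S.nrm x.1 : ℝ) : ℝ) : ℂ) *
    cexp (t * Real.log ((S.nrm x.2.1 : ℝ) / S.nrm x.2.2) * I) * A x.1 with hG
  have hT : ∀ x ∈ T, S.nrm x.2.2 ≤ X := by
    intro x hx
    rw [hTdef, Finset.mem_sigma] at hx
    obtain ⟨h1, h2⟩ := hx
    rw [Finset.HasAntidiagonal.mem_antidiagonal] at h2
    refine (nrm_mono S ?_).trans (hR _ h1)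
    rw [← h2]
    exact le_add_of_nonneg_left (bot_le (α := P →₀ ℕ))
  have hPs : ∀ c, PsH S R A c t = ∑ x ∈ T, if c ≤ x.2.2 then G x else 0 := by
    intro c
    rw [hTdef, Finset.sum_sigma]
    unfold PsH
    apply Finset.sum_congr rfl
    intro r _
    rw [Finset.sum_filter]
  have hmain := m3_form S hφ T (fun x => x.2.2) hT G
  have hL : ((∑ c ∈ S.BL (X + 1), φ c * ‖PsH S R A c t‖ ^ 2 : ℝ) : ℂ) =
      ∑ c ∈ S.BL (X + 1), (φ c : ℂ) * ((∑ x ∈ T, if c ≤ x.2.2 then G x else 0) *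
      starRingEnd ℂ (∑ x ∈ T, if c ≤ x.2.2 then G x else 0)) := by
    push_cast
    apply Finset.sum_congr rfl
    intro c _
    rw [← hPs, Complex.mul_conj, Complex.normSq_eq_norm_sq]
    push_cast
    rfl
  rw [hL, hmain, hTdef, Finset.sum_sigma]
  apply Finset.sum_congr rfl
  intro r _
  have h5 : ∀ p ∈ antidiagonal r, ∑ y ∈ R.sigma (fun r => antidiagonal r),
      (S.nrm ((⟨r, p⟩ : Σ _ : P →₀ ℕ, (P →₀ ℕ) × (P →₀ ℕ)).2.2 ⊓ y.2.2) : ℂ) *
      (G ⟨r, p⟩ * starRingEnd ℂ (G y)) = ∑ r' ∈ R, ∑ q ∈ antidiagonal r',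
        (S.nrm (p.2 ⊓ q.2) : ℂ) * (G ⟨r, p⟩ * starRingEnd ℂ (G ⟨r', q⟩)) := by
    intro p _
    rw [Finset.sum_sigma]
  rw [Finset.sum_congr rfl h5, Finset.sum_comm]
  apply Finset.sum_congr rfl
  intro r' _
  unfold KD
  rw [Finset.mul_sum]
  apply Finset.sum_congr rfl
  intro p _
  rw [Finset.mul_sum]
  apply Finset.sum_congr rfl
  intro q _
  simp only [hG]
  have hconj : starRingEnd ℂ (((1 / √(S.nrm r' : ℝ) : ℝ) : ℂ) *
      cexp (t * Real.log ((S.nrm q.1 : ℝ) / S.nrm q.2) * I) * A r') =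
      ((1 / √(S.nrm r' : ℝ) : ℝ) : ℂ) *
        cexp (-(t * Real.log ((S.nrm q.1 : ℝ) / S.nrm q.2) * I)) *
        starRingEnd ℂ (A r') := by
    rw [map_mul, map_mul, Complex.conj_ofReal, ← Complex.exp_conj]
    congr 3
    rw [map_mul, map_mul, Complex.conj_ofReal, Complex.conj_ofReal, Complex.conj_I]
    ring
  rw [hconj]
  have hexp : cexp (t * (Real.log ((S.nrm p.1 : ℝ) / S.nrm p.2) -
      Real.log ((S.nrm q.1 : ℝ) / S.nrm q.2) : ℝ) * I) =
      cexp (t * Real.log ((S.nrm p.1 : ℝ) / S.nrm p.2) * I) *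
        cexp (-(t * Real.log ((S.nrm q.1 : ℝ) / S.nrm q.2) * I)) := by
    rw [← Complex.exp_add]
    congr 1
    push_cast
    ring
  rw [hexp]
  push_cast
  ring

/-! ### KD_prod -/

/-- splitting off one prime in a sum over the antidiagonal -/
theorem m3_ad {M : Type} [AddCommMonoid M] {a : P} {r : P →₀ ℕ} (ha : r a = 0) (i : ℕ)
    (F : (P →₀ ℕ) × (P →₀ ℕ) → M) :
    ∑ x ∈ antidiagonal (Finsupp.single a i + r), F x =
      ∑ α ∈ Finset.range (i + 1), ∑ v ∈ antidiagonal r,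
        F (Finsupp.single a (i - α) + v.1, Finsupp.single a α + v.2) := by
  rw [← Finset.sum_product']
  refine Finset.sum_bij' (fun x _ => (x.2 a, (x.1.erase a, x.2.erase a)))
    (fun y _ => (Finsupp.single a (i - y.1) + y.2.1, Finsupp.single a y.1 + y.2.2))
    ?_ ?_ ?_ ?_ ?_
  · intro x hx
    rw [Finset.HasAntidiagonal.mem_antidiagonal] at hx
    have hxa : x.1 a + x.2 a = i := by
      have := DFunLike.congr_fun hx a
      simpa [ha] using this
    rw [Finset.mem_product, Finset.mem_range, Finset.HasAntidiagonal.mem_antidiagonal]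
    refine ⟨?_, ?_⟩
    · show x.2 a < i + 1
      omega
    · show x.1.erase a + x.2.erase a = r
      ext b
      by_cases hb : b = a
      · subst hb; simp [ha]
      · have := DFunLike.congr_fun hx b
        simpa [Finsupp.erase_ne hb, Finsupp.single_apply, Ne.symm hb] using this
  · rintro ⟨α, v⟩ hy
    rw [Finset.mem_product, Finset.mem_range, Finset.HasAntidiagonal.mem_antidiagonal] at hy
    obtain ⟨h1, h2⟩ := hy
    rw [Finset.HasAntidiagonal.mem_antidiagonal]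
    simp only at h1 h2 ⊢
    have h3 : Finsupp.single a (i - α) + Finsupp.single a α = Finsupp.single a i := by
      rw [← Finsupp.single_add]
      congr 1
      omega
    rw [← h2, ← h3]
    abel
  · intro x hx
    rw [Finset.HasAntidiagonal.mem_antidiagonal] at hx
    have hxa : x.1 a + x.2 a = i := by
      have := DFunLike.congr_fun hx a
      simpa [ha] using this
    have h1 : i - x.2 a = x.1 a := by omega
    apply Prod.ext
    · show Finsupp.single a (i - x.2 a) + x.1.erase a = x.1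
      rw [h1]
      exact Finsupp.single_add_erase a x.1
    · show Finsupp.single a (x.2 a) + x.2.erase a = x.2
      exact Finsupp.single_add_erase a x.2
  · rintro ⟨α, v⟩ hy
    rw [Finset.mem_product, Finset.mem_range, Finset.HasAntidiagonal.mem_antidiagonal] at hy
    obtain ⟨h1, h2⟩ := hy
    simp only at h1 h2
    have h3 : v.1 a + v.2 a = 0 := by
      have := DFunLike.congr_fun h2 a
      rw [ha] at this
      simpa using this
    have h4 : v.1 a = 0 := by omega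
    have h5 : v.2 a = 0 := by omega
    apply Prod.ext
    · show (Finsupp.single a α + v.2) a = α
      simp [h5]
    · apply Prod.ext
      · show (Finsupp.single a (i - α) + v.1).erase a = v.1
        ext b
        by_cases hb : b = a
        · subst hb; simp [h4]
        · simp [Finsupp.erase_ne hb, Ne.symm hb]
      · show (Finsupp.single a α + v.2).erase a = v.2
        ext b
        by_cases hb : b = a
        · subst hb; simp [h5]
        · simp [Finsupp.erase_ne hb]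
  · intro x hx
    rw [Finset.HasAntidiagonal.mem_antidiagonal] at hx
    have hxa : x.1 a + x.2 a = i := by
      have := DFunLike.congr_fun hx a
      simpa [ha] using this
    have h1 : i - x.2 a = x.1 a := by omega
    congr 1
    apply Prod.ext
    · show x.1 = Finsupp.single a (i - x.2 a) + x.1.erase a
      rw [h1]
      exact (Finsupp.single_add_erase a x.1).symm
    · show x.2 = Finsupp.single a (x.2 a) + x.2.erase a
      exact (Finsupp.single_add_erase a x.2).symm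

/-- the summand of `KD` -/
noncomputable def m3_G (t : ℝ) (x y : (P →₀ ℕ) × (P →₀ ℕ)) : ℂ :=
  (((S.nrm (x.2 ⊓ y.2) : ℝ) / (√(S.nrm (x.1 + x.2) : ℝ) * √(S.nrm (y.1 + y.2) : ℝ)) : ℝ) : ℂ) *
      cexp (t * (Real.log ((S.nrm x.1 : ℝ) / S.nrm x.2) -
        Real.log ((S.nrm y.1 : ℝ) / S.nrm y.2) : ℝ) * I)

theorem m3_KD (t : ℝ) (r r' : P →₀ ℕ) :
    KD S t r r' = ∑ x ∈ antidiagonal r, ∑ y ∈ antidiagonal r', m3_G S t x y := by
  unfold KD
  refine Finset.sum_congr rfl fun x hx => Finset.sum_congr rfl fun y hy => ?_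
  rw [Finset.HasAntidiagonal.mem_antidiagonal] at hx hy
  unfold m3_G
  rw [hx, hy]

theorem m3_inf {a : P} {b b' : P →₀ ℕ} (hb : b a = 0) (hb' : b' a = 0) (u u' : ℕ) :
    (Finsupp.single a u + b) ⊓ (Finsupp.single a u' + b') =
      Finsupp.single a (min u u') + b ⊓ b' := by
  ext c
  by_cases hc : c = a
  · subst hc; simp [hb, hb']
  · simp [Ne.symm hc]

theorem m3_G_mul (t : ℝ) {a : P} {x y : (P →₀ ℕ) × (P →₀ ℕ)} (hx : x.2 a = 0) (hy : y.2 a = 0)
    (i j α β : ℕ) (hα : α ≤ i) (hβ : β ≤ j) :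
    m3_G S t (Finsupp.single a (i - α) + x.1, Finsupp.single a α + x.2)
      (Finsupp.single a (j - β) + y.1, Finsupp.single a β + y.2) =
    ((((S.q a : ℕ) : ℝ) ^ (-((i : ℝ) + j) / 2 + (min α β : ℕ)) : ℝ) : ℂ) *
      cexp (t * (Real.log (S.q a : ℕ) * (((i : ℝ) - 2 * α) - ((j : ℝ) - 2 * β)) : ℝ) * I) *
      m3_G S t x y := by
  have hq0 : (0 : ℝ) < S.q a := by
    have := q_two S a
    exact_mod_cast (by omega : 0 < S.q a)
  have hn : ∀ m : P →₀ ℕ, (0 : ℝ) < S.nrm m := fun m => by exact_mod_cast nrm_pos S m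
  have hsq : ∀ n : ℕ, √(((S.q a ^ n : ℕ) : ℝ)) = (S.q a : ℝ) ^ ((n : ℝ) / 2) := by
    intro n
    rw [Nat.cast_pow, Real.sqrt_eq_rpow, ← Real.rpow_natCast, ← Real.rpow_mul hq0.le]
    congr 1
    ring
  have hlog : ∀ n : ℕ, Real.log (((S.q a ^ n : ℕ) : ℝ)) = n * Real.log (S.q a) := by
    intro n
    rw [Nat.cast_pow, Real.log_pow]
  have hl : ∀ (n α : ℕ) (z : (P →₀ ℕ) × (P →₀ ℕ)), α ≤ n →
      Real.log ((S.nrm (Finsupp.single a (n - α) + z.1) : ℝ) /
        S.nrm (Finsupp.single a α + z.2)) =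
      Real.log (S.q a) * ((n : ℝ) - 2 * α) + Real.log ((S.nrm z.1 : ℝ) / S.nrm z.2) := by
    intro n α z hα
    rw [Real.log_div (hn _).ne' (hn _).ne', Real.log_div (hn _).ne' (hn _).ne', nrm_add, nrm_add,
      nrm_single, nrm_single]
    have e1 : ((S.q a ^ (n - α) : ℕ) : ℝ) ≠ 0 := by
      rw [Nat.cast_pow]; exact (pow_pos hq0 _).ne'
    have e2 : ((S.q a ^ α : ℕ) : ℝ) ≠ 0 := by
      rw [Nat.cast_pow]; exact (pow_pos hq0 _).ne'
    rw [Nat.cast_mul, Nat.cast_mul, Real.log_mul e1 (hn _).ne', Real.log_mul e2 (hn _).ne', hlog,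
      hlog, Nat.cast_sub hα]
    ring
  have hs : ∀ (n α : ℕ) (z : (P →₀ ℕ) × (P →₀ ℕ)), α ≤ n →
      √(S.nrm (Finsupp.single a (n - α) + z.1 + (Finsupp.single a α + z.2)) : ℝ) =
      (S.q a : ℝ) ^ ((n : ℝ) / 2) * √(S.nrm (z.1 + z.2) : ℝ) := by
    intro n α z hα
    have e3 : Finsupp.single a (n - α) + z.1 + (Finsupp.single a α + z.2) =
        Finsupp.single a n + (z.1 + z.2) := by
      have h3 : Finsupp.single a (n - α) + Finsupp.single a α = Finsupp.single a n := by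
        rw [← Finsupp.single_add]
        congr 1
        omega
      rw [← h3]
      abel
    rw [e3, nrm_add, nrm_single, Nat.cast_mul, Real.sqrt_mul (by positivity), hsq]
  unfold m3_G
  simp only
  rw [hl i α x hα, hl j β y hβ, hs i α x hα, hs j β y hβ, m3_inf hx hy, nrm_add, nrm_single]
  have hreal : (((S.q a ^ (min α β) * S.nrm (x.2 ⊓ y.2) : ℕ) : ℝ) /
      ((S.q a : ℝ) ^ ((i : ℝ) / 2) * √(S.nrm (x.1 + x.2) : ℝ) *
        ((S.q a : ℝ) ^ ((j : ℝ) / 2) * √(S.nrm (y.1 + y.2) : ℝ)))) =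
      (S.q a : ℝ) ^ (-((i : ℝ) + j) / 2 + (min α β : ℕ)) *
        ((S.nrm (x.2 ⊓ y.2) : ℝ) / (√(S.nrm (x.1 + x.2) : ℝ) * √(S.nrm (y.1 + y.2) : ℝ))) := by
    have e4 : (S.q a : ℝ) ^ (-((i : ℝ) + j) / 2 + (min α β : ℕ)) =
        (S.q a : ℝ) ^ (min α β) / ((S.q a : ℝ) ^ ((i : ℝ) / 2) * (S.q a : ℝ) ^ ((j : ℝ) / 2)) := by
      rw [← Real.rpow_add hq0, ← Real.rpow_natCast, ← Real.rpow_sub hq0]
      congr 1
      ring
    rw [e4]
    push_cast
    have p1 : (0 : ℝ) < (S.q a : ℝ) ^ ((i : ℝ) / 2) := Real.rpow_pos_of_pos hq0 _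
    have p2 : (0 : ℝ) < (S.q a : ℝ) ^ ((j : ℝ) / 2) := Real.rpow_pos_of_pos hq0 _
    have p3 : (0 : ℝ) < √(S.nrm (x.1 + x.2) : ℝ) := Real.sqrt_pos.2 (hn _)
    have p4 : (0 : ℝ) < √(S.nrm (y.1 + y.2) : ℝ) := Real.sqrt_pos.2 (hn _)
    field_simp
  rw [hreal]
  have hexp : cexp (t * ((Real.log (S.q a) * ((i : ℝ) - 2 * α) +
        Real.log ((S.nrm x.1 : ℝ) / S.nrm x.2) -
        (Real.log (S.q a) * ((j : ℝ) - 2 * β) + Real.log ((S.nrm y.1 : ℝ) / S.nrm y.2))) : ℝ) * I) =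
      cexp (t * (Real.log (S.q a : ℕ) * (((i : ℝ) - 2 * α) - ((j : ℝ) - 2 * β)) : ℝ) * I) *
      cexp (t * (Real.log ((S.nrm x.1 : ℝ) / S.nrm x.2) -
        Real.log ((S.nrm y.1 : ℝ) / S.nrm y.2) : ℝ) * I) := by
    rw [← Complex.exp_add]
    congr 1
    push_cast
    ring
  rw [hexp, Complex.ofReal_mul]
  ring

theorem m3_step (t : ℝ) {a : P} {r r' : P →₀ ℕ} (hr : r a = 0) (hr' : r' a = 0) (i j : ℕ) :
    KD S t (Finsupp.single a i + r) (Finsupp.single a j + r') =
      Kp (S.q a) t i j * KD S t r r' := by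
  rw [m3_KD, m3_KD, m3_ad hr]
  unfold Kp
  rw [Finset.sum_mul]
  refine Finset.sum_congr rfl fun α hα => ?_
  have hα' : α ≤ i := Nat.lt_succ_iff.1 (Finset.mem_range.1 hα)
  have h1 : ∀ v ∈ antidiagonal r,
      ∑ y ∈ antidiagonal (Finsupp.single a j + r'),
        m3_G S t (Finsupp.single a (i - α) + v.1, Finsupp.single a α + v.2) y =
      ∑ β ∈ Finset.range (j + 1),
        ((((S.q a : ℕ) : ℝ) ^ (-((i : ℝ) + j) / 2 + (min α β : ℕ)) : ℝ) : ℂ) *
        cexp (t * (Real.log (S.q a : ℕ) * (((i : ℝ) - 2 * α) - ((j : ℝ) - 2 * β)) : ℝ) * I) *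
        ∑ w ∈ antidiagonal r', m3_G S t v w := by
    intro v hv
    rw [m3_ad hr']
    refine Finset.sum_congr rfl fun β hβ => ?_
    have hβ' : β ≤ j := Nat.lt_succ_iff.1 (Finset.mem_range.1 hβ)
    rw [Finset.mul_sum]
    refine Finset.sum_congr rfl fun w hw => ?_
    rw [Finset.HasAntidiagonal.mem_antidiagonal] at hv hw
    have h3 : v.1 a + v.2 a = 0 := by
      have := DFunLike.congr_fun hv a
      rw [hr] at this
      simpa using this
    have h4 : w.1 a + w.2 a = 0 := by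
      have := DFunLike.congr_fun hw a
      rw [hr'] at this
      simpa using this
    exact m3_G_mul S t (by omega) (by omega) i j α β hα' hβ'
  rw [Finset.sum_congr rfl h1, Finset.sum_comm, Finset.sum_mul]
  refine Finset.sum_congr rfl fun β _ => ?_
  rw [← Finset.mul_sum]

theorem m3_prod (t : ℝ) (F : Finset P) : ∀ r r' : P →₀ ℕ, r.support ⊆ F → r'.support ⊆ F →
    KD S t r r' = ∏ p ∈ F, Kp (S.q p) t (r p) (r' p) := by
  induction F using Finset.induction_on with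
  | empty =>
    intro r r' hr hr'
    have h1 : r = 0 := Finsupp.support_eq_empty.1 (Finset.subset_empty.1 hr)
    have h2 : r' = 0 := Finsupp.support_eq_empty.1 (Finset.subset_empty.1 hr')
    subst h1 h2
    rw [Finset.prod_empty]
    unfold KD
    have h3 : antidiagonal (0 : P →₀ ℕ) = {(0, 0)} := by
      ext x
      rw [Finset.HasAntidiagonal.mem_antidiagonal, Finset.mem_singleton, Prod.ext_iff]
      exact add_eq_zero
    rw [h3]
    simp [nrm_zero]
  | insert a F ha ih =>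
    intro r r' hr hr'
    have key : ∀ z : P →₀ ℕ, z.support ⊆ insert a F → (z.erase a).support ⊆ F := by
      intro z hz p hp
      rw [Finsupp.support_erase, Finset.mem_erase] at hp
      exact (Finset.mem_insert.1 (hz hp.2)).resolve_left hp.1
    have h1 := ih (r.erase a) (r'.erase a) (key r hr) (key r' hr')
    have h2 := m3_step S t (a := a) (r := r.erase a) (r' := r'.erase a)
      (Finsupp.erase_same) (Finsupp.erase_same) (r a) (r' a)
    rw [Finsupp.single_add_erase, Finsupp.single_add_erase] at h2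
    rw [h2, h1, Finset.prod_insert ha]
    congr 1
    refine Finset.prod_congr rfl fun p hp => ?_
    have hpa : p ≠ a := by rintro rfl; exact ha hp
    rw [Finsupp.erase_ne hpa, Finsupp.erase_ne hpa]

theorem KD_prod {N : ℕ} (t : ℝ) {r r' : P →₀ ℕ} (hr : r.support ⊆ S.PB N)
    (hr' : r'.support ⊆ S.PB N) :
    KD S t r r' = ∏ p ∈ S.PB N, Kp (S.q p) t (r p) (r' p) :=
  m3_prod S t (S.PB N) r r' hr hr'


end Pool.Agent.HS
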