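import Pool.Agent.Lib_helper45.HS.Defs
import Pool.Agent.Lib_helper45.HSF.H1
import Pool.Agent.Lib_helper45.HSF.M1
import Pool.Agent.Lib_helper45.HSF.M2
import Pool.Agent.Lib_helper45.HSF.M3
import Pool.Agent.Lib_helper45.HSF.P0

/-! # HS block M4 (FRM): the quadratic form in the model (cites M1, M2, M3, hs_le of H1) -/

namespace Pool.Agent.HS

open Complex MeasureTheory Filter Topology
open scoped ENNReal Classical
open Pool.Agent.WA (gd gk)
open Pool.Agent.SEL (NL Adm)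
open Pool.Agent.SQS (hat)
open Pool.Agent.WS (st EE RT cc hl Step)
open Finset.HasAntidiagonal (antidiagonal)

variable {P : Type} (S : PSys P)

theorem m4_th {N : ℕ} (X : S.PB N → ℝ) (p : S.PB N) :
    th S X p = 2 * Real.cos (X p) := by
  unfold th
  rw [dif_pos p.2]

theorem m4_hs {N : ℕ} {r : P →₀ ℕ} (hr : r.support ⊆ S.PB N) (θ : P → ℝ) :
    hs θ r = ∏ p ∈ S.PB N, SEL.Uc (θ p) (r p) := by
  unfold hs
  exact Finsupp.prod_of_support_subset _ hr _ fun p _ => by simp [SEL.Uc]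

/-- the local function -/
noncomputable def m4_f (t : ℝ) (r r' : P →₀ ℕ) (p : P) (x : ℝ) : ℂ :=
  (((‖EE (2 * Real.cos x) ((S.q p : ℂ) ^ (-(1 / 2 + t * I)))‖ ^ 2)⁻¹ *
    (SEL.Uc (2 * Real.cos x) (r p) * SEL.Uc (2 * Real.cos x) (r' p)) : ℝ) : ℂ)

theorem m4_prod {N : ℕ} {r r' : P →₀ ℕ} (hr : r.support ⊆ S.PB N) (hr' : r'.support ⊆ S.PB N)
    (t : ℝ) (X : S.PB N → ℝ) :
    ((‖LX S N (th S X) (1 / 2 + t * I)‖ ^ 2 * (hs (th S X) r * hs (th S X) r') : ℝ) : ℂ) =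
      ∏ p : S.PB N, m4_f S t r r' p (X p) := by
  unfold m4_f
  rw [← Complex.ofReal_prod]
  congr 1
  have h1 : ∀ g : P → ℝ, ∏ p ∈ S.PB N, g p = ∏ p : S.PB N, g p :=
    fun g => (Finset.prod_coe_sort (S.PB N) g).symm
  rw [m4_hs S hr, m4_hs S hr', LX, norm_prod, h1, h1, h1, ← Finset.prod_pow,
    ← Finset.prod_mul_distrib, ← Finset.prod_mul_distrib]
  refine Finset.prod_congr rfl fun p _ => ?_
  rw [m4_th, norm_inv, inv_pow]

theorem m4_int {N : ℕ} {r r' : P →₀ ℕ} (hr : r.support ⊆ S.PB N) (hr' : r'.support ⊆ S.PB N)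
    (t : ℝ) :
    ∫ X, ((‖LX S N (th S X) (1 / 2 + t * I)‖ ^ 2 *
      (hs (th S X) r * hs (th S X) r') : ℝ) : ℂ) ∂(mu S N) =
      ∏ p ∈ S.PB N, ∫ x, m4_f S t r r' p x ∂st := by
  simp_rw [m4_prod S hr hr']
  exact mu_prod S N (m4_f S t r r')

theorem m4_integrable {N : ℕ} (r r' : P →₀ ℕ) (t : ℝ) :
    Integrable (fun X => ((‖LX S N (th S X) (1 / 2 + t * I)‖ ^ 2 *
      (hs (th S X) r * hs (th S X) r') : ℝ) : ℂ)) (mu S N) := by
  have := mu_prob S N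
  have hσ : 0 < ((1 / 2 : ℂ) + t * I).re := by simp
  obtain ⟨C, hC⟩ := LX_bdd S N hσ
  refine Integrable.of_bound (C := C ^ 2 * (S.nrm r * S.nrm r')) ?_
    (Eventually.of_forall fun X => ?_)
  · exact (Complex.continuous_ofReal.comp (((LX_cont S N hσ).norm.pow 2).mul
      ((hs_cont S N r).mul (hs_cont S N r')))).aestronglyMeasurable
  · rw [Complex.norm_real, Real.norm_eq_abs, abs_mul, abs_mul, abs_of_nonneg (by positivity)]
    have h1 := hC X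
    have h2 := (hs_le S (th_le S X) r).1
    have h3 := (hs_le S (th_le S X) r').1
    gcongr

theorem st_form {φ : (P →₀ ℕ) → ℝ} (hφ : Tot S φ) {N X : ℕ} {R : Finset (P →₀ ℕ)}
    (hR : ∀ r ∈ R, S.nrm r ≤ X ∧ r.support ⊆ S.PB N) (A : (P →₀ ℕ) → ℂ) (t : ℝ) :
    ∑ c ∈ S.BL (X + 1), φ c * ‖PsH S R A c t‖ ^ 2 =
      (∏ p ∈ S.PB N, (1 - 1 / (S.q p : ℝ))) *
        ∫ X, ‖LX S N (th S X) (1 / 2 + t * I)‖ ^ 2 *
          ‖∑ r ∈ R, A r * (hs (th S X) r : ℂ)‖ ^ 2 ∂(mu S N) := by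
  rw [← Complex.ofReal_inj, form_arith S hφ (fun r hr => (hR r hr).1) A t, Complex.ofReal_mul,
    ← integral_complex_ofReal]
  have h1 : ∀ X : S.PB N → ℝ, ((‖LX S N (th S X) (1 / 2 + t * I)‖ ^ 2 *
      ‖∑ r ∈ R, A r * (hs (th S X) r : ℂ)‖ ^ 2 : ℝ) : ℂ) =
      ∑ r ∈ R, ∑ r' ∈ R, A r * starRingEnd ℂ (A r') *
        ((‖LX S N (th S X) (1 / 2 + t * I)‖ ^ 2 * (hs (th S X) r * hs (th S X) r') : ℝ) : ℂ) := by
    intro X
    have h2 : ((‖∑ r ∈ R, A r * (hs (th S X) r : ℂ)‖ ^ 2 : ℝ) : ℂ) =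
        (∑ r ∈ R, A r * (hs (th S X) r : ℂ)) *
          ∑ r' ∈ R, starRingEnd ℂ (A r') * (hs (th S X) r' : ℂ) := by
      have h3 : ∑ r' ∈ R, starRingEnd ℂ (A r') * (hs (th S X) r' : ℂ) =
          starRingEnd ℂ (∑ r ∈ R, A r * (hs (th S X) r : ℂ)) := by
        rw [map_sum]
        exact Finset.sum_congr rfl fun r _ => by rw [map_mul, Complex.conj_ofReal]
      rw [h3, Complex.mul_conj, Complex.normSq_eq_norm_sq]
    rw [Complex.ofReal_mul, h2, Finset.sum_mul_sum, Finset.mul_sum]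
    refine Finset.sum_congr rfl fun r _ => ?_
    rw [Finset.mul_sum]
    refine Finset.sum_congr rfl fun r' _ => ?_
    push_cast
    ring
  simp_rw [h1]
  rw [integral_finsetSum]
  swap
  · intro r hr
    exact integrable_finsetSum _ fun r' hr' => (m4_integrable S r r' t).const_mul _
  rw [Finset.mul_sum]
  refine Finset.sum_congr rfl fun r hr => ?_
  rw [integral_finsetSum]
  swap
  · intro r' hr'
    exact (m4_integrable S r r' t).const_mul _
  rw [Finset.mul_sum]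
  refine Finset.sum_congr rfl fun r' hr' => ?_
  rw [integral_const_mul, m4_int S (hR r hr).2 (hR r' hr').2,
    KD_prod S t (hR r hr).2 (hR r' hr').2]
  have h2 : ∏ p ∈ S.PB N, Kp (S.q p) t (r p) (r' p) =
      ((∏ p ∈ S.PB N, (1 - 1 / (S.q p : ℝ)) : ℝ) : ℂ) *
        ∏ p ∈ S.PB N, ∫ x, m4_f S t r r' p x ∂st := by
    rw [Complex.ofReal_prod, ← Finset.prod_mul_distrib]
    refine Finset.prod_congr rfl fun p hp => ?_
    rw [← kern (q_two S p), Complex.ofReal_mul]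
    unfold m4_f
    rw [integral_complex_ofReal]
  rw [h2]
  ring


end Pool.Agent.HS
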