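import Pool.Agent.Lib_helper45.HS.Defs
import Pool.Agent.Lib_helper45.HSF.M11
import Pool.Agent.Lib_helper45.HSF.M4
import Pool.Agent.Lib_helper45.HSF.M6
import Pool.Agent.Lib_helper45.HSF.M8
import Pool.Agent.Lib_helper45.HSF.P0

/-!
# Block S1C (SFO): the quadratic form of the mollifier
-/

set_option autoImplicit false

namespace Pool.Agent.HS

open Complex MeasureTheory Filter Topology
open scoped ENNReal Classical
open Pool.Agent.WA (gd gk)
open Pool.Agent.SEL (NL Adm)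
open Pool.Agent.SQS (hat)
open Pool.Agent.WS (st EE RT cc hl Step)
open Finset.HasAntidiagonal (antidiagonal)

variable {P : Type} (S : PSys P)

/-- the expansion of the product of two mollifier coefficients over `RS L` -/
theorem s1c_lin {L : ℝ} {m l : P →₀ ℕ} (hm : m ∈ S.BL (NL L)) (hl : l ∈ S.BL (NL L))
    (θ : P → ℝ) :
    ∑ r ∈ S.RS L, CC m l 0 r * hs θ r = al θ m * al θ l := by
  have hm1 : S.nrm m < NL L := (mem_BL S).1 hm
  have hl1 : S.nrm l < NL L := (mem_BL S).1 hl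
  have h := lin m l 0 θ
  have h0 : hs θ 0 = 1 := by simp [hs]
  rw [h0, mul_one] at h
  rw [h]
  symm
  refine Finset.sum_subset_zero_on_sdiff ?_ ?_ (fun _ _ => rfl)
  · intro M hM
    have hd : M ≤ m + l + 0 := mem_dv.1 hM
    rw [add_zero] at hd
    rw [PSys.RS, Finset.mem_filter, mem_BL]
    constructor
    · have h1 : S.nrm M ≤ S.nrm (m + l) := nrm_mono S hd
      rw [nrm_add] at h1
      have h2 : S.nrm m * S.nrm l ≤ NL L * NL L := Nat.mul_le_mul hm1.le hl1.le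
      omega
    · refine (Finsupp.support_mono hd).trans ?_
      refine Finsupp.support_add.trans (Finset.union_subset (supp_of_nrm S hm1) (supp_of_nrm S hl1))
  · intro M hM
    have hnd : ¬ M ≤ m + l + 0 := by
      intro hd
      exact (Finset.mem_sdiff.1 hM).2 (mem_dv.2 hd)
    rw [CC, if_neg hnd, zero_mul]

/-- the terms of the mollifier on the critical line -/
theorem s1c_cpow (m : P →₀ ℕ) (t : ℝ) :
    (S.nrm m : ℂ) ^ (-(1 / 2 + t * I)) =
      ((1 / √(S.nrm m : ℝ) : ℝ) : ℂ) * cexp (-(t * Real.log (S.nrm m) * I)) := by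
  have hm : 0 < S.nrm m := nrm_pos S m
  have hm0 : (S.nrm m : ℂ) ≠ 0 := by exact_mod_cast hm.ne'
  have hmpos : (0 : ℝ) < S.nrm m := by exact_mod_cast hm
  rw [neg_add, Complex.cpow_add _ _ hm0]
  congr 1
  · have e : 1 / √(S.nrm m : ℝ) = (S.nrm m : ℝ) ^ (-(1 / 2) : ℝ) := by
      rw [Real.rpow_neg hmpos.le, ← Real.sqrt_eq_rpow, one_div]
    rw [e, Complex.ofReal_cpow hmpos.le]
    push_cast; rfl
  · rw [Complex.cpow_def_of_ne_zero hm0, Complex.natCast_log]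
    congr 1; ring

/-- Block S1C -/
theorem AA_sum (L : ℝ) (Θ : ℝ → ℝ) (t : ℝ) (θ : P → ℝ) :
    ∑ r ∈ S.RS L, AA S L Θ t r * (hs θ r : ℂ) =
      ((‖mol S L Θ θ (1 / 2 + t * I)‖ ^ 2 : ℝ) : ℂ) := by
  have hmol : mol S L Θ θ (1 / 2 + t * I) = ∑ m ∈ S.BL (NL L),
      ((al θ m * xm S L Θ m : ℝ) : ℂ) * cexp (-(t * Real.log (S.nrm m) * I)) := by
    rw [mol]
    refine Finset.sum_congr rfl fun m _ => ?_
    rw [s1c_cpow, xm]
    push_cast; ring
  have hconj : starRingEnd ℂ (mol S L Θ θ (1 / 2 + t * I)) = ∑ m ∈ S.BL (NL L),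
      ((al θ m * xm S L Θ m : ℝ) : ℂ) * cexp (t * Real.log (S.nrm m) * I) := by
    rw [hmol, map_sum]
    refine Finset.sum_congr rfl fun m _ => ?_
    rw [map_mul, Complex.conj_ofReal, ← Complex.exp_conj]
    congr 2
    rw [map_neg, map_mul, map_mul, Complex.conj_ofReal, Complex.conj_ofReal, Complex.conj_I]
    ring
  have hR : ((‖mol S L Θ θ (1 / 2 + t * I)‖ ^ 2 : ℝ) : ℂ) =
      starRingEnd ℂ (mol S L Θ θ (1 / 2 + t * I)) * mol S L Θ θ (1 / 2 + t * I) := by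
    rw [mul_comm (starRingEnd ℂ _), Complex.mul_conj, Complex.normSq_eq_norm_sq]
  rw [hR, hconj, hmol, Finset.sum_mul_sum]
  unfold AA
  simp only [Finset.sum_mul]
  rw [Finset.sum_comm]
  refine Finset.sum_congr rfl fun m hm => ?_
  rw [Finset.sum_comm]
  refine Finset.sum_congr rfl fun l hl => ?_
  have h := s1c_lin S hm hl θ
  have h' : ∑ r ∈ S.RS L, ((CC m l 0 r : ℝ) : ℂ) * (hs θ r : ℂ) = (al θ m : ℂ) * (al θ l : ℂ) := by
    rw [← Complex.ofReal_mul, ← h]; push_cast; rfl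
  calc ∑ r ∈ S.RS L, ((xm S L Θ m * xm S L Θ l * CC m l 0 r : ℝ) : ℂ) *
        cexp (t * (Real.log (S.nrm m) - Real.log (S.nrm l) : ℝ) * I) * (hs θ r : ℂ)
      = ∑ r ∈ S.RS L, (xm S L Θ m : ℂ) * (xm S L Θ l : ℂ) *
          cexp (t * (Real.log (S.nrm m) - Real.log (S.nrm l) : ℝ) * I) *
            (((CC m l 0 r : ℝ) : ℂ) * (hs θ r : ℂ)) := by
        refine Finset.sum_congr rfl fun r _ => ?_
        push_cast; ring
    _ = (xm S L Θ m : ℂ) * (xm S L Θ l : ℂ) *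
          cexp (t * (Real.log (S.nrm m) - Real.log (S.nrm l) : ℝ) * I) *
          ((al θ m : ℂ) * (al θ l : ℂ)) := by
        rw [← Finset.mul_sum, h']
    _ = _ := by
        have e : cexp (t * (Real.log (S.nrm m) - Real.log (S.nrm l) : ℝ) * I) =
            cexp (t * Real.log (S.nrm m) * I) * cexp (-(t * Real.log (S.nrm l) * I)) := by
          rw [← Complex.exp_add]
          congr 1
          push_cast; ring
        rw [e]
        push_cast
        ring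

/-- Block S1C -/
theorem s1_form {c₁ C₁ : ℝ} (hS : S.Ax c₁ C₁) {φ : (P →₀ ℕ) → ℝ} (hφ : Tot S φ) {Θ : ℝ → ℝ}
    (hA : Adm Θ) (h1 : ∀ x, 1 ≤ x → Θ x = 0) :
    ∃ C : ℝ, 0 < C ∧ ∀ L t : ℝ, 1 ≤ L →
      ∑ c ∈ S.BL (NL L * NL L + 1), φ c * ‖PsH S (S.RS L) (AA S L Θ t) c t‖ ^ 2 ≤ C / L := by
  obtain ⟨C, hC, h⟩ := mb_final S hA h1
  have hc := hS.c_pos
  refine ⟨C / c₁, div_pos hC hc, fun L t hL => ?_⟩
  have hL0 : 0 < L := by linarith
  have hNL : Real.exp L ≤ NL L := Nat.le_ceil _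
  have hNL2 : 2 ≤ NL L := by
    have h2 : (2 : ℝ) ≤ NL L := by
      have := Real.add_one_le_exp L
      linarith
    exact_mod_cast h2
  have hform := st_form S hφ (N := NL L) (X := NL L * NL L) (R := S.RS L) (fun r hr => by
    rw [PSys.RS, Finset.mem_filter, mem_BL] at hr
    exact ⟨by omega, hr.2⟩) (AA S L Θ t) t
  rw [hform]
  have hre : ((1 : ℂ) / 2 + t * I).re = 1 / 2 := by simp
  have hb := h L (NL L) (1 / 2 + t * I) 0 hL le_rfl le_rfl zero_le_one (Or.inl ⟨hre, rfl⟩)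
  have e1 : ∀ X : S.PB (NL L) → ℝ,
      ‖LX S (NL L) (th S X) (1 / 2 + t * I)‖ ^ 2 *
        ‖∑ r ∈ S.RS L, AA S L Θ t r * (hs (th S X) r : ℂ)‖ ^ 2 =
      ‖LX S (NL L) (th S X) (1 / 2 + t * I)‖ ^ 2 *
        ‖mol S L Θ (th S X) (1 / 2 + t * I - ((0 : ℝ) : ℂ) / L)‖ ^ 4 := by
    intro X
    rw [AA_sum, Complex.norm_real, Real.norm_of_nonneg (by positivity)]
    simp only [ofReal_zero, zero_div, sub_zero]
    ring
  simp only [e1]
  have hmert := mertens_up S hS hNL2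
  have hlog : L ≤ Real.log (NL L) := by
    have := Real.log_le_log (Real.exp_pos L) hNL
    rwa [Real.log_exp] at this
  have hprod : 0 ≤ ∏ p ∈ S.PB (NL L), (1 - 1 / (S.q p : ℝ)) := by
    refine Finset.prod_nonneg fun p _ => ?_
    have h2 : (1 : ℝ) ≤ S.q p := by exact_mod_cast (le_trans (by norm_num) (q_two S p))
    have : 1 / (S.q p : ℝ) ≤ 1 := by rw [div_le_one (by linarith)]; exact h2
    linarith
  calc (∏ p ∈ S.PB (NL L), (1 - 1 / (S.q p : ℝ))) *
        ∫ X, ‖LX S (NL L) (th S X) (1 / 2 + t * I)‖ ^ 2 *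
          ‖mol S L Θ (th S X) (1 / 2 + t * I - ((0 : ℝ) : ℂ) / L)‖ ^ 4 ∂(mu S (NL L))
      ≤ (∏ p ∈ S.PB (NL L), (1 - 1 / (S.q p : ℝ))) * C :=
        mul_le_mul_of_nonneg_left hb hprod
    _ ≤ (1 / (c₁ * Real.log (NL L))) * C := mul_le_mul_of_nonneg_right hmert hC.le
    _ ≤ (1 / (c₁ * L)) * C := by
        refine mul_le_mul_of_nonneg_right ?_ hC.le
        exact one_div_le_one_div_of_le (mul_pos hc hL0) (mul_le_mul_of_nonneg_left hlog hc.le)
    _ = C / c₁ / L := by field_simp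

end Pool.Agent.HS
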