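import Pool.Agent.Lib_helper45.HS.Defs
import Pool.Agent.Lib_helper24.SQ.PL
import Pool.Agent.Lib_helper45.HSF.H3
import Pool.Agent.Lib_helper45.HSF.P0
import Pool.Agent.Lib_helper45.HSF.S1A
import Pool.Agent.Lib_helper45.HSF.S1B
import Pool.Agent.Lib_helper45.HSF.S1C

/-! Block S1D (SON): the first mean value (helper78). -/

namespace Pool.Agent.HS

open Complex MeasureTheory Filter Topology
open scoped ENNReal Classical
open Pool.Agent.WA (gd gk)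
open Pool.Agent.SEL (NL Adm)
open Pool.Agent.SQS (hat)
open Pool.Agent.WS (st EE RT cc hl Step)
open Finset.HasAntidiagonal (antidiagonal)

variable {P : Type} (S : PSys P)

/-- bounded measurable functions with bounded support are integrable -/
theorem s1d_int {W : ℝ → ℂ} (hW : Measurable W) {M V : ℝ} (hWb : ∀ v, ‖W v‖ ≤ M)
    (hWs : ∀ v, V < |v| → W v = 0) : Integrable W := by
  have h1 : IntegrableOn W (Set.Icc (-V) V) := by
    refine Integrable.mono' (g := fun _ => M) (integrable_const M) hW.aestronglyMeasurable ?_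
    exact Filter.Eventually.of_forall hWb
  rw [← integrableOn_iff_integrable_of_support_subset (s := Set.Icc (-V) V)]
  · exact h1
  · intro v hv
    by_contra h
    apply hv
    apply hWs
    rw [Set.mem_Icc, ← abs_le] at h
    exact not_le.mp h

theorem s1d_int_sq {W : ℝ → ℂ} (hW : Measurable W) {M V : ℝ} (hWb : ∀ v, ‖W v‖ ≤ M)
    (hWs : ∀ v, V < |v| → W v = 0) : Integrable (fun v => ‖W v‖ ^ 2) := by
  have h1 : IntegrableOn (fun v => ‖W v‖ ^ 2) (Set.Icc (-V) V) := by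
    refine Integrable.mono' (g := fun _ => M ^ 2) (integrable_const _)
      (hW.norm.pow_const 2).aestronglyMeasurable ?_
    refine Filter.Eventually.of_forall fun v => ?_
    rw [Real.norm_eq_abs, abs_of_nonneg (by positivity)]
    exact pow_le_pow_left₀ (norm_nonneg _) (hWb v) 2
  rw [← integrableOn_iff_integrable_of_support_subset (s := Set.Icc (-V) V)]
  · exact h1
  · intro v hv
    by_contra h
    apply hv
    rw [Set.mem_Icc, ← abs_le] at h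
    simp [hWs v (not_le.mp h)]

theorem s1d_NL {L : ℝ} (hL : 0 ≤ L) : 1 ≤ NL L ∧ (NL L : ℝ) ≤ 2 * Real.exp L := by
  have h1 : 1 ≤ Real.exp L := Real.one_le_exp hL
  constructor
  · unfold Pool.Agent.SEL.NL
    exact Nat.one_le_ceil_iff.mpr (by linarith)
  · unfold Pool.Agent.SEL.NL
    have := (Nat.ceil_lt_add_one (by linarith : 0 ≤ Real.exp L)).le
    linarith

/-- the main term -/
theorem s1d_main {c₁ C₁ : ℝ} (hS : S.Ax c₁ C₁) {φ : (P →₀ ℕ) → ℝ} (hφ : Tot S φ) {Θ : ℝ → ℝ}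
    (hA : Adm Θ) (h1 : ∀ x, 1 ≤ x → Θ x = 0) :
    ∃ C : ℝ, 0 < C ∧ ∀ L : ℝ, 1 ≤ L → ∀ (W : ℝ → ℂ) (M V : ℝ), Measurable W →
      (∀ v, ‖W v‖ ≤ M) → (∀ v, V < |v| → W v = 0) →
      ∑ c ∈ S.BL (NL L * NL L + 1), φ c * (∫ u, ‖PsF S (S.RS L) (Wr S L Θ W) c u‖ ^ 2) ≤
        C / L * ∫ v, ‖W v‖ ^ 2 := by
  obtain ⟨C, hC, hform⟩ := s1_form S hS hφ hA h1
  refine ⟨C, hC, fun L hL W M V hW hWb hWs => ?_⟩
  have hpl : ∀ d, ∫ u, ‖PsF S (S.RS L) (Wr S L Θ W) d u‖ ^ 2 = 1 / (2 * Real.pi) *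
      ∫ t, ‖hat W t‖ ^ 2 * ‖PsH S (S.RS L) (AA S L Θ t) d t‖ ^ 2 :=
    fun d => (s1_planch S L Θ hW hWb hWs d).2
  have hin : ∀ d, Integrable (fun t : ℝ => ‖hat W t‖ ^ 2 *
      ‖PsH S (S.RS L) (AA S L Θ t) d t‖ ^ 2) :=
    fun d => (s1_planch S L Θ hW hWb hWs d).1
  simp only [hpl]
  have h2 : ∑ d ∈ S.BL (NL L * NL L + 1), φ d * (1 / (2 * Real.pi) *
      ∫ t, ‖hat W t‖ ^ 2 * ‖PsH S (S.RS L) (AA S L Θ t) d t‖ ^ 2) =
      1 / (2 * Real.pi) * ∫ t, ∑ d ∈ S.BL (NL L * NL L + 1), φ d *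
        (‖hat W t‖ ^ 2 * ‖PsH S (S.RS L) (AA S L Θ t) d t‖ ^ 2) := by
    rw [integral_finsetSum _ (fun d _ => (hin d).const_mul _), Finset.mul_sum]
    refine Finset.sum_congr rfl fun d _ => ?_
    rw [integral_const_mul]
    ring
  rw [h2]
  obtain ⟨hp1, hp2⟩ := Pool.Agent.SQS.PL1 W (s1d_int hW hWb hWs)
    (s1d_int_sq hW hWb hWs)
  have h3 : ∫ t, ∑ d ∈ S.BL (NL L * NL L + 1), φ d *
        (‖hat W t‖ ^ 2 * ‖PsH S (S.RS L) (AA S L Θ t) d t‖ ^ 2) ≤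
      ∫ t, C / L * ‖hat W t‖ ^ 2 := by
    refine integral_mono (integrable_finsetSum _ (fun d _ => (hin d).const_mul _))
      (hp1.const_mul _) (fun t => ?_)
    have h4 : ∑ d ∈ S.BL (NL L * NL L + 1), φ d *
        (‖hat W t‖ ^ 2 * ‖PsH S (S.RS L) (AA S L Θ t) d t‖ ^ 2) =
        ‖hat W t‖ ^ 2 * ∑ d ∈ S.BL (NL L * NL L + 1), φ d *
          ‖PsH S (S.RS L) (AA S L Θ t) d t‖ ^ 2 := by
      rw [Finset.mul_sum]
      exact Finset.sum_congr rfl fun d _ => by ring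
    show ∑ d ∈ S.BL (NL L * NL L + 1), φ d *
        (‖hat W t‖ ^ 2 * ‖PsH S (S.RS L) (AA S L Θ t) d t‖ ^ 2) ≤ C / L * ‖hat W t‖ ^ 2
    rw [h4, mul_comm (C / L)]
    exact mul_le_mul_of_nonneg_left (hform L t hL) (by positivity)
  rw [integral_const_mul, hp2] at h3
  have hpi := Real.pi_pos
  calc 1 / (2 * Real.pi) * ∫ t, ∑ d ∈ S.BL (NL L * NL L + 1), φ d *
        (‖hat W t‖ ^ 2 * ‖PsH S (S.RS L) (AA S L Θ t) d t‖ ^ 2)
      ≤ 1 / (2 * Real.pi) * (C / L * (2 * Real.pi * ∫ u, ‖W u‖ ^ 2)) :=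
        mul_le_mul_of_nonneg_left h3 (by positivity)
    _ = C / L * ∫ v, ‖W v‖ ^ 2 := by field_simp

/-- the error term -/
theorem s1d_err {F B L k M C₁ : ℝ} (hF : 0 ≤ F) (hB : 4 * (20 + 13 * F) ≤ B) (hk : 1 ≤ k)
    (hLB : L = Real.log k / B) (hL : 1 ≤ L) (hM : 0 ≤ M) (hC : 0 ≤ C₁) (b r t : ℝ) (hb0 : 0 ≤ b)
    (hr0 : 0 ≤ r) (ht0 : 0 ≤ t) (hb : b ≤ C₁ * (NL L : ℝ)) (hr : r ≤ C₁ * (NL L : ℝ) ^ 2)
    (ht : t ≤ C₁ * (NL L : ℝ) ^ 2) :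
    ((r * (b ^ 2 * (NL L : ℝ) ^ 4 * M)) * t) ^ 2 * ((NL L * NL L : ℕ) : ℝ) ^ F *
      Real.exp (F * (8 * L + L + Real.log ((NL L * NL L : ℕ) : ℝ))) ≤
    (C₁ ^ 8 * 2 ^ 20 * (4 : ℝ) ^ (2 * F)) * M ^ 2 * k ^ (1 / 4 : ℝ) := by
  obtain ⟨hN1, hN2⟩ := s1d_NL (by linarith : 0 ≤ L)
  set x := Real.exp L with hx
  have hx1 : 1 ≤ x := Real.one_le_exp (by linarith)
  have hx0 : 0 < x := by linarith
  set N : ℝ := (NL L : ℝ) with hN
  have hN1' : (1 : ℝ) ≤ N := by rw [hN]; exact_mod_cast hN1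
  have hN0 : 0 < N := by linarith
  have hD : ((NL L * NL L : ℕ) : ℝ) = N ^ 2 := by push_cast; ring
  rw [hD]
  have hBpos : 0 < B := by
    have : 0 ≤ 13 * F := by positivity
    linarith
  -- the power of x
  have hxpow : x ^ (20 + 13 * F) ≤ k ^ (1 / 4 : ℝ) := by
    rw [hx, ← Real.exp_mul, Real.rpow_def_of_pos (by linarith : 0 < k)]
    apply Real.exp_le_exp.mpr
    rw [hLB]
    have hlk : 0 ≤ Real.log k := Real.log_nonneg hk
    rw [div_mul_eq_mul_div, div_le_iff₀ hBpos]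
    nlinarith
  have e1 : Real.exp (F * (8 * L + L + Real.log (N ^ 2))) = x ^ (9 * F) * (N ^ 2) ^ F := by
    rw [mul_add, Real.exp_add]
    congr 1
    · rw [hx, ← Real.exp_mul]; congr 1; ring
    · rw [Real.rpow_def_of_pos (by positivity)]; congr 1; ring
  rw [e1]
  have h2 : (N ^ 2 : ℝ) ^ F * (N ^ 2) ^ F ≤ (4 : ℝ) ^ (2 * F) * x ^ (4 * F) := by
    rw [← Real.rpow_add (by positivity)]
    have h3 : N ^ 2 ≤ 4 * x ^ 2 := by nlinarith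
    calc (N ^ 2 : ℝ) ^ (F + F) ≤ (4 * x ^ 2) ^ (F + F) :=
          Real.rpow_le_rpow (by positivity) h3 (by linarith)
      _ = (4 : ℝ) ^ (2 * F) * x ^ (4 * F) := by
          rw [Real.mul_rpow (by norm_num) (by positivity), ← Real.rpow_natCast x 2,
            ← Real.rpow_mul hx0.le]
          congr 1
          · congr 1; ring
          · congr 1; push_cast; ring
  have h3 : ((r * (b ^ 2 * N ^ 4 * M)) * t) ^ 2 ≤ C₁ ^ 8 * 2 ^ 20 * x ^ (20 : ℝ) * M ^ 2 := by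
    have h4 : (r * (b ^ 2 * N ^ 4 * M)) * t ≤
        ((C₁ * N ^ 2) * ((C₁ * N) ^ 2 * N ^ 4 * M)) * (C₁ * N ^ 2) := by gcongr
    calc ((r * (b ^ 2 * N ^ 4 * M)) * t) ^ 2
        ≤ (((C₁ * N ^ 2) * ((C₁ * N) ^ 2 * N ^ 4 * M)) * (C₁ * N ^ 2)) ^ 2 :=
          pow_le_pow_left₀ (by positivity) h4 2
      _ = C₁ ^ 8 * N ^ 20 * M ^ 2 := by ring
      _ ≤ C₁ ^ 8 * (2 * x) ^ 20 * M ^ 2 := by gcongr
      _ = C₁ ^ 8 * 2 ^ 20 * x ^ (20 : ℝ) * M ^ 2 := by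
          rw [mul_pow, show x ^ (20 : ℝ) = x ^ 20 by rw [← Real.rpow_natCast]; norm_num]
          ring
  calc ((r * (b ^ 2 * N ^ 4 * M)) * t) ^ 2 * (N ^ 2) ^ F * (x ^ (9 * F) * (N ^ 2) ^ F)
      = ((r * (b ^ 2 * N ^ 4 * M)) * t) ^ 2 * (((N ^ 2) ^ F * (N ^ 2) ^ F) * x ^ (9 * F)) := by
        ring
    _ ≤ (C₁ ^ 8 * 2 ^ 20 * x ^ (20 : ℝ) * M ^ 2) *
        (((4 : ℝ) ^ (2 * F) * x ^ (4 * F)) * x ^ (9 * F)) := by
        apply mul_le_mul h3 _ (by positivity) (by positivity)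
        exact mul_le_mul_of_nonneg_right h2 (by positivity)
    _ = (C₁ ^ 8 * 2 ^ 20 * (4 : ℝ) ^ (2 * F)) * M ^ 2 * x ^ (20 + 13 * F) := by
        have : x ^ (20 + 13 * F) = x ^ (20 : ℝ) * x ^ (4 * F) * x ^ (9 * F) := by
          rw [← Real.rpow_add hx0, ← Real.rpow_add hx0]; congr 1; ring
        rw [this]; ring
    _ ≤ _ := mul_le_mul_of_nonneg_left hxpow (by positivity)

theorem s1d_num {C C₂ K G A D I M L : ℝ} (hC₂ : 0 ≤ C₂) (hK : 0 ≤ K) (hL : 0 < L) (hA0 : 0 ≤ A)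
    (hD0 : 0 ≤ D) (hI : 0 ≤ I) (hA : A ≤ C₂ / L * I) (hD : D ≤ 64 * K * (M ^ 2 / L ^ 2)) :
    C * G ^ 2 * (A + D) ≤ (|C| * (C₂ + 64 * K) + 1) * G ^ 2 * (1 / L * I + M ^ 2 / L ^ 2) := by
  have hG : 0 ≤ G ^ 2 := sq_nonneg _
  have hC0 : 0 ≤ |C| := abs_nonneg C
  have hI1 : 0 ≤ 1 / L * I := by positivity
  have hI2 : 0 ≤ M ^ 2 / L ^ 2 := by positivity
  have hfin : C * G ^ 2 * (A + D) ≤
      |C| * G ^ 2 * (C₂ / L * I + 64 * K * (M ^ 2 / L ^ 2)) := by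
    refine mul_le_mul (mul_le_mul_of_nonneg_right (le_abs_self C) hG) (add_le_add hA hD)
      (add_nonneg hA0 hD0) (by positivity)
  refine hfin.trans ?_
  have h8 : |C| * (C₂ / L * I + 64 * K * (M ^ 2 / L ^ 2)) ≤
      (|C| * (C₂ + 64 * K) + 1) * (1 / L * I + M ^ 2 / L ^ 2) := by
    have e1 : C₂ / L * I = C₂ * (1 / L * I) := by ring
    rw [e1]
    have p1 : 0 ≤ |C| * (64 * K * (1 / L * I)) := by positivity
    have p2 : 0 ≤ |C| * (C₂ * (M ^ 2 / L ^ 2)) := by positivity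
    nlinarith
  calc |C| * G ^ 2 * (C₂ / L * I + 64 * K * (M ^ 2 / L ^ 2))
      = G ^ 2 * (|C| * (C₂ / L * I + 64 * K * (M ^ 2 / L ^ 2))) := by ring
    _ ≤ G ^ 2 * ((|C| * (C₂ + 64 * K) + 1) * (1 / L * I + M ^ 2 / L ^ 2)) :=
        mul_le_mul_of_nonneg_left h8 hG
    _ = _ := by ring

theorem s1d_err3 {E F L k M K Q x : ℝ} (hEF : E ≤ F) (hk : 1 ≤ k) (hL : 0 < L) (hx : 1 ≤ x)
    (hLk : L ≤ Real.log k) (hQ : 0 ≤ Q) (hK : 0 ≤ K)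
    (h : Q * x ^ F * Real.exp (F * (8 * L + L + Real.log x)) ≤ K * M ^ 2 * k ^ (1 / 4 : ℝ)) :
    Q * x ^ E * Real.exp (E * (8 * L + L + Real.log x)) / √k ≤ 64 * K * (M ^ 2 / L ^ 2) := by
  have hV0 : 0 ≤ 8 * L + L + Real.log x := by
    have : 0 ≤ Real.log x := Real.log_nonneg hx
    linarith
  have hE1 : x ^ E ≤ x ^ F := Real.rpow_le_rpow_of_exponent_le hx hEF
  have hE2 : Real.exp (E * (8 * L + L + Real.log x)) ≤
      Real.exp (F * (8 * L + L + Real.log x)) :=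
    Real.exp_le_exp.mpr (mul_le_mul_of_nonneg_right hEF hV0)
  have hx0 : 0 < x := by linarith
  have hErr2 : Q * x ^ E * Real.exp (E * (8 * L + L + Real.log x)) ≤
      K * M ^ 2 * k ^ (1 / 4 : ℝ) := by
    refine le_trans ?_ h
    exact mul_le_mul (mul_le_mul_of_nonneg_left hE1 hQ) hE2 (Real.exp_nonneg _)
      (mul_nonneg hQ (Real.rpow_nonneg hx0.le _))
  have hk0 : (0 : ℝ) < k := by linarith
  have hsk : 0 < Real.sqrt k := Real.sqrt_pos.mpr hk0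
  have hk4 : k ^ (1 / 4 : ℝ) * L ^ 2 ≤ 64 * Real.sqrt k := by
    have h2 : Real.log k ≤ k ^ (1 / 8 : ℝ) / (1 / 8) :=
      Real.log_le_rpow_div (by linarith) (by norm_num)
    have h3 : L ≤ 8 * k ^ (1 / 8 : ℝ) := by linarith
    have h4 : L ^ 2 ≤ (8 * k ^ (1 / 8 : ℝ)) ^ 2 := pow_le_pow_left₀ hL.le h3 2
    have h5 : (8 * k ^ (1 / 8 : ℝ)) ^ 2 = 64 * k ^ (1 / 4 : ℝ) := by
      rw [mul_pow, ← Real.rpow_natCast (k ^ (1 / 8 : ℝ)) 2, ← Real.rpow_mul (by linarith)]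
      norm_num
    have h6 : k ^ (1 / 4 : ℝ) * k ^ (1 / 4 : ℝ) = Real.sqrt k := by
      rw [← Real.rpow_add (by linarith), Real.sqrt_eq_rpow]
      norm_num
    calc k ^ (1 / 4 : ℝ) * L ^ 2 ≤ k ^ (1 / 4 : ℝ) * (64 * k ^ (1 / 4 : ℝ)) := by
          rw [← h5]; exact mul_le_mul_of_nonneg_left h4 (by positivity)
      _ = 64 * Real.sqrt k := by rw [← h6]; ring
  rw [div_le_iff₀ hsk]
  refine hErr2.trans ?_
  have h7 : k ^ (1 / 4 : ℝ) ≤ 64 * Real.sqrt k / L ^ 2 := by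
    rw [le_div_iff₀ (by positivity)]; exact hk4
  calc K * M ^ 2 * k ^ (1 / 4 : ℝ) ≤ K * M ^ 2 * (64 * Real.sqrt k / L ^ 2) :=
        mul_le_mul_of_nonneg_left h7 (by positivity)
    _ = 64 * K * (M ^ 2 / L ^ 2) * √k := by ring

theorem s_one {c₁ C₁ : ℝ} (hS : S.Ax c₁ C₁) {φ : (P →₀ ℕ) → ℝ} (hφ : Tot S φ) (Δ C E : ℝ)
    {Θ : ℝ → ℝ} (hA : Adm Θ) (hΘ : ∀ x, 0 ≤ Θ x ∧ Θ x ≤ 1) (h1 : ∀ x, 1 ≤ x → Θ x = 0) :
    ∃ B₀ C' : ℝ, 1 ≤ B₀ ∧ 0 < C' ∧ ∀ B : ℝ, B₀ ≤ B → ∃ k₀ : ℕ,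
    ∀ k : ℕ, k₀ ≤ k → Even k → ∀ {ι : Type} [Fintype ι] (θ : ι → P → ℝ) (ω : ι → ℝ),
      HFam S Δ C E φ k θ ω → ∀ L : ℝ, L = Real.log k / B → ∀ (W : ℝ → ℂ) (M : ℝ), Measurable W →
      (∀ v, ‖W v‖ ≤ M) → (∀ v, 8 * L < |v| → W v = 0) →
      ∑ i, ω i * ‖∫ v, ff S k Δ (θ i) L Θ v * W v‖ ^ 2 ≤
        C' * GK S k ^ 2 * (1 / L * (∫ v, ‖W v‖ ^ 2) + M ^ 2 / L ^ 2) := by
  obtain ⟨C₂, hC₂, hmain⟩ := s1d_main S hS hφ hA h1
  set F : ℝ := |E| with hF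
  have hF0 : 0 ≤ F := abs_nonneg E
  have hEF : E ≤ F := le_abs_self E
  -- the constant `C₁` is at least 1
  have hC₁ : 1 ≤ C₁ := by
    have h2 := hS.cnt 1
    have h3 : (0 : P →₀ ℕ) ∈ S.BL (1 + 1) := by
      rw [mem_BL, nrm_zero]; norm_num
    have h4 : 1 ≤ (S.BL (1 + 1)).card := Finset.card_pos.mpr ⟨0, h3⟩
    have h5 : (1 : ℝ) ≤ ((S.BL (1 + 1)).card : ℝ) := by exact_mod_cast h4
    push_cast at h2
    linarith
  have hC₁0 : 0 ≤ C₁ := by linarith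
  set K : ℝ := C₁ ^ 8 * 2 ^ 20 * (4 : ℝ) ^ (2 * F) with hK
  have hK0 : 0 < K := by positivity
  refine ⟨4 * (20 + 13 * F), |C| * (C₂ + 64 * K) + 1, by linarith, by positivity,
    fun B hB => ⟨max 16 ⌈Real.exp B⌉₊, fun k hk he ι _ θ ω Fm L hL W M hW hWb hWs => ?_⟩⟩
  have hk16 : 16 ≤ k := (le_max_left _ _).trans hk
  have hkB : Real.exp B ≤ k := by
    have : ⌈Real.exp B⌉₊ ≤ k := (le_max_right _ _).trans hk
    exact (Nat.le_ceil _).trans (by exact_mod_cast this)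
  have hk1 : (1 : ℝ) ≤ k := by
    have : (16 : ℝ) ≤ k := by exact_mod_cast hk16
    linarith
  have hkN : 1 ≤ k := by omega
  have hB0 : 0 < B := by linarith
  have hL1 : 1 ≤ L := by
    rw [hL, le_div_iff₀ hB0, one_mul]
    rw [Real.le_log_iff_exp_le (by linarith)]
    exact hkB
  have hL0 : 0 < L := by linarith
  have hLk : L ≤ Real.log k := by
    rw [hL]
    exact div_le_self (Real.log_nonneg hk1) (by linarith)
  set X : ℕ := NL L * NL L with hX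
  have hN1 := (s1d_NL hL0.le).1
  have hX1 : 1 ≤ X := by
    rw [hX]; exact Nat.mul_pos hN1 hN1
  have hR : ∀ r ∈ S.RS L, S.nrm r ≤ X := fun r hr => (RS_spec S L r hr).1
  have hm : ∀ r, Measurable (Wr S L Θ W r) := fun r => (wr_bound S hL0.le hΘ hW hWb hWs r).1
  have hb : ∀ r u, ‖Wr S L Θ W r u‖ ≤ ((S.BL (NL L)).card : ℝ) ^ 2 * (NL L : ℝ) ^ 4 * M :=
    fun r => (wr_bound S hL0.le hΘ hW hWb hWs r).2.1
  have hWs' : ∀ r u, 8 * L + L < |u| → Wr S L Θ W r u = 0 :=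
    fun r => (wr_bound S hL0.le hΘ hW hWb hWs r).2.2
  have hM0 : 0 ≤ M := (norm_nonneg _).trans (hWb 0)
  have hV0 : 0 ≤ 8 * L + L + Real.log X := by
    have : 0 ≤ Real.log (X : ℝ) := Real.log_nonneg (by exact_mod_cast hX1)
    linarith
  set T : Finset (P →₀ ℕ) := (S.RS L).biUnion dv with hT
  have hTX : ∀ b ∈ T, S.nrm b ≤ X := by
    intro b hb'
    rw [hT, Finset.mem_biUnion] at hb'
    obtain ⟨r, hr, hbr⟩ := hb'
    exact (nrm_mono S (mem_dv.mp hbr)).trans (hR r hr)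
  have hph := fun b => phf_bound S hR hm hb hWs' b
  -- the functional
  have hlin : ∀ i, ∫ v, ff S k Δ (θ i) L Θ v * W v =
      ∑ b ∈ T, ∫ u : ℝ, PhF S (S.RS L) (Wr S L Θ W) b u * (Db S k Δ (θ i) b u : ℂ) := by
    intro i
    rw [s1_lin S hkN (Fm.td i) L Θ hW hWb hWs,
      farey_lin S hkN Δ (Fm.td i).triv (S.RS L) hm hb hWs']
  have hRR := Fm.R T (PhF S (S.RS L) (Wr S L Θ W)) X
    (((S.RS L).card : ℝ) * (((S.BL (NL L)).card : ℝ) ^ 2 * (NL L : ℝ) ^ 4 * M))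
    (8 * L + L + Real.log X) hV0 hTX (fun b => (hph b).1) (fun b => (hph b).2.1)
    (fun b => (hph b).2.2)
  simp only [hlin]
  refine hRR.trans ?_
  -- the main term
  have hmn : ∑ c ∈ S.BL (X + 1), φ c *
          (∫ v : ℝ, ‖∑ b ∈ T.filter (fun b => c ≤ b), PhF S (S.RS L) (Wr S L Θ W) b v‖ ^ 2) ≤
      C₂ / L * ∫ v, ‖W v‖ ^ 2 := by
    have h2 : ∀ c v, ∑ b ∈ T.filter (fun b => c ≤ b), PhF S (S.RS L) (Wr S L Θ W) b v =
        PsF S (S.RS L) (Wr S L Θ W) c v := fun c v => psf_eq S (S.RS L) (Wr S L Θ W) c v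
    simp only [h2]
    exact hmain L hL1 W M (8 * L) hW hWb hWs
  -- cardinalities
  have hcb : ((S.BL (NL L)).card : ℝ) ≤ C₁ * (NL L : ℝ) := by
    refine le_trans ?_ (hS.cnt (NL L))
    have : (S.BL (NL L)).card ≤ (S.BL (NL L + 1)).card := by
      apply Finset.card_le_card
      intro m hm'
      rw [mem_BL] at hm' ⊢
      omega
    exact_mod_cast this
  have hXr : ((X : ℕ) : ℝ) = (NL L : ℝ) ^ 2 := by rw [hX]; push_cast; ring
  have hcr : ((S.RS L).card : ℝ) ≤ C₁ * (NL L : ℝ) ^ 2 := by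
    rw [← hXr]
    refine le_trans ?_ (hS.cnt X)
    have : (S.RS L).card ≤ (S.BL (X + 1)).card := by
      apply Finset.card_le_card
      intro m hm'
      rw [mem_BL]
      have := hR m hm'
      omega
    exact_mod_cast this
  have hct : (T.card : ℝ) ≤ C₁ * (NL L : ℝ) ^ 2 := by
    rw [← hXr]
    refine le_trans ?_ (hS.cnt X)
    have : T.card ≤ (S.BL (X + 1)).card := by
      apply Finset.card_le_card
      intro m hm'
      rw [mem_BL]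
      have := hTX m hm'
      omega
    exact_mod_cast this
  have hErr := s1d_err (M := M) (C₁ := C₁) hF0 hB hk1 hL hL1 hM0 hC₁0 ((S.BL (NL L)).card : ℝ)
    ((S.RS L).card : ℝ) (T.card : ℝ) (Nat.cast_nonneg _) (Nat.cast_nonneg _) (Nat.cast_nonneg _)
    hcb hcr hct
  rw [← hX, ← hK] at hErr
  have hX1r : (1 : ℝ) ≤ ((X : ℕ) : ℝ) := by exact_mod_cast hX1
  have hErr3 := s1d_err3 hEF hk1 hL0 hX1r hLk (sq_nonneg _) hK0.le hErr
  -- conclusion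
  have hIW : 0 ≤ ∫ v, ‖W v‖ ^ 2 := integral_nonneg fun v => sq_nonneg _
  have hA0 : 0 ≤ ∑ c ∈ S.BL (X + 1), φ c *
          (∫ v : ℝ, ‖∑ b ∈ T.filter (fun b => c ≤ b), PhF S (S.RS L) (Wr S L Θ W) b v‖ ^ 2) :=
    Finset.sum_nonneg fun c _ => mul_nonneg (hφ.nonneg c) (integral_nonneg fun v => sq_nonneg _)
  have hD0 : 0 ≤ (((S.RS L).card : ℝ) * (((S.BL (NL L)).card : ℝ) ^ 2 * (NL L : ℝ) ^ 4 * M) *
      (T.card : ℝ)) ^ 2 * ((X : ℕ) : ℝ) ^ E *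
        Real.exp (E * (8 * L + L + Real.log ((X : ℕ) : ℝ))) / √(k : ℝ) :=
    div_nonneg (mul_nonneg (mul_nonneg (sq_nonneg _) (Real.rpow_nonneg (by linarith) _))
      (Real.exp_nonneg _)) (Real.sqrt_nonneg _)
  exact s1d_num hC₂.le hK0.le hL0 hA0 hD0 hIW hmn hErr3


end Pool.Agent.HS
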