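import Pool.Agent.Lib_helper45.HS.Defs
import Pool.Agent.Lib_helper98.WAF.B4
import Pool.Agent.Lib_helper45.HSF.G0
import Pool.Agent.Lib_helper45.HSF.H1
import Pool.Agent.Lib_helper45.HSF.H1C
import Pool.Agent.Lib_helper45.HSF.P0
import Pool.Agent.Lib_helper45.HSF.P1
import Pool.Agent.Lib_helper45.HSF.T2

/-! Block S2 (STW): the mollified main term (helper9, after helper50). -/

namespace Pool.Agent.HS

open Complex MeasureTheory Filter Topology
open scoped ENNReal Classical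
open Pool.Agent.WA (gd gk)
open Pool.Agent.SEL (NL Adm)
open Pool.Agent.SQS (hat)
open Pool.Agent.WS (st EE RT cc hl Step)
open Finset.HasAntidiagonal (antidiagonal)

variable {P : Type} (S : PSys P)

/-- the `n` with `N(n m l) ≤ Y` -/
noncomputable def s2F (Y : ℕ) (m l : P →₀ ℕ) : Finset (P →₀ ℕ) :=
  (S.BL (Y + 1)).filter fun n => S.nrm (n + (m + l)) ≤ Y

theorem s2_memF {Y : ℕ} {m l n : P →₀ ℕ} : n ∈ s2F S Y m l ↔ S.nrm (n + (m + l)) ≤ Y := by
  unfold s2F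
  rw [Finset.mem_filter, mem_BL]
  constructor
  · exact fun h => h.2
  · intro h
    refine ⟨?_, h⟩
    have := nrm_mono S (m := n) (n := n + (m + l)) (by simp)
    omega

/-- reindexing -/
theorem s2_reindex (Y N : ℕ) (hYN : Y < N) (F : (P →₀ ℕ) → (P →₀ ℕ) → (P →₀ ℕ) → ℝ) :
    ∑ m ∈ S.BL N, ∑ l ∈ S.BL N, ∑ n ∈ s2F S Y m l, F m l n =
      ∑ M ∈ S.BL (Y + 1), ∑ v ∈ antidiagonal M, ∑ w ∈ antidiagonal v.2,
        F w.1 w.2 v.1 := by
  simp only [Finset.sum_sigma']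
  refine Finset.sum_bij' (fun x _ => ⟨x.2.2 + (x.1 + x.2.1), ⟨(x.2.2, x.1 + x.2.1),
    (x.1, x.2.1)⟩⟩) (fun x _ => ⟨x.2.2.1, ⟨x.2.2.2, x.2.1.1⟩⟩) ?_ ?_ ?_ ?_ ?_
  · rintro ⟨m, l, n⟩ hx
    simp only [Finset.mem_sigma, s2_memF] at hx
    obtain ⟨hm, hl, hn⟩ := hx
    simp only [Finset.mem_sigma, mem_BL, Finset.HasAntidiagonal.mem_antidiagonal]
    exact ⟨by omega, trivial, trivial⟩
  · rintro ⟨M, ⟨n, r⟩, ⟨m, l⟩⟩ hx
    simp only [Finset.mem_sigma, mem_BL, Finset.HasAntidiagonal.mem_antidiagonal] at hx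
    obtain ⟨hM, hv, hw⟩ := hx
    subst hw
    subst hv
    simp only [Finset.mem_sigma, mem_BL, s2_memF]
    have h2 := nrm_mono S (m := m) (n := n + (m + l)) (by
      rw [← add_assoc, add_comm n m, add_assoc]; simp)
    have h3 := nrm_mono S (m := l) (n := n + (m + l)) (by
      rw [← add_assoc]; simp)
    exact ⟨by omega, by omega, by omega⟩
  · rintro ⟨m, l, n⟩ hx
    rfl
  · rintro ⟨M, ⟨n, r⟩, ⟨m, l⟩⟩ hx
    simp only [Finset.mem_sigma, mem_BL, Finset.HasAntidiagonal.mem_antidiagonal] at hx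
    obtain ⟨hM, hv, hw⟩ := hx
    subst hw
    subst hv
    rfl
  · rintro ⟨m, l, n⟩ hx
    rfl

theorem s2_nrm0 (m : P →₀ ℕ) : (0 : ℝ) < S.nrm m := by exact_mod_cast nrm_pos S m

/-- the terms with `N(nml) ≤ e^{L/2}` -/
theorem s2_small (k : ℕ) (θ : P → ℝ) {Θ : ℝ → ℝ}
    (h0 : ∀ x, 0 ≤ x → x ≤ 1 / 2 → Θ x = 1) {L : ℝ} (hL : 0 < L) (u : ℝ) :
    ∑ m ∈ S.BL (NL L), ∑ l ∈ S.BL (NL L),
      (be S θ L Θ m * be S θ L Θ l / (√(S.nrm m : ℝ) * √(S.nrm l : ℝ))) *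
        ∑ n ∈ s2F S ⌊Real.exp (L / 2)⌋₊ m l, hs θ n / √(S.nrm n : ℝ) *
          GD k S.d (u + Real.log (S.nrm (n + (m + l)))) = GD k S.d u := by
  set Y := ⌊Real.exp (L / 2)⌋₊ with hY
  have hY1 : (Y : ℝ) ≤ Real.exp (L / 2) := Nat.floor_le (Real.exp_pos _).le
  have hYN : Y < NL L := by
    unfold Pool.Agent.SEL.NL
    rw [Nat.lt_ceil]
    exact hY1.trans_lt (Real.exp_lt_exp.mpr (by linarith))
  have hY0 : 1 ≤ Y := by
    rw [hY]
    exact Nat.one_le_floor_iff _ |>.mpr (Real.one_le_exp (by linarith))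
  simp only [Finset.mul_sum]
  rw [s2_reindex S Y (NL L) hYN (fun m l n => (be S θ L Θ m * be S θ L Θ l /
    (√(S.nrm m : ℝ) * √(S.nrm l : ℝ))) * (hs θ n / √(S.nrm n : ℝ) *
          GD k S.d (u + Real.log (S.nrm (n + (m + l))))))]
  have hΘ1 : ∀ m : P →₀ ℕ, S.nrm m ≤ Y → Θ (Real.log (S.nrm m) / L) = 1 := by
    intro m hm2
    have hm1 : 1 ≤ S.nrm m := nrm_pos S m
    apply h0
    · have : 0 ≤ Real.log (S.nrm m) := Real.log_nonneg (by exact_mod_cast hm1)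
      positivity
    · rw [div_le_iff₀ hL]
      have h1 : (S.nrm m : ℝ) ≤ Real.exp (L / 2) := le_trans (by exact_mod_cast hm2) hY1
      have h2 : Real.log (S.nrm m) ≤ L / 2 := by
        rw [Real.log_le_iff_le_exp (s2_nrm0 S m)]
        exact h1
      linarith
  have hM : ∀ M ∈ S.BL (Y + 1), ∑ v ∈ antidiagonal M, ∑ w ∈ antidiagonal v.2,
      (be S θ L Θ w.1 * be S θ L Θ w.2 / (√(S.nrm w.1 : ℝ) * √(S.nrm w.2 : ℝ))) *
        (hs θ v.1 / √(S.nrm v.1 : ℝ) * GD k S.d (u + Real.log (S.nrm (v.1 + (w.1 + w.2))))) =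
      if M = 0 then GD k S.d u else 0 := by
    intro M hM
    rw [mem_BL] at hM
    have h1 : ∑ v ∈ antidiagonal M, ∑ w ∈ antidiagonal v.2,
      (be S θ L Θ w.1 * be S θ L Θ w.2 / (√(S.nrm w.1 : ℝ) * √(S.nrm w.2 : ℝ))) *
        (hs θ v.1 / √(S.nrm v.1 : ℝ) * GD k S.d (u + Real.log (S.nrm (v.1 + (w.1 + w.2))))) =
        (∑ v ∈ antidiagonal M, hs θ v.1 * ∑ w ∈ antidiagonal v.2, al θ w.1 * al θ w.2) *
          (GD k S.d (u + Real.log (S.nrm M)) / √(S.nrm M : ℝ)) := by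
      rw [Finset.sum_mul]
      refine Finset.sum_congr rfl fun v hv => ?_
      rw [Finset.mul_sum, Finset.sum_mul]
      refine Finset.sum_congr rfl fun w hw => ?_
      obtain ⟨n, r⟩ := v
      obtain ⟨m, l⟩ := w
      simp only [Finset.HasAntidiagonal.mem_antidiagonal] at hv hw
      subst hw
      subst hv
      have h2 := nrm_mono S (m := m) (n := n + (m + l)) (by
        rw [← add_assoc, add_comm n m, add_assoc]; simp)
      have h3 := nrm_mono S (m := l) (n := n + (m + l)) (by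
        rw [← add_assoc]; simp)
      have hn0 := s2_nrm0 S n
      have hm0 := s2_nrm0 S m
      have hl0 := s2_nrm0 S l
      simp only
      unfold be
      rw [hΘ1 m (by omega), hΘ1 l (by omega), nrm_add, nrm_add]
      push_cast
      rw [Real.sqrt_mul hn0.le, Real.sqrt_mul hm0.le]
      have := Real.sqrt_pos.mpr hn0
      have := Real.sqrt_pos.mpr hm0
      have := Real.sqrt_pos.mpr hl0
      field_simp
    rw [h1, al_conv]
    by_cases hM1 : M = 0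
    · subst hM1
      simp [nrm_zero]
    · simp [hM1]
  rw [Finset.sum_congr rfl hM, Finset.sum_ite_eq']
  rw [if_pos (by rw [mem_BL, nrm_zero]; omega)]

theorem s2_gdint {k n : ℕ} (hk : 1 ≤ k) (hn : 1 ≤ n) : Integrable (GD k n) := by
  have hk0 : (0 : ℝ) < k := by exact_mod_cast hk
  have h := (GD_mellin (k := k) (n := n) hk hn (z := 0) (by simp; positivity)).1
  have h2 : Integrable (fun u : ℝ => (GD k n u : ℂ)) := by simpa using h
  have h3 := h2.re
  simpa using h3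

theorem s2_shift (f : ℝ → ℝ) (b s : ℝ) :
    ∫ v in Set.Ioi b, f (v + s) = ∫ u in Set.Ioi (b + s), f u := by
  rw [← integral_indicator measurableSet_Ioi, ← integral_indicator measurableSet_Ioi,
    ← integral_add_right_eq_self (fun u => (Set.Ioi (b + s)).indicator f u) s]
  congr 1
  funext v
  by_cases h : b < v
  · rw [Set.indicator_of_mem (by exact h), Set.indicator_of_mem (by
      rw [Set.mem_Ioi]; linarith)]
  · rw [Set.indicator_of_notMem (by exact h), Set.indicator_of_notMem (by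
      rw [Set.mem_Ioi]; linarith)]

theorem s2_int {W : ℝ → ℂ} (hW : Measurable W) {M V : ℝ} (hWb : ∀ v, ‖W v‖ ≤ M)
    (hWs : ∀ v, V < |v| → W v = 0) : Integrable W := by
  have h1 : IntegrableOn W (Set.Icc (-V) V) := by
    refine Integrable.mono' (g := fun _ => M) (integrable_const M) hW.aestronglyMeasurable ?_
    exact Filter.Eventually.of_forall hWb
  rw [← integrableOn_iff_integrable_of_support_subset (s := Set.Icc (-V) V)]
  · exact h1
  · intro v hv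
    by_contra h
    apply hv
    apply hWs
    rw [Set.mem_Icc, ← abs_le] at h
    exact not_le.mp h

/-- the integral of one term -/
theorem s2_one {k : ℕ} (hk : 1 ≤ k) (s L : ℝ) {W : ℝ → ℂ}
    (hW : Measurable W) {M : ℝ} (hWb : ∀ v, ‖W v‖ ≤ M) (hWs : ∀ v, 1 / 4 * L < |v| → W v = 0) :
    Integrable (fun v => (GD k S.d (v + s) : ℂ) * W v) ∧
    ∫ v, ‖(GD k S.d (v + s) : ℂ) * W v‖ ≤ M * ∫ u in Set.Ioi (-(1 / 4 * L) + s), GD k S.d u := by
  have h1 := s2_gdint hk S.d_pos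
  have h2 : Integrable (fun v => GD k S.d (v + s)) := h1.comp_add_right s
  have h3 : Integrable (fun v => (GD k S.d (v + s) : ℂ) * W v) :=
    h2.ofReal.mul_bdd hW.aestronglyMeasurable (Filter.Eventually.of_forall hWb)
  refine ⟨h3, ?_⟩
  have hM0 : 0 ≤ M := (norm_nonneg _).trans (hWb 0)
  have h4 : ∀ v, ‖(GD k S.d (v + s) : ℂ) * W v‖ ≤
      (Set.Ici (-(1 / 4 * L))).indicator (fun v => M * GD k S.d (v + s)) v := by
    intro v
    by_cases hv : v ∈ Set.Ici (-(1 / 4 * L))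
    · rw [Set.indicator_of_mem hv, norm_mul, Complex.norm_real, Real.norm_eq_abs,
        abs_of_nonneg (GD_nonneg k _ _), mul_comm]
      exact mul_le_mul_of_nonneg_right (hWb v) (GD_nonneg k _ _)
    · rw [Set.indicator_of_notMem hv, hWs v]
      · simp
      · rw [Set.mem_Ici, not_le] at hv
        have : -v ≤ |v| := neg_le_abs v
        linarith
  calc ∫ v, ‖(GD k S.d (v + s) : ℂ) * W v‖
      ≤ ∫ v, (Set.Ici (-(1 / 4 * L))).indicator (fun v => M * GD k S.d (v + s)) v :=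
        integral_mono h3.norm ((h2.const_mul M).indicator measurableSet_Ici) h4
    _ = M * ∫ u in Set.Ioi (-(1 / 4 * L) + s), GD k S.d u := by
        rw [integral_indicator measurableSet_Ici, integral_Ici_eq_integral_Ioi,
          integral_const_mul, s2_shift]

/-- `(2^d y)^3 (2^d / y)^(j-3)` -/
noncomputable def s2K (d j : ℕ) (y : ℝ) : ℝ := (2 ^ d * y) ^ 3 * (2 ^ d / y) ^ (j - 3)

theorem s2_hsq {θ : P → ℝ} (hθ : ∀ p, |θ p| ≤ √(S.q p : ℝ) + 1 / √(S.q p : ℝ)) (n : P →₀ ℕ) :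
    |hs θ n| / √(S.nrm n : ℝ) ≤ S.nrm n ∧ |al θ n| / √(S.nrm n : ℝ) ≤ S.nrm n := by
  have hn0 := s2_nrm0 S n
  have h1 : (S.nrm n : ℝ) ^ (3 / 2 : ℝ) = S.nrm n * √(S.nrm n : ℝ) := by
    rw [Real.sqrt_eq_rpow]
    nth_rewrite 2 [← Real.rpow_one (S.nrm n : ℝ)]
    rw [← Real.rpow_add hn0]
    norm_num
  obtain ⟨h2, h3⟩ := triv S hθ n
  rw [h1] at h2 h3
  constructor
  · rw [div_le_iff₀ (by positivity)]
    exact h2
  · rw [div_le_iff₀ (by positivity)]
    exact h3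

/-- a single tail term -/
theorem s2_bound {θ : P → ℝ} (hθ : ∀ p, |θ p| ≤ √(S.q p : ℝ) + 1 / √(S.q p : ℝ)) {k j : ℕ}
    (hkj : k = 2 * j) (hj : 3 ≤ j) {L : ℝ} {n m l : P →₀ ℕ}
    (hn : ⌊Real.exp (L / 2)⌋₊ < S.nrm (n + (m + l))) :
    |hs θ n| / √(S.nrm n : ℝ) * ∫ u in Set.Ioi (-(1 / 4 * L) +
        (cG S k + Real.log (S.nrm (n + (m + l))))), GD k S.d u ≤
      GK S k * s2K S.d j (Real.exp (L / 4)) * (1 / ((S.nrm m : ℝ) ^ 3 * (S.nrm l : ℝ) ^ 3)) *
        (S.nrm n : ℝ) ^ (-2 : ℝ) := by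
  have hm0 := s2_nrm0 S m
  have hl0 := s2_nrm0 S l
  have hn0 := s2_nrm0 S n
  set y := Real.exp (L / 4) with hy
  have hy0 : 0 < y := Real.exp_pos _
  have hy2 : Real.exp (L / 2) = y ^ 2 := by
    rw [hy, ← Real.exp_nat_mul]; congr 1; push_cast; ring
  have hN : (S.nrm (n + (m + l)) : ℝ) = (S.nrm n : ℝ) * (S.nrm m * S.nrm l) := by
    rw [nrm_add, nrm_add]; push_cast; ring
  have hN0 := s2_nrm0 S (n + (m + l))
  set N : ℝ := (S.nrm (n + (m + l)) : ℝ) with hNdef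
  have hNy : y ^ 2 < N := by
    rw [Nat.floor_lt (Real.exp_pos _).le, hy2] at hn
    exact hn
  have hpi := Real.pi_pos
  have hk0 : (0 : ℝ) < k := by
    rw [hkj]; push_cast
    have : (3 : ℝ) ≤ j := by exact_mod_cast hj
    linarith
  -- Rankin
  have h1 := GD_rankin (k := k) (n := S.d) (by omega) (by rw [hkj]; exact even_two_mul j) S.d_pos
    (-(1 / 4 * L) + (cG S k + Real.log N))
  have h2 : Real.exp (-(-(1 / 4 * L) + (cG S k + Real.log N))) =
      y * ((k / (4 * Real.pi)) ^ S.d)⁻¹ / N := by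
    have e1 : -(-(1 / 4 * L) + (cG S k + Real.log N)) =
        L / 4 + (-(S.d * Real.log (k / (4 * Real.pi))) + -Real.log N) := by
      unfold cG; ring
    rw [e1, Real.exp_add, Real.exp_add, Real.exp_neg, Real.exp_neg (Real.log N), Real.exp_log hN0,
      Real.exp_nat_mul, Real.exp_log (by positivity), ← hy]
    ring
  have h3 : ((k : ℝ) / (2 * Real.pi)) ^ S.d *
      Real.exp (-(-(1 / 4 * L) + (cG S k + Real.log N))) = 2 ^ S.d * y / N := by
    rw [h2]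
    have e2 : (k : ℝ) / (2 * Real.pi) = 2 * (k / (4 * Real.pi)) := by field_simp; norm_num
    rw [e2, mul_pow]
    field_simp
  have hkj' : (k : ℝ) / 2 = (j : ℕ) := by rw [hkj]; push_cast; ring
  have hq : (2 ^ S.d * y / N) ^ ((k : ℝ) / 2) ≤ s2K S.d j y * (1 / N ^ 3) := by
    rw [hkj', Real.rpow_natCast]
    have e1 : j = 3 + (j - 3) := by omega
    conv_lhs => rw [e1]
    rw [pow_add]
    have h4 : 2 ^ S.d * y / N ≤ 2 ^ S.d / y := by
      rw [div_le_div_iff₀ hN0 hy0]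
      have : (0 : ℝ) < 2 ^ S.d := by positivity
      nlinarith
    have h5 : (2 ^ S.d * y / N) ^ (j - 3) ≤ (2 ^ S.d / y) ^ (j - 3) :=
      pow_le_pow_left₀ (by positivity) h4 _
    calc (2 ^ S.d * y / N) ^ 3 * (2 ^ S.d * y / N) ^ (j - 3)
        ≤ (2 ^ S.d * y / N) ^ 3 * (2 ^ S.d / y) ^ (j - 3) :=
          mul_le_mul_of_nonneg_left h5 (by positivity)
      _ = _ := by unfold s2K; rw [div_pow]; ring
  have hgk : 0 < gk k := Pool.Agent.WA.gk_pos (k := k) (by omega)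
  have hGK : 0 < GK S k := pow_pos hgk _
  have ha := (s2_hsq S hθ n).1
  have hK0 : 0 ≤ s2K S.d j y := by unfold s2K; positivity
  calc |hs θ n| / √(S.nrm n : ℝ) * ∫ u in Set.Ioi (-(1 / 4 * L) + (cG S k + Real.log N)),
        GD k S.d u
      ≤ |hs θ n| / √(S.nrm n : ℝ) * (GK S k * (2 ^ S.d * y / N) ^ ((k : ℝ) / 2)) := by
        rw [h3] at h1
        exact mul_le_mul_of_nonneg_left h1 (by positivity)
    _ ≤ S.nrm n * (GK S k * (s2K S.d j y * (1 / N ^ 3))) := by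
        gcongr
    _ = GK S k * s2K S.d j y * (1 / ((S.nrm m : ℝ) ^ 3 * (S.nrm l : ℝ) ^ 3)) *
        (S.nrm n : ℝ) ^ (-2 : ℝ) := by
        rw [hN, Real.rpow_neg hn0.le, Real.rpow_ofNat]
        field_simp

/-- the tail for fixed `m, l` -/
theorem s2_tail {k j : ℕ} {Δ : ℝ} {θ : P → ℝ} (H : TD S k Δ θ) (hkj : k = 2 * j) (hj : 3 ≤ j)
    {L : ℝ} (m l : P →₀ ℕ) {W : ℝ → ℂ}
    (hW : Measurable W) {M : ℝ} (hWb : ∀ v, ‖W v‖ ≤ M) (hWs : ∀ v, 1 / 4 * L < |v| → W v = 0) :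
    Integrable (fun v => ((Dd S k Δ θ (v + c0 S k Δ + (Real.log (S.nrm m) + Real.log (S.nrm l))) -
      ∑ n ∈ s2F S ⌊Real.exp (L / 2)⌋₊ m l, hs θ n / √(S.nrm n : ℝ) *
        GD k S.d (v + cG S k + Real.log (S.nrm (n + (m + l)))) : ℝ) : ℂ) * W v) ∧
    ‖∫ v, ((Dd S k Δ θ (v + c0 S k Δ + (Real.log (S.nrm m) + Real.log (S.nrm l))) -
      ∑ n ∈ s2F S ⌊Real.exp (L / 2)⌋₊ m l, hs θ n / √(S.nrm n : ℝ) *
        GD k S.d (v + cG S k + Real.log (S.nrm (n + (m + l)))) : ℝ) : ℂ) * W v‖ ≤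
      (∑' n : P →₀ ℕ, (S.nrm n : ℝ) ^ (-2 : ℝ)) * (M * (GK S k * s2K S.d j (Real.exp (L / 4)) *
        (1 / ((S.nrm m : ℝ) ^ 3 * (S.nrm l : ℝ) ^ 3)))) := by
  have hk1 : 1 ≤ k := by omega
  have hWi : Integrable W := s2_int hW hWb hWs
  have hM0 : 0 ≤ M := (norm_nonneg _).trans (hWb 0)
  have hm0 := s2_nrm0 S m
  have hl0 := s2_nrm0 S l
  set Y := ⌊Real.exp (L / 2)⌋₊ with hY
  set s := Real.log (S.nrm m) + Real.log (S.nrm l) with hs0
  set a : (P →₀ ℕ) → ℝ := fun n => hs θ n / √(S.nrm n : ℝ) with ha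
  have hgk : 0 < gk k := Pool.Agent.WA.gk_pos (k := k) (by omega)
  have hGK : 0 < GK S k := pow_pos hgk _
  set Kc := GK S k * s2K S.d j (Real.exp (L / 4)) *
    (1 / ((S.nrm m : ℝ) ^ 3 * (S.nrm l : ℝ) ^ 3)) with hKc
  have hKc0 : 0 ≤ Kc := by
    have : 0 ≤ s2K S.d j (Real.exp (L / 4)) := by unfold s2K; positivity
    positivity
  have hadd : ∀ (v : ℝ) (n : P →₀ ℕ), v + cG S k + Real.log (S.nrm (n + (m + l))) =
    v + (cG S k + Real.log (S.nrm (n + (m + l)))) := fun v n => by ring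
  -- integrability
  obtain ⟨hDn, hDc⟩ := Dd_nice S hk1 H
  have hI1 : Integrable (fun v => (Dd S k Δ θ (v + c0 S k Δ + s) : ℂ) * W v) := by
    have h1 : Integrable (fun v => (Dd S k Δ θ (v + (c0 S k Δ + s)) : ℂ)) :=
      hDn.int.comp_add_right (c0 S k Δ + s)
    have h2 := h1.mul_bdd hW.aestronglyMeasurable (Filter.Eventually.of_forall hWb)
    refine h2.congr (Filter.Eventually.of_forall fun v => ?_)
    simp only [add_assoc]
  have hI2 : Integrable (fun v => ((∑ n ∈ s2F S Y m l, a n *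
        GD k S.d (v + cG S k + Real.log (S.nrm (n + (m + l)))) : ℝ) : ℂ) * W v) := by
    have h1 : Integrable (fun v => ∑ n ∈ s2F S Y m l, (a n : ℂ) *
        ((GD k S.d (v + (cG S k + Real.log (S.nrm (n + (m + l))))) : ℂ) * W v)) :=
      integrable_finsetSum _ (fun n _ => (s2_one S hk1
        (cG S k + Real.log (S.nrm (n + (m + l)))) L hW hWb hWs).1.const_mul (a n : ℂ))
    refine h1.congr (Filter.Eventually.of_forall fun v => ?_)
    simp only [Complex.ofReal_sum, Complex.ofReal_mul, Finset.sum_mul, hadd, mul_assoc]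
  refine ⟨?_, ?_⟩
  · refine (hI1.sub hI2).congr (Filter.Eventually.of_forall (fun v => ?_))
    simp only [Pi.sub_apply, Complex.ofReal_sub]
    ring
  -- series
  set F : (P →₀ ℕ) → ℝ → ℂ := fun n v => if Y < S.nrm (n + (m + l)) then
    (a n : ℂ) * ((GD k S.d (v + (cG S k + Real.log (S.nrm (n + (m + l))))) : ℂ) * W v)
    else 0 with hF
  have hFi : ∀ n, Integrable (F n) := by
    intro n
    by_cases hn : Y < S.nrm (n + (m + l))
    · simp only [hF, if_pos hn]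
      exact (s2_one S hk1 (cG S k + Real.log (S.nrm (n + (m + l)))) L hW hWb
        hWs).1.const_mul (a n : ℂ)
    · simp only [hF, if_neg hn]
      exact integrable_zero _ _ _
  have hFb : ∀ n, ∫ v, ‖F n v‖ ≤ M * Kc * (S.nrm n : ℝ) ^ (-2 : ℝ) := by
    intro n
    have hn0 := s2_nrm0 S n
    by_cases hn : Y < S.nrm (n + (m + l))
    · simp only [hF, if_pos hn]
      have h1 : ∀ v, ‖(a n : ℂ) * ((GD k S.d (v + (cG S k +
          Real.log (S.nrm (n + (m + l))))) : ℂ) * W v)‖ =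
          |hs θ n| / √(S.nrm n : ℝ) * ‖(GD k S.d (v + (cG S k +
            Real.log (S.nrm (n + (m + l))))) : ℂ) * W v‖ := by
        intro v
        rw [norm_mul, Complex.norm_real, Real.norm_eq_abs]
        simp only [ha]
        rw [abs_div, abs_of_pos (Real.sqrt_pos.mpr hn0)]
      simp only [h1]
      rw [integral_const_mul]
      have h2 := (s2_one S hk1 (cG S k + Real.log (S.nrm (n + (m + l)))) L hW hWb hWs).2
      have h3 := s2_bound S H.triv hkj hj hn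
      calc |hs θ n| / √(S.nrm n : ℝ) * ∫ v, ‖(GD k S.d (v + (cG S k +
            Real.log (S.nrm (n + (m + l))))) : ℂ) * W v‖
          ≤ |hs θ n| / √(S.nrm n : ℝ) * (M * ∫ u in Set.Ioi (-(1 / 4 * L) + (cG S k +
            Real.log (S.nrm (n + (m + l))))), GD k S.d u) :=
            mul_le_mul_of_nonneg_left h2 (by positivity)
        _ = M * (|hs θ n| / √(S.nrm n : ℝ) * ∫ u in Set.Ioi (-(1 / 4 * L) + (cG S k +
            Real.log (S.nrm (n + (m + l))))), GD k S.d u) := by ring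
        _ ≤ M * (Kc * (S.nrm n : ℝ) ^ (-2 : ℝ)) := mul_le_mul_of_nonneg_left h3 hM0
        _ = _ := by ring
    · simp only [hF, if_neg hn, norm_zero, integral_zero]
      positivity
  have hz1 : Summable (fun n : P →₀ ℕ => (S.nrm n : ℝ) ^ (-2 : ℝ)) := sum_nrm S (by norm_num)
  have hsum : Summable (fun n => ∫ v, ‖F n v‖) :=
    Summable.of_nonneg_of_le (fun n => integral_nonneg fun v => norm_nonneg _) hFb
      (hz1.mul_left (M * Kc))
  have hcount : Countable (P →₀ ℕ) := by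
    have h := hz1.countable_support
    have h2 : Function.support (fun n : P →₀ ℕ => (S.nrm n : ℝ) ^ (-2 : ℝ)) = Set.univ := by
      ext n
      have hn0 := s2_nrm0 S n
      have : (S.nrm n : ℝ) ^ (-2 : ℝ) ≠ 0 := (Real.rpow_pos_of_pos hn0 _).ne'
      simp only [Function.mem_support, Set.mem_univ, iff_true]
      exact this
    rw [h2] at h
    exact Set.countable_univ_iff.mp h
  have hint := hasSum_integral_of_summable_integral_norm hFi hsum
  have hpt : ∀ v, ∑' n, F n v = ((Dd S k Δ θ (v + c0 S k Δ + s) -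
      ∑ n ∈ s2F S Y m l, a n *
        GD k S.d (v + cG S k + Real.log (S.nrm (n + (m + l)))) : ℝ) : ℂ) * W v := by
    intro v
    have hg : HasSum (fun n => a n * GD k S.d (v + cG S k + Real.log (S.nrm (n + (m + l)))))
        (Dd S k Δ θ (v + c0 S k Δ + s)) := by
      have h1 := (Db_facts S hk1 Δ H.triv 0).1 (v + c0 S k Δ + s)
      simp only [zero_add] at h1
      have h2 : Summable (fun n => hs θ n / √(S.nrm n : ℝ) *
          GD k S.d (v + c0 S k Δ + s + Real.log (S.nrm n) - Δ)) := by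
        refine Summable.of_norm_bounded h1 (fun n => le_of_eq ?_)
        have hn0 := s2_nrm0 S n
        rw [Real.norm_eq_abs, abs_mul, abs_div, abs_of_pos (Real.sqrt_pos.mpr hn0),
          abs_of_nonneg (GD_nonneg k _ _)]
      have h3 := h2.hasSum
      have h4 : ∀ n : P →₀ ℕ, v + c0 S k Δ + s + Real.log (S.nrm n) - Δ =
          v + cG S k + Real.log (S.nrm (n + (m + l))) := by
        intro n
        have hn0 := s2_nrm0 S n
        rw [nrm_add, nrm_add]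
        push_cast
        rw [Real.log_mul hn0.ne' (by positivity), Real.log_mul hm0.ne' hl0.ne', hs0]
        unfold c0
        ring
      unfold Dd
      simp only [h4] at h3 ⊢
      exact h3
    have hfin : HasSum (fun n : P →₀ ℕ => if n ∈ s2F S Y m l then
        a n * GD k S.d (v + cG S k + Real.log (S.nrm (n + (m + l)))) else 0)
        (∑ n ∈ s2F S Y m l, a n *
          GD k S.d (v + cG S k + Real.log (S.nrm (n + (m + l))))) := by
      have h9 : HasSum (fun n : P →₀ ℕ => if n ∈ s2F S Y m l then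
        a n * GD k S.d (v + cG S k + Real.log (S.nrm (n + (m + l)))) else 0)
        (∑ n ∈ s2F S Y m l, if n ∈ s2F S Y m l then
        a n * GD k S.d (v + cG S k + Real.log (S.nrm (n + (m + l)))) else 0) :=
        hasSum_sum_of_ne_finset_zero (fun n hn => if_neg hn)
      rwa [Finset.sum_congr rfl (fun n hn => if_pos hn)] at h9
    have h1 := (Complex.hasSum_ofReal.mpr (hg.sub hfin)).mul_right (W v)
    rw [← h1.tsum_eq]
    refine tsum_congr fun n => ?_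
    simp only [hF]
    by_cases hn : Y < S.nrm (n + (m + l))
    · rw [if_pos hn, if_neg (by rw [s2_memF]; omega), hadd]
      push_cast
      ring
    · rw [if_neg hn, if_pos (by rw [s2_memF]; omega)]
      simp
  simp only [hpt] at hint
  rw [← hint.tsum_eq]
  have hns : Summable (fun n => ‖∫ v, F n v‖) :=
    Summable.of_nonneg_of_le (fun n => norm_nonneg _) (fun n => norm_integral_le_integral_norm _)
      hsum
  calc ‖∑' n, ∫ v, F n v‖ ≤ ∑' n, ‖∫ v, F n v‖ := norm_tsum_le_tsum_norm hns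
    _ ≤ ∑' n : P →₀ ℕ, M * Kc * (S.nrm n : ℝ) ^ (-2 : ℝ) := by
        refine hns.tsum_le_tsum (fun n => ?_) (hz1.mul_left (M * Kc))
        exact (norm_integral_le_integral_norm _).trans (hFb n)
    _ = M * Kc * ∑' n : P →₀ ℕ, (S.nrm n : ℝ) ^ (-2 : ℝ) := tsum_mul_left
    _ = _ := by ring

theorem s2_num (d : ℕ) (Z : ℝ) (hZ : 0 ≤ Z) : ∃ j₀ : ℕ, 6 ≤ j₀ ∧ ∀ j : ℕ, j₀ ≤ j → ∀ y : ℝ,
    2 ^ (d + 1) ≤ y → Z * s2K d j y ≤ 1 / ((2 * j : ℕ) : ℝ) := by
  have h := (tendsto_pow_const_mul_const_pow_of_abs_lt_one 1 (r := (1 / 2 : ℝ))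
    (by rw [abs_of_pos] <;> norm_num)).const_mul (2 * Z * (2 ^ d) ^ 6 * 2 ^ 6)
  rw [mul_zero] at h
  obtain ⟨j₁, hj₁⟩ := Filter.eventually_atTop.mp (h.eventually_le_const zero_lt_one)
  refine ⟨max 6 j₁, le_max_left _ _, fun j hj y hy => ?_⟩
  have hj6 : 6 ≤ j := (le_max_left _ _).trans hj
  have h1 := hj₁ j ((le_max_right _ _).trans hj)
  have hd : (0 : ℝ) < 2 ^ d := by positivity
  have hy0 : 0 < y := lt_of_lt_of_le (by positivity) hy
  have hj0 : (0 : ℝ) < j := by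
    have : (6 : ℝ) ≤ j := by exact_mod_cast hj6
    linarith
  have h2 : s2K d j y = (2 ^ d) ^ 6 * (2 ^ d / y) ^ (j - 6) := by
    unfold s2K
    have e1 : j - 3 = 3 + (j - 6) := by omega
    rw [e1, pow_add]
    field_simp
  have h3 : (2 ^ d / y) ^ (j - 6) ≤ (1 / 2 : ℝ) ^ (j - 6) := by
    apply pow_le_pow_left₀ (by positivity)
    rw [div_le_div_iff₀ hy0 (by norm_num)]
    rw [pow_succ] at hy
    linarith
  have h4 : (1 / 2 : ℝ) ^ (j - 6) = 2 ^ 6 * (1 / 2 : ℝ) ^ j := by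
    obtain ⟨i, rfl⟩ : ∃ i, j = 6 + i := ⟨j - 6, by omega⟩
    rw [pow_add, Nat.add_sub_cancel_left]
    norm_num
    ring
  rw [le_div_iff₀ (by push_cast; positivity)]
  calc Z * s2K d j y * ((2 * j : ℕ) : ℝ)
      ≤ Z * ((2 ^ d) ^ 6 * (2 ^ 6 * (1 / 2 : ℝ) ^ j)) * ((2 * j : ℕ) : ℝ) := by
        rw [h2, ← h4]
        gcongr
    _ = 2 * Z * (2 ^ d) ^ 6 * 2 ^ 6 * ((j : ℝ) ^ 1 * (1 / 2) ^ j) := by
        push_cast
        ring
    _ ≤ 1 := h1

theorem s_two {c₁ C₁ : ℝ} (hS : S.Ax c₁ C₁) (Δ : ℝ) {Θ : ℝ → ℝ} (hΘ : ∀ x, 0 ≤ Θ x ∧ Θ x ≤ 1)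
    (h0 : ∀ x, 0 ≤ x → x ≤ 1 / 2 → Θ x = 1) (B : ℝ) (hB : 0 < B) :
    ∃ k₀ : ℕ, ∀ k : ℕ, k₀ ≤ k → Even k → ∀ {θ : P → ℝ}, TD S k Δ θ → ∀ L : ℝ,
      L = Real.log k / B → ∀ (W : ℝ → ℂ) (M : ℝ), Measurable W → (∀ v, ‖W v‖ ≤ M) →
      (∀ v, 1 / 4 * L < |v| → W v = 0) →
      ‖∫ v, (DD S k Δ θ L Θ (v + c0 S k Δ) - (GD k S.d (v + cG S k) : ℂ)) * W v‖ ≤
        GK S k * M / k := by
  set Z : ℝ := ∑' n : P →₀ ℕ, (S.nrm n : ℝ) ^ (-2 : ℝ) with hZdef
  have hz1 : Summable (fun n : P →₀ ℕ => (S.nrm n : ℝ) ^ (-2 : ℝ)) := sum_nrm S (by norm_num)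
  have hZ0 : 0 ≤ Z := tsum_nonneg fun n => by positivity
  obtain ⟨j₀, hj₀6, hj₀⟩ := s2_num S.d (Z ^ 3) (by positivity)
  refine ⟨max (2 * j₀) ⌈Real.exp (4 * ((S.d + 1 : ℕ) * Real.log 2) * B)⌉₊,
    fun k hk he θ H L hLB W M hW hWb hWs => ?_⟩
  have hkB : Real.exp (4 * ((S.d + 1 : ℕ) * Real.log 2) * B) ≤ k := by
    have : ⌈Real.exp (4 * ((S.d + 1 : ℕ) * Real.log 2) * B)⌉₊ ≤ k := (le_max_right _ _).trans hk
    exact (Nat.le_ceil _).trans (by exact_mod_cast this)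
  have hk2 : 2 * j₀ ≤ k := (le_max_left _ _).trans hk
  have hk0 : (0 : ℝ) < k := by
    have : (12 : ℝ) ≤ k := by exact_mod_cast (by omega : 12 ≤ k)
    linarith
  have hL4 : 4 * ((S.d + 1 : ℕ) * Real.log 2) ≤ L := by
    rw [hLB, le_div_iff₀ hB, Real.le_log_iff_exp_le hk0]
    exact hkB
  have hlog2 : 0 < Real.log 2 := Real.log_pos (by norm_num)
  have hL0 : 0 < L := lt_of_lt_of_le (by positivity) hL4
  obtain ⟨j, hj⟩ := he
  have hkj : k = 2 * j := by omega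
  have hj50 : 3 ≤ j := by omega
  have hM0 : 0 ≤ M := (norm_nonneg _).trans (hWb 0)
  have hgk : 0 < gk k := Pool.Agent.WA.gk_pos (k := k) (by omega)
  have hGK : 0 < GK S k := pow_pos hgk _
  set y := Real.exp (L / 4) with hy
  have hy0 : 0 < y := Real.exp_pos _
  have hy4 : 2 ^ (S.d + 1) ≤ y := by
    have h1 : Real.exp ((S.d + 1 : ℕ) * Real.log 2) = 2 ^ (S.d + 1) := by
      rw [Real.exp_nat_mul, Real.exp_log (by norm_num)]
    rw [← h1, hy]
    exact Real.exp_le_exp.mpr (by linarith)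
  have hK0 : 0 ≤ s2K S.d j y := by unfold s2K; positivity
  -- pointwise identity
  set T : (P →₀ ℕ) → (P →₀ ℕ) → ℝ → ℂ := fun m l v =>
    ((Dd S k Δ θ (v + c0 S k Δ + (Real.log (S.nrm m) + Real.log (S.nrm l))) -
      ∑ n ∈ s2F S ⌊Real.exp (L / 2)⌋₊ m l, hs θ n / √(S.nrm n : ℝ) *
        GD k S.d (v + cG S k + Real.log (S.nrm (n + (m + l)))) : ℝ) : ℂ) * W v with hT
  have hpt : ∀ v, (DD S k Δ θ L Θ (v + c0 S k Δ) - (GD k S.d (v + cG S k) : ℂ)) * W v =
      ∑ m ∈ S.BL (NL L), ∑ l ∈ S.BL (NL L),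
        ((be S θ L Θ m * be S θ L Θ l / (√(S.nrm m : ℝ) * √(S.nrm l : ℝ)) : ℝ) : ℂ) *
          T m l v := by
    intro v
    rw [← s2_small S k θ h0 hL0 (v + cG S k)]
    unfold DD
    rw [Complex.ofReal_sum, ← Finset.sum_sub_distrib, Finset.sum_mul]
    refine Finset.sum_congr rfl fun m _ => ?_
    rw [Complex.ofReal_sum, ← Finset.sum_sub_distrib, Finset.sum_mul]
    refine Finset.sum_congr rfl fun l _ => ?_
    simp only [hT]
    push_cast
    ring
  simp only [hpt]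
  have htl := fun m l : P →₀ ℕ => s2_tail S H hkj hj50 (L := L) m l hW hWb hWs
  rw [integral_finsetSum _ (fun m _ => integrable_finsetSum _ (fun l _ =>
    (htl m l).1.const_mul _))]
  have hbe2 : ∀ m : P →₀ ℕ, |be S θ L Θ m| / √(S.nrm m : ℝ) ≤ S.nrm m := by
    intro m
    have hm0 := s2_nrm0 S m
    refine le_trans ?_ (s2_hsq S H.triv m).2
    unfold be
    rw [abs_mul]
    have h2 : |Θ (Real.log (S.nrm m) / L)| ≤ 1 := by
      rw [abs_of_nonneg (hΘ _).1]; exact (hΘ _).2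
    have h3 : |al θ m| * |Θ (Real.log (S.nrm m) / L)| ≤ |al θ m| :=
      mul_le_of_le_one_right (abs_nonneg _) h2
    exact div_le_div_of_nonneg_right h3 (by positivity)
  have hterm : ∀ m l : P →₀ ℕ,
      ‖∫ v, ((be S θ L Θ m * be S θ L Θ l / (√(S.nrm m : ℝ) * √(S.nrm l : ℝ)) : ℝ) : ℂ) *
        T m l v‖ ≤ Z * M * GK S k * s2K S.d j y *
          ((S.nrm m : ℝ) ^ (-2 : ℝ) * (S.nrm l : ℝ) ^ (-2 : ℝ)) := by
    intro m l
    have hm0 := s2_nrm0 S m
    have hl0 := s2_nrm0 S l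
    rw [integral_const_mul, norm_mul, Complex.norm_real, Real.norm_eq_abs]
    have h1 := (htl m l).2
    have h2 : |be S θ L Θ m * be S θ L Θ l / (√(S.nrm m : ℝ) * √(S.nrm l : ℝ))| ≤
        S.nrm m * S.nrm l := by
      rw [abs_div, abs_mul, abs_of_pos (by positivity : 0 < √(S.nrm m : ℝ) * √(S.nrm l : ℝ))]
      calc |be S θ L Θ m| * |be S θ L Θ l| / (√(S.nrm m : ℝ) * √(S.nrm l : ℝ))
          = (|be S θ L Θ m| / √(S.nrm m : ℝ)) * (|be S θ L Θ l| / √(S.nrm l : ℝ)) := by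
            field_simp
        _ ≤ S.nrm m * S.nrm l := mul_le_mul (hbe2 m) (hbe2 l) (by positivity) hm0.le
    calc |be S θ L Θ m * be S θ L Θ l / (√(S.nrm m : ℝ) * √(S.nrm l : ℝ))| * ‖∫ v, T m l v‖
        ≤ (S.nrm m * S.nrm l) * (Z * (M * (GK S k * s2K S.d j y *
          (1 / ((S.nrm m : ℝ) ^ 3 * (S.nrm l : ℝ) ^ 3))))) :=
          mul_le_mul h2 h1 (norm_nonneg _) (by positivity)
      _ = _ := by
          rw [Real.rpow_neg hm0.le, Real.rpow_neg hl0.le, Real.rpow_ofNat, Real.rpow_ofNat]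
          field_simp
  have hsumZ : ∑ m ∈ S.BL (NL L), (S.nrm m : ℝ) ^ (-2 : ℝ) ≤ Z :=
    hz1.sum_le_tsum _ (fun n _ => by positivity)
  have hC0 : 0 ≤ Z * M * GK S k * s2K S.d j y := by positivity
  calc ‖∑ m ∈ S.BL (NL L), ∫ v, ∑ l ∈ S.BL (NL L),
        ((be S θ L Θ m * be S θ L Θ l / (√(S.nrm m : ℝ) * √(S.nrm l : ℝ)) : ℝ) : ℂ) * T m l v‖
      ≤ ∑ m ∈ S.BL (NL L), ‖∫ v, ∑ l ∈ S.BL (NL L),
        ((be S θ L Θ m * be S θ L Θ l / (√(S.nrm m : ℝ) * √(S.nrm l : ℝ)) : ℝ) : ℂ) *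
          T m l v‖ := norm_sum_le _ _
    _ ≤ ∑ m ∈ S.BL (NL L), ∑ l ∈ S.BL (NL L), Z * M * GK S k * s2K S.d j y *
          ((S.nrm m : ℝ) ^ (-2 : ℝ) * (S.nrm l : ℝ) ^ (-2 : ℝ)) := by
        refine Finset.sum_le_sum fun m _ => ?_
        rw [integral_finsetSum _ (fun l _ => (htl m l).1.const_mul _)]
        exact (norm_sum_le _ _).trans (Finset.sum_le_sum fun l _ => hterm m l)
    _ = Z * M * GK S k * s2K S.d j y * ((∑ m ∈ S.BL (NL L), (S.nrm m : ℝ) ^ (-2 : ℝ)) *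
          ∑ l ∈ S.BL (NL L), (S.nrm l : ℝ) ^ (-2 : ℝ)) := by
        rw [Finset.sum_mul_sum, Finset.mul_sum]
        refine Finset.sum_congr rfl fun m _ => ?_
        rw [Finset.mul_sum]
    _ ≤ Z * M * GK S k * s2K S.d j y * (Z * Z) := by
        refine mul_le_mul_of_nonneg_left ?_ hC0
        exact mul_le_mul hsumZ hsumZ (Finset.sum_nonneg fun n _ => by positivity) hZ0
    _ = GK S k * M * (Z ^ 3 * s2K S.d j y) := by ring
    _ ≤ GK S k * M * (1 / ((2 * j : ℕ) : ℝ)) :=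
        mul_le_mul_of_nonneg_left (hj₀ j (by omega) y hy4) (by positivity)
    _ = GK S k * M / k := by rw [← hkj]; ring


end Pool.Agent.HS
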