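import Pool.Agent.Lib_helper45.HS.Defs
import Pool.Agent.Lib_helper98.WSF.S3A
import Pool.Agent.Lib_helper45.HSF.G0
import Pool.Agent.Lib_helper45.HSF.H1C
import Pool.Agent.Lib_helper45.HSF.P0
import Pool.Agent.Lib_helper45.HSF.P1
import Pool.Agent.Lib_helper45.HSF.T2

/-! # HS, block S3A (EXP): expansion of the cusp part -/

namespace Pool.Agent.HS

open Complex MeasureTheory Filter Topology
open scoped ENNReal Classical
open Pool.Agent.WA (gd gk)
open Pool.Agent.SEL (NL Adm)
open Pool.Agent.SQS (hat)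
open Pool.Agent.WS (st EE RT cc hl Step)
open Finset.HasAntidiagonal (antidiagonal)

variable {P : Type} (S : PSys P)

include S in
theorem s3a_countable : Countable (P →₀ ℕ) := by
  have h := (sum_nrm S (s := 2) (by norm_num)).countable_support
  have h2 : Function.support (fun m : P →₀ ℕ => (S.nrm m : ℝ) ^ (-(2 : ℝ))) = Set.univ := by
    ext m
    simp only [Function.mem_support, ne_eq, Set.mem_univ, iff_true]
    have h0 : (0 : ℝ) < S.nrm m := by exact_mod_cast nrm_pos S m
    exact (Real.rpow_pos_of_pos h0 _).ne'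
  rw [h2] at h
  exact Set.countable_univ_iff.1 h

/-- the density has exponential moments -/
theorem s3a_eint {k n : ℕ} (hk : 1 ≤ k) (hn : 1 ≤ n) {A : ℝ} (hA : 0 ≤ A) :
    Integrable (fun u : ℝ => GD k n u * Real.exp (A * u)) := by
  have hk' : (0 : ℝ) < k := by exact_mod_cast hk
  have h := (GD_mellin (k := k) (n := n) hk hn (z := (A : ℂ))
    (by rw [Complex.ofReal_re]; linarith)).1.norm
  refine h.congr (Eventually.of_forall fun u => ?_)
  show ‖(GD k n u : ℂ) * cexp ((A : ℂ) * u)‖ = GD k n u * Real.exp (A * u)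
  rw [norm_mul, Complex.norm_real, Real.norm_of_nonneg (GD_nonneg k n u)]
  have : ((A : ℂ) * u) = ((A * u : ℝ) : ℂ) := by push_cast; ring
  rw [this, Complex.norm_exp_ofReal]

theorem s3a_int {k n : ℕ} (hk : 1 ≤ k) (hn : 1 ≤ n) : Integrable (GD k n) := by
  have h := s3a_eint hk hn (A := 0) le_rfl
  simpa using h

theorem s3a_cexp (t v : ℝ) : ‖cexp (t * v * I)‖ = 1 := by
  have : (t * v * I : ℂ) = ((t * v : ℝ) : ℂ) * I := by push_cast; ring
  rw [this, Complex.norm_exp_ofReal_mul_I]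

theorem s3a_norm (k n : ℕ) (L : ℝ) (St : Step) (t c v : ℝ) :
    ‖(GD k n (v + c) : ℂ) * (St.η (v / (8 * L)) : ℂ) * cexp (t * v * I)‖ =
      GD k n (v + c) * St.η (v / (8 * L)) := by
  rw [norm_mul, s3a_cexp, mul_one, norm_mul, Complex.norm_real, Complex.norm_real,
    Real.norm_of_nonneg (GD_nonneg k n _), Real.norm_of_nonneg (St.nonneg _)]

theorem s3a_gint {k n : ℕ} (hk : 1 ≤ k) (hn : 1 ≤ n) (L : ℝ) (St : Step) (c : ℝ) :
    Integrable (fun v : ℝ => GD k n (v + c) * St.η (v / (8 * L))) := by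
  have hgs : Integrable (fun v => GD k n (v + c)) := (s3a_int hk hn).comp_add_right c
  have hgc := GD_cont (k := k) (n := n) hk
  have hηc := St.cont
  refine hgs.mono' ?_ (Eventually.of_forall fun v => ?_)
  · apply Continuous.aestronglyMeasurable
    exact (hgc.comp (by fun_prop)).mul (hηc.comp (by fun_prop))
  · rw [Real.norm_of_nonneg (mul_nonneg (GD_nonneg k n _) (St.nonneg _))]
    exact mul_le_of_le_one_right (GD_nonneg k n _) (St.le_one _)

theorem s3a_cint {k n : ℕ} (hk : 1 ≤ k) (hn : 1 ≤ n) (L : ℝ) (St : Step) (t c : ℝ) :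
    Integrable (fun v : ℝ => (GD k n (v + c) : ℂ) * (St.η (v / (8 * L)) : ℂ) *
      cexp (t * v * I)) := by
  have hgc := GD_cont (k := k) (n := n) hk
  have hηc := St.cont
  refine (s3a_gint hk hn L St c).mono' ?_ (Eventually.of_forall fun v => ?_)
  · apply Continuous.aestronglyMeasurable
    apply Continuous.mul
    · apply Continuous.mul
      · exact Complex.continuous_ofReal.comp (hgc.comp (by fun_prop))
      · exact Complex.continuous_ofReal.comp (hηc.comp (by fun_prop))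
    · fun_prop
  · rw [s3a_norm]

/-- Rankin's trick -/
theorem s3a_bd {k n : ℕ} (hk : 1 ≤ k) (hn : 1 ≤ n) {L : ℝ} (hL : 0 < L) (St : Step) (c : ℝ)
    {A : ℝ} (hA : 0 ≤ A) :
    ∫ v : ℝ, GD k n (v + c) * St.η (v / (8 * L)) ≤
      Real.exp (-(A * c)) * ∫ u : ℝ, GD k n u * Real.exp (A * u) := by
  have hE : (fun v : ℝ => GD k n (v + c) * Real.exp (A * v)) =
      fun v : ℝ => Real.exp (-(A * c)) * (GD k n (v + c) * Real.exp (A * (v + c))) := by
    funext v
    have : Real.exp (A * v) = Real.exp (-(A * c)) * Real.exp (A * (v + c)) := by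
      rw [← Real.exp_add]
      congr 1
      ring
    rw [this]
    ring
  have hi : Integrable (fun v : ℝ => GD k n (v + c) * Real.exp (A * v)) := by
    rw [hE]
    exact ((s3a_eint hk hn hA).comp_add_right c).const_mul _
  have hv : ∫ v : ℝ, GD k n (v + c) * Real.exp (A * v) =
      Real.exp (-(A * c)) * ∫ u : ℝ, GD k n u * Real.exp (A * u) := by
    rw [hE, integral_const_mul]
    congr 1
    exact integral_add_right_eq_self (fun u : ℝ => GD k n u * Real.exp (A * u)) c
  rw [← hv]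
  apply integral_mono (s3a_gint hk hn L St c) hi
  intro v
  show GD k n (v + c) * St.η (v / (8 * L)) ≤ GD k n (v + c) * Real.exp (A * v)
  apply mul_le_mul_of_nonneg_left _ (GD_nonneg k n _)
  by_cases h : St.η (v / (8 * L)) = 0
  · rw [h]
    exact (Real.exp_pos _).le
  · have hv := WS.S3A_eta hL St h
    have h1 : 0 ≤ A * v := mul_nonneg hA (by linarith)
    exact (St.le_one _).trans (Real.one_le_exp h1)

theorem tau_le {k : ℕ} (hk : 2 ≤ k) (he : Even k) (Δ : ℝ) {L : ℝ} (hL : 0 < L) (St : Step) (t : ℝ)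
    {n m l : ℕ} (hn : 1 ≤ n) (hm : 1 ≤ m) (hl : 1 ≤ l) (hl' : l < NL L) :
    ‖tau S k Δ L St.η t n m l‖ ≤ GK S k ∧
    ‖tau S k Δ L St.η t n m l‖ ≤ GK S k *
      (((k : ℝ) / (2 * Real.pi)) ^ S.d * Real.exp Δ / (n * Real.exp (3 * L))) ^ ((k : ℝ) / 2) := by
  have hk1 : 1 ≤ k := by omega
  have hd := S.d_pos
  have hd1 : 1 ≤ S.d := hd
  set c : ℝ := (Real.log n + Real.log m - Real.log l) - Δ with hc
  have h1 : ‖tau S k Δ L St.η t n m l‖ ≤ ∫ v, GD k S.d (v + c) * St.η (v / (8 * L)) := by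
    unfold tau
    refine (norm_integral_le_integral_norm _).trans (le_of_eq ?_)
    congr 1
    funext v
    rw [← s3a_norm k S.d L St t c v]
    have : v + (Real.log n + Real.log m - Real.log l) - Δ = v + c := by rw [hc]; ring
    rw [this]
  have hint := s3a_int (k := k) (n := S.d) hk1 hd1
  constructor
  · refine h1.trans ?_
    unfold GK
    rw [← GD_int hk1 hd1, ← integral_add_right_eq_self (GD k S.d) c]
    apply integral_mono (s3a_gint hk1 hd1 L St c) (hint.comp_add_right c)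
    intro v
    exact mul_le_of_le_one_right (GD_nonneg k S.d _) (St.le_one _)
  · refine h1.trans ?_
    set u₀ : ℝ := 3 * L + Real.log n - Δ with hu₀
    have hr := GD_rankin hk he hd1 u₀
    have hn0 : (0 : ℝ) < n := by exact_mod_cast hn
    have hexp : ((k : ℝ) / (2 * Real.pi)) ^ S.d * Real.exp (-u₀) =
        ((k : ℝ) / (2 * Real.pi)) ^ S.d * Real.exp Δ / (n * Real.exp (3 * L)) := by
      have : Real.exp (-u₀) = Real.exp Δ / (n * Real.exp (3 * L)) := by
        rw [eq_div_iff (by positivity)]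
        have hnl : (n : ℝ) * Real.exp (3 * L) = Real.exp (Real.log n + 3 * L) := by
          rw [Real.exp_add, Real.exp_log hn0]
        rw [hnl, ← Real.exp_add, hu₀]
        congr 1
        ring
      rw [this, mul_div_assoc]
    rw [hexp] at hr
    unfold GK
    refine le_trans ?_ hr
    rw [← integral_indicator measurableSet_Ioi,
      ← integral_add_right_eq_self ((Set.Ioi u₀).indicator (GD k S.d)) c]
    apply integral_mono (s3a_gint hk1 hd1 L St c)
      ((hint.indicator measurableSet_Ioi).comp_add_right c)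
    intro v
    show GD k S.d (v + c) * St.η (v / (8 * L)) ≤ (Set.Ioi u₀).indicator (GD k S.d) (v + c)
    by_cases h : St.η (v / (8 * L)) = 0
    · rw [h, mul_zero]
      apply Set.indicator_nonneg
      intro x _
      exact GD_nonneg k S.d x
    · have hv := WS.S3A_eta hL St h
      have hlog := WS.S3A_log hl hl'
      have hm0 : 0 ≤ Real.log m := Real.log_natCast_nonneg m
      have hmem : v + c ∈ Set.Ioi u₀ := by
        show u₀ < v + c
        rw [hc, hu₀]
        linarith
      rw [Set.indicator_of_mem hmem]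
      exact mul_le_of_le_one_right (GD_nonneg k S.d _) (St.le_one _)

theorem s3_exp {k : ℕ} (hk : 1 ≤ k) {Δ : ℝ} {θ : P → ℝ} (H : TD S k Δ θ) {L : ℝ} (hL : 0 < L)
    (Θ : ℝ → ℝ) (St : Step) (t : ℝ) :
    HasSum (fun n : P →₀ ℕ => ∑ m ∈ S.BL (NL L), ∑ l ∈ S.BL (NL L),
      ((be S θ L Θ m * be S θ L Θ l / (√(S.nrm m : ℝ) * √(S.nrm l : ℝ)) *
        (hs θ n / √(S.nrm n : ℝ)) : ℝ) : ℂ) *
          tau S k Δ L St.η t (S.nrm n) (S.nrm m) (S.nrm l))
      (∫ v, ff S k Δ θ L Θ v * (St.η (v / (8 * L)) : ℂ) * cexp (t * v * I)) := by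
  have hd1 : 1 ≤ S.d := S.d_pos
  have hcount := s3a_countable S
  have hθ := H.triv
  set c : (P →₀ ℕ) → (P →₀ ℕ) → ℝ := fun m l =>
    be S θ L Θ m * be S θ L Θ l / (√(S.nrm m : ℝ) * √(S.nrm l : ℝ)) with hc
  set δ : (P →₀ ℕ) → (P →₀ ℕ) → (P →₀ ℕ) → ℝ := fun n m l =>
    (Real.log (S.nrm n) + Real.log (S.nrm m) - Real.log (S.nrm l)) - Δ with hδ
  set T : (P →₀ ℕ) → (P →₀ ℕ) → (P →₀ ℕ) → ℝ → ℂ := fun n m l v =>
    (GD k S.d (v + δ n m l) : ℂ) * (St.η (v / (8 * L)) : ℂ) * cexp (t * v * I) with hT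
  set F : (P →₀ ℕ) → ℝ → ℂ := fun n v => ∑ m ∈ S.BL (NL L), ∑ l ∈ S.BL (NL L),
    ((c m l * (hs θ n / √(S.nrm n : ℝ)) : ℝ) : ℂ) * T n m l v with hF
  have hTi : ∀ n m l, Integrable (T n m l) := fun n m l => s3a_cint hk hd1 L St t (δ n m l)
  have hti : ∀ n, ∀ m ∈ S.BL (NL L), ∀ l ∈ S.BL (NL L), Integrable (fun v : ℝ =>
      ((c m l * (hs θ n / √(S.nrm n : ℝ)) : ℝ) : ℂ) * T n m l v) :=
    fun n m _ l _ => (hTi n m l).const_mul _
  have hFi : ∀ n, Integrable (F n) := by
    intro n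
    exact integrable_finsetSum _ fun m hm => integrable_finsetSum _ fun l hl => hti n m hm l hl
  set M : ℝ := ∫ u : ℝ, GD k S.d u * Real.exp (3 * u) with hM
  have hM0 : 0 ≤ M := integral_nonneg fun u => mul_nonneg (GD_nonneg k S.d u) (Real.exp_pos _).le
  set K : ℝ := ∑ m ∈ S.BL (NL L), ∑ l ∈ S.BL (NL L), |c m l| *
    (Real.exp (-(3 * (Real.log (S.nrm m) - Real.log (S.nrm l) - Δ))) * M) with hK
  have hTn : ∀ n m l, ∫ v, ‖T n m l v‖ ≤
      (S.nrm n : ℝ) ^ (-(3 : ℝ)) *
        (Real.exp (-(3 * (Real.log (S.nrm m) - Real.log (S.nrm l) - Δ))) * M) := by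
    intro n m l
    have h1 : ∫ v, ‖T n m l v‖ = ∫ v, GD k S.d (v + δ n m l) * St.η (v / (8 * L)) := by
      congr 1
      funext v
      exact s3a_norm k S.d L St t (δ n m l) v
    rw [h1]
    refine (s3a_bd hk hd1 hL St (δ n m l) (A := 3) (by norm_num)).trans (le_of_eq ?_)
    rw [← mul_assoc]
    congr 1
    have h0 : (0 : ℝ) < S.nrm n := by exact_mod_cast nrm_pos S n
    rw [Real.rpow_def_of_pos h0, ← Real.exp_add]
    congr 1
    simp only [hδ]
    ring
  have hhs : ∀ n : P →₀ ℕ, |hs θ n / √(S.nrm n : ℝ)| ≤ (S.nrm n : ℝ) := by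
    intro n
    have h0 : (0 : ℝ) < S.nrm n := by exact_mod_cast nrm_pos S n
    have hs0 : 0 < √(S.nrm n : ℝ) := Real.sqrt_pos.2 h0
    rw [abs_div, abs_of_pos hs0, div_le_iff₀ hs0]
    refine (triv S hθ n).1.trans (le_of_eq ?_)
    rw [Real.sqrt_eq_rpow]
    nth_rw 2 [← Real.rpow_one (S.nrm n : ℝ)]
    rw [← Real.rpow_add h0]
    norm_num
  have hFn : ∀ n, ∫ v, ‖F n v‖ ≤ (S.nrm n : ℝ) ^ (-(2 : ℝ)) * K := by
    intro n
    have h0 : (0 : ℝ) < S.nrm n := by exact_mod_cast nrm_pos S n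
    have h1 : ∫ v, ‖F n v‖ ≤ ∫ v, ∑ m ∈ S.BL (NL L), ∑ l ∈ S.BL (NL L),
        ‖((c m l * (hs θ n / √(S.nrm n : ℝ)) : ℝ) : ℂ) * T n m l v‖ := by
      apply integral_mono (hFi n).norm
      · exact integrable_finsetSum _ fun m hm => integrable_finsetSum _ fun l hl =>
          (hti n m hm l hl).norm
      · intro v
        exact (norm_sum_le _ _).trans (Finset.sum_le_sum fun m _ => norm_sum_le _ _)
    refine h1.trans ?_
    rw [integral_finsetSum _ fun m hm => integrable_finsetSum _ fun l hl =>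
      (hti n m hm l hl).norm, hK, Finset.mul_sum]
    apply Finset.sum_le_sum
    intro m hm
    rw [integral_finsetSum _ fun l hl => (hti n m hm l hl).norm, Finset.mul_sum]
    apply Finset.sum_le_sum
    intro l hl
    have h2 : (fun v : ℝ => ‖((c m l * (hs θ n / √(S.nrm n : ℝ)) : ℝ) : ℂ) * T n m l v‖) =
        fun v : ℝ => |c m l| * |hs θ n / √(S.nrm n : ℝ)| * ‖T n m l v‖ := by
      funext v
      rw [norm_mul, Complex.norm_real, Real.norm_eq_abs, abs_mul]
    rw [h2, integral_const_mul]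
    have h3 := hTn n m l
    have h4 := hhs n
    set Q : ℝ := Real.exp (-(3 * (Real.log (S.nrm m) - Real.log (S.nrm l) - Δ))) * M with hQ
    have hQ0 : 0 ≤ Q := mul_nonneg (Real.exp_pos _).le hM0
    have h5 : (S.nrm n : ℝ) * (S.nrm n : ℝ) ^ (-(3 : ℝ)) = (S.nrm n : ℝ) ^ (-(2 : ℝ)) := by
      nth_rw 1 [← Real.rpow_one (S.nrm n : ℝ)]
      rw [← Real.rpow_add h0]
      norm_num
    calc |c m l| * |hs θ n / √(S.nrm n : ℝ)| * ∫ v, ‖T n m l v‖
        ≤ |c m l| * (S.nrm n : ℝ) * ((S.nrm n : ℝ) ^ (-(3 : ℝ)) * Q) := by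
          apply mul_le_mul
          · exact mul_le_mul_of_nonneg_left h4 (abs_nonneg _)
          · exact h3
          · exact integral_nonneg fun v => norm_nonneg _
          · exact mul_nonneg (abs_nonneg _) h0.le
      _ = (S.nrm n : ℝ) ^ (-(2 : ℝ)) * (|c m l| * Q) := by
          rw [← h5]
          ring
  have hFs : Summable fun n => ∫ v, ‖F n v‖ := by
    refine Summable.of_nonneg_of_le (fun n => integral_nonneg fun v => norm_nonneg _) hFn ?_
    exact (sum_nrm S (s := 2) (by norm_num)).mul_right K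
  have hmain := hasSum_integral_of_summable_integral_norm hFi hFs
  have hR : ∫ v, ∑' n, F n v =
      ∫ v, ff S k Δ θ L Θ v * (St.η (v / (8 * L)) : ℂ) * cexp (t * v * I) := by
    congr 1
    funext v
    set e : ℂ := (St.η (v / (8 * L)) : ℂ) * cexp (t * v * I) with he
    have hDs : ∀ w : ℝ, HasSum (fun n : P →₀ ℕ => ((hs θ n / √(S.nrm n : ℝ) *
        GD k S.d (w + Real.log (S.nrm n) - Δ) : ℝ) : ℂ)) ((Dd S k Δ θ w : ℝ) : ℂ) := by
      intro w
      apply Complex.hasSum_ofReal.2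
      unfold Dd
      apply Summable.hasSum
      apply Summable.of_norm
      have h1 := (Db_facts S hk Δ hθ 0).1 w
      refine h1.congr fun n => ?_
      rw [zero_add, Real.norm_eq_abs, abs_mul, abs_div, abs_of_nonneg (Real.sqrt_nonneg _),
        abs_of_nonneg (GD_nonneg k S.d _)]
    have hs1 : HasSum (fun n => F n v)
        (∑ m ∈ S.BL (NL L), ∑ l ∈ S.BL (NL L), (c m l : ℂ) *
          (((Dd S k Δ θ (v + (Real.log (S.nrm m) - Real.log (S.nrm l))) : ℝ) : ℂ) * e)) := by
      have h1 : HasSum (fun n : P →₀ ℕ => ∑ m ∈ S.BL (NL L), ∑ l ∈ S.BL (NL L), (c m l : ℂ) *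
          (((hs θ n / √(S.nrm n : ℝ) *
            GD k S.d (v + (Real.log (S.nrm m) - Real.log (S.nrm l)) +
              Real.log (S.nrm n) - Δ) : ℝ) : ℂ) * e))
          (∑ m ∈ S.BL (NL L), ∑ l ∈ S.BL (NL L), (c m l : ℂ) *
          (((Dd S k Δ θ (v + (Real.log (S.nrm m) - Real.log (S.nrm l))) : ℝ) : ℂ) * e)) := by
        refine hasSum_sum fun m _ => hasSum_sum fun l _ => ?_
        apply HasSum.mul_left
        apply HasSum.mul_right
        exact hDs _
      refine h1.congr_fun fun n => ?_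
      simp only [hF]
      apply Finset.sum_congr rfl
      intro m _
      apply Finset.sum_congr rfl
      intro l _
      simp only [hT, hδ, he]
      have : v + (Real.log (S.nrm n) + Real.log (S.nrm m) - Real.log (S.nrm l) - Δ) =
        v + (Real.log (S.nrm m) - Real.log (S.nrm l)) + Real.log (S.nrm n) - Δ := by ring
      rw [this]
      push_cast
      ring
    rw [hs1.tsum_eq]
    unfold ff
    rw [mul_assoc, Finset.sum_mul]
    apply Finset.sum_congr rfl
    intro m _
    rw [Finset.sum_mul]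
    apply Finset.sum_congr rfl
    intro l _
    simp only [he, hc]
    push_cast
    ring
  rw [hR] at hmain
  refine hmain.congr_fun fun n => ?_
  simp only [hF]
  rw [integral_finsetSum _ fun m hm => integrable_finsetSum _ fun l hl => hti n m hm l hl]
  apply Finset.sum_congr rfl
  intro m hm
  rw [integral_finsetSum _ fun l hl => hti n m hm l hl]
  apply Finset.sum_congr rfl
  intro l _
  rw [integral_const_mul]
  congr 1
  unfold tau
  congr 1
  funext v
  simp only [hT, hδ]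
  have : v + (Real.log (S.nrm n) + Real.log (S.nrm m) - Real.log (S.nrm l) - Δ) =
    v + (Real.log (S.nrm n) + Real.log (S.nrm m) - Real.log (S.nrm l)) - Δ := by ring
  rw [this]

end Pool.Agent.HS
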