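import Pool.Agent.Lib_helper45.HS.Defs
import Pool.Agent.Lib_helper45.HSF.P0
import Pool.Agent.Lib_helper45.HSF.P1

/-!
# Block S3T (TNU): the numerical tail bound
-/

set_option autoImplicit false

namespace Pool.Agent.HS

open Complex MeasureTheory Filter Topology
open scoped ENNReal Classical
open Pool.Agent.WA (gd gk)
open Pool.Agent.SEL (NL Adm)
open Pool.Agent.SQS (hat)
open Pool.Agent.WS (st EE RT cc hl Step)
open Finset.HasAntidiagonal (antidiagonal)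

variable {P : Type} (S : PSys P)

/-- the numerical tail bound -/
theorem tail_num {c₁ C₁ : ℝ} (hS : S.Ax c₁ C₁) (Δ B : ℝ) (hB : 0 < B) : ∃ k₀ : ℕ, ∀ k : ℕ, k₀ ≤ k →
    ∀ L : ℝ, L = Real.log k / B → ∀ N₀ : ℕ, N₀ = ⌊(k : ℝ) ^ S.d / (NL L : ℝ) ^ 2⌋₊ →
    Summable (fun m : P →₀ ℕ => if N₀ < S.nrm m then (S.nrm m : ℝ) ^ 2 *
      (((k : ℝ) / (2 * Real.pi)) ^ S.d * Real.exp Δ / (S.nrm m * Real.exp (3 * L))) ^
        ((k : ℝ) / 2) else 0) ∧
    ((S.BL (NL L)).card : ℝ) ^ 2 * (NL L : ℝ) ^ 6 *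
      ∑' m : P →₀ ℕ, (if N₀ < S.nrm m then (S.nrm m : ℝ) ^ 2 *
      (((k : ℝ) / (2 * Real.pi)) ^ S.d * Real.exp Δ / (S.nrm m * Real.exp (3 * L))) ^
        ((k : ℝ) / 2) else 0) ≤ 1 := by
  have hZs : Summable (fun m : P →₀ ℕ => (S.nrm m : ℝ) ^ (-(2 : ℝ))) := sum_nrm S (by norm_num)
  set Z : ℝ := ∑' m : P →₀ ℕ, (S.nrm m : ℝ) ^ (-(2 : ℝ)) with hZ
  have hZ0 : 0 ≤ Z := tsum_nonneg fun m => Real.rpow_nonneg (Nat.cast_nonneg _) _
  set K : ℝ := C₁ ^ 2 * 2 ^ 8 * Real.exp (4 + 4 * Δ) * Z + 1 with hK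
  have hK0 : 0 < K := by
    have : 0 ≤ C₁ ^ 2 * 2 ^ 8 * Real.exp (4 + 4 * Δ) * Z :=
      mul_nonneg (mul_nonneg (by positivity) (Real.exp_nonneg _)) hZ0
    rw [hK]; linarith
  have hlim := tendsto_rpow_mul_exp_neg_mul_atTop_nhds_zero (8 / B + 4 * S.d) (1 / 2) (by norm_num)
  have hc0 : (0 : ℝ) < 1 / K := by positivity
  have hev1 : ∀ᶠ x : ℝ in atTop, x ^ (8 / B + 4 * S.d) * Real.exp (-(1 / 2) * x) ≤
      1 / K := (hlim.eventually (gt_mem_nhds hc0)).mono fun x hx => hx.le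
  have hev2 : ∀ᶠ x : ℝ in atTop, Real.exp ((Real.log 4 + |Δ| + 1) * B) ≤ x :=
    eventually_ge_atTop _
  have hev3 : ∀ᶠ x : ℝ in atTop, (8 : ℝ) ≤ x := eventually_ge_atTop _
  obtain ⟨x₀, hx₀⟩ := eventually_atTop.1 (hev1.and (hev2.and hev3))
  refine ⟨⌈x₀⌉₊, ?_⟩
  intro k hk L hL N₀ hN₀
  obtain ⟨c1, c2, c3⟩ := hx₀ k ((Nat.le_ceil x₀).trans (by exact_mod_cast hk))
  have hk0 : (0 : ℝ) < k := by linarith
  have hpi := Real.pi_gt_three
  have hlk : (Real.log 4 + |Δ| + 1) * B ≤ Real.log k := by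
    rw [Real.le_log_iff_exp_le hk0]
    exact c2
  have hL1 : Real.log 4 + |Δ| + 1 ≤ L := by
    rw [hL, le_div_iff₀ hB]
    exact hlk
  have hlog4 : 0 < Real.log 4 := Real.log_pos (by norm_num)
  have hΔ := abs_nonneg Δ
  have hΔ' := le_abs_self Δ
  have hL0 : 0 < L := by linarith
  have hE1 : 1 ≤ Real.exp L := Real.one_le_exp hL0.le
  have hNL : (NL L : ℝ) ≤ 2 * Real.exp L := by
    have h1 := (Nat.ceil_lt_add_one (Real.exp_nonneg L)).le
    have h2 : (NL L : ℝ) ≤ Real.exp L + 1 := h1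
    linarith
  have hNL1 : 1 ≤ (NL L : ℝ) := by
    have h1 : Real.exp L ≤ (NL L : ℝ) := Nat.le_ceil _
    linarith
  have hkd0 : (0 : ℝ) < (k : ℝ) ^ S.d := pow_pos hk0 _
  -- lower bound for the norms
  have hn' : ∀ m : P →₀ ℕ, N₀ < S.nrm m →
      (k : ℝ) ^ S.d ≤ (S.nrm m : ℝ) * (4 * Real.exp (2 * L)) := by
    intro m hm
    have h1 : (k : ℝ) ^ S.d / (NL L : ℝ) ^ 2 < N₀ + 1 := by
      rw [hN₀]
      exact Nat.lt_floor_add_one _
    have h2 : ((N₀ : ℝ) + 1) ≤ S.nrm m := by exact_mod_cast hm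
    have h3 : (NL L : ℝ) ^ 2 ≤ 4 * Real.exp (2 * L) := by
      calc (NL L : ℝ) ^ 2 ≤ (2 * Real.exp L) ^ 2 := pow_le_pow_left₀ (by linarith) hNL 2
        _ = 4 * Real.exp (2 * L) := by
          rw [mul_pow, ← Real.exp_nat_mul]
          norm_num
    have h4 : (k : ℝ) ^ S.d / (NL L : ℝ) ^ 2 ≤ S.nrm m := by linarith
    rw [div_le_iff₀ (by positivity)] at h4
    exact h4.trans (mul_le_mul_of_nonneg_left h3 (Nat.cast_nonneg _))
  set D : ℝ := Real.exp (-((k : ℝ) / 2 - 4)) * ((k : ℝ) ^ S.d * Real.exp Δ) ^ 4 with hD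
  have hD0 : 0 ≤ D := by positivity
  have hterm : ∀ m : P →₀ ℕ, (if N₀ < S.nrm m then (S.nrm m : ℝ) ^ 2 *
      (((k : ℝ) / (2 * Real.pi)) ^ S.d * Real.exp Δ / (S.nrm m * Real.exp (3 * L))) ^
        ((k : ℝ) / 2) else 0) ≤ D * (S.nrm m : ℝ) ^ (-(2 : ℝ)) := by
    intro m
    have hn'0 : (0 : ℝ) < S.nrm m := by exact_mod_cast nrm_pos S m
    split_ifs with hm
    swap
    · positivity
    set n' : ℝ := (S.nrm m : ℝ) with hn'def
    have h2pi : ((k : ℝ) / (2 * Real.pi)) ^ S.d ≤ (k : ℝ) ^ S.d := by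
      apply pow_le_pow_left₀ (by positivity)
      rw [div_le_iff₀ (by positivity)]
      nlinarith
    set q : ℝ := ((k : ℝ) / (2 * Real.pi)) ^ S.d * Real.exp Δ / (n' * Real.exp (3 * L)) with hq
    have hq0 : 0 < q := by positivity
    have hq1 : q ≤ Real.exp (-1) := by
      have h1 : q ≤ 4 * Real.exp Δ * Real.exp (-L) := by
        rw [hq, div_le_iff₀ (by positivity)]
        have h2 := hn' m hm
        have h3 : 4 * Real.exp Δ * Real.exp (-L) * (n' * Real.exp (3 * L)) =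
            n' * (4 * Real.exp (2 * L)) * Real.exp Δ := by
          have : Real.exp (-L) * Real.exp (3 * L) = Real.exp (2 * L) := by
            rw [← Real.exp_add]
            congr 1
            ring
          rw [← this]
          ring
        rw [h3]
        exact mul_le_mul_of_nonneg_right (h2pi.trans h2) (Real.exp_nonneg _)
      have h4 : 4 * Real.exp Δ * Real.exp (-L) ≤ Real.exp (-1) := by
        have h5 : (4 : ℝ) = Real.exp (Real.log 4) := (Real.exp_log (by norm_num)).symm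
        rw [h5, ← Real.exp_add, ← Real.exp_add]
        apply Real.exp_le_exp.2
        linarith
      exact h1.trans h4
    have h6 : q ^ ((k : ℝ) / 2) = q ^ ((k : ℝ) / 2 - 4) * q ^ 4 := by
      have : q ^ 4 = q ^ (4 : ℝ) := by
        rw [← Real.rpow_natCast]
        norm_num
      rw [this, ← Real.rpow_add hq0]
      congr 1
      ring
    have h7 : q ^ ((k : ℝ) / 2 - 4) ≤ Real.exp (-((k : ℝ) / 2 - 4)) := by
      calc q ^ ((k : ℝ) / 2 - 4) ≤ Real.exp (-1) ^ ((k : ℝ) / 2 - 4) :=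
            Real.rpow_le_rpow hq0.le hq1 (by linarith)
        _ = Real.exp (-((k : ℝ) / 2 - 4)) := by
            rw [← Real.exp_mul]
            congr 1
            ring
    have h8 : q ≤ (k : ℝ) ^ S.d * Real.exp Δ / n' := by
      rw [hq]
      have hE3 : 1 ≤ Real.exp (3 * L) := Real.one_le_exp (by linarith)
      apply div_le_div₀ (by positivity)
        (mul_le_mul_of_nonneg_right h2pi (Real.exp_nonneg _)) hn'0
      nlinarith
    have h10 : q ^ 4 ≤ ((k : ℝ) ^ S.d * Real.exp Δ / n') ^ 4 := pow_le_pow_left₀ hq0.le h8 4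
    rw [h6]
    calc n' ^ 2 * (q ^ ((k : ℝ) / 2 - 4) * q ^ 4)
        ≤ n' ^ 2 * (Real.exp (-((k : ℝ) / 2 - 4)) *
          ((k : ℝ) ^ S.d * Real.exp Δ / n') ^ 4) := by
          apply mul_le_mul_of_nonneg_left _ (sq_nonneg _)
          exact mul_le_mul h7 h10 (by positivity) (Real.exp_nonneg _)
      _ = D * (1 / n' ^ 2) := by
          rw [hD]
          field_simp
      _ = D * n' ^ (-(2 : ℝ)) := by
          rw [Real.rpow_neg hn'0.le]
          congr 1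
          rw [one_div]
          congr 1
          rw [← Real.rpow_natCast]
          norm_num
  have ht0 : ∀ m : P →₀ ℕ, 0 ≤ (if N₀ < S.nrm m then (S.nrm m : ℝ) ^ 2 *
      (((k : ℝ) / (2 * Real.pi)) ^ S.d * Real.exp Δ / (S.nrm m * Real.exp (3 * L))) ^
        ((k : ℝ) / 2) else 0) := by
    intro m
    split_ifs
    · positivity
    · exact le_rfl
  have hDs : Summable (fun m : P →₀ ℕ => D * (S.nrm m : ℝ) ^ (-(2 : ℝ))) := hZs.mul_left D
  have hsum := Summable.of_nonneg_of_le ht0 hterm hDs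
  refine ⟨hsum, ?_⟩
  have hT := hsum.tsum_le_tsum hterm hDs
  rw [tsum_mul_left, ← hZ] at hT
  have hNL8 : (NL L : ℝ) ^ 8 ≤ 2 ^ 8 * Real.exp (8 * L) := by
    calc (NL L : ℝ) ^ 8 ≤ (2 * Real.exp L) ^ 8 := pow_le_pow_left₀ (by linarith) hNL 8
      _ = 2 ^ 8 * Real.exp (8 * L) := by
          rw [mul_pow, ← Real.exp_nat_mul]
          norm_num
  have hcard : ((S.BL (NL L)).card : ℝ) ^ 2 ≤ C₁ ^ 2 * (NL L : ℝ) ^ 2 := by
    have h1 := hS.cnt (NL L - 1)
    have h2 : 1 ≤ NL L := by exact_mod_cast hNL1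
    rw [Nat.sub_add_cancel h2] at h1
    have h3 : (0 : ℝ) ≤ (S.BL (NL L)).card := Nat.cast_nonneg _
    have h4 : (((NL L - 1 : ℕ) : ℝ)) ≤ NL L := by exact_mod_cast Nat.sub_le _ _
    have h5 : C₁ * ((NL L - 1 : ℕ) : ℝ) ≤ |C₁| * NL L :=
      mul_le_mul (le_abs_self _) h4 (Nat.cast_nonneg _) (abs_nonneg _)
    calc ((S.BL (NL L)).card : ℝ) ^ 2 ≤ (|C₁| * NL L) ^ 2 :=
          pow_le_pow_left₀ h3 (h1.trans h5) 2
      _ = C₁ ^ 2 * (NL L : ℝ) ^ 2 := by rw [mul_pow, sq_abs]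
  have hpre : ((S.BL (NL L)).card : ℝ) ^ 2 * (NL L : ℝ) ^ 6 ≤
      C₁ ^ 2 * (2 ^ 8 * Real.exp (8 * L)) := by
    calc ((S.BL (NL L)).card : ℝ) ^ 2 * (NL L : ℝ) ^ 6
        ≤ C₁ ^ 2 * (NL L : ℝ) ^ 2 * (NL L : ℝ) ^ 6 :=
          mul_le_mul_of_nonneg_right hcard (by positivity)
      _ = C₁ ^ 2 * (NL L : ℝ) ^ 8 := by ring
      _ ≤ _ := mul_le_mul_of_nonneg_left hNL8 (sq_nonneg _)
  have hE8 : Real.exp (8 * L) = (k : ℝ) ^ (8 / B) := by
    rw [Real.rpow_def_of_pos hk0, hL]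
    congr 1
    field_simp
  have hfin : C₁ ^ 2 * (2 ^ 8 * Real.exp (8 * L)) * (D * Z) ≤ 1 := by
    calc C₁ ^ 2 * (2 ^ 8 * Real.exp (8 * L)) * (D * Z)
        = C₁ ^ 2 * 2 ^ 8 * Real.exp (4 + 4 * Δ) * Z *
            ((k : ℝ) ^ (8 / B + 4 * S.d) * Real.exp (-(1 / 2) * k)) := by
          rw [hE8, hD, Real.rpow_add hk0]
          have e1 : (k : ℝ) ^ (4 * (S.d : ℝ)) = ((k : ℝ) ^ S.d) ^ 4 := by
            rw [← pow_mul, ← Real.rpow_natCast]
            congr 1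
            push_cast
            ring
          have e2 : Real.exp (-((k : ℝ) / 2 - 4)) = Real.exp 4 * Real.exp (-(1 / 2) * k) := by
            rw [← Real.exp_add]
            congr 1
            ring
          have e3 : Real.exp (4 + 4 * Δ) = Real.exp 4 * Real.exp Δ ^ 4 := by
            rw [Real.exp_add, ← Real.exp_nat_mul]
            norm_num
          rw [e1, e2, e3]
          ring
      _ ≤ K * (1 / K) := by
          apply mul_le_mul _ c1 (by positivity) hK0.le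
          rw [hK]
          linarith
      _ = 1 := by field_simp
  exact (mul_le_mul hpre hT (tsum_nonneg ht0) (by positivity)).trans hfin

end Pool.Agent.HS
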