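import Pool.Agent.Lib_helper45.HS.Defs
import Pool.Agent.Lib_helper45.HSF.H1C
import Pool.Agent.Lib_helper45.HSF.P0
import Pool.Agent.Lib_helper45.HSF.S3A
import Pool.Agent.Lib_helper45.HSF.S3T

/-! # HS block S3B (TLI), helper16: truncation. Cites S3A, S3T, H1C, P0. -/

namespace Pool.Agent.HS

open Complex MeasureTheory Filter Topology
open scoped ENNReal Classical
open Pool.Agent.WA (gd gk)
open Pool.Agent.SEL (NL Adm)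
open Pool.Agent.SQS (hat)
open Pool.Agent.WS (st EE RT cc hl Step)
open Finset.HasAntidiagonal (antidiagonal)

variable {P : Type} (S : PSys P)

/-- the terms of the expansion -/
noncomputable def s3b_u (k : ℕ) (Δ : ℝ) (θ : P → ℝ) (L : ℝ) (Θ η : ℝ → ℝ) (t : ℝ)
    (n : P →₀ ℕ) : ℂ :=
  ∑ m ∈ S.BL (NL L), ∑ l ∈ S.BL (NL L),
      ((be S θ L Θ m * be S θ L Θ l / (√(S.nrm m : ℝ) * √(S.nrm l : ℝ)) *
        (hs θ n / √(S.nrm n : ℝ)) : ℝ) : ℂ) *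
          tau S k Δ L η t (S.nrm n) (S.nrm m) (S.nrm l)

theorem s3b_Tp (k : ℕ) (Δ : ℝ) (θ : P → ℝ) (L : ℝ) (Θ η : ℝ → ℝ) (t : ℝ) (N₀ : ℕ) :
    ∑ n ∈ S.BL (N₀ + 1), s3b_u S k Δ θ L Θ η t n = Tp S k Δ L Θ η t N₀ θ := by
  unfold Tp s3b_u
  refine Finset.sum_congr rfl fun n _ => Finset.sum_congr rfl fun m _ =>
    Finset.sum_congr rfl fun l _ => ?_
  congr 1
  unfold be xm
  congr 1
  ring

theorem s3b_x {θ : P → ℝ} (hθ : ∀ p, |θ p| ≤ √(S.q p : ℝ) + 1 / √(S.q p : ℝ)) {L : ℝ}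
    {Θ : ℝ → ℝ} (hΘ : ∀ x, 0 ≤ Θ x ∧ Θ x ≤ 1) {m : P →₀ ℕ} (hm : m ∈ S.BL (NL L)) :
    |be S θ L Θ m / √(S.nrm m : ℝ)| ≤ (NL L : ℝ) := by
  rw [mem_BL] at hm
  have hmp : (0 : ℝ) < S.nrm m := by exact_mod_cast nrm_pos S m
  have h1 := (triv S hθ m).2
  obtain ⟨h2, h3⟩ := hΘ (Real.log (S.nrm m) / L)
  rw [be, abs_div, abs_mul, abs_of_nonneg h2, abs_of_nonneg (Real.sqrt_nonneg _),
    div_le_iff₀ (Real.sqrt_pos.mpr hmp)]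
  have h4 : (S.nrm m : ℝ) ^ (3 / 2 : ℝ) = S.nrm m * √(S.nrm m : ℝ) := by
    rw [Real.sqrt_eq_rpow, show (3 / 2 : ℝ) = 1 + 1 / 2 by norm_num, Real.rpow_add hmp,
      Real.rpow_one]
  have h5 : (S.nrm m : ℝ) ≤ (NL L : ℝ) := by exact_mod_cast hm.le
  calc |al θ m| * Θ (Real.log (S.nrm m) / L) ≤ (S.nrm m : ℝ) ^ (3 / 2 : ℝ) * 1 :=
        mul_le_mul h1 h3 h2 (by positivity)
    _ = S.nrm m * √(S.nrm m : ℝ) := by rw [h4, mul_one]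
    _ ≤ (NL L : ℝ) * √(S.nrm m : ℝ) := mul_le_mul_of_nonneg_right h5 (Real.sqrt_nonneg _)

theorem s3b_n {θ : P → ℝ} (hθ : ∀ p, |θ p| ≤ √(S.q p : ℝ) + 1 / √(S.q p : ℝ))
    (n : P →₀ ℕ) : |hs θ n / √(S.nrm n : ℝ)| ≤ (S.nrm n : ℝ) := by
  have hmp : (0 : ℝ) < S.nrm n := by exact_mod_cast nrm_pos S n
  have h1 := (triv S hθ n).1
  rw [abs_div, abs_of_nonneg (Real.sqrt_nonneg _), div_le_iff₀ (Real.sqrt_pos.mpr hmp)]
  have h4 : (S.nrm n : ℝ) ^ (3 / 2 : ℝ) = S.nrm n * √(S.nrm n : ℝ) := by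
    rw [Real.sqrt_eq_rpow, show (3 / 2 : ℝ) = 1 + 1 / 2 by norm_num, Real.rpow_add hmp,
      Real.rpow_one]
  rw [← h4]
  exact h1

theorem s3b_GK (k : ℕ) : 0 ≤ GK S k := by
  unfold GK gk
  have : 0 ≤ Real.Gamma ((k : ℝ) / 2) := Real.Gamma_nonneg_of_nonneg (by positivity)
  positivity

theorem s3b_bound {k : ℕ} {Δ : ℝ} {θ : P → ℝ}
    (hθ : ∀ p, |θ p| ≤ √(S.q p : ℝ) + 1 / √(S.q p : ℝ)) (hk : 2 ≤ k) (he : Even k) {L : ℝ}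
    (hL : 0 < L) {Θ : ℝ → ℝ} (hΘ : ∀ x, 0 ≤ Θ x ∧ Θ x ≤ 1) (St : Step) (t : ℝ)
    (n : P →₀ ℕ) : ‖s3b_u S k Δ θ L Θ St.η t n‖ ≤ GK S k * (((S.BL (NL L)).card : ℝ) ^ 2 *
      (NL L : ℝ) ^ 6 * ((S.nrm n : ℝ) ^ 2 *
      (((k : ℝ) / (2 * Real.pi)) ^ S.d * Real.exp Δ / (S.nrm n * Real.exp (3 * L))) ^
        ((k : ℝ) / 2))) := by
  have hn' : (1 : ℝ) ≤ S.nrm n := by exact_mod_cast nrm_pos S n
  have hnp : (0 : ℝ) < S.nrm n := by linarith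
  have hgk : 0 ≤ GK S k := s3b_GK S k
  have hNL : (1 : ℝ) ≤ (NL L : ℝ) := by
    have : 0 < NL L := Nat.ceil_pos.mpr (Real.exp_pos L)
    exact_mod_cast this
  set Q : ℝ := (((k : ℝ) / (2 * Real.pi)) ^ S.d * Real.exp Δ /
    (S.nrm n * Real.exp (3 * L))) ^ ((k : ℝ) / 2) with hQ
  have hQ0 : 0 ≤ Q := by positivity
  set K : ℝ := ((S.BL (NL L)).card : ℝ) with hK
  have hK0 : 0 ≤ K := by positivity
  have h1 : ∀ m ∈ S.BL (NL L), ∀ l ∈ S.BL (NL L),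
      ‖((be S θ L Θ m * be S θ L Θ l / (√(S.nrm m : ℝ) * √(S.nrm l : ℝ)) *
        (hs θ n / √(S.nrm n : ℝ)) : ℝ) : ℂ) *
          tau S k Δ L St.η t (S.nrm n) (S.nrm m) (S.nrm l)‖ ≤
        (NL L : ℝ) ^ 2 * S.nrm n * (GK S k * Q) := by
    intro m hm l hl
    rw [norm_mul, Complex.norm_real, Real.norm_eq_abs]
    have hl2 := (mem_BL S).1 hl
    have h2 := (tau_le S hk he Δ hL St t (nrm_pos S n) (nrm_pos S m) (nrm_pos S l) hl2).2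
    have h3 : |be S θ L Θ m * be S θ L Θ l / (√(S.nrm m : ℝ) * √(S.nrm l : ℝ)) *
        (hs θ n / √(S.nrm n : ℝ))| ≤ (NL L : ℝ) ^ 2 * S.nrm n := by
      have e : be S θ L Θ m * be S θ L Θ l / (√(S.nrm m : ℝ) * √(S.nrm l : ℝ)) =
          (be S θ L Θ m / √(S.nrm m : ℝ)) * (be S θ L Θ l / √(S.nrm l : ℝ)) := by
        rw [mul_div_mul_comm]
      rw [e, abs_mul, abs_mul, pow_two]
      exact mul_le_mul (mul_le_mul (s3b_x S hθ hΘ hm) (s3b_x S hθ hΘ hl) (abs_nonneg _)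
        (by positivity)) (s3b_n S hθ n) (abs_nonneg _) (by positivity)
    exact mul_le_mul h3 h2 (norm_nonneg _) (by positivity)
  calc ‖s3b_u S k Δ θ L Θ St.η t n‖ ≤ ∑ m ∈ S.BL (NL L), ‖∑ l ∈ S.BL (NL L),
        ((be S θ L Θ m * be S θ L Θ l / (√(S.nrm m : ℝ) * √(S.nrm l : ℝ)) *
        (hs θ n / √(S.nrm n : ℝ)) : ℝ) : ℂ) *
          tau S k Δ L St.η t (S.nrm n) (S.nrm m) (S.nrm l)‖ := norm_sum_le _ _
    _ ≤ ∑ m ∈ S.BL (NL L), ∑ l ∈ S.BL (NL L),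
        ‖((be S θ L Θ m * be S θ L Θ l / (√(S.nrm m : ℝ) * √(S.nrm l : ℝ)) *
        (hs θ n / √(S.nrm n : ℝ)) : ℝ) : ℂ) *
          tau S k Δ L St.η t (S.nrm n) (S.nrm m) (S.nrm l)‖ :=
        Finset.sum_le_sum fun m _ => norm_sum_le _ _
    _ ≤ ∑ _m ∈ S.BL (NL L), ∑ _l ∈ S.BL (NL L), (NL L : ℝ) ^ 2 * S.nrm n * (GK S k * Q) :=
        Finset.sum_le_sum fun m hm => Finset.sum_le_sum fun l hl => h1 m hm l hl
    _ = K * (K * ((NL L : ℝ) ^ 2 * S.nrm n * (GK S k * Q))) := by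
        rw [Finset.sum_const, Finset.sum_const, nsmul_eq_mul, nsmul_eq_mul]
    _ = GK S k * (K ^ 2 * (NL L : ℝ) ^ 2 * (S.nrm n * Q)) := by ring
    _ ≤ GK S k * (K ^ 2 * (NL L : ℝ) ^ 6 * ((S.nrm n : ℝ) ^ 2 * Q)) := by
        refine mul_le_mul_of_nonneg_left ?_ hgk
        refine mul_le_mul (mul_le_mul_of_nonneg_left (pow_le_pow_right₀ hNL (by norm_num))
          (by positivity)) ?_ (by positivity) (by positivity)
        refine mul_le_mul_of_nonneg_right ?_ hQ0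
        nlinarith

theorem s3_tail_i {c₁ C₁ : ℝ} (hS : S.Ax c₁ C₁) (Δ : ℝ) {Θ : ℝ → ℝ}
    (hΘ : ∀ x, 0 ≤ Θ x ∧ Θ x ≤ 1)
    (St : Step) (B : ℝ) (hB : 0 < B) :
    ∃ k₀ : ℕ, ∀ k : ℕ, k₀ ≤ k → Even k → ∀ {θ : P → ℝ}, TD S k Δ θ → ∀ L : ℝ,
    L = Real.log k / B → ∀ N₀ : ℕ, N₀ = ⌊(k : ℝ) ^ S.d / (NL L : ℝ) ^ 2⌋₊ → ∀ t : ℝ,
    ‖(∫ v, ff S k Δ θ L Θ v * (St.η (v / (8 * L)) : ℂ) * cexp (t * v * I)) -
      Tp S k Δ L Θ St.η t N₀ θ‖ ≤ GK S k := by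
  obtain ⟨k₀, hk₀⟩ := tail_num S hS Δ B hB
  refine ⟨max k₀ 2, fun k hk he θ H L hL N₀ hN₀ t => ?_⟩
  have hk1 : k₀ ≤ k := (le_max_left _ _).trans hk
  have hk2 : 2 ≤ k := (le_max_right _ _).trans hk
  have hL0 : 0 < L := by
    rw [hL]
    apply div_pos _ hB
    apply Real.log_pos
    exact_mod_cast (by omega : 1 < k)
  have hgk : 0 ≤ GK S k := s3b_GK S k
  obtain ⟨hsm, hle⟩ := hk₀ k hk1 L hL N₀ hN₀
  have h1 : HasSum (s3b_u S k Δ θ L Θ St.η t)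
      (∫ v, ff S k Δ θ L Θ v * (St.η (v / (8 * L)) : ℂ) * cexp (t * v * I)) :=
    s3_exp S (by omega) H hL0 Θ St t
  have h2 : HasSum (fun n => if n ∈ S.BL (N₀ + 1) then s3b_u S k Δ θ L Θ St.η t n else 0)
      (Tp S k Δ L Θ St.η t N₀ θ) := by
    have h3 : HasSum (fun n => if n ∈ S.BL (N₀ + 1) then s3b_u S k Δ θ L Θ St.η t n else 0)
        (∑ n ∈ S.BL (N₀ + 1),
          (if n ∈ S.BL (N₀ + 1) then s3b_u S k Δ θ L Θ St.η t n else 0)) :=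
      hasSum_sum_of_ne_finset_zero (fun b hb => if_neg hb)
    rw [← s3b_Tp S k Δ θ L Θ St.η t N₀]
    convert h3 using 1
    exact Finset.sum_congr rfl fun n hn => (if_pos hn).symm
  have h3 := h1.sub h2
  have h4 := ((hsm.mul_left (((S.BL (NL L)).card : ℝ) ^ 2 * (NL L : ℝ) ^ 6)).mul_left
    (GK S k)).hasSum
  refine (h3.norm_le_of_bounded h4 fun n => ?_).trans ?_
  · by_cases hn : n ∈ S.BL (N₀ + 1)
    · have hn' := (mem_BL S).1 hn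
      have h5 : ¬ (N₀ < S.nrm n) := by omega
      rw [if_pos hn, sub_self, norm_zero, if_neg h5, mul_zero, mul_zero]
    · have hn' : N₀ < S.nrm n := by
        rw [mem_BL] at hn
        omega
      rw [if_neg hn, sub_zero, if_pos hn']
      exact s3b_bound S H.triv hk2 he hL0 hΘ St t n
  · rw [tsum_mul_left, tsum_mul_left]
    calc GK S k * _ ≤ GK S k * 1 := mul_le_mul_of_nonneg_left hle hgk
      _ = GK S k := mul_one _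

end Pool.Agent.HS
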