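import Pool.Agent.Lib_helper45.HS.Defs
import Pool.Agent.Lib_helper98.WSF.M1
import Pool.Agent.Lib_helper45.HSF.H1
import Pool.Agent.Lib_helper45.HSF.M1

/-!
# HS, block M5 (ORT): orthonormality (adaptation of WSF/M5 of helper29; helper47)
-/

set_option autoImplicit false

namespace Pool.Agent.HS

open Complex MeasureTheory Filter Topology
open scoped ENNReal Classical
open Pool.Agent.WA (gd gk)
open Pool.Agent.SEL (NL Adm)
open Pool.Agent.SQS (hat)
open Pool.Agent.WS (st EE RT cc hl Step)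
open Finset.HasAntidiagonal (antidiagonal)

variable {P : Type} (S : PSys P)

theorem m5_prod {N : ℕ} {r : P →₀ ℕ} (hr : r.support ⊆ S.PB N) (X : S.PB N → ℝ) :
    hs (th S X) r = ∏ p : S.PB N, SEL.Uc (2 * Real.cos (X p)) (r p) := by
  unfold hs
  rw [Finsupp.prod_of_support_subset (s := S.PB N) r hr]
  · rw [← Finset.prod_coe_sort (S.PB N)]
    apply Finset.prod_congr rfl
    intro p _
    have : th S X p = 2 * Real.cos (X p) := by
      unfold th
      rw [dif_pos p.2]
    rw [this]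
  · intro p _
    simp [SEL.Uc]

theorem m5_orth {N : ℕ} {r r' : P →₀ ℕ} (hr : r.support ⊆ S.PB N) (hr' : r'.support ⊆ S.PB N) :
    ∫ X, ((hs (th S X) r : ℂ) * (hs (th S X) r' : ℂ)) ∂(mu S N) = if r = r' then 1 else 0 := by
  have h1 : ∀ X : S.PB N → ℝ, ((hs (th S X) r : ℂ) * (hs (th S X) r' : ℂ)) =
      ∏ p : S.PB N, (fun (p : P) (x : ℝ) =>
        ((SEL.Uc (2 * Real.cos x) (r p) *
          SEL.Uc (2 * Real.cos x) (r' p) : ℝ) : ℂ)) p (X p) := by
    intro X
    rw [m5_prod S hr, m5_prod S hr', ← Complex.ofReal_mul, ← Finset.prod_mul_distrib]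
    push_cast
    rfl
  have hm := mu_prod S N (fun (p : P) (x : ℝ) =>
        ((SEL.Uc (2 * Real.cos x) (r p) *
          SEL.Uc (2 * Real.cos x) (r' p) : ℝ) : ℂ))
  rw [integral_congr_ae (Filter.Eventually.of_forall h1), hm]
  have h2 : ∀ p ∈ S.PB N, ∫ x, ((SEL.Uc (2 * Real.cos x) (r p) *
      SEL.Uc (2 * Real.cos x) (r' p) : ℝ) : ℂ) ∂st =
      if r p = r' p then 1 else 0 := by
    intro p _
    rw [integral_complex_ofReal, WS.st_orth]
    split_ifs <;> simp
  rw [Finset.prod_congr rfl h2]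
  by_cases h : r = r'
  · subst h
    simp
  · rw [if_neg h]
    have : ∃ p ∈ S.PB N, r p ≠ r' p := by
      by_contra hcon
      push Not at hcon
      apply h
      ext p
      by_cases hp : p ∈ S.PB N
      · exact hcon p hp
      · rw [Finsupp.notMem_support_iff.1 (fun h0 => hp (hr h0)),
          Finsupp.notMem_support_iff.1 (fun h0 => hp (hr' h0))]
    obtain ⟨p, hp, hne⟩ := this
    exact Finset.prod_eq_zero hp (if_neg hne)

theorem or_l2 {N : ℕ} {R : Finset (P →₀ ℕ)} (hR : ∀ r ∈ R, r.support ⊆ S.PB N)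
    (c : (P →₀ ℕ) → ℂ) :
    ∫ X, ‖∑ r ∈ R, c r * (hs (th S X) r : ℂ)‖ ^ 2 ∂(mu S N) = ∑ r ∈ R, ‖c r‖ ^ 2 := by
  have := mu_prob S N
  have hint : ∀ r ∈ R, ∀ r' ∈ R, Integrable (fun X : S.PB N → ℝ =>
      (hs (th S X) r : ℂ) * (hs (th S X) r' : ℂ)) (mu S N) := by
    intro r hr r' hr'
    refine Integrable.of_bound (C := (S.nrm r : ℝ) * S.nrm r') ?_ ?_
    · apply Continuous.aestronglyMeasurable
      exact (Complex.continuous_ofReal.comp (hs_cont S N r)).mul
        (Complex.continuous_ofReal.comp (hs_cont S N r'))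
    · refine Filter.Eventually.of_forall (fun X => ?_)
      rw [norm_mul, Complex.norm_real, Complex.norm_real, Real.norm_eq_abs, Real.norm_eq_abs]
      exact mul_le_mul (hs_le S (th_le S X) r).1 (hs_le S (th_le S X) r').1 (abs_nonneg _)
        (by positivity)
  have h1 : ∀ X : S.PB N → ℝ, ((‖∑ r ∈ R, c r * (hs (th S X) r : ℂ)‖ ^ 2 : ℝ) : ℂ) =
      ∑ r ∈ R, ∑ r' ∈ R, (c r * starRingEnd ℂ (c r')) *
        ((hs (th S X) r : ℂ) * (hs (th S X) r' : ℂ)) := by
    intro X
    have : ((‖∑ r ∈ R, c r * (hs (th S X) r : ℂ)‖ ^ 2 : ℝ) : ℂ) =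
        (∑ r ∈ R, c r * (hs (th S X) r : ℂ)) *
          starRingEnd ℂ (∑ r ∈ R, c r * (hs (th S X) r : ℂ)) := by
      rw [Complex.mul_conj, Complex.normSq_eq_norm_sq]
    rw [this, map_sum, Finset.sum_mul_sum]
    apply Finset.sum_congr rfl
    intro r _
    apply Finset.sum_congr rfl
    intro r' _
    rw [map_mul, Complex.conj_ofReal]
    ring
  have h2 : ((∫ X, ‖∑ r ∈ R, c r * (hs (th S X) r : ℂ)‖ ^ 2 ∂(mu S N) : ℝ) : ℂ) =
      ((∑ r ∈ R, ‖c r‖ ^ 2 : ℝ) : ℂ) := by
    rw [← integral_complex_ofReal, integral_congr_ae (Filter.Eventually.of_forall h1)]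
    rw [integral_finsetSum]
    · have h3 : ∀ r ∈ R, ∫ X, ∑ r' ∈ R, (c r * starRingEnd ℂ (c r')) *
          ((hs (th S X) r : ℂ) * (hs (th S X) r' : ℂ)) ∂(mu S N) = c r * starRingEnd ℂ (c r) := by
        intro r hr
        rw [integral_finsetSum]
        · rw [Finset.sum_eq_single_of_mem r hr]
          · rw [integral_const_mul, m5_orth S (hR r hr) (hR r hr), if_pos rfl, mul_one]
          · intro r' hr' hne
            rw [integral_const_mul, m5_orth S (hR r hr) (hR r' hr'), if_neg (fun h => hne h.symm),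
              mul_zero]
        · intro r' hr'
          exact (hint r hr r' hr').const_mul _
      rw [Finset.sum_congr rfl h3]
      push_cast
      apply Finset.sum_congr rfl
      intro r _
      rw [Complex.mul_conj, Complex.normSq_eq_norm_sq]
      push_cast
      rfl
    · intro r hr
      apply integrable_finsetSum
      intro r' hr'
      exact (hint r hr r' hr').const_mul _
  exact_mod_cast h2


end Pool.Agent.HS
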