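import Pool.Agent.Lib_helper45.HS.Defs
import Pool.Agent.Lib_helper45.HSF.M5
import Pool.Agent.Lib_helper45.HSF.M6
import Pool.Agent.Lib_helper45.HSF.P0

/-! # HS, block S3C (CMO): from the family to the model. Cites M5, M6, P0. -/

namespace Pool.Agent.HS

open Complex MeasureTheory Filter Topology
open scoped ENNReal Classical
open Pool.Agent.WA (gd gk)
open Pool.Agent.SEL (NL Adm)
open Pool.Agent.SQS (hat)
open Pool.Agent.WS (st EE RT cc hl Step)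
open Finset.HasAntidiagonal (antidiagonal)

variable {P : Type} (S : PSys P)

/-- the coefficients -/
noncomputable def s3c_c (k : ℕ) (Δ L : ℝ) (Θ η : ℝ → ℝ) (t : ℝ) (N₀ : ℕ) (M : P →₀ ℕ) : ℂ :=
  ∑ n ∈ S.BL (N₀ + 1), ∑ m ∈ S.BL (NL L), ∑ l ∈ S.BL (NL L),
    ((xm S L Θ m * xm S L Θ l * CC m l n M / √(S.nrm n : ℝ) : ℝ) : ℂ) *
      tau S k Δ L η t (S.nrm n) (S.nrm m) (S.nrm l)

theorem s3c_exp (k : ℕ) (Δ L : ℝ) (Θ η : ℝ → ℝ) (t : ℝ) (N₀ Y : ℕ) (hY : N₀ * NL L ^ 2 ≤ Y)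
    (θ : P → ℝ) :
    Tp S k Δ L Θ η t N₀ θ =
      ∑ M ∈ S.BL (Y + 1), s3c_c S k Δ L Θ η t N₀ M * (hs θ M : ℂ) := by
  have h1 : ∀ n ∈ S.BL (N₀ + 1), ∀ m ∈ S.BL (NL L), ∀ l ∈ S.BL (NL L),
      al θ m * al θ l * hs θ n = ∑ M ∈ S.BL (Y + 1), CC m l n M * hs θ M := by
    intro n hn m hm l hl
    rw [mem_BL] at hn hm hl
    rw [lin m l n θ]
    apply Finset.sum_subset_zero_on_sdiff
    · intro M hM
      rw [mem_dv] at hM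
      rw [mem_BL, Nat.lt_succ_iff]
      calc S.nrm M ≤ S.nrm (m + l + n) := nrm_mono S hM
        _ = S.nrm m * S.nrm l * S.nrm n := by rw [nrm_add, nrm_add]
        _ ≤ NL L * NL L * N₀ :=
          Nat.mul_le_mul (Nat.mul_le_mul hm.le hl.le) (Nat.lt_succ_iff.mp hn)
        _ = N₀ * NL L ^ 2 := by ring
        _ ≤ Y := hY
    · intro M hM
      rw [Finset.mem_sdiff, mem_dv] at hM
      rw [CC, if_neg hM.2, zero_mul]
    · intro M _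
      rfl
  calc Tp S k Δ L Θ η t N₀ θ = ∑ n ∈ S.BL (N₀ + 1), ∑ m ∈ S.BL (NL L),
        ∑ l ∈ S.BL (NL L), ∑ M ∈ S.BL (Y + 1),
          ((xm S L Θ m * xm S L Θ l * CC m l n M / √(S.nrm n : ℝ) : ℝ) : ℂ) *
            tau S k Δ L η t (S.nrm n) (S.nrm m) (S.nrm l) * (hs θ M : ℂ) := by
        rw [Tp]
        refine Finset.sum_congr rfl fun n hn => Finset.sum_congr rfl fun m hm =>
          Finset.sum_congr rfl fun l hl => ?_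
        rw [h1 n hn m hm l hl, Finset.mul_sum, Finset.sum_div]
        push_cast
        rw [Finset.sum_mul]
        refine Finset.sum_congr rfl fun M _ => ?_
        ring
    _ = ∑ n ∈ S.BL (N₀ + 1), ∑ m ∈ S.BL (NL L),
        ∑ M ∈ S.BL (Y + 1), ∑ l ∈ S.BL (NL L),
          ((xm S L Θ m * xm S L Θ l * CC m l n M / √(S.nrm n : ℝ) : ℝ) : ℂ) *
            tau S k Δ L η t (S.nrm n) (S.nrm m) (S.nrm l) * (hs θ M : ℂ) :=
        Finset.sum_congr rfl fun n _ => Finset.sum_congr rfl fun m _ => Finset.sum_comm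
    _ = ∑ n ∈ S.BL (N₀ + 1), ∑ M ∈ S.BL (Y + 1),
        ∑ m ∈ S.BL (NL L), ∑ l ∈ S.BL (NL L),
          ((xm S L Θ m * xm S L Θ l * CC m l n M / √(S.nrm n : ℝ) : ℝ) : ℂ) *
            tau S k Δ L η t (S.nrm n) (S.nrm m) (S.nrm l) * (hs θ M : ℂ) :=
        Finset.sum_congr rfl fun n _ => Finset.sum_comm
    _ = ∑ M ∈ S.BL (Y + 1), ∑ n ∈ S.BL (N₀ + 1),
        ∑ m ∈ S.BL (NL L), ∑ l ∈ S.BL (NL L),
          ((xm S L Θ m * xm S L Θ l * CC m l n M / √(S.nrm n : ℝ) : ℝ) : ℂ) *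
            tau S k Δ L η t (S.nrm n) (S.nrm m) (S.nrm l) * (hs θ M : ℂ) := Finset.sum_comm
    _ = _ := by
        refine Finset.sum_congr rfl fun M _ => ?_
        rw [s3c_c]
        simp only [Finset.sum_mul]

theorem s3_coef {Δ C E : ℝ} {φ : (P →₀ ℕ) → ℝ} {k : ℕ} (hk : 1 ≤ k) {ι : Type} [Fintype ι]
    {θ : ι → P → ℝ} {ω : ι → ℝ} (F : HFam S Δ C E φ k θ ω) (L : ℝ) (Θ η : ℝ → ℝ) (t : ℝ) (N₀ : ℕ)
    (hN : (N₀ : ℝ) * (NL L : ℝ) ^ 2 ≤ (k : ℝ) ^ S.d) :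
    ∑ i, ω i * ‖Tp S k Δ L Θ η t N₀ (θ i)‖ ^ 2 ≤
      2 * C * ∫ X, ‖Tp S k Δ L Θ η t N₀ (th S X)‖ ^ 2 ∂(mu S (k ^ S.d + 1)) := by
  have hY : N₀ * NL L ^ 2 ≤ k ^ S.d := by exact_mod_cast hN
  have h1 := F.LS (k ^ S.d) (s3c_c S k Δ L Θ η t N₀)
  have h2 := or_l2 S (N := k ^ S.d + 1) (R := S.BL (k ^ S.d + 1))
    (fun r hr => supp_of_nrm S ((mem_BL S).mp hr)) (s3c_c S k Δ L Θ η t N₀)
  have h3 : ∀ X : S.PB (k ^ S.d + 1) → ℝ, ‖Tp S k Δ L Θ η t N₀ (th S X)‖ ^ 2 =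
      ‖∑ r ∈ S.BL (k ^ S.d + 1), s3c_c S k Δ L Θ η t N₀ r * (hs (th S X) r : ℂ)‖ ^ 2 :=
    fun X => by rw [s3c_exp S k Δ L Θ η t N₀ (k ^ S.d) hY]
  simp only [h3]
  rw [h2]
  have hk0 : ((k : ℝ) ^ S.d) ≠ 0 := by
    have : (0 : ℝ) < k := by exact_mod_cast hk
    positivity
  have h4 : C * (1 + ((k ^ S.d : ℕ) : ℝ) / (k : ℝ) ^ S.d) = 2 * C := by
    rw [Nat.cast_pow, div_self hk0]
    ring
  rw [h4] at h1
  refine le_trans (le_of_eq ?_) h1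
  refine Finset.sum_congr rfl fun i _ => ?_
  rw [s3c_exp S k Δ L Θ η t N₀ (k ^ S.d) hY]

end Pool.Agent.HS
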