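import Pool.Agent.Lib_helper45.HS.Defs
import Pool.Agent.Lib_helper45.HSF.G0

/-! # HS, block S3D1 (TRP): `tau_rep` -/

namespace Pool.Agent.HS

open Complex MeasureTheory Filter Topology
open scoped ENNReal Classical
open Pool.Agent.WA (gd gk)
open Pool.Agent.SEL (NL Adm)
open Pool.Agent.SQS (hat)
open Pool.Agent.WS (st EE RT cc hl Step)
open Finset.HasAntidiagonal (antidiagonal)

variable {P : Type} (S : PSys P)

/-- the point `z = (1 + τ i) / (8 L) + t i` -/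
noncomputable def s3d1_z (L t τ : ℝ) : ℂ := (1 + τ * I) / (8 * L) + t * I

theorem s3d1_z_re (L t τ : ℝ) : (s3d1_z L t τ).re = 1 / (8 * L) := by
  unfold s3d1_z
  rw [show ((1 + τ * I) / (8 * L) + t * I : ℂ) =
    ((1 / (8 * L) : ℝ) : ℂ) + ((τ / (8 * L) + t : ℝ) : ℂ) * I by push_cast; ring]
  rw [Complex.add_re, Complex.ofReal_re, Complex.re_ofReal_mul, Complex.I_re, mul_zero, add_zero]

theorem s3d1_z_cont (L t : ℝ) : Continuous (s3d1_z L t) := by
  unfold s3d1_z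
  fun_prop

/-- integrability of the density against a real exponential -/
theorem s3d1_gd_int {k n : ℕ} (hk : 1 ≤ k) (hn : 1 ≤ n) {c : ℝ} (hc : 0 < c) :
    Integrable (fun u : ℝ => GD k n u * Real.exp (c * u)) := by
  have h := (GD_mellin hk hn (z := (c : ℂ)) (by
    rw [Complex.ofReal_re]
    have : (0 : ℝ) ≤ (k : ℝ) / 2 := by positivity
    linarith)).1
  have h2 := h.re
  refine h2.congr (ae_of_all _ fun u => ?_)
  show ((GD k n u : ℂ) * cexp ((c : ℂ) * u)).re = GD k n u * Real.exp (c * u)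
  rw [← Complex.ofReal_mul, ← Complex.ofReal_exp, ← Complex.ofReal_mul, Complex.ofReal_re]

theorem s3d1_inner {k : ℕ} (hk : 1 ≤ k) {n : ℕ} (hn : 1 ≤ n) {z : ℂ} (hz : 0 < z.re) (δ : ℝ) :
    ∫ v : ℝ, (GD k n (v + δ) : ℂ) * cexp (z * v) =
      cexp (-(z * δ)) * (Gamma ((k : ℂ) / 2 + z) *
        ((2 * Real.pi : ℝ) : ℂ) ^ (-((k : ℂ) / 2 + z))) ^ n := by
  have h := (GD_mellin hk hn (z := z) (by
    have : (0 : ℝ) ≤ (k : ℝ) / 2 := by positivity
    linarith)).2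
  rw [← h, ← integral_const_mul]
  have h2 := integral_add_right_eq_self (μ := (volume : Measure ℝ))
    (fun u : ℝ => cexp (-(z * δ)) * ((GD k n u : ℂ) * cexp (z * u))) δ
  rw [← h2]
  refine integral_congr_ae (ae_of_all _ fun v => ?_)
  show (GD k n (v + δ) : ℂ) * cexp (z * v) =
    cexp (-(z * δ)) * ((GD k n (v + δ) : ℂ) * cexp (z * ((v + δ : ℝ) : ℂ)))
  rw [mul_left_comm, ← Complex.exp_add]
  congr 2
  push_cast
  ring

/-- the algebra of the powers -/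
theorem s3d1_alg {n m l : ℕ} (hn : 1 ≤ n) (hm : 1 ≤ m) (hl : 1 ≤ l) (Δ : ℝ) (z G : ℂ) :
    ((1 / (√n * √m * √l) : ℝ) : ℂ) *
      (cexp (-(z * ((Real.log n + Real.log m - Real.log l - Δ : ℝ) : ℂ))) * G) =
      (cexp (Δ * z) * G) *
        ((n : ℂ) ^ (-(1 / 2 + z)) * (m : ℂ) ^ (-(1 / 2 + z)) * (l : ℂ) ^ (-(1 / 2 - z))) := by
  have hn0 : (n : ℂ) ≠ 0 := by exact_mod_cast (by omega : n ≠ 0)
  have hm0 : (m : ℂ) ≠ 0 := by exact_mod_cast (by omega : m ≠ 0)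
  have hl0 : (l : ℂ) ≠ 0 := by exact_mod_cast (by omega : l ≠ 0)
  have hnr : (0 : ℝ) < n := by exact_mod_cast (by omega : 0 < n)
  have hmr : (0 : ℝ) < m := by exact_mod_cast (by omega : 0 < m)
  have hlr : (0 : ℝ) < l := by exact_mod_cast (by omega : 0 < l)
  have e3 : ∀ j : ℕ, 0 < (j : ℝ) → ((√(j : ℝ) : ℝ) : ℂ) = (j : ℂ) ^ (1 / 2 : ℂ) := by
    intro j hj
    rw [Real.sqrt_eq_rpow, Complex.ofReal_cpow hj.le]
    push_cast
    rfl
  have e4 : cexp (-(z * ((Real.log n + Real.log m - Real.log l - Δ : ℝ) : ℂ))) =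
      cexp (Δ * z) * ((n : ℂ) ^ (-z) * (m : ℂ) ^ (-z) * (l : ℂ) ^ z) := by
    rw [Complex.cpow_def_of_ne_zero hn0, Complex.cpow_def_of_ne_zero hm0,
      Complex.cpow_def_of_ne_zero hl0, ← Complex.exp_add, ← Complex.exp_add, ← Complex.exp_add]
    congr 1
    rw [Complex.ofReal_sub, Complex.ofReal_sub, Complex.ofReal_add, ← Complex.natCast_log,
      ← Complex.natCast_log, ← Complex.natCast_log]
    ring
  have e5 : (n : ℂ) ^ (-z) = (n : ℂ) ^ (-(1 / 2 + z)) * (n : ℂ) ^ (1 / 2 : ℂ) := by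
    rw [← Complex.cpow_add _ _ hn0]
    congr 1
    ring
  have e6 : (m : ℂ) ^ (-z) = (m : ℂ) ^ (-(1 / 2 + z)) * (m : ℂ) ^ (1 / 2 : ℂ) := by
    rw [← Complex.cpow_add _ _ hm0]
    congr 1
    ring
  have e7 : (l : ℂ) ^ z = (l : ℂ) ^ (-(1 / 2 - z)) * (l : ℂ) ^ (1 / 2 : ℂ) := by
    rw [← Complex.cpow_add _ _ hl0]
    congr 1
    ring
  have hn2 : (n : ℂ) ^ (1 / 2 : ℂ) ≠ 0 := by
    rw [Complex.cpow_def_of_ne_zero hn0]; exact Complex.exp_ne_zero _
  have hm2 : (m : ℂ) ^ (1 / 2 : ℂ) ≠ 0 := by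
    rw [Complex.cpow_def_of_ne_zero hm0]; exact Complex.exp_ne_zero _
  have hl2 : (l : ℂ) ^ (1 / 2 : ℂ) ≠ 0 := by
    rw [Complex.cpow_def_of_ne_zero hl0]; exact Complex.exp_ne_zero _
  rw [Complex.ofReal_div, Complex.ofReal_mul, Complex.ofReal_mul, Complex.ofReal_one, e3 n hnr,
    e3 m hmr, e3 l hlr, e4, e5, e6, e7]
  field_simp

theorem tau_rep {k : ℕ} (hk : 1 ≤ k) (Δ : ℝ) {L : ℝ} (hL : 0 < L) (St : Step) (t : ℝ)
    {n m l : ℕ} (hn : 1 ≤ n) (hm : 1 ≤ m) (hl : 1 ≤ l) :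
    ((1 / (√n * √m * √l) : ℝ) : ℂ) * tau S k Δ L St.η t n m l =
      ∫ τ : ℝ, St.K τ * (cexp (Δ * ((1 + τ * I) / (8 * L) + t * I)) *
        (Gamma ((k : ℂ) / 2 + ((1 + τ * I) / (8 * L) + t * I)) *
        ((2 * Real.pi : ℝ) : ℂ) ^ (-((k : ℂ) / 2 + ((1 + τ * I) / (8 * L) + t * I)))) ^ S.d) *
        ((n : ℂ) ^ (-(1 / 2 + (1 + τ * I) / (8 * L) + t * I)) *
          (m : ℂ) ^ (-(1 / 2 + (1 + τ * I) / (8 * L) + t * I)) *
          (l : ℂ) ^ (-(1 / 2 - (1 + τ * I) / (8 * L) - t * I))) := by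
  set δ : ℝ := Real.log n + Real.log m - Real.log l - Δ with hδ
  have hd : 1 ≤ S.d := S.d_pos
  have hL8 : (0 : ℝ) < 1 / (8 * L) := by positivity
  have hzre : ∀ τ : ℝ, 0 < (s3d1_z L t τ).re := fun τ => by rw [s3d1_z_re]; exact hL8
  -- the double integral
  have hfc : Continuous (fun p : ℝ × ℝ => (GD k S.d (p.1 + δ) : ℂ) *
      (St.K p.2 * cexp (s3d1_z L t p.2 * p.1))) := by
    have h1 : Continuous (GD k S.d) := GD_cont hk
    have h2 := St.Kc
    have h3 := s3d1_z_cont L t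
    refine ((Complex.continuous_ofReal.comp (h1.comp (by fun_prop)))).mul
      ((h2.comp continuous_snd).mul (Complex.continuous_exp.comp
        ((h3.comp continuous_snd).mul (Complex.continuous_ofReal.comp continuous_fst))))
  have hint : Integrable (fun p : ℝ × ℝ => (GD k S.d (p.1 + δ) : ℂ) *
      (St.K p.2 * cexp (s3d1_z L t p.2 * p.1))) (volume.prod volume) := by
    have h1 : Integrable (fun v : ℝ => GD k S.d (v + δ) * Real.exp (1 / (8 * L) * v)) := by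
      have h0 := (s3d1_gd_int (k := k) (n := S.d) hk hd hL8).comp_add_right δ
      have h00 := h0.const_mul (Real.exp (-(1 / (8 * L) * δ)))
      refine h00.congr (ae_of_all _ fun v => ?_)
      show Real.exp (-(1 / (8 * L) * δ)) *
        (GD k S.d (v + δ) * Real.exp (1 / (8 * L) * (v + δ))) = _
      rw [mul_left_comm, ← Real.exp_add]
      congr 2
      ring
    have h2 := h1.mul_prod St.Ki.norm
    refine h2.mono hfc.aestronglyMeasurable (ae_of_all _ fun p => ?_)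
    rw [norm_mul, norm_mul, norm_mul, Complex.norm_exp, norm_mul, norm_norm, Real.norm_eq_abs,
      Real.norm_eq_abs, Complex.norm_real, Real.norm_eq_abs, abs_of_nonneg (GD_nonneg k _ _),
      abs_of_pos (Real.exp_pos _)]
    have e : (s3d1_z L t p.2 * (p.1 : ℂ)).re = 1 / (8 * L) * p.1 := by
      rw [Complex.re_mul_ofReal, s3d1_z_re]
    rw [e]
    apply le_of_eq
    ring
  have hA : tau S k Δ L St.η t n m l = ∫ v : ℝ, ∫ τ : ℝ, (GD k S.d (v + δ) : ℂ) *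
      (St.K τ * cexp (s3d1_z L t τ * v)) := by
    unfold tau
    refine integral_congr_ae (ae_of_all _ fun v => ?_)
    show (GD k S.d (v + (Real.log n + Real.log m - Real.log l) - Δ) : ℂ) *
      (St.η (v / (8 * L)) : ℂ) * cexp (t * v * I) =
      ∫ τ : ℝ, (GD k S.d (v + δ) : ℂ) * (St.K τ * cexp (s3d1_z L t τ * v))
    rw [St.rep, mul_assoc, ← integral_mul_const, ← integral_const_mul]
    refine integral_congr_ae (ae_of_all _ fun τ => ?_)
    show (GD k S.d (v + (Real.log n + Real.log m - Real.log l) - Δ) : ℂ) *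
      (St.K τ * cexp ((1 + τ * I) * ((v / (8 * L) : ℝ) : ℂ)) * cexp (t * v * I)) =
      (GD k S.d (v + δ) : ℂ) * (St.K τ * cexp (s3d1_z L t τ * v))
    rw [show v + (Real.log n + Real.log m - Real.log l) - Δ = v + δ by rw [hδ]; ring, mul_assoc,
      ← Complex.exp_add]
    congr 2
    unfold s3d1_z
    push_cast
    ring_nf
  rw [hA, integral_integral_swap hint, ← integral_const_mul]
  refine integral_congr_ae (ae_of_all _ fun τ => ?_)
  show ((1 / (√n * √m * √l) : ℝ) : ℂ) *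
    (∫ v : ℝ, (GD k S.d (v + δ) : ℂ) * (St.K τ * cexp (s3d1_z L t τ * v))) = _
  have hB : ∫ v : ℝ, (GD k S.d (v + δ) : ℂ) * (St.K τ * cexp (s3d1_z L t τ * v)) =
      St.K τ * (cexp (-(s3d1_z L t τ * δ)) * (Gamma ((k : ℂ) / 2 + s3d1_z L t τ) *
        ((2 * Real.pi : ℝ) : ℂ) ^ (-((k : ℂ) / 2 + s3d1_z L t τ))) ^ S.d) := by
    rw [← s3d1_inner hk hd (hzre τ) δ, ← integral_const_mul]
    refine integral_congr_ae (ae_of_all _ fun v => ?_)
    show (GD k S.d (v + δ) : ℂ) * (St.K τ * cexp (s3d1_z L t τ * v)) =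
      St.K τ * ((GD k S.d (v + δ) : ℂ) * cexp (s3d1_z L t τ * v))
    ring
  beta_reduce
  rw [hB, mul_left_comm, hδ, s3d1_alg hn hm hl Δ (s3d1_z L t τ)]
  have e1 : (1 / 2 + (1 + τ * I) / (8 * L) + t * I : ℂ) = 1 / 2 + s3d1_z L t τ := by
    unfold s3d1_z; ring
  have e2 : (1 / 2 - (1 + τ * I) / (8 * L) - t * I : ℂ) = 1 / 2 - s3d1_z L t τ := by
    unfold s3d1_z; ring
  rw [e1, e2]
  unfold s3d1_z
  ring

end Pool.Agent.HS
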