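import Pool.Agent.Lib_helper45.HS.Defs
import Pool.Agent.Lib_helper98.WSF.S3D
import Pool.Agent.Lib_helper45.HSF.G0
import Pool.Agent.Lib_helper45.HSF.H1
import Pool.Agent.Lib_helper45.HSF.M1
import Pool.Agent.Lib_helper45.HSF.M10
import Pool.Agent.Lib_helper45.HSF.P0
import Pool.Agent.Lib_helper45.HSF.S3A
import Pool.Agent.Lib_helper45.HSF.S3D1
import Pool.Agent.Lib_helper45.HSF.S3T

/-!
# HS, block S3D: the cusp part in the model (`s3_full`)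
-/

namespace Pool.Agent.HS

open Complex MeasureTheory Filter Topology
open scoped ENNReal Classical
open Pool.Agent.WA (gd gk)
open Pool.Agent.SEL (NL Adm)
open Pool.Agent.SQS (hat)
open Pool.Agent.WS (st EE RT cc hl Step s3d_z s3d_z_re s3d_z_cont s3d_p1_cont s3d_p2_cont
  s3d_p1_norm s3d_p2_norm s3d_half_re s3d_NL)
open Finset.HasAntidiagonal (antidiagonal)

variable {P : Type} (S : PSys P)

/-- the archimedean factor -/
noncomputable def s3d_G (k : ℕ) (Δ L t τ : ℝ) : ℂ :=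
  cexp (Δ * s3d_z L t τ) * (Gamma ((k : ℂ) / 2 + s3d_z L t τ) *
    ((2 * Real.pi : ℝ) : ℂ) ^ (-((k : ℂ) / 2 + s3d_z L t τ))) ^ S.d

theorem s3d_G_cont {k : ℕ} (Δ : ℝ) {L : ℝ} (hL : 0 < L) (t : ℝ) :
    Continuous (s3d_G S k Δ L t) := by
  have hz := s3d_z_cont L t
  have h1 := WS.s3d_G_cont (k := k) hL t
  unfold s3d_G
  refine Continuous.mul (Complex.continuous_exp.comp (continuous_const.mul hz)) ?_
  exact h1.pow S.d

theorem s3d_G_bd {k : ℕ} (hk : 1 ≤ k) (Δ : ℝ) {L : ℝ} (hL : 0 < L) (t τ : ℝ) :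
    ‖s3d_G S k Δ L t τ‖ ≤ Real.exp (Δ * (1 / (8 * L))) *
      ∫ u : ℝ, GD k S.d u * Real.exp (1 / (8 * L) * u) := by
  have h8 : (0 : ℝ) < 1 / (8 * L) := by positivity
  have h := (GD_mellin hk S.d_pos (z := s3d_z L t τ) (by
    rw [s3d_z_re]
    have : (0 : ℝ) ≤ (k : ℝ) / 2 := by positivity
    linarith)).2
  unfold s3d_G
  rw [norm_mul, ← h, Complex.norm_exp, Complex.re_ofReal_mul, s3d_z_re]
  refine mul_le_mul_of_nonneg_left ?_ (Real.exp_pos _).le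
  refine (norm_integral_le_integral_norm _).trans (le_of_eq ?_)
  refine integral_congr_ae (ae_of_all _ fun u => ?_)
  show ‖(GD k S.d u : ℂ) * cexp (s3d_z L t τ * u)‖ = GD k S.d u * Real.exp (1 / (8 * L) * u)
  rw [norm_mul, Complex.norm_exp, Complex.re_mul_ofReal, s3d_z_re, Complex.norm_real,
    Real.norm_eq_abs, abs_of_nonneg (GD_nonneg k S.d u)]

theorem s3d_int {k : ℕ} (hk : 1 ≤ k) (Δ : ℝ) {L : ℝ} (hL : 0 < L) (t : ℝ) (St : Step) {E : ℝ → ℂ}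
    (hE : Continuous E) {M : ℝ} (hM : ∀ τ, ‖E τ‖ ≤ M) :
    Integrable fun τ : ℝ => St.K τ * s3d_G S k Δ L t τ * E τ := by
  have h1 : Integrable fun τ : ℝ => ‖St.K τ‖ *
      ((Real.exp (Δ * (1 / (8 * L))) *
        ∫ u : ℝ, GD k S.d u * Real.exp (1 / (8 * L) * u)) * M) := St.Ki.norm.mul_const _
  refine h1.mono' ((St.Kc.mul (s3d_G_cont S Δ hL t)).mul hE).aestronglyMeasurable
    (ae_of_all _ fun τ => ?_)
  rw [norm_mul, norm_mul, mul_assoc]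
  refine mul_le_mul_of_nonneg_left ?_ (norm_nonneg _)
  exact mul_le_mul (s3d_G_bd S hk Δ hL t τ) (hM τ) (norm_nonneg _)
    ((norm_nonneg _).trans (s3d_G_bd S hk Δ hL t τ))

theorem s3d_E_int {k : ℕ} (hk : 1 ≤ k) (Δ : ℝ) {L : ℝ} (hL : 0 < L) (t : ℝ) (St : Step)
    {n m l : ℕ} (hn : 1 ≤ n) (hm : 1 ≤ m) (hl : 1 ≤ l) :
    Integrable fun τ : ℝ => St.K τ * s3d_G S k Δ L t τ * WS.s3d_E L t n m l τ := by
  refine s3d_int S hk Δ hL t St (((s3d_p1_cont L t hn).mul (s3d_p1_cont L t hm)).mul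
    (s3d_p2_cont L t hl)) (M := (n : ℝ) ^ (-(1 / 2 + 1 / (8 * L))) *
      (m : ℝ) ^ (-(1 / 2 + 1 / (8 * L))) * (l : ℝ) ^ (-(1 / 2 - 1 / (8 * L)))) fun τ => ?_
  unfold WS.s3d_E
  rw [norm_mul, norm_mul, s3d_p1_norm L t hn, s3d_p1_norm L t hm, s3d_p2_norm L t hl]

/-- `tau_rep` in the notation of this file -/
theorem s3d_rep {k : ℕ} (hk : 1 ≤ k) (Δ : ℝ) {L : ℝ} (hL : 0 < L) (St : Step) (t : ℝ) {n m l : ℕ}
    (hn : 1 ≤ n) (hm : 1 ≤ m) (hl : 1 ≤ l) :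
    ∫ τ : ℝ, St.K τ * s3d_G S k Δ L t τ * WS.s3d_E L t n m l τ =
      ((1 / (√n * √m * √l) : ℝ) : ℂ) * tau S k Δ L St.η t n m l := by
  rw [tau_rep S hk Δ hL St t hn hm hl]
  refine integral_congr_ae (ae_of_all _ fun τ => ?_)
  have e1 : (1 / 2 + (1 + τ * I) / (8 * L) + t * I : ℂ) = 1 / 2 + s3d_z L t τ := by
    unfold s3d_z; ring
  have e2 : (1 / 2 - (1 + τ * I) / (8 * L) - t * I : ℂ) = 1 / 2 - s3d_z L t τ := by
    unfold s3d_z; ring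
  beta_reduce
  rw [e1, e2]
  rfl

/-- the summands of the truncated cusp part -/
noncomputable def s3d_T (k : ℕ) (Δ L : ℝ) (Θ η : ℝ → ℝ) (t : ℝ) (θ : P → ℝ) (n : P →₀ ℕ) : ℂ :=
  ∑ m ∈ S.BL (NL L), ∑ l ∈ S.BL (NL L),
    ((xm S L Θ m * xm S L Θ l * (al θ m * al θ l * hs θ n) / √(S.nrm n : ℝ) : ℝ) : ℂ) *
      tau S k Δ L η t (S.nrm n) (S.nrm m) (S.nrm l)

/-- the product of the two mollifiers -/
theorem s3d_mol (L : ℝ) (Θ : ℝ → ℝ) (θ : P → ℝ) (s s' : ℂ) :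
    mol S L Θ θ s * mol S L Θ θ s' = ∑ m ∈ S.BL (NL L), ∑ l ∈ S.BL (NL L),
      ((al θ m * Θ (Real.log (S.nrm m) / L) : ℝ) : ℂ) *
        ((al θ l * Θ (Real.log (S.nrm l) / L) : ℝ) : ℂ) *
        ((S.nrm m : ℂ) ^ (-s) * (S.nrm l : ℂ) ^ (-s')) := by
  unfold mol
  rw [Finset.sum_mul_sum]
  refine Finset.sum_congr rfl fun m _ => Finset.sum_congr rfl fun l _ => ?_
  ring

theorem s3d_term {k : ℕ} (hk : 1 ≤ k) (Δ : ℝ) {L : ℝ} (hL : 0 < L) (t : ℝ) (St : Step)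
    (Θ : ℝ → ℝ) (θ : P → ℝ) (n : P →₀ ℕ) :
    ∫ τ : ℝ, St.K τ * s3d_G S k Δ L t τ *
      ((hs θ n : ℂ) * (S.nrm n : ℂ) ^ (-(1 / 2 + s3d_z L t τ)) *
      (mol S L Θ θ (1 / 2 + s3d_z L t τ) * mol S L Θ θ (1 / 2 - s3d_z L t τ))) =
      s3d_T S k Δ L Θ St.η t θ n := by
  have e : (fun τ : ℝ => St.K τ * s3d_G S k Δ L t τ * ((hs θ n : ℂ) *
      (S.nrm n : ℂ) ^ (-(1 / 2 + s3d_z L t τ)) *
      (mol S L Θ θ (1 / 2 + s3d_z L t τ) * mol S L Θ θ (1 / 2 - s3d_z L t τ)))) =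
      fun τ : ℝ => ∑ m ∈ S.BL (NL L), ∑ l ∈ S.BL (NL L),
        ((hs θ n : ℂ) * (((al θ m * Θ (Real.log (S.nrm m) / L) : ℝ) : ℂ) *
          ((al θ l * Θ (Real.log (S.nrm l) / L) : ℝ) : ℂ))) *
          (St.K τ * s3d_G S k Δ L t τ * WS.s3d_E L t (S.nrm n) (S.nrm m) (S.nrm l) τ) := by
    funext τ
    rw [s3d_mol, Finset.mul_sum, Finset.mul_sum]
    refine Finset.sum_congr rfl fun m _ => ?_
    rw [Finset.mul_sum, Finset.mul_sum]
    refine Finset.sum_congr rfl fun l _ => ?_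
    unfold WS.s3d_E
    ring
  rw [e, integral_finsetSum]
  · unfold s3d_T
    refine Finset.sum_congr rfl fun m hm => ?_
    rw [integral_finsetSum]
    · refine Finset.sum_congr rfl fun l hl => ?_
      rw [integral_const_mul, s3d_rep S hk Δ hL St t (nrm_pos S n) (nrm_pos S m) (nrm_pos S l),
        ← mul_assoc]
      congr 1
      rw [← Complex.ofReal_mul, ← Complex.ofReal_mul, ← Complex.ofReal_mul]
      congr 1
      unfold xm
      have hn0 : (0 : ℝ) < √(S.nrm n : ℝ) := Real.sqrt_pos.mpr (by exact_mod_cast nrm_pos S n)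
      have hm0 : (0 : ℝ) < √(S.nrm m : ℝ) := Real.sqrt_pos.mpr (by exact_mod_cast nrm_pos S m)
      have hl0 : (0 : ℝ) < √(S.nrm l : ℝ) := Real.sqrt_pos.mpr (by exact_mod_cast nrm_pos S l)
      field_simp
    · intro l hl
      exact (s3d_E_int S hk Δ hL t St (nrm_pos S n) (nrm_pos S m) (nrm_pos S l)).const_mul _
  · intro m hm
    refine integrable_finsetSum _ fun l hl => ?_
    exact (s3d_E_int S hk Δ hL t St (nrm_pos S n) (nrm_pos S m) (nrm_pos S l)).const_mul _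

theorem s3d_mol_int {k : ℕ} (hk : 1 ≤ k) (Δ : ℝ) {L : ℝ} (hL : 0 < L) (t : ℝ) (St : Step)
    (Θ : ℝ → ℝ) (θ : P → ℝ) :
    Integrable fun τ : ℝ => St.K τ * s3d_G S k Δ L t τ *
      (mol S L Θ θ (1 / 2 + s3d_z L t τ) * mol S L Θ θ (1 / 2 - s3d_z L t τ)) := by
  have e : (fun τ : ℝ => St.K τ * s3d_G S k Δ L t τ *
      (mol S L Θ θ (1 / 2 + s3d_z L t τ) * mol S L Θ θ (1 / 2 - s3d_z L t τ))) =
      fun τ : ℝ => ∑ m ∈ S.BL (NL L), ∑ l ∈ S.BL (NL L),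
        (((al θ m * Θ (Real.log (S.nrm m) / L) : ℝ) : ℂ) *
          ((al θ l * Θ (Real.log (S.nrm l) / L) : ℝ) : ℂ)) *
          (St.K τ * s3d_G S k Δ L t τ * WS.s3d_E L t 1 (S.nrm m) (S.nrm l) τ) := by
    funext τ
    rw [s3d_mol, Finset.mul_sum]
    refine Finset.sum_congr rfl fun m _ => ?_
    rw [Finset.mul_sum]
    refine Finset.sum_congr rfl fun l _ => ?_
    unfold WS.s3d_E
    rw [Nat.cast_one, Complex.one_cpow]
    ring
  rw [e]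
  refine integrable_finsetSum _ fun m hm => integrable_finsetSum _ fun l hl => ?_
  exact (s3d_E_int S hk Δ hL t St le_rfl (nrm_pos S m) (nrm_pos S l)).const_mul _

/-- the full integral as a sum over the ideals composed of the primes of the model -/
theorem s3d_hasSum {k : ℕ} (hk : 1 ≤ k) (Δ : ℝ) {L : ℝ} (hL : 0 < L) (t : ℝ) (St : Step)
    (Θ : ℝ → ℝ) (N : ℕ) {θ : P → ℝ} (hθ : ∀ p, |θ p| ≤ 2) :
    HasSum (fun n : {m : P →₀ ℕ // m.support ⊆ S.PB N} => s3d_T S k Δ L Θ St.η t θ n.1)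
      (∫ τ : ℝ, St.K τ * s3d_G S k Δ L t τ * (LX S N θ (1 / 2 + s3d_z L t τ) *
        mol S L Θ θ (1 / 2 + s3d_z L t τ) * mol S L Θ θ (1 / 2 - s3d_z L t τ))) := by
  have h8 : (0 : ℝ) < 1 / (8 * L) := by positivity
  have hre : ∀ τ : ℝ, 0 < (1 / 2 + s3d_z L t τ).re := by
    intro τ
    rw [Complex.add_re, s3d_z_re, s3d_half_re]
    linarith
  have hcP : Countable P := P_countable S
  have hH := s3d_mol_int S hk Δ hL t St Θ θ
  set F : {m : P →₀ ℕ // m.support ⊆ S.PB N} → ℝ → ℂ := fun n τ => St.K τ * s3d_G S k Δ L t τ *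
    ((hs θ n.1 : ℂ) * (S.nrm n.1 : ℂ) ^ (-(1 / 2 + s3d_z L t τ)) *
      (mol S L Θ θ (1 / 2 + s3d_z L t τ) * mol S L Θ θ (1 / 2 - s3d_z L t τ))) with hF
  have hFn : ∀ n, ∀ τ : ℝ, F n τ =
      ((hs θ n.1 : ℂ) * (S.nrm n.1 : ℂ) ^ (-(1 / 2 + s3d_z L t τ))) *
        (St.K τ * s3d_G S k Δ L t τ *
      (mol S L Θ θ (1 / 2 + s3d_z L t τ) * mol S L Θ θ (1 / 2 - s3d_z L t τ))) := by
    intro n τ
    rw [hF]
    ring
  have hnorm : ∀ n, ∀ τ : ℝ, ‖F n τ‖ =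
      (|hs θ n.1| * (S.nrm n.1 : ℝ) ^ (-(1 / 2 + 1 / (8 * L)))) * ‖St.K τ * s3d_G S k Δ L t τ *
      (mol S L Θ θ (1 / 2 + s3d_z L t τ) * mol S L Θ θ (1 / 2 - s3d_z L t τ))‖ := by
    intro n τ
    rw [hFn, norm_mul, norm_mul, s3d_p1_norm L t (nrm_pos S n.1), Complex.norm_real,
      Real.norm_eq_abs]
  have hmeas : ∀ n, AEStronglyMeasurable (F n) volume := by
    intro n
    have e : F n = fun τ => ((hs θ n.1 : ℂ) * (S.nrm n.1 : ℂ) ^ (-(1 / 2 + s3d_z L t τ))) *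
        (St.K τ * s3d_G S k Δ L t τ *
      (mol S L Θ θ (1 / 2 + s3d_z L t τ) * mol S L Θ θ (1 / 2 - s3d_z L t τ))) := funext (hFn n)
    rw [e]
    exact (continuous_const.mul (s3d_p1_cont L t (nrm_pos S n.1))).aestronglyMeasurable.mul
      hH.aestronglyMeasurable
  have hint : ∀ n, Integrable (F n) := by
    intro n
    refine (hH.norm.const_mul (|hs θ n.1| * (S.nrm n.1 : ℝ) ^ (-(1 / 2 + 1 / (8 * L))))).mono'
      (hmeas n) (ae_of_all _ fun τ => ?_)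
    rw [hnorm]
  have hsum : Summable fun n => ∫ τ, ‖F n τ‖ := by
    have h0 := (hs_euler S hθ N (s := ((1 / 2 + 1 / (8 * L) : ℝ) : ℂ)) (by
      rw [Complex.ofReal_re]; linarith)).1
    have h1 := h0.mul_right (∫ τ, ‖St.K τ * s3d_G S k Δ L t τ *
      (mol S L Θ θ (1 / 2 + s3d_z L t τ) * mol S L Θ θ (1 / 2 - s3d_z L t τ))‖)
    refine h1.congr fun n => ?_
    have e : (fun τ => ‖F n τ‖) = fun τ => (|hs θ n.1| *
      (S.nrm n.1 : ℝ) ^ (-(1 / 2 + 1 / (8 * L)))) * ‖St.K τ * s3d_G S k Δ L t τ *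
      (mol S L Θ θ (1 / 2 + s3d_z L t τ) * mol S L Θ θ (1 / 2 - s3d_z L t τ))‖ := funext (hnorm n)
    rw [e, integral_const_mul, norm_mul, Complex.norm_real, Real.norm_eq_abs,
      Complex.norm_natCast_cpow_of_pos (nrm_pos S n.1), Complex.neg_re, Complex.ofReal_re]
  have key := hasSum_integral_of_summable_integral_norm hint hsum
  have e1 : ∀ n : {m : P →₀ ℕ // m.support ⊆ S.PB N}, ∫ τ, F n τ =
      s3d_T S k Δ L Θ St.η t θ n.1 := fun n => s3d_term S hk Δ hL t St Θ θ n.1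
  have e2 : (∫ τ, ∑' n, F n τ) = ∫ τ : ℝ, St.K τ * s3d_G S k Δ L t τ *
      (LX S N θ (1 / 2 + s3d_z L t τ) *
        mol S L Θ θ (1 / 2 + s3d_z L t τ) * mol S L Θ θ (1 / 2 - s3d_z L t τ)) := by
    refine integral_congr_ae (ae_of_all _ fun τ => ?_)
    beta_reduce
    rw [← (hs_euler S hθ N (hre τ)).2]
    have e3 : (fun n : {m : P →₀ ℕ // m.support ⊆ S.PB N} => F n τ) =
      fun n : {m : P →₀ ℕ // m.support ⊆ S.PB N} =>
      ((hs θ n.1 : ℂ) * (S.nrm n.1 : ℂ) ^ (-(1 / 2 + s3d_z L t τ))) *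
        (St.K τ * s3d_G S k Δ L t τ *
      (mol S L Θ θ (1 / 2 + s3d_z L t τ) * mol S L Θ θ (1 / 2 - s3d_z L t τ))) :=
      funext fun n => hFn n τ
    rw [e3, tsum_mul_right]
    ring
  rw [← e2]
  exact key.congr_fun fun n => (e1 n).symm

theorem s3d_xm {L : ℝ} {Θ : ℝ → ℝ} (hΘ : ∀ x, 0 ≤ Θ x ∧ Θ x ≤ 1) (m : P →₀ ℕ) :
    |xm S L Θ m| ≤ 1 := by
  unfold xm
  have h1 : (1 : ℝ) ≤ √(S.nrm m : ℝ) :=
    Real.one_le_sqrt.mpr (by exact_mod_cast nrm_pos S m)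
  rw [abs_div, abs_of_nonneg (hΘ _).1, abs_of_pos (by linarith)]
  rw [div_le_one (by linarith)]
  linarith [(hΘ (Real.log (S.nrm m) / L)).2]

theorem s3d_GK_pos {k : ℕ} (hk : 1 ≤ k) : 0 < GK S k := by
  have hgk : 0 < gk k := by
    unfold gk
    have h1 : (0 : ℝ) < (k : ℝ) / 2 := by
      have : (1 : ℝ) ≤ k := by exact_mod_cast hk
      linarith
    have := Real.Gamma_pos_of_pos h1
    positivity
  unfold GK
  exact pow_pos hgk _

theorem s3d_T_bd {k : ℕ} (hk : 2 ≤ k) (he : Even k) (Δ : ℝ) {L : ℝ} (hL : 0 < L) (t : ℝ)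
    (St : Step) {Θ : ℝ → ℝ} (hΘ : ∀ x, 0 ≤ Θ x ∧ Θ x ≤ 1) {θ : P → ℝ} (hθ : ∀ p, |θ p| ≤ 2)
    (n : P →₀ ℕ) : ‖s3d_T S k Δ L Θ St.η t θ n‖ ≤
      GK S k * (((S.BL (NL L)).card : ℝ) ^ 2 * (NL L : ℝ) ^ 6 * ((S.nrm n : ℝ) ^ 2 *
      (((k : ℝ) / (2 * Real.pi)) ^ S.d * Real.exp Δ / (S.nrm n * Real.exp (3 * L))) ^
        ((k : ℝ) / 2))) := by
  set q : ℝ := (((k : ℝ) / (2 * Real.pi)) ^ S.d * Real.exp Δ / (S.nrm n * Real.exp (3 * L))) ^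
        ((k : ℝ) / 2) with hq
  have hq0 : 0 ≤ q := by rw [hq]; positivity
  have hgk : 0 < GK S k := s3d_GK_pos S (by omega)
  have hNL : (1 : ℝ) ≤ NL L := by exact_mod_cast s3d_NL L
  have hnr : (1 : ℝ) ≤ S.nrm n := by exact_mod_cast nrm_pos S n
  have hn0 : (0 : ℝ) < S.nrm n := by linarith
  have hsq : (1 : ℝ) ≤ √(S.nrm n : ℝ) := Real.one_le_sqrt.mpr hnr
  have hterm : ∀ m ∈ S.BL (NL L), ∀ l ∈ S.BL (NL L),
      ‖((xm S L Θ m * xm S L Θ l * (al θ m * al θ l * hs θ n) / √(S.nrm n : ℝ) : ℝ) : ℂ) *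
        tau S k Δ L St.η t (S.nrm n) (S.nrm m) (S.nrm l)‖ ≤
        GK S k * ((NL L : ℝ) ^ 6 * ((S.nrm n : ℝ) ^ 2 * q)) := by
    intro m hm l hl
    have hm2 := (mem_BL S).mp hm
    have hl2 := (mem_BL S).mp hl
    have h1 := (tau_le S hk he Δ hL St t (nrm_pos S n) (nrm_pos S m) (nrm_pos S l) hl2).2
    rw [← hq] at h1
    have a1 := s3d_xm S (L := L) hΘ m
    have a2 := s3d_xm S (L := L) hΘ l
    have a3 : |al θ m| ≤ NL L := ((hs_le S hθ m).2).trans (by exact_mod_cast hm2.le)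
    have a4 : |al θ l| ≤ NL L := ((hs_le S hθ l).2).trans (by exact_mod_cast hl2.le)
    have a5 : |hs θ n| ≤ S.nrm n := (hs_le S hθ n).1
    rw [norm_mul, Complex.norm_real, Real.norm_eq_abs, abs_div, abs_mul, abs_mul, abs_mul,
      abs_mul, abs_of_pos (by linarith : (0 : ℝ) < √(S.nrm n : ℝ))]
    have b1 : |xm S L Θ m| * |xm S L Θ l| * (|al θ m| * |al θ l| * |hs θ n|) ≤
        1 * 1 * ((NL L : ℝ) * NL L * S.nrm n) := by
      gcongr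
    have b1' : |xm S L Θ m| * |xm S L Θ l| * (|al θ m| * |al θ l| * |hs θ n|) /
        √(S.nrm n : ℝ) ≤ 1 * 1 * ((NL L : ℝ) * NL L * S.nrm n) :=
      (div_le_self (by positivity) hsq).trans b1
    have b2 := mul_le_mul b1' h1 (norm_nonneg _) (by positivity)
    refine b2.trans ?_
    have b4 : (S.nrm n : ℝ) ≤ (S.nrm n : ℝ) ^ 2 := by nlinarith
    have b5 : (NL L : ℝ) ^ 2 ≤ (NL L : ℝ) ^ 6 := pow_le_pow_right₀ hNL (by norm_num)
    calc 1 * 1 * ((NL L : ℝ) * NL L * S.nrm n) * (GK S k * q)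
        = GK S k * ((NL L : ℝ) ^ 2 * (S.nrm n * q)) := by ring
      _ ≤ GK S k * ((NL L : ℝ) ^ 6 * ((S.nrm n : ℝ) ^ 2 * q)) := by gcongr
  unfold s3d_T
  calc ‖∑ m ∈ S.BL (NL L), ∑ l ∈ S.BL (NL L),
      ((xm S L Θ m * xm S L Θ l * (al θ m * al θ l * hs θ n) / √(S.nrm n : ℝ) : ℝ) : ℂ) *
        tau S k Δ L St.η t (S.nrm n) (S.nrm m) (S.nrm l)‖
      ≤ ∑ m ∈ S.BL (NL L), ∑ l ∈ S.BL (NL L),
        GK S k * ((NL L : ℝ) ^ 6 * ((S.nrm n : ℝ) ^ 2 * q)) := by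
        refine (norm_sum_le _ _).trans (Finset.sum_le_sum fun m hm => ?_)
        refine (norm_sum_le _ _).trans (Finset.sum_le_sum fun l hl => ?_)
        exact hterm m hm l hl
    _ = GK S k * (((S.BL (NL L)).card : ℝ) ^ 2 * (NL L : ℝ) ^ 6 *
          ((S.nrm n : ℝ) ^ 2 * q)) := by
        rw [Finset.sum_const, Finset.sum_const, nsmul_eq_mul, nsmul_eq_mul]
        ring

theorem s3_full {c₁ C₁ : ℝ} (hS : S.Ax c₁ C₁) (Δ : ℝ) {Θ : ℝ → ℝ}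
    (hΘ : ∀ x, 0 ≤ Θ x ∧ Θ x ≤ 1) (St : Step) (B : ℝ) (hB : 0 < B) :
    ∃ k₀ : ℕ, ∀ k : ℕ, k₀ ≤ k → Even k → ∀ L : ℝ, L = Real.log k / B → ∀ N₀ : ℕ,
    N₀ = ⌊(k : ℝ) ^ S.d / (NL L : ℝ) ^ 2⌋₊ → ∀ (t : ℝ) (X : S.PB (k ^ S.d + 1) → ℝ),
    ‖(∫ τ : ℝ, St.K τ * (cexp (Δ * ((1 + τ * I) / (8 * L) + t * I)) *
        (Gamma ((k : ℂ) / 2 + ((1 + τ * I) / (8 * L) + t * I)) *
        ((2 * Real.pi : ℝ) : ℂ) ^ (-((k : ℂ) / 2 + ((1 + τ * I) / (8 * L) + t * I)))) ^ S.d) *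
        (LX S (k ^ S.d + 1) (th S X) (1 / 2 + (1 + τ * I) / (8 * L) + t * I) *
          mol S L Θ (th S X) (1 / 2 + (1 + τ * I) / (8 * L) + t * I) *
          mol S L Θ (th S X) (1 / 2 - (1 + τ * I) / (8 * L) - t * I))) -
      Tp S k Δ L Θ St.η t N₀ (th S X)‖ ≤ GK S k := by
  obtain ⟨k₀, hk₀⟩ := tail_num S hS Δ B hB
  refine ⟨max k₀ 2, fun k hk he L hLB N₀ hN₀ t X => ?_⟩
  have hk0 : k₀ ≤ k := (le_max_left _ _).trans hk
  have hk2 : 2 ≤ k := (le_max_right _ _).trans hk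
  have hk1 : 1 ≤ k := by omega
  have hL : 0 < L := by
    rw [hLB]
    refine div_pos (Real.log_pos ?_) hB
    exact_mod_cast (by omega : 1 < k)
  obtain ⟨hsum, htail⟩ := hk₀ k hk0 L hLB N₀ hN₀
  have hgk : 0 < GK S k := s3d_GK_pos S hk1
  have hNL : (1 : ℝ) ≤ NL L := by exact_mod_cast s3d_NL L
  have hθ : ∀ p, |th S X p| ≤ 2 := th_le S X
  have hfull := s3d_hasSum S hk1 Δ hL t St Θ (k ^ S.d + 1) hθ
  have eI : (∫ τ : ℝ, St.K τ * (cexp (Δ * ((1 + τ * I) / (8 * L) + t * I)) *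
        (Gamma ((k : ℂ) / 2 + ((1 + τ * I) / (8 * L) + t * I)) *
        ((2 * Real.pi : ℝ) : ℂ) ^ (-((k : ℂ) / 2 + ((1 + τ * I) / (8 * L) + t * I)))) ^ S.d) *
        (LX S (k ^ S.d + 1) (th S X) (1 / 2 + (1 + τ * I) / (8 * L) + t * I) *
          mol S L Θ (th S X) (1 / 2 + (1 + τ * I) / (8 * L) + t * I) *
          mol S L Θ (th S X) (1 / 2 - (1 + τ * I) / (8 * L) - t * I))) =
      ∫ τ : ℝ, St.K τ * s3d_G S k Δ L t τ *
        (LX S (k ^ S.d + 1) (th S X) (1 / 2 + s3d_z L t τ) *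
        mol S L Θ (th S X) (1 / 2 + s3d_z L t τ) *
        mol S L Θ (th S X) (1 / 2 - s3d_z L t τ)) := by
    refine integral_congr_ae (ae_of_all _ fun τ => ?_)
    have e1 : (1 / 2 + (1 + τ * I) / (8 * L) + t * I : ℂ) = 1 / 2 + s3d_z L t τ := by
      unfold s3d_z; ring
    have e2 : (1 / 2 - (1 + τ * I) / (8 * L) - t * I : ℂ) = 1 / 2 - s3d_z L t τ := by
      unfold s3d_z; ring
    beta_reduce
    rw [e1, e2]
    rfl
  rw [eI]
  set Full : ℂ := ∫ τ : ℝ, St.K τ * s3d_G S k Δ L t τ *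
        (LX S (k ^ S.d + 1) (th S X) (1 / 2 + s3d_z L t τ) *
        mol S L Θ (th S X) (1 / 2 + s3d_z L t τ) *
        mol S L Θ (th S X) (1 / 2 - s3d_z L t τ)) with hFull
  set T : (P →₀ ℕ) → ℂ := s3d_T S k Δ L Θ St.η t (th S X) with hT
  set A : Set (P →₀ ℕ) := {m | m.support ⊆ S.PB (k ^ S.d + 1)} with hA
  set T' : (P →₀ ℕ) → ℂ := A.indicator T with hT'
  have hind : HasSum T' Full := by
    rw [hT', ← hasSum_subtype_iff_indicator]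
    exact hfull
  -- the truncated sum
  have hN0k : N₀ ≤ k ^ S.d := by
    rw [hN₀]
    refine Nat.floor_le_of_le ?_
    rw [Nat.cast_pow]
    refine div_le_self (by positivity) ?_
    exact one_le_pow₀ hNL
  have hsm : ∀ n : P →₀ ℕ, n ∈ S.BL (N₀ + 1) → n ∈ A := by
    intro n h1
    have h2 := (mem_BL S).mp h1
    exact supp_of_nrm S (lt_of_lt_of_le h2 (by omega))
  have hTp : Tp S k Δ L Θ St.η t N₀ (th S X) = ∑ n ∈ S.BL (N₀ + 1), T' n := by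
    have h1 : Tp S k Δ L Θ St.η t N₀ (th S X) = ∑ n ∈ S.BL (N₀ + 1), T n := rfl
    rw [h1]
    refine Finset.sum_congr rfl fun n hn => ?_
    rw [hT', Set.indicator_of_mem (hsm n hn)]
  have hfin : HasSum (fun n => if n ∈ S.BL (N₀ + 1) then T' n else 0)
      (∑ n ∈ S.BL (N₀ + 1), T' n) := by
    have h1 : HasSum (fun n => if n ∈ S.BL (N₀ + 1) then T' n else 0)
        (∑ n ∈ S.BL (N₀ + 1), (fun n => if n ∈ S.BL (N₀ + 1) then T' n else 0) n) :=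
      hasSum_sum_of_ne_finset_zero (fun n hn => if_neg hn)
    have h2 : ∑ n ∈ S.BL (N₀ + 1), (fun n => if n ∈ S.BL (N₀ + 1) then T' n else 0) n =
        ∑ n ∈ S.BL (N₀ + 1), T' n := Finset.sum_congr rfl fun n hn => if_pos hn
    rw [← h2]
    exact h1
  have hsub := hind.sub hfin
  have hdiff : Full - Tp S k Δ L Θ St.η t N₀ (th S X) =
      ∑' n : P →₀ ℕ, (T' n - if n ∈ S.BL (N₀ + 1) then T' n else 0) := by
    rw [hTp]
    exact hsub.tsum_eq.symm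
  rw [hdiff]
  have hb : ∀ n : P →₀ ℕ, ‖T' n - (if n ∈ S.BL (N₀ + 1) then T' n else 0)‖ ≤
      GK S k * (((S.BL (NL L)).card : ℝ) ^ 2 * (NL L : ℝ) ^ 6 *
        (if N₀ < S.nrm n then (S.nrm n : ℝ) ^ 2 *
      (((k : ℝ) / (2 * Real.pi)) ^ S.d * Real.exp Δ / (S.nrm n * Real.exp (3 * L))) ^
        ((k : ℝ) / 2) else 0)) := by
    intro n
    by_cases hn : N₀ < S.nrm n
    · have hn' : n ∉ S.BL (N₀ + 1) := by
        rw [mem_BL S]
        omega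
      rw [if_neg hn', if_pos hn, sub_zero]
      refine le_trans ?_ (s3d_T_bd S hk2 he Δ hL t St hΘ hθ n)
      rw [hT']
      exact norm_indicator_le_norm_self _ _
    · have hn' : n ∈ S.BL (N₀ + 1) := by
        rw [mem_BL S]
        omega
      rw [if_pos hn', if_neg hn, sub_self, norm_zero, mul_zero, mul_zero]
  have hS2 := (hsum.hasSum.mul_left (((S.BL (NL L)).card : ℝ) ^ 2 * (NL L : ℝ) ^ 6)).mul_left
    (GK S k)
  refine (tsum_of_norm_bounded hS2 hb).trans ?_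
  exact (mul_le_mul_of_nonneg_left htail hgk.le).trans (le_of_eq (mul_one _))


end Pool.Agent.HS
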