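import Pool.Agent.Lib_helper45.HS.Defs
import Pool.Agent.Lib_helper45.HSF.G0
import Pool.Agent.Lib_helper45.HSF.H1
import Pool.Agent.Lib_helper45.HSF.M1
import Pool.Agent.Lib_helper45.HSF.M11
import Pool.Agent.Lib_helper45.HSF.P0
import Pool.Agent.Lib_helper45.HSF.S3D

/-! # Hilbert-Selberg, block S3E: the mean value in the model -/

namespace Pool.Agent.HS

open Complex MeasureTheory Filter Topology
open scoped ENNReal Classical
open Pool.Agent.WA (gd gk)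
open Pool.Agent.SEL (NL Adm)
open Pool.Agent.SQS (hat)
open Pool.Agent.WS (st EE RT cc hl Step)
open Finset.HasAntidiagonal (antidiagonal)

variable {P : Type} (S : PSys P)

theorem s3e_EE_low {θ : ℝ} (hθ : |θ| ≤ 2) {x : ℂ} (hx : ‖x‖ < 1) : (1 - ‖x‖) ^ 2 ≤ ‖EE θ x‖ := by
  have h1 := abs_le.1 hθ
  set φ : ℝ := Real.arccos (θ / 2) with hφ
  have hc : Real.cos φ = θ / 2 := Real.cos_arccos (by linarith) (by linarith)
  have hc' : (θ : ℂ) = cexp (φ * I) + cexp (-(φ * I)) := by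
    have h2 : (θ : ℂ) = 2 * Complex.cos φ := by
      rw [← Complex.ofReal_cos, hc]; push_cast; ring
    rw [h2, Complex.two_cos]
    ring_nf
  have hp : cexp (φ * I) * cexp (-(φ * I)) = 1 := by
    rw [← Complex.exp_add]; simp
  have e : EE θ x = (1 - cexp (φ * I) * x) * (1 - cexp (-(φ * I)) * x) := by
    unfold EE
    rw [hc']
    linear_combination (-x ^ 2) * hp
  have n1 : ‖cexp (φ * I)‖ = 1 := Complex.norm_exp_ofReal_mul_I φ
  have n2 : ‖cexp (-(φ * I))‖ = 1 := by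
    rw [show -(φ * I) = ((-φ : ℝ) : ℂ) * I by push_cast; ring]
    exact Complex.norm_exp_ofReal_mul_I _
  have a1 : 1 - ‖x‖ ≤ ‖1 - cexp (φ * I) * x‖ := by
    have := norm_sub_norm_le (1 : ℂ) (cexp (φ * I) * x)
    rw [norm_mul, n1, norm_one, one_mul] at this
    exact this
  have a2 : 1 - ‖x‖ ≤ ‖1 - cexp (-(φ * I)) * x‖ := by
    have := norm_sub_norm_le (1 : ℂ) (cexp (-(φ * I)) * x)
    rw [norm_mul, n2, norm_one, one_mul] at this
    exact this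
  rw [e, norm_mul, pow_two]
  exact mul_le_mul a1 a2 (by linarith) (norm_nonneg _)

/-- the point `z = (1 + τ i) / (8 L) + t i` -/
noncomputable def s3e_z (L t τ : ℝ) : ℂ := (1 + τ * I) / (8 * L) + t * I

theorem s3e_z_re (L t τ : ℝ) : (s3e_z L t τ).re = 1 / (8 * L) := by
  unfold s3e_z
  rw [show ((1 + τ * I) / (8 * L) + t * I : ℂ) =
    ((1 / (8 * L) : ℝ) : ℂ) + ((τ / (8 * L) + t : ℝ) : ℂ) * I by push_cast; ring]
  rw [Complex.add_re, Complex.ofReal_re, Complex.re_ofReal_mul, Complex.I_re, mul_zero, add_zero]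

theorem s3e_z_cont (L t : ℝ) : Continuous (s3e_z L t) := by
  unfold s3e_z
  fun_prop

/-- the gamma factor at `z` -/
noncomputable def s3e_G (d k : ℕ) (Δ L t τ : ℝ) : ℂ :=
  cexp (Δ * s3e_z L t τ) * (Gamma ((k : ℂ) / 2 + s3e_z L t τ) *
    ((2 * Real.pi : ℝ) : ℂ) ^ (-((k : ℂ) / 2 + s3e_z L t τ))) ^ d

theorem s3e_p1_cont (L t : ℝ) {n : ℕ} (hn : 1 ≤ n) :
    Continuous fun τ : ℝ => (n : ℂ) ^ (-(1 / 2 + s3e_z L t τ)) := by
  have hz := s3e_z_cont L t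
  refine Continuous.const_cpow (by fun_prop) (Or.inl ?_)
  exact_mod_cast (by omega : n ≠ 0)

theorem s3e_p2_cont (L t : ℝ) {n : ℕ} (hn : 1 ≤ n) :
    Continuous fun τ : ℝ => (n : ℂ) ^ (-(1 / 2 - s3e_z L t τ)) := by
  have hz := s3e_z_cont L t
  refine Continuous.const_cpow (by fun_prop) (Or.inl ?_)
  exact_mod_cast (by omega : n ≠ 0)

theorem s3e_half_re : (1 / 2 : ℂ).re = 1 / 2 := by
  rw [show (1 / 2 : ℂ) = ((1 / 2 : ℝ) : ℂ) by push_cast; ring, Complex.ofReal_re]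

theorem s3e_x_norm (L t : ℝ) {n : ℕ} (hn : 1 ≤ n) (τ : ℝ) :
    ‖(n : ℂ) ^ (-(1 / 2 + s3e_z L t τ))‖ = (n : ℝ) ^ (-(1 / 2 + 1 / (8 * L))) := by
  rw [Complex.norm_natCast_cpow_of_pos (by omega), Complex.neg_re, Complex.add_re, s3e_z_re,
    s3e_half_re]

/-- Cauchy-Schwarz with a weight -/
theorem s3e_cs {w f : ℝ → ℝ} (hw : ∀ x, 0 ≤ w x) (h1 : Integrable w)
    (h2 : Integrable fun x => w x * f x) (h3 : Integrable fun x => w x * f x ^ 2) :
    (∫ x, w x * f x) ^ 2 ≤ ((∫ x, w x) + 1) * ∫ x, w x * f x ^ 2 := by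
  have ha : 0 ≤ ∫ x, w x := integral_nonneg hw
  have hc : 0 ≤ ∫ x, w x * f x ^ 2 := integral_nonneg fun x => mul_nonneg (hw x) (sq_nonneg _)
  set a := ∫ x, w x with hadef
  set b := ∫ x, w x * f x with hb
  set c := ∫ x, w x * f x ^ 2 with hcdef
  have key : ∀ y : ℝ, 0 ≤ c - 2 * y * b + y ^ 2 * a := by
    intro y
    have e : c - 2 * y * b + y ^ 2 * a = ∫ x, w x * (f x - y) ^ 2 := by
      have e1 : (fun x => w x * (f x - y) ^ 2) =
          fun x => (w x * f x ^ 2 - 2 * y * (w x * f x)) + y ^ 2 * w x := by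
        funext x; ring
      have i1 : Integrable fun x => w x * f x ^ 2 - 2 * y * (w x * f x) :=
        h3.sub (h2.const_mul _)
      rw [e1, integral_add i1 (h1.const_mul _), integral_sub h3 (h2.const_mul _),
        integral_const_mul, integral_const_mul]
    rw [e]
    exact integral_nonneg fun x => mul_nonneg (hw x) (sq_nonneg _)
  have h := key (b / (a + 1))
  have ha1 : 0 < a + 1 := by linarith
  have e2 : c - 2 * (b / (a + 1)) * b + (b / (a + 1)) ^ 2 * a ≤ c - b ^ 2 / (a + 1) := by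
    have e3 : (b / (a + 1)) ^ 2 * a ≤ (b / (a + 1)) ^ 2 * (a + 1) := by
      have := sq_nonneg (b / (a + 1))
      nlinarith
    have e4 : (b / (a + 1)) ^ 2 * (a + 1) = b ^ 2 / (a + 1) := by
      field_simp
    have e5 : 2 * (b / (a + 1)) * b = 2 * (b ^ 2 / (a + 1)) := by
      field_simp
    linarith
  have h4 : b ^ 2 / (a + 1) ≤ c := by linarith
  rw [div_le_iff₀ ha1] at h4
  linarith

theorem s3e_q_one (p : P) : 1 ≤ S.q p := le_trans one_le_two (q_two S p)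

theorem s3e_x_lt {L : ℝ} (hL : 0 < L) (p : P) :
    (S.q p : ℝ) ^ (-(1 / 2 + 1 / (8 * L))) < 1 := by
  have h2 : (1 : ℝ) < S.q p := by
    have := q_two S p
    exact_mod_cast (by omega : 1 < S.q p)
  refine Real.rpow_lt_one_of_one_lt_of_neg h2 ?_
  have : (0 : ℝ) < 1 / (8 * L) := by positivity
  linarith

/-- uniform bound for the Euler product -/
noncomputable def s3e_ML (N : ℕ) (L : ℝ) : ℝ :=
  ∏ p ∈ S.PB N, ((1 - (S.q p : ℝ) ^ (-(1 / 2 + 1 / (8 * L)))) ^ 2)⁻¹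

theorem s3e_LX {N : ℕ} {L : ℝ} (hL : 0 < L) (t τ : ℝ) {θ : P → ℝ} (hθ : ∀ p, |θ p| ≤ 2) :
    ‖LX S N θ (1 / 2 + s3e_z L t τ)‖ ≤ s3e_ML S N L := by
  unfold LX s3e_ML
  rw [norm_prod]
  refine Finset.prod_le_prod (fun p _ => norm_nonneg _) fun p hp => ?_
  have hx : ‖(S.q p : ℂ) ^ (-(1 / 2 + s3e_z L t τ))‖ < 1 := by
    rw [s3e_x_norm L t (s3e_q_one S p)]
    exact s3e_x_lt S hL p
  have h := s3e_EE_low (hθ p) hx
  rw [norm_inv]
  rw [s3e_x_norm L t (s3e_q_one S p)] at h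
  have h0 : 0 < (1 - (S.q p : ℝ) ^ (-(1 / 2 + 1 / (8 * L)))) ^ 2 := by
    have := s3e_x_lt S hL p
    have : 0 < 1 - (S.q p : ℝ) ^ (-(1 / 2 + 1 / (8 * L))) := by linarith
    positivity
  exact inv_anti₀ h0 h

/-- uniform bound for the mollifier -/
noncomputable def s3e_MM (L σ : ℝ) : ℝ := ∑ m ∈ S.BL (NL L), (S.nrm m : ℝ) * (S.nrm m : ℝ) ^ (-σ)

theorem s3e_mol {L : ℝ} {Θ : ℝ → ℝ} (hΘ : ∀ x, 0 ≤ Θ x ∧ Θ x ≤ 1) {θ : P → ℝ}
    (hθ : ∀ p, |θ p| ≤ 2) (s : ℂ) : ‖mol S L Θ θ s‖ ≤ s3e_MM S L s.re := by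
  unfold mol s3e_MM
  refine (norm_sum_le _ _).trans (Finset.sum_le_sum fun m hm => ?_)
  have hm1 : 0 < S.nrm m := nrm_pos S m
  rw [norm_mul, Complex.norm_real, Real.norm_eq_abs, abs_mul,
    Complex.norm_natCast_cpow_of_pos hm1, Complex.neg_re]
  refine mul_le_mul_of_nonneg_right ?_ (by positivity)
  have h1 := (hs_le S hθ m).2
  have h2 := hΘ (Real.log (S.nrm m) / L)
  rw [abs_of_nonneg h2.1]
  calc |al θ m| * Θ (Real.log (S.nrm m) / L) ≤ S.nrm m * 1 :=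
        mul_le_mul h1 h2.2 h2.1 (Nat.cast_nonneg _)
    _ = S.nrm m := mul_one _

theorem s3e_conj (L : ℝ) (Θ : ℝ → ℝ) (θ : P → ℝ) (s : ℂ) :
    ‖mol S L Θ θ (starRingEnd ℂ s)‖ = ‖mol S L Θ θ s‖ := by
  have e : mol S L Θ θ (starRingEnd ℂ s) = starRingEnd ℂ (mol S L Θ θ s) := by
    unfold mol
    rw [map_sum]
    refine Finset.sum_congr rfl fun m hm => ?_
    rw [map_mul, Complex.conj_ofReal]
    congr 1
    have hm0 : (S.nrm m : ℂ).arg ≠ Real.pi := by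
      rw [Complex.natCast_arg]
      exact Real.pi_pos.ne
    have h := Complex.cpow_conj (S.nrm m : ℂ) (-s) hm0
    rw [Complex.conj_natCast, map_neg] at h
    exact h
  rw [e, Complex.norm_conj]

/-- the integrand of the model -/
noncomputable def s3e_P (N : ℕ) (L t : ℝ) (Θ : ℝ → ℝ) (θ : P → ℝ) (τ : ℝ) : ℂ :=
  LX S N θ (1 / 2 + s3e_z L t τ) * mol S L Θ θ (1 / 2 + s3e_z L t τ) *
    mol S L Θ θ (1 / 2 - s3e_z L t τ)

theorem s3e_P_bd {N : ℕ} {L : ℝ} (hL : 0 < L) (t : ℝ) {Θ : ℝ → ℝ}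
    (hΘ : ∀ x, 0 ≤ Θ x ∧ Θ x ≤ 1) {θ : P → ℝ} (hθ : ∀ p, |θ p| ≤ 2) (τ : ℝ) :
    ‖s3e_P S N L t Θ θ τ‖ ≤ s3e_ML S N L * s3e_MM S L (1 / 2 + 1 / (8 * L)) *
      s3e_MM S L (1 / 2 - 1 / (8 * L)) := by
  unfold s3e_P
  have h1 := s3e_LX S (N := N) hL t τ hθ
  have h2 := s3e_mol S (L := L) hΘ hθ (1 / 2 + s3e_z L t τ)
  have h3 := s3e_mol S (L := L) hΘ hθ (1 / 2 - s3e_z L t τ)
  rw [Complex.add_re, s3e_z_re, s3e_half_re] at h2
  rw [Complex.sub_re, s3e_z_re, s3e_half_re] at h3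
  rw [norm_mul, norm_mul]
  exact mul_le_mul (mul_le_mul h1 h2 (norm_nonneg _) ((norm_nonneg _).trans h1)) h3
    (norm_nonneg _) (mul_nonneg ((norm_nonneg _).trans h1) ((norm_nonneg _).trans h2))

theorem s3e_P_meas (N : ℕ) (L t : ℝ) (Θ : ℝ → ℝ) :
    Measurable fun q : (S.PB N → ℝ) × ℝ => s3e_P S N L t Θ (th S q.1) q.2 := by
  have hz := s3e_z_cont L t
  have hz2 : Measurable fun q : (S.PB N → ℝ) × ℝ => s3e_z L t q.2 :=
    (hz.comp continuous_snd).measurable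
  have hpow1 : ∀ m : ℕ, 1 ≤ m → Measurable fun q : (S.PB N → ℝ) × ℝ =>
      (m : ℂ) ^ (-(1 / 2 + s3e_z L t q.2)) := fun m hm =>
    ((s3e_p1_cont L t hm).comp continuous_snd).measurable
  have hpow2 : ∀ m : ℕ, 1 ≤ m → Measurable fun q : (S.PB N → ℝ) × ℝ =>
      (m : ℂ) ^ (-(1 / 2 - s3e_z L t q.2)) := fun m hm =>
    ((s3e_p2_cont L t hm).comp continuous_snd).measurable
  have hal : ∀ m : P →₀ ℕ, Measurable fun q : (S.PB N → ℝ) × ℝ =>
      ((al (th S q.1) m * Θ (Real.log (S.nrm m) / L) : ℝ) : ℂ) := fun m =>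
    (Complex.continuous_ofReal.comp (((al_cont S N m).comp continuous_fst).mul
      continuous_const)).measurable
  have h1 : Measurable fun q : (S.PB N → ℝ) × ℝ =>
      LX S N (th S q.1) (1 / 2 + s3e_z L t q.2) := by
    unfold LX
    refine Finset.measurable_prod _ fun p hp => ?_
    refine Measurable.inv ?_
    unfold EE
    have hth : Measurable fun q : (S.PB N → ℝ) × ℝ => ((th S q.1 p : ℝ) : ℂ) :=
      (Complex.continuous_ofReal.comp ((th_cont S N p).comp continuous_fst)).measurable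
    exact (measurable_const.sub (hth.mul (hpow1 (S.q p) (s3e_q_one S p)))).add
      ((hpow1 (S.q p) (s3e_q_one S p)).pow_const 2)
  have h2 : Measurable fun q : (S.PB N → ℝ) × ℝ =>
      mol S L Θ (th S q.1) (1 / 2 + s3e_z L t q.2) := by
    unfold mol
    exact Finset.measurable_sum _ fun m hm => (hal m).mul (hpow1 (S.nrm m) (nrm_pos S m))
  have h3 : Measurable fun q : (S.PB N → ℝ) × ℝ =>
      mol S L Θ (th S q.1) (1 / 2 - s3e_z L t q.2) := by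
    unfold mol
    exact Finset.measurable_sum _ fun m hm => (hal m).mul (hpow2 (S.nrm m) (nrm_pos S m))
  exact (h1.mul h2).mul h3

theorem s3e_P_meas1 (N : ℕ) (L t : ℝ) (Θ : ℝ → ℝ) (X : S.PB N → ℝ) :
    Measurable fun τ : ℝ => s3e_P S N L t Θ (th S X) τ := by
  have h : Measurable (Function.uncurry fun (X : S.PB N → ℝ) (τ : ℝ) =>
    s3e_P S N L t Θ (th S X) τ) := s3e_P_meas S N L t Θ
  exact h.of_uncurry_left

/-- the mean square at one point -/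
theorem s3e_point {Θ : ℝ → ℝ} (hA : Adm Θ) (hΘ : ∀ x, 0 ≤ Θ x ∧ Θ x ≤ 1)
    (h1 : ∀ x, 1 ≤ x → Θ x = 0) : ∃ C : ℝ, 0 < C ∧ ∀ (L t τ : ℝ) (N : ℕ), 1 ≤ L → NL L ≤ N →
    ∫ X, ‖s3e_P S N L t Θ (th S X) τ‖ ^ 2 ∂(mu S N) ≤ C := by
  obtain ⟨C, hC, hmb⟩ := mb_final S hA h1
  refine ⟨C, hC, fun L t τ N hL hN => ?_⟩
  have hL0 : 0 < L := by linarith
  have := mu_prob S N
  have hre : 1 / 2 + 1 / (8 * L) ≤ (1 / 2 + s3e_z L t τ).re := by
    rw [Complex.add_re, s3e_z_re, s3e_half_re]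
  have b1 := hmb L N (1 / 2 + s3e_z L t τ) 0 hL hN le_rfl zero_le_one (Or.inr hre)
  have b2 := hmb L N (1 / 2 + s3e_z L t τ) (1 / 4) hL hN (by norm_num) (by norm_num) (Or.inr hre)
  have ez : ((0 : ℝ) : ℂ) / (L : ℂ) = 0 := by simp
  rw [ez, sub_zero] at b1
  have econj : (1 / 2 + s3e_z L t τ - ((1 / 4 : ℝ) : ℂ) / (L : ℂ) : ℂ) =
      starRingEnd ℂ (1 / 2 - s3e_z L t τ) := by
    have e0 : s3e_z L t τ = ((1 / (8 * L) : ℝ) : ℂ) + ((τ / (8 * L) + t : ℝ) : ℂ) * I := by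
      unfold s3e_z; push_cast; ring
    have e1 : (1 / 2 : ℂ) = ((1 / 2 : ℝ) : ℂ) := by push_cast; ring
    rw [e0, e1, map_sub, map_add, map_mul, Complex.conj_ofReal, Complex.conj_ofReal,
      Complex.conj_ofReal, Complex.conj_I]
    have hLc : (L : ℂ) ≠ 0 := Complex.ofReal_ne_zero.mpr hL0.ne'
    push_cast
    field_simp
    ring
  rw [econj] at b2
  simp only [s3e_conj S] at b2
  -- integrability
  have hθ : ∀ X : S.PB N → ℝ, ∀ p, |th S X p| ≤ 2 := fun X => th_le S X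
  have hc1 : Continuous fun X : S.PB N → ℝ => LX S N (th S X) (1 / 2 + s3e_z L t τ) :=
    LX_cont S N (by linarith [show (0 : ℝ) < 1 / (8 * L) by positivity])
  have hc2 : Continuous fun X : S.PB N → ℝ => mol S L Θ (th S X) (1 / 2 + s3e_z L t τ) :=
    mol_cont S L Θ N _
  have hc3 : Continuous fun X : S.PB N → ℝ => mol S L Θ (th S X) (1 / 2 - s3e_z L t τ) :=
    mol_cont S L Θ N _
  have i1 : Integrable (fun X : S.PB N → ℝ => ‖LX S N (th S X) (1 / 2 + s3e_z L t τ)‖ ^ 2 *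
      ‖mol S L Θ (th S X) (1 / 2 + s3e_z L t τ)‖ ^ 4) (mu S N) := by
    refine (integrable_const (s3e_ML S N L ^ 2 * s3e_MM S L (1 / 2 + s3e_z L t τ).re ^ 4)).mono'
      ((hc1.norm.pow 2).mul (hc2.norm.pow 4)).aestronglyMeasurable (ae_of_all _ fun X => ?_)
    rw [Real.norm_eq_abs, abs_of_nonneg (by positivity)]
    have a1 := s3e_LX S (N := N) hL0 t τ (hθ X)
    have a2 := s3e_mol S (L := L) hΘ (hθ X) (1 / 2 + s3e_z L t τ)
    gcongr
  have i2 : Integrable (fun X : S.PB N → ℝ => ‖LX S N (th S X) (1 / 2 + s3e_z L t τ)‖ ^ 2 *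
      ‖mol S L Θ (th S X) (1 / 2 - s3e_z L t τ)‖ ^ 4) (mu S N) := by
    refine (integrable_const (s3e_ML S N L ^ 2 * s3e_MM S L (1 / 2 - s3e_z L t τ).re ^ 4)).mono'
      ((hc1.norm.pow 2).mul (hc3.norm.pow 4)).aestronglyMeasurable (ae_of_all _ fun X => ?_)
    rw [Real.norm_eq_abs, abs_of_nonneg (by positivity)]
    have a1 := s3e_LX S (N := N) hL0 t τ (hθ X)
    have a2 := s3e_mol S (L := L) hΘ (hθ X) (1 / 2 - s3e_z L t τ)
    gcongr
  calc ∫ X, ‖s3e_P S N L t Θ (th S X) τ‖ ^ 2 ∂(mu S N)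
      ≤ ∫ X, (1 / 2) * (‖LX S N (th S X) (1 / 2 + s3e_z L t τ)‖ ^ 2 *
          ‖mol S L Θ (th S X) (1 / 2 + s3e_z L t τ)‖ ^ 4 +
          ‖LX S N (th S X) (1 / 2 + s3e_z L t τ)‖ ^ 2 *
          ‖mol S L Θ (th S X) (1 / 2 - s3e_z L t τ)‖ ^ 4) ∂(mu S N) := by
        refine integral_mono_of_nonneg (ae_of_all _ fun X => by positivity)
          ((i1.add i2).const_mul _) (ae_of_all _ fun X => ?_)
        show ‖s3e_P S N L t Θ (th S X) τ‖ ^ 2 ≤ (1 / 2) * (‖LX S N (th S X) (1 / 2 + s3e_z L t τ)‖ ^ 2 *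
          ‖mol S L Θ (th S X) (1 / 2 + s3e_z L t τ)‖ ^ 4 +
          ‖LX S N (th S X) (1 / 2 + s3e_z L t τ)‖ ^ 2 *
          ‖mol S L Θ (th S X) (1 / 2 - s3e_z L t τ)‖ ^ 4)
        unfold s3e_P
        rw [norm_mul, norm_mul]
        set A := ‖LX S N (th S X) (1 / 2 + s3e_z L t τ)‖
        set P := ‖mol S L Θ (th S X) (1 / 2 + s3e_z L t τ)‖
        set Q := ‖mol S L Θ (th S X) (1 / 2 - s3e_z L t τ)‖
        have hh : 0 ≤ A ^ 2 * (P ^ 2 - Q ^ 2) ^ 2 := by positivity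
        nlinarith
    _ = (1 / 2) * ((∫ X, ‖LX S N (th S X) (1 / 2 + s3e_z L t τ)‖ ^ 2 *
          ‖mol S L Θ (th S X) (1 / 2 + s3e_z L t τ)‖ ^ 4 ∂(mu S N)) +
          ∫ X, ‖LX S N (th S X) (1 / 2 + s3e_z L t τ)‖ ^ 2 *
          ‖mol S L Θ (th S X) (1 / 2 - s3e_z L t τ)‖ ^ 4 ∂(mu S N)) := by
        rw [integral_const_mul, integral_add i1 i2]
    _ ≤ C := by linarith

theorem s3e_eI (k : ℕ) (Δ L t : ℝ) (Θ : ℝ → ℝ) (St : Step) (θ : P → ℝ) (N : ℕ) :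
    (∫ τ : ℝ, St.K τ * (cexp (Δ * ((1 + τ * I) / (8 * L) + t * I)) *
        (Gamma ((k : ℂ) / 2 + ((1 + τ * I) / (8 * L) + t * I)) *
        ((2 * Real.pi : ℝ) : ℂ) ^ (-((k : ℂ) / 2 + ((1 + τ * I) / (8 * L) + t * I)))) ^ S.d) *
        (LX S N θ (1 / 2 + (1 + τ * I) / (8 * L) + t * I) *
          mol S L Θ θ (1 / 2 + (1 + τ * I) / (8 * L) + t * I) *
          mol S L Θ θ (1 / 2 - (1 + τ * I) / (8 * L) - t * I))) =
      ∫ τ : ℝ, St.K τ * s3e_G S.d k Δ L t τ * s3e_P S N L t Θ θ τ := by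
  refine integral_congr_ae (ae_of_all _ fun τ => ?_)
  have e1 : (1 / 2 + (1 + τ * I) / (8 * L) + t * I : ℂ) = 1 / 2 + s3e_z L t τ := by
    unfold s3e_z; ring
  have e2 : (1 / 2 - (1 + τ * I) / (8 * L) - t * I : ℂ) = 1 / 2 - s3e_z L t τ := by
    unfold s3e_z; ring
  beta_reduce
  rw [e1, e2]
  rfl

theorem s3_model {c₁ C₁ : ℝ} (hS : S.Ax c₁ C₁) (Δ : ℝ) {Θ : ℝ → ℝ} (hA : Adm Θ) (hΘ : ∀ x, 0 ≤ Θ x ∧ Θ x ≤ 1)
    (h1 : ∀ x, 1 ≤ x → Θ x = 0) (St : Step) (B : ℝ) (hB : 0 < B) :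
    ∃ (C : ℝ) (k₀ : ℕ), 0 < C ∧ ∀ k : ℕ, k₀ ≤ k → Even k → ∀ L : ℝ, L = Real.log k / B →
    ∀ N₀ : ℕ, N₀ = ⌊(k : ℝ) ^ S.d / (NL L : ℝ) ^ 2⌋₊ → ∀ t : ℝ,
    ∫ X, ‖Tp S k Δ L Θ St.η t N₀ (th S X)‖ ^ 2 ∂(mu S (k ^ S.d + 1)) ≤ C * GK S k ^ 2 := by
  obtain ⟨k1, hfull⟩ := s3_full S hS Δ hΘ St B hB
  obtain ⟨C1, k2, hC1, hgam⟩ := gam_bd S Δ B hB
  obtain ⟨C2, hC2, hpt⟩ := s3e_point S hA hΘ h1
  set κ : ℝ := ∫ τ, ‖St.K τ‖ with hκ
  have hκ0 : 0 ≤ κ := integral_nonneg fun τ => norm_nonneg _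
  refine ⟨2 * (C1 ^ 2 * (κ + 1) * (κ * C2)) + 2, max (max k1 k2) (max ⌈Real.exp B⌉₊ 2),
    by positivity, fun k hk he L hLB N₀ hN₀ t => ?_⟩
  have hk1 : k1 ≤ k := (le_max_left _ _).trans ((le_max_left _ _).trans hk)
  have hk2 : k2 ≤ k := (le_max_right _ _).trans ((le_max_left _ _).trans hk)
  have hkB : ⌈Real.exp B⌉₊ ≤ k := (le_max_left _ _).trans ((le_max_right _ _).trans hk)
  have hk22 : 2 ≤ k := (le_max_right _ _).trans ((le_max_right _ _).trans hk)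
  have hkr : (2 : ℝ) ≤ k := by exact_mod_cast hk22
  have hk0 : (0 : ℝ) < k := by linarith
  have hlogk : 0 < Real.log k := Real.log_pos (by linarith)
  have hL : 0 < L := by rw [hLB]; exact div_pos hlogk hB
  have := mu_prob S (k ^ S.d + 1)
  rcases lt_or_ge (k ^ S.d + 1) (NL L) with hB1 | hNLk
  · -- the truncated sum is empty
    have h3 : ((k : ℝ) ^ S.d) + 1 < NL L := by exact_mod_cast hB1
    have hkd : (0 : ℝ) < (k : ℝ) ^ S.d := by positivity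
    have hNL0 : (0 : ℝ) < NL L := by linarith
    have h4 : N₀ = 0 := by
      rw [hN₀, Nat.floor_eq_zero, div_lt_one (by positivity)]
      nlinarith
    have hBL : S.BL 1 = ∅ := by
      ext m
      rw [mem_BL]
      have := nrm_pos S m
      simp only [Finset.notMem_empty, iff_false]
      omega
    have h5 : ∀ X : S.PB (k ^ S.d + 1) → ℝ, ‖Tp S k Δ L Θ St.η t N₀ (th S X)‖ ^ 2 = 0 := by
      intro X
      unfold Tp
      rw [h4, zero_add, hBL, Finset.sum_empty, norm_zero]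
      norm_num
    simp only [h5, integral_zero]
    positivity
  · have hL1 : 1 ≤ L := by
      rw [hLB, le_div_iff₀ hB, one_mul, Real.le_log_iff_exp_le hk0]
      exact (Nat.le_ceil _).trans (by exact_mod_cast hkB)
    have hgk : 0 < GK S k := by
      unfold GK gk
      have := Real.Gamma_pos_of_pos (show (0 : ℝ) < (k : ℝ) / 2 by linarith)
      positivity
    have hG : ∀ τ : ℝ, ‖s3e_G S.d k Δ L t τ‖ ≤ C1 * GK S k := by
      intro τ
      refine hgam k hk2 (s3e_z L t τ) ?_ ?_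
      · rw [s3e_z_re]; positivity
      · rw [s3e_z_re, hLB]
        apply le_of_eq
        field_simp
    set MP : ℝ := s3e_ML S (k ^ S.d + 1) L * s3e_MM S L (1 / 2 + 1 / (8 * L)) *
      s3e_MM S L (1 / 2 - 1 / (8 * L)) with hMP
    have hP : ∀ (X : S.PB (k ^ S.d + 1) → ℝ) (τ : ℝ),
        ‖s3e_P S (k ^ S.d + 1) L t Θ (th S X) τ‖ ≤ MP := fun X τ =>
      s3e_P_bd S (N := k ^ S.d + 1) hL t hΘ (th_le S X) τ
    have hmeas := s3e_P_meas S (k ^ S.d + 1) L t Θ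
    have hKm : Measurable fun q : (S.PB (k ^ S.d + 1) → ℝ) × ℝ => ‖St.K q.2‖ :=
      (St.Kc.norm.comp continuous_snd).measurable
    have hPm : ∀ X : S.PB (k ^ S.d + 1) → ℝ,
        Measurable fun τ : ℝ => s3e_P S (k ^ S.d + 1) L t Θ (th S X) τ := fun X =>
      s3e_P_meas1 S (k ^ S.d + 1) L t Θ X
    -- integrability in `τ`
    have hw2 : ∀ X : S.PB (k ^ S.d + 1) → ℝ,
        Integrable fun τ : ℝ => ‖St.K τ‖ * ‖s3e_P S (k ^ S.d + 1) L t Θ (th S X) τ‖ := by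
      intro X
      refine (St.Ki.norm.mul_const MP).mono' (St.Kc.norm.measurable.mul
        (hPm X).norm).aestronglyMeasurable (ae_of_all _ fun τ => ?_)
      rw [Real.norm_eq_abs, abs_of_nonneg (by positivity)]
      exact mul_le_mul_of_nonneg_left (hP X τ) (norm_nonneg _)
    have hw3 : ∀ X : S.PB (k ^ S.d + 1) → ℝ,
        Integrable fun τ : ℝ => ‖St.K τ‖ * ‖s3e_P S (k ^ S.d + 1) L t Θ (th S X) τ‖ ^ 2 := by
      intro X
      refine (St.Ki.norm.mul_const (MP ^ 2)).mono' (St.Kc.norm.measurable.mul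
        ((hPm X).norm.pow_const 2)).aestronglyMeasurable (ae_of_all _ fun τ => ?_)
      rw [Real.norm_eq_abs, abs_of_nonneg (by positivity)]
      refine mul_le_mul_of_nonneg_left ?_ (norm_nonneg _)
      exact pow_le_pow_left₀ (norm_nonneg _) (hP X τ) 2
    -- the pointwise bound
    have hfl : ∀ X : S.PB (k ^ S.d + 1) → ℝ, ‖Tp S k Δ L Θ St.η t N₀ (th S X)‖ ^ 2 ≤
        2 * ((C1 * GK S k) ^ 2 * ((κ + 1) *
          ∫ τ, ‖St.K τ‖ * ‖s3e_P S (k ^ S.d + 1) L t Θ (th S X) τ‖ ^ 2)) + 2 * GK S k ^ 2 := by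
      intro X
      have hf := hfull k hk1 he L hLB N₀ hN₀ t X
      rw [s3e_eI] at hf
      set Full : ℂ := ∫ τ : ℝ, St.K τ * s3e_G S.d k Δ L t τ * s3e_P S (k ^ S.d + 1) L t Θ (th S X) τ with hFull
      have hFn : ‖Full‖ ≤ (C1 * GK S k) * ∫ τ, ‖St.K τ‖ * ‖s3e_P S (k ^ S.d + 1) L t Θ (th S X) τ‖ := by
        rw [hFull, ← integral_const_mul]
        refine (norm_integral_le_integral_norm _).trans ?_
        refine integral_mono_of_nonneg (ae_of_all _ fun τ => norm_nonneg _)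
          ((hw2 X).const_mul _) (ae_of_all _ fun τ => ?_)
        show ‖St.K τ * s3e_G S.d k Δ L t τ * s3e_P S (k ^ S.d + 1) L t Θ (th S X) τ‖ ≤
          C1 * GK S k * (‖St.K τ‖ * ‖s3e_P S (k ^ S.d + 1) L t Θ (th S X) τ‖)
        rw [norm_mul, norm_mul]
        calc ‖St.K τ‖ * ‖s3e_G S.d k Δ L t τ‖ * ‖s3e_P S (k ^ S.d + 1) L t Θ (th S X) τ‖
            ≤ ‖St.K τ‖ * (C1 * GK S k) * ‖s3e_P S (k ^ S.d + 1) L t Θ (th S X) τ‖ := by
              gcongr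
              exact hG τ
          _ = C1 * GK S k * (‖St.K τ‖ * ‖s3e_P S (k ^ S.d + 1) L t Θ (th S X) τ‖) := by ring
      have hcs := s3e_cs (fun τ => norm_nonneg (St.K τ)) St.Ki.norm (hw2 X) (hw3 X)
      rw [← hκ] at hcs
      have hT : ‖Tp S k Δ L Θ St.η t N₀ (th S X)‖ ≤ ‖Full‖ + GK S k := by
        have h2 := norm_sub_norm_le (Tp S k Δ L Θ St.η t N₀ (th S X)) Full
        rw [norm_sub_rev] at h2
        linarith
      have hF0 := norm_nonneg Full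
      have hT0 := norm_nonneg (Tp S k Δ L Θ St.η t N₀ (th S X))
      have hF2 : ‖Full‖ ^ 2 ≤ (C1 * GK S k) ^ 2 * ((κ + 1) *
          ∫ τ, ‖St.K τ‖ * ‖s3e_P S (k ^ S.d + 1) L t Θ (th S X) τ‖ ^ 2) := by
        calc ‖Full‖ ^ 2 ≤ ((C1 * GK S k) *
              ∫ τ, ‖St.K τ‖ * ‖s3e_P S (k ^ S.d + 1) L t Θ (th S X) τ‖) ^ 2 :=
              pow_le_pow_left₀ hF0 hFn 2
          _ = (C1 * GK S k) ^ 2 *
              (∫ τ, ‖St.K τ‖ * ‖s3e_P S (k ^ S.d + 1) L t Θ (th S X) τ‖) ^ 2 := by ring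
          _ ≤ _ := mul_le_mul_of_nonneg_left hcs (by positivity)
      have hT2 : ‖Tp S k Δ L Θ St.η t N₀ (th S X)‖ ^ 2 ≤ (‖Full‖ + GK S k) ^ 2 :=
        pow_le_pow_left₀ hT0 hT 2
      nlinarith [sq_nonneg (‖Full‖ - GK S k)]
    -- integration over the model
    have hprod : Integrable (Function.uncurry fun (X : S.PB (k ^ S.d + 1) → ℝ) (τ : ℝ) =>
        ‖St.K τ‖ * ‖s3e_P S (k ^ S.d + 1) L t Θ (th S X) τ‖ ^ 2) ((mu S (k ^ S.d + 1)).prod volume) := by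
      have hb : Integrable (fun q : (S.PB (k ^ S.d + 1) → ℝ) × ℝ => MP ^ 2 * ‖St.K q.2‖)
          ((mu S (k ^ S.d + 1)).prod volume) :=
        (integrable_const (μ := mu S (k ^ S.d + 1)) (MP ^ 2)).mul_prod St.Ki.norm
      refine hb.mono' (hKm.mul (hmeas.norm.pow_const 2)).aestronglyMeasurable
        (ae_of_all _ fun q => ?_)
      show ‖‖St.K q.2‖ * ‖s3e_P S (k ^ S.d + 1) L t Θ (th S q.1) q.2‖ ^ 2‖ ≤ MP ^ 2 * ‖St.K q.2‖
      rw [Real.norm_eq_abs, abs_of_nonneg (by positivity), mul_comm]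
      refine mul_le_mul_of_nonneg_right ?_ (norm_nonneg _)
      exact pow_le_pow_left₀ (norm_nonneg _) (hP q.1 q.2) 2
    have hJ : Integrable (fun X : S.PB (k ^ S.d + 1) → ℝ =>
        ∫ τ, ‖St.K τ‖ * ‖s3e_P S (k ^ S.d + 1) L t Θ (th S X) τ‖ ^ 2) (mu S (k ^ S.d + 1)) :=
      hprod.integral_prod_left
    have hswap : ∫ X, (∫ τ, ‖St.K τ‖ * ‖s3e_P S (k ^ S.d + 1) L t Θ (th S X) τ‖ ^ 2) ∂(mu S (k ^ S.d + 1)) ≤
        κ * C2 := by
      rw [integral_integral_swap hprod, hκ, ← integral_mul_const]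
      refine integral_mono_of_nonneg (ae_of_all _ fun τ => integral_nonneg fun X => by positivity)
        (St.Ki.norm.mul_const C2) (ae_of_all _ fun τ => ?_)
      show ∫ X, ‖St.K τ‖ * ‖s3e_P S (k ^ S.d + 1) L t Θ (th S X) τ‖ ^ 2 ∂(mu S (k ^ S.d + 1)) ≤ ‖St.K τ‖ * C2
      rw [integral_const_mul]
      exact mul_le_mul_of_nonneg_left (hpt L t τ (k ^ S.d + 1) hL1 hNLk) (norm_nonneg _)
    calc ∫ X, ‖Tp S k Δ L Θ St.η t N₀ (th S X)‖ ^ 2 ∂(mu S (k ^ S.d + 1))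
        ≤ ∫ X, (2 * ((C1 * GK S k) ^ 2 * ((κ + 1) *
          ∫ τ, ‖St.K τ‖ * ‖s3e_P S (k ^ S.d + 1) L t Θ (th S X) τ‖ ^ 2)) + 2 * GK S k ^ 2) ∂(mu S (k ^ S.d + 1)) := by
          refine integral_mono_of_nonneg (ae_of_all _ fun X => by positivity)
            ((((hJ.const_mul _).const_mul _).const_mul _).add (integrable_const _))
            (ae_of_all _ hfl)
      _ = 2 * ((C1 * GK S k) ^ 2 * ((κ + 1) *
          ∫ X, (∫ τ, ‖St.K τ‖ * ‖s3e_P S (k ^ S.d + 1) L t Θ (th S X) τ‖ ^ 2) ∂(mu S (k ^ S.d + 1)))) +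
          2 * GK S k ^ 2 := by
          rw [integral_add (((hJ.const_mul _).const_mul _).const_mul _) (integrable_const _),
            integral_const_mul, integral_const_mul, integral_const_mul, integral_const,
            probReal_univ, one_smul]
      _ ≤ 2 * ((C1 * GK S k) ^ 2 * ((κ + 1) * (κ * C2))) + 2 * GK S k ^ 2 := by
          gcongr
      _ = (2 * (C1 ^ 2 * (κ + 1) * (κ * C2)) + 2) * GK S k ^ 2 := by ring




end Pool.Agent.HS
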