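import Pool.Agent.Lib_helper45.HS.Defs
import Pool.Agent.Lib_helper98.WSF.B1
import Pool.Agent.Lib_helper45.HSF.C1
import Pool.Agent.Lib_helper45.HSF.S1D
import Pool.Agent.Lib_helper45.HSF.S3B
import Pool.Agent.Lib_helper45.HSF.S3C
import Pool.Agent.Lib_helper45.HSF.S3E
import Pool.Agent.Lib_helper45.HSF.T2

/-! HS block S3F (STH): the pointwise second moment. Cites S1D, S3B, S3C, S3E, T2, C1. -/

namespace Pool.Agent.HS

open Complex MeasureTheory Filter Topology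
open scoped ENNReal Classical
open Pool.Agent.WA (gd gk)
open Pool.Agent.SEL (NL Adm)
open Pool.Agent.SQS (hat)
open Pool.Agent.WS (st EE RT cc hl Step)
open Finset.HasAntidiagonal (antidiagonal)

variable {P : Type} (S : PSys P)

/-- the middle part of the partition of unity -/
noncomputable def s3f_chi (η : ℝ → ℝ) (x : ℝ) : ℝ := 1 - η x - η (-x)

theorem s3f_chi_bd (St : Step) (x : ℝ) : |s3f_chi St.η x| ≤ 1 := by
  unfold s3f_chi
  have h1 := St.nonneg x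
  have h2 := St.le_one x
  have h3 := St.nonneg (-x)
  have h4 := St.le_one (-x)
  rcases le_total x 0 with hx | hx
  · rw [St.zero x (by linarith), abs_le]
    constructor <;> linarith
  · rw [St.zero (-x) (by linarith), abs_le]
    constructor <;> linarith

theorem s3f_chi_zero (St : Step) {x : ℝ} (hx : 1 ≤ |x|) : s3f_chi St.η x = 0 := by
  unfold s3f_chi
  rcases le_total x 0 with h | h
  · rw [abs_of_nonpos h] at hx
    rw [St.zero x (by linarith), St.one (-x) hx]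
    ring
  · rw [abs_of_nonneg h] at hx
    rw [St.zero (-x) (by linarith), St.one x hx]
    ring

/-- the cusp part -/
theorem s3f_cusp {c₁ C₁ : ℝ} (hS : S.Ax c₁ C₁) {φ : (P →₀ ℕ) → ℝ} (Δ C E : ℝ)
    {Θ : ℝ → ℝ} (hA : Adm Θ) (hΘ : ∀ x, 0 ≤ Θ x ∧ Θ x ≤ 1)
    (h1 : ∀ x, 1 ≤ x → Θ x = 0) (St : Step) (B : ℝ) (hB : 0 < B) :
    ∃ (C' : ℝ) (k₀ : ℕ), 0 ≤ C' ∧ ∀ k : ℕ, k₀ ≤ k → Even k → ∀ {ι : Type} [Fintype ι]
      (θ : ι → P → ℝ) (ω : ι → ℝ), HFam S Δ C E φ k θ ω → ∀ L : ℝ, L = Real.log k / B → ∀ t : ℝ,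
      ∑ i, ω i * ‖∫ v, ff S k Δ (θ i) L Θ v * (St.η (v / (8 * L)) : ℂ) *
        cexp (t * v * I)‖ ^ 2 ≤ C' * GK S k ^ 2 := by
  obtain ⟨k₁, hk₁⟩ := s3_tail_i S hS Δ hΘ St B hB
  obtain ⟨C₃, k₃, hC, hk₃⟩ := s3_model S hS Δ hA hΘ h1 St B hB
  refine ⟨4 * |C| * C₃ + 4 * |C|, max (max k₁ 1) k₃, by positivity,
    fun k hk he ι _ θ ω F L hL t => ?_⟩
  have hk1 : k₁ ≤ k := le_trans (le_trans (le_max_left _ _) (le_max_left _ _)) hk
  have hk2 : 1 ≤ k := le_trans (le_trans (le_max_right _ _) (le_max_left _ _)) hk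
  have hk3 : k₃ ≤ k := le_trans (le_max_right _ _) hk
  have homs := om_total S hk2 F
  have hom := F.pos
  set N₀ : ℕ := ⌊(k : ℝ) ^ S.d / (NL L : ℝ) ^ 2⌋₊ with hN₀
  have hNL : (0 : ℝ) < (NL L : ℝ) := by
    have : 0 < NL L := Nat.ceil_pos.mpr (Real.exp_pos L)
    exact_mod_cast this
  have hN : (N₀ : ℝ) * (NL L : ℝ) ^ 2 ≤ (k : ℝ) ^ S.d := by
    have h2 : (N₀ : ℝ) ≤ (k : ℝ) ^ S.d / (NL L : ℝ) ^ 2 := Nat.floor_le (by positivity)
    rwa [le_div_iff₀ (by positivity)] at h2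
  have e1 := s3_coef S hk2 F L Θ St.η t N₀ hN
  have e2 := hk₃ k hk3 he L hL N₀ rfl t
  have e2' : (0 : ℝ) ≤ ∫ X, ‖Tp S k Δ L Θ St.η t N₀ (th S X)‖ ^ 2 ∂(mu S (k ^ S.d + 1)) :=
    integral_nonneg fun X => by positivity
  have hCC := le_abs_self C
  have hC0 := abs_nonneg C
  have e1' : ∑ i, ω i * ‖Tp S k Δ L Θ St.η t N₀ (θ i)‖ ^ 2 ≤ 2 * |C| * (C₃ * GK S k ^ 2) := by
    refine e1.trans ?_
    refine (mul_le_mul_of_nonneg_right (show 2 * C ≤ 2 * |C| by linarith) e2').trans ?_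
    exact mul_le_mul_of_nonneg_left e2 (by positivity)
  have e3 : ∀ i, ‖∫ v, ff S k Δ (θ i) L Θ v * (St.η (v / (8 * L)) : ℂ) * cexp (t * v * I)‖ ^ 2 ≤
      2 * ‖Tp S k Δ L Θ St.η t N₀ (θ i)‖ ^ 2 + 2 * GK S k ^ 2 := by
    intro i
    have e4 := hk₁ k hk1 he (F.td i) L hL N₀ rfl t
    set x := ∫ v, ff S k Δ (θ i) L Θ v * (St.η (v / (8 * L)) : ℂ) * cexp (t * v * I)
    set y := Tp S k Δ L Θ St.η t N₀ (θ i)
    have e5 : ‖x‖ ≤ ‖y‖ + ‖x - y‖ := by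
      have := norm_add_le y (x - y)
      simpa using this
    have e6 := norm_nonneg x
    have e7 := norm_nonneg y
    have e8 := norm_nonneg (x - y)
    nlinarith [sq_nonneg (‖y‖ - GK S k)]
  calc ∑ i, ω i * ‖∫ v, ff S k Δ (θ i) L Θ v * (St.η (v / (8 * L)) : ℂ) *
        cexp (t * v * I)‖ ^ 2
      ≤ ∑ i, ω i * (2 * ‖Tp S k Δ L Θ St.η t N₀ (θ i)‖ ^ 2 + 2 * GK S k ^ 2) :=
        Finset.sum_le_sum fun i _ => mul_le_mul_of_nonneg_left (e3 i) (hom i).le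
    _ = 2 * (∑ i, ω i * ‖Tp S k Δ L Θ St.η t N₀ (θ i)‖ ^ 2) +
        2 * GK S k ^ 2 * ∑ i, ω i := by
        rw [Finset.mul_sum, Finset.mul_sum, ← Finset.sum_add_distrib]
        refine Finset.sum_congr rfl fun i _ => ?_
        ring
    _ ≤ 2 * (2 * |C| * (C₃ * GK S k ^ 2)) + 2 * GK S k ^ 2 * (2 * |C|) := by
        have e9 : (0 : ℝ) ≤ 2 * GK S k ^ 2 := by positivity
        have e10 := mul_le_mul_of_nonneg_left (homs.trans (show 2 * C ≤ 2 * |C| by linarith)) e9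
        linarith
    _ = (4 * |C| * C₃ + 4 * |C|) * GK S k ^ 2 := by ring

theorem s_three {c₁ C₁ : ℝ} (hS : S.Ax c₁ C₁) {φ : (P →₀ ℕ) → ℝ} (hφ : Tot S φ) (Δ C E : ℝ)
    {Θ : ℝ → ℝ} (hA : Adm Θ) (hΘ : ∀ x, 0 ≤ Θ x ∧ Θ x ≤ 1) (h1 : ∀ x, 1 ≤ x → Θ x = 0) :
    ∃ B₀ : ℝ, 1 ≤ B₀ ∧ ∀ B : ℝ, B₀ ≤ B →
    ∃ (C' : ℝ) (k₀ : ℕ), 0 < C' ∧ ∀ k : ℕ, k₀ ≤ k → Even k → ∀ {ι : Type} [Fintype ι]
      (θ : ι → P → ℝ) (ω : ι → ℝ), HFam S Δ C E φ k θ ω → ∀ L : ℝ, L = Real.log k / B → ∀ t : ℝ,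
      ∑ i, ω i * ‖hat (ff S k Δ (θ i) L Θ) t‖ ^ 2 ≤ C' * GK S k ^ 2 := by
  obtain ⟨St⟩ := WS.exists_step
  obtain ⟨B₀, C₀, hB₀, hC₀, hone⟩ := s_one S hS hφ Δ C E hA hΘ h1
  refine ⟨B₀, hB₀, fun B hB => ?_⟩
  have hBpos : 0 < B := by linarith
  obtain ⟨k₁, hk₁⟩ := hone B hB
  obtain ⟨C₂, k₂, hC₂, hk₂⟩ := s3f_cusp S hS (φ := φ) Δ C E hA hΘ h1 St B hBpos
  -- `L ≥ 1`
  obtain ⟨k₃, hk₃⟩ : ∃ k₃ : ℕ, ∀ k : ℕ, k₃ ≤ k → 1 ≤ Real.log k / B := by
    refine ⟨⌈Real.exp B⌉₊, fun k hk => ?_⟩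
    rw [le_div_iff₀ hBpos, one_mul]
    have : Real.exp B ≤ k := (Nat.le_ceil _).trans (by exact_mod_cast hk)
    rw [Real.le_log_iff_exp_le ((Real.exp_pos B).trans_le this)]
    exact this
  refine ⟨3 * (C₀ * 17 + C₂ + C₂), max (max k₁ k₂) (max k₃ 1), by positivity,
    fun k hk he ι _ θ ω F L hL t => ?_⟩
  have hk1 : k₁ ≤ k := le_trans (le_trans (le_max_left _ _) (le_max_left _ _)) hk
  have hk2 : k₂ ≤ k := le_trans (le_trans (le_max_right _ _) (le_max_left _ _)) hk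
  have hk3 : k₃ ≤ k := le_trans (le_trans (le_max_left _ _) (le_max_right _ _)) hk
  have hk4 : 1 ≤ k := le_trans (le_trans (le_max_right _ _) (le_max_right _ _)) hk
  have hom := F.pos
  have hL1 : 1 ≤ L := hL ▸ hk₃ k hk3
  have hL0 : 0 < L := by linarith
  -- the three parts
  let W : ℝ → ℂ := fun v => (s3f_chi St.η (v / (8 * L)) : ℂ) * cexp (t * v * I)
  have hexp : ∀ v : ℝ, ‖cexp (t * v * I)‖ = 1 := fun v => ABS.expI_norm t v
  have hWc : Continuous W := by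
    have := St.cont
    have h2 : Continuous (fun v : ℝ => s3f_chi St.η (v / (8 * L))) := by
      unfold s3f_chi
      fun_prop
    exact (Complex.continuous_ofReal.comp h2).mul (by fun_prop)
  have hWb : ∀ v, ‖W v‖ ≤ 1 := by
    intro v
    simp only [W]
    rw [norm_mul, hexp, mul_one, Complex.norm_real]
    exact s3f_chi_bd St _
  have hWs : ∀ v, 8 * L < |v| → W v = 0 := by
    intro v hv
    simp only [W]
    rw [s3f_chi_zero St, Complex.ofReal_zero, zero_mul]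
    rw [abs_div, abs_of_pos (show 0 < 8 * L by positivity), le_div_iff₀ (by positivity)]
    linarith
  have hWi : ∫ v, ‖W v‖ ^ 2 ≤ 16 * L := by
    have h2 : ∀ v, ‖W v‖ ^ 2 ≤ Set.indicator (Set.Icc (-(8 * L)) (8 * L)) (fun _ => (1 : ℝ)) v := by
      intro v
      by_cases hv : v ∈ Set.Icc (-(8 * L)) (8 * L)
      · rw [Set.indicator_of_mem hv]
        have := hWb v
        have := norm_nonneg (W v)
        nlinarith
      · rw [Set.indicator_of_notMem hv, hWs v, norm_zero]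
        · norm_num
        · rw [Set.mem_Icc, not_and_or, not_le, not_le] at hv
          rcases hv with h | h
          · rw [abs_of_neg (by linarith)]
            linarith
          · exact h.trans_le (le_abs_self v)
    calc ∫ v, ‖W v‖ ^ 2 ≤ ∫ v, Set.indicator (Set.Icc (-(8 * L)) (8 * L)) (fun _ => (1 : ℝ)) v := by
          refine integral_mono_of_nonneg (ae_of_all _ fun v => by positivity) ?_ (ae_of_all _ h2)
          exact (integrable_indicator_iff measurableSet_Icc).mpr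
            (integrableOn_const (by simp))
      _ = 16 * L := by
          rw [integral_indicator measurableSet_Icc, setIntegral_const, smul_eq_mul, mul_one,
            Real.volume_real_Icc_of_le (by linarith)]
          ring
  have p1 := hk₁ k hk1 he θ ω F L hL W 1 hWc.measurable hWb hWs
  have p2 := hk₂ k hk2 he θ ω F L hL t
  have p3 := hk₂ k hk2 he θ ω F L hL (-t)
  have q1 : C₀ * GK S k ^ 2 * (1 / L * (∫ v, ‖W v‖ ^ 2) + 1 ^ 2 / L ^ 2) ≤ C₀ * GK S k ^ 2 * 17 := by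
    refine mul_le_mul_of_nonneg_left ?_ (by positivity)
    have h3 : 1 / L * (∫ v, ‖W v‖ ^ 2) ≤ 16 := by
      calc 1 / L * (∫ v, ‖W v‖ ^ 2) ≤ 1 / L * (16 * L) :=
            mul_le_mul_of_nonneg_left hWi (by positivity)
        _ = 16 := by field_simp
    have h4 : (1 : ℝ) ^ 2 / L ^ 2 ≤ 1 := by
      rw [div_le_one (by positivity)]
      nlinarith
    linarith
  have key : ∀ i, ‖hat (ff S k Δ (θ i) L Θ) t‖ ^ 2 ≤
      3 * (‖∫ v, ff S k Δ (θ i) L Θ v * W v‖ ^ 2 +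
        ‖∫ v, ff S k Δ (θ i) L Θ v * (St.η (v / (8 * L)) : ℂ) * cexp (t * v * I)‖ ^ 2 +
        ‖∫ v, ff S k Δ (θ i) L Θ v * (St.η (v / (8 * L)) : ℂ) *
          cexp ((-t : ℝ) * v * I)‖ ^ 2) := by
    intro i
    obtain ⟨hni, hco⟩ := ff_nice S hk4 (F.td i) L Θ
    obtain ⟨ε, hε, hsym⟩ := ff_sym S (F.td i) L Θ
    have hbd : ∀ (G : ℝ → ℂ), Continuous G → (∀ v, ‖G v‖ ≤ 1) →
        Integrable (fun v => ff S k Δ (θ i) L Θ v * G v) := fun G hG hb =>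
      hni.int.mul_bdd (c := 1) hG.aestronglyMeasurable (ae_of_all _ hb)
    have hSt := St.cont
    have hG1 : Continuous (fun v : ℝ => (St.η (v / (8 * L)) : ℂ) * cexp (t * v * I)) :=
      (Complex.continuous_ofReal.comp (hSt.comp (continuous_id.div_const _))).mul (by fun_prop)
    have hG2 : Continuous (fun v : ℝ => (St.η (-(v / (8 * L))) : ℂ) * cexp (t * v * I)) :=
      (Complex.continuous_ofReal.comp (hSt.comp (continuous_id.div_const _).neg)).mul (by fun_prop)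
    have hb : ∀ (x : ℝ) (v : ℝ), ‖(St.η x : ℂ) * cexp (t * v * I)‖ ≤ 1 := by
      intro x v
      rw [norm_mul, hexp, mul_one, Complex.norm_real, Real.norm_eq_abs, abs_of_nonneg (St.nonneg x)]
      exact St.le_one x
    have i0 := hbd W hWc hWb
    have i1 := hbd _ hG1 (fun v => hb _ v)
    have i2 := hbd _ hG2 (fun v => hb _ v)
    have s1 : hat (ff S k Δ (θ i) L Θ) t = (∫ v, ff S k Δ (θ i) L Θ v * W v) +
        (∫ v, ff S k Δ (θ i) L Θ v * ((St.η (v / (8 * L)) : ℂ) * cexp (t * v * I))) +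
        ∫ v, ff S k Δ (θ i) L Θ v * ((St.η (-(v / (8 * L))) : ℂ) * cexp (t * v * I)) := by
      have i01 : Integrable (fun v => ff S k Δ (θ i) L Θ v * W v +
          ff S k Δ (θ i) L Θ v * ((St.η (v / (8 * L)) : ℂ) * cexp (t * v * I))) := i0.add i1
      rw [hat, ← integral_add i0 i1, ← integral_add i01 i2]
      refine integral_congr_ae (ae_of_all _ fun v => ?_)
      simp only [W, s3f_chi]
      push_cast
      ring
    have s2 : (∫ v, ff S k Δ (θ i) L Θ v * ((St.η (-(v / (8 * L))) : ℂ) * cexp (t * v * I))) =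
        ε * ∫ v, ff S k Δ (θ i) L Θ v * (St.η (v / (8 * L)) : ℂ) * cexp ((-t : ℝ) * v * I) := by
      rw [← integral_neg_eq_self, ← integral_const_mul]
      refine integral_congr_ae (ae_of_all _ fun v => ?_)
      simp only
      rw [hsym v]
      have e1 : -(-v / (8 * L)) = v / (8 * L) := by ring
      rw [e1]
      have e2 : (t : ℂ) * ((-v : ℝ) : ℂ) * I = ((-t : ℝ) : ℂ) * v * I := by
        push_cast
        ring
      rw [e2]
      ring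
    have s3 : ‖(ε : ℂ)‖ = 1 := by
      rcases hε with h | h <;> simp [h]
    have s4 : (∫ v, ff S k Δ (θ i) L Θ v * ((St.η (v / (8 * L)) : ℂ) * cexp (t * v * I))) =
        ∫ v, ff S k Δ (θ i) L Θ v * (St.η (v / (8 * L)) : ℂ) * cexp (t * v * I) := by
      refine integral_congr_ae (ae_of_all _ fun v => ?_)
      simp only
      ring
    rw [s4, s2] at s1
    set x := ∫ v, ff S k Δ (θ i) L Θ v * W v
    set y := ∫ v, ff S k Δ (θ i) L Θ v * (St.η (v / (8 * L)) : ℂ) * cexp (t * v * I)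
    set z := ∫ v, ff S k Δ (θ i) L Θ v * (St.η (v / (8 * L)) : ℂ) * cexp ((-t : ℝ) * v * I)
    have s5 : ‖hat (ff S k Δ (θ i) L Θ) t‖ ≤ ‖x‖ + ‖y‖ + ‖z‖ := by
      rw [s1]
      refine (norm_add_le _ _).trans (add_le_add (norm_add_le _ _) ?_)
      rw [norm_mul, s3, one_mul]
    have s6 := norm_nonneg (hat (ff S k Δ (θ i) L Θ) t)
    calc ‖hat (ff S k Δ (θ i) L Θ) t‖ ^ 2 ≤ (‖x‖ + ‖y‖ + ‖z‖) ^ 2 := pow_le_pow_left₀ s6 s5 2
      _ ≤ 3 * (‖x‖ ^ 2 + ‖y‖ ^ 2 + ‖z‖ ^ 2) := by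
        nlinarith [sq_nonneg (‖x‖ - ‖y‖), sq_nonneg (‖y‖ - ‖z‖), sq_nonneg (‖x‖ - ‖z‖)]
  calc ∑ i, ω i * ‖hat (ff S k Δ (θ i) L Θ) t‖ ^ 2
      ≤ ∑ i, ω i * (3 * (‖∫ v, ff S k Δ (θ i) L Θ v * W v‖ ^ 2 +
        ‖∫ v, ff S k Δ (θ i) L Θ v * (St.η (v / (8 * L)) : ℂ) * cexp (t * v * I)‖ ^ 2 +
        ‖∫ v, ff S k Δ (θ i) L Θ v * (St.η (v / (8 * L)) : ℂ) *
          cexp ((-t : ℝ) * v * I)‖ ^ 2)) :=
        Finset.sum_le_sum fun i _ => mul_le_mul_of_nonneg_left (key i) (hom i).le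
    _ = 3 * ((∑ i, ω i * ‖∫ v, ff S k Δ (θ i) L Θ v * W v‖ ^ 2) +
        (∑ i, ω i * ‖∫ v, ff S k Δ (θ i) L Θ v * (St.η (v / (8 * L)) : ℂ) *
          cexp (t * v * I)‖ ^ 2) +
        ∑ i, ω i * ‖∫ v, ff S k Δ (θ i) L Θ v * (St.η (v / (8 * L)) : ℂ) *
          cexp ((-t : ℝ) * v * I)‖ ^ 2) := by
        rw [← Finset.sum_add_distrib, ← Finset.sum_add_distrib, Finset.mul_sum]
        refine Finset.sum_congr rfl fun i _ => ?_
        ring
    _ ≤ 3 * (C₀ * GK S k ^ 2 * 17 + C₂ * GK S k ^ 2 + C₂ * GK S k ^ 2) := by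
        linarith [p1, p2, p3, q1]
    _ = 3 * (C₀ * 17 + C₂ + C₂) * GK S k ^ 2 := by ring


end Pool.Agent.HS
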