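import Pool.Agent.Lib_helper45.HS.Defs
import Pool.Agent.Lib_helper98.WSF.W2
import Pool.Agent.Lib_helper98.WSF.B1
import Pool.Agent.Lib_helper45.HSF.C1
import Pool.Agent.Lib_helper45.HSF.F1
import Pool.Agent.Lib_helper45.HSF.F2
import Pool.Agent.Lib_helper45.HSF.S1D
import Pool.Agent.Lib_helper45.HSF.S2
import Pool.Agent.Lib_helper45.HSF.S3F

/-!
# HS, block E1 (HAR): the theorem with harmonic weights
-/

namespace Pool.Agent.HS

open Complex MeasureTheory Filter Topology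
open scoped ENNReal Classical
open Pool.Agent.WA (gd gk)
open Pool.Agent.SEL (NL Adm)
open Pool.Agent.SQS (hat)
open Pool.Agent.WS (st EE RT cc hl Step)
open Finset.HasAntidiagonal (antidiagonal)
open Pool.Agent.ABS (LData Piece Nice)

variable {P : Type} (S : PSys P)

theorem e1_gk_pos {k : ℕ} (hk : 1 ≤ k) : 0 < gk k := by
  unfold gk
  have hk' : (1 : ℝ) ≤ k := by exact_mod_cast hk
  have h1 : 0 < Real.Gamma ((k : ℝ) / 2) := Real.Gamma_pos_of_pos (by linarith)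
  positivity

/-- the coefficients of the mollifier -/
noncomputable def e1_bco (θ : P → ℝ) (L : ℝ) (Θ : ℝ → ℝ) (m : P →₀ ℕ) : ℂ :=
  ((be S θ L Θ m / √(S.nrm m : ℝ) : ℝ) : ℂ)

theorem e1_piece_f {k : ℕ} {Δ : ℝ} {θ : P → ℝ} {X : LData} (hA : X.A = 2 * c0 S k Δ)
    (hd : X.dens = fun u => (Dd S k Δ θ (u + c0 S k Δ) : ℂ) / (GK S k : ℂ)) (L : ℝ)
    (Θ : ℝ → ℝ) (v : ℝ) :
    X.fd (S.BL (NL L)) (e1_bco S θ L Θ) (fun m => Real.log (S.nrm m)) v =
      ff S k Δ θ L Θ v * (GK S k : ℂ)⁻¹ := by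
  unfold LData.fd ff e1_bco
  rw [Finset.sum_mul]
  refine Finset.sum_congr rfl fun m _ => ?_
  rw [Finset.sum_mul]
  refine Finset.sum_congr rfl fun l _ => ?_
  rw [hA, hd, Complex.conj_ofReal]
  have e : v + (Real.log (S.nrm m) - Real.log (S.nrm l) - 2 * c0 S k Δ / 2) + c0 S k Δ =
      v + (Real.log (S.nrm m) - Real.log (S.nrm l)) := by ring
  simp only [e]
  push_cast
  ring

theorem e1_piece_D {k : ℕ} {Δ : ℝ} {θ : P → ℝ} {X : LData}
    (hd : X.dens = fun u => (Dd S k Δ θ (u + c0 S k Δ) : ℂ) / (GK S k : ℂ)) (L : ℝ)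
    (Θ : ℝ → ℝ) (v : ℝ) :
    X.Dd (S.BL (NL L)) (e1_bco S θ L Θ) (fun m => Real.log (S.nrm m)) v =
      DD S k Δ θ L Θ (v + c0 S k Δ) * (GK S k : ℂ)⁻¹ := by
  unfold LData.Dd DD e1_bco
  rw [Finset.sum_mul]
  refine Finset.sum_congr rfl fun m _ => ?_
  rw [Finset.sum_mul]
  refine Finset.sum_congr rfl fun l _ => ?_
  rw [hd]
  have e : v + (Real.log (S.nrm m) + Real.log (S.nrm l)) + c0 S k Δ =
      v + c0 S k Δ + (Real.log (S.nrm m) + Real.log (S.nrm l)) := by ring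
  simp only [e]
  push_cast
  ring

/-- a bad form gives `L`-data with few zeros in some window -/
theorem e1_bad_ldata {k : ℕ} (hk : 1 ≤ k) {Δ : ℝ} {θ : P → ℝ} (H : TD S k Δ θ) {α β h : ℝ}
    {n : ℕ} (hb : BadU S k Δ θ α β h n) : ∃ X : LData, X.A = 2 * c0 S k Δ ∧
      (X.dens = fun u => (Dd S k Δ θ (u + c0 S k Δ) : ℂ) / (GK S k : ℂ)) ∧
      ∃ x : ℝ, α ≤ x ∧ x + h ≤ β ∧ (ABS.oddZ X.Λ ∩ Set.Ioo x (x + h)).encard ≤ n := by
  obtain ⟨Λ, hΛ, -⟩ := lam_mellin S hk H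
  obtain ⟨X, h1, h2, h3⟩ := exists_ldata S hk H hΛ
  refine ⟨X, h1, h2, ?_⟩
  by_contra hcon
  push Not at hcon
  refine hb ⟨Λ, hΛ, fun x hx hx' => ?_⟩
  have := hcon x hx hx'
  have hset : {t : ℝ | x < t ∧ t < x + h ∧ Odd (analyticOrderNatAt Λ (1 / 2 + t * I))} =
      ABS.oddZ X.Λ ∩ Set.Ioo x (x + h) := by
    ext t
    simp only [ABS.oddZ, Set.mem_ofPred_eq, Set.mem_inter_iff, Set.mem_Ioo, h3]
    tauto
  rw [hset]
  exact this

theorem harmonic {c₁ C₁ : ℝ} (hS : S.Ax c₁ C₁) {φ : (P →₀ ℕ) → ℝ} (hφ : Tot S φ) (Δ C E : ℝ) :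
    ∃ (c₂ C' : ℝ) (k₀ : ℕ), 0 < c₂ ∧ 0 < C' ∧ ∀ k : ℕ, k₀ ≤ k → Even k →
    ∀ {ι : Type} [Fintype ι] (θ : ι → P → ℝ) (ω : ι → ℝ), HFam S Δ C E φ k θ ω →
    ∀ (T : Finset ι) (α β h H : ℝ),
      -(c₂ * √k) ≤ α → β ≤ c₂ * √k → 0 < H → H ≤ 1 → H ≤ h → h ≤ β - α →
      (∀ i ∈ T, BadU S k Δ (θ i) α β h ⌊h / H⌋₊) →
      ∑ i ∈ T, ω i ≤ C' * (β - α) / (h * H * Real.log k) := by
  obtain ⟨Θ, hA, hΘ, hΘ1, hΘ0⟩ := WS.exists_bump2
  obtain ⟨B1, C1, hB1, hC1, h1⟩ := s_one S hS hφ Δ C E hA hΘ hΘ0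
  obtain ⟨B3, hB3, h3⟩ := s_three S hS hφ Δ C E hA hΘ hΘ0
  set B : ℝ := max B1 B3 with hB
  have hB0 : 1 ≤ B := hB1.trans (le_max_left _ _)
  have hBpos : 0 < B := by linarith
  obtain ⟨k1, h1⟩ := h1 B (le_max_left _ _)
  obtain ⟨C3, k3, hC3, h3⟩ := h3 B (le_max_right _ _)
  obtain ⟨k2, h2⟩ := s_two S hS Δ hΘ hΘ1 B hBpos
  obtain ⟨c, kr, hc, href⟩ := ref_low S
  set CE : ℝ := C1 + C3 + 1 with hCE
  set Om : ℝ := 2 * |C| + 1 with hOm
  have hOm1 : 1 ≤ Om := by rw [hOm]; linarith [abs_nonneg C]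
  have hOm0 : 0 < Om := by linarith
  obtain ⟨C', hC', hend⟩ := WS.wfam_uniform (C := CE) (c := 1 / 4) (m := 1 / 2) (δ := 1) (M := 1)
    (by positivity) (by norm_num) (by norm_num) (by norm_num) (by norm_num)
  -- a threshold making `log k ≥ B` and `c √k ≥ 2`
  obtain ⟨k4, hk4⟩ : ∃ k4 : ℕ, ∀ k : ℕ, k4 ≤ k → B ≤ Real.log k ∧ 2 ≤ c * √k ∧ 2 ≤ k := by
    have t1 : Tendsto (fun k : ℕ => Real.log k) atTop atTop :=
      Real.tendsto_log_atTop.comp tendsto_natCast_atTop_atTop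
    have t2 : Tendsto (fun k : ℕ => c * √k) atTop atTop :=
      (Real.tendsto_sqrt_atTop.comp tendsto_natCast_atTop_atTop).const_mul_atTop hc
    have := ((t1.eventually_ge_atTop B).and (t2.eventually_ge_atTop 2)).and (eventually_ge_atTop 2)
    obtain ⟨k4, h⟩ := eventually_atTop.1 this
    exact ⟨k4, fun k hk => ⟨(h k hk).1.1, (h k hk).1.2, (h k hk).2⟩⟩
  refine ⟨c / 2, B * C' * Om, k1 + k2 + k3 + kr + k4, by positivity, by positivity,
    fun k hk he ι _ θ ω F T α β h H ha hb hH hH1 hHh hba hT => ?_⟩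
  obtain ⟨hlogB, hsq, hk2⟩ := hk4 k (by omega)
  have hlog : 0 < Real.log k := by linarith
  set L : ℝ := Real.log k / B with hL
  have hL1 : 1 ≤ L := by rw [hL, le_div_iff₀ hBpos]; linarith
  have hL0 : 0 < L := by linarith
  have hBL : B * L = Real.log k := by rw [hL]; field_simp
  have hgk : 0 < GK S k := pow_pos (e1_gk_pos (by omega)) _
  have hkpos : (2 : ℝ) ≤ k := by exact_mod_cast hk2
  have hh0 : 0 < h := hH.trans_le hHh
  rcases T.eq_empty_or_nonempty with rfl | hne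
  · simp only [Finset.sum_empty]
    have : 0 < β - α := by linarith
    positivity
  have hT' : ∀ i ∈ T, ∃ X : LData, X.A = 2 * c0 S k Δ ∧
      (X.dens = fun u => (Dd S k Δ (θ i) (u + c0 S k Δ) : ℂ) / (GK S k : ℂ)) ∧
      ∃ x : ℝ, α ≤ x ∧ x + h ≤ β ∧ (ABS.oddZ X.Λ ∩ Set.Ioo x (x + h)).encard ≤ ⌊h / H⌋₊ :=
    fun i hi => e1_bad_ldata S (by omega) (F.td i) (hT i hi)
  have : Nonempty LData := by
    obtain ⟨i, hi⟩ := hne
    obtain ⟨X, _⟩ := hT' i hi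
    exact ⟨X⟩
  choose! X hXA hXd hXx using hT'
  obtain ⟨hgn, hgm⟩ := ref_nice S (k := k) (by omega)
  set Q : ι → Piece := fun i =>
    (X i).piece (S.BL (NL L)) (e1_bco S (θ i) L Θ) (fun m => Real.log (S.nrm m))
      (fun u => (GD k S.d (u + cG S k) : ℂ) / (GK S k : ℂ)) hgn with hQ
  have hPf : ∀ i ∈ T, (Q i).f = fun v => ff S k Δ (θ i) L Θ v * (GK S k : ℂ)⁻¹ := by
    intro i hi
    funext v
    exact e1_piece_f S (hXA i hi) (hXd i hi) L Θ v
  have hPD : ∀ i ∈ T, ∀ u, (Q i).D u - (Q i).g u =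
      (DD S k Δ (θ i) L Θ (u + c0 S k Δ) - (GD k S.d (u + cG S k) : ℂ)) * (GK S k : ℂ)⁻¹ := by
    intro i hi u
    have e : (Q i).D u = DD S k Δ (θ i) L Θ (u + c0 S k Δ) * (GK S k : ℂ)⁻¹ :=
      e1_piece_D S (hXd i hi) L Θ u
    rw [e]
    show _ - (GD k S.d (u + cG S k) : ℂ) / (GK S k : ℂ) = _
    rw [div_eq_mul_inv]; ring
  have hom1 : ∀ i, 0 ≤ ω i := fun i => (F.pos i).le
  have hom2 : ∑ i, ω i ≤ Om := by
    have := om_total S (by omega) F
    have h5 := le_abs_self C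
    rw [hOm]; linarith
  have hnorm : ‖(GK S k : ℂ)⁻¹‖ = (GK S k)⁻¹ := by
    rw [norm_inv, Complex.norm_real, Real.norm_of_nonneg hgk.le]
  have hfam : WS.WFam CE (1 / 4) (c * √k) (1 / 2) 1 1 T ω Q L Om := by
    refine ⟨fun i _ => hom1 i, ?_, ?_, ?_, ?_, ?_, ?_, ?_⟩
    · exact (Finset.sum_le_sum_of_subset_of_nonneg (Finset.subset_univ _)
        fun i _ _ => hom1 i).trans hom2
    · intro W Bw hWm hWb hWs
      have e : ∀ i ∈ T, ω i * ‖∫ v, (Q i).f v * W v‖ ^ 2 =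
          (GK S k)⁻¹ ^ 2 * (ω i * ‖∫ v, ff S k Δ (θ i) L Θ v * W v‖ ^ 2) := by
        intro i hi
        rw [hPf i hi]
        have : ∫ v, ff S k Δ (θ i) L Θ v * (GK S k : ℂ)⁻¹ * W v =
            (GK S k : ℂ)⁻¹ * ∫ v, ff S k Δ (θ i) L Θ v * W v := by
          rw [← integral_const_mul]; congr 1; funext v; ring
        rw [this, norm_mul, hnorm, mul_pow]; ring
      rw [Finset.sum_congr rfl e, ← Finset.mul_sum]
      have h5 := h1 k (by omega) he θ ω F L rfl W Bw hWm hWb (fun v hv => hWs v (by linarith))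
      have h6 : ∑ i ∈ T, ω i * ‖∫ v, ff S k Δ (θ i) L Θ v * W v‖ ^ 2 ≤
          ∑ i, ω i * ‖∫ v, ff S k Δ (θ i) L Θ v * W v‖ ^ 2 :=
        Finset.sum_le_sum_of_subset_of_nonneg (Finset.subset_univ _)
          fun i _ _ => mul_nonneg (hom1 i) (by positivity)
      have hI : 0 ≤ 1 / L * (∫ v, ‖W v‖ ^ 2) + Bw ^ 2 / L ^ 2 := by
        have : 0 ≤ ∫ v, ‖W v‖ ^ 2 := integral_nonneg fun v => by positivity
        positivity
      calc (GK S k)⁻¹ ^ 2 * ∑ i ∈ T, ω i * ‖∫ v, ff S k Δ (θ i) L Θ v * W v‖ ^ 2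
          ≤ (GK S k)⁻¹ ^ 2 * (C1 * GK S k ^ 2 * (1 / L * (∫ v, ‖W v‖ ^ 2) + Bw ^ 2 / L ^ 2)) := by
            gcongr
            exact h6.trans h5
        _ = C1 * (1 / L * (∫ v, ‖W v‖ ^ 2) + Bw ^ 2 / L ^ 2) := by field_simp
        _ ≤ CE * Om * (1 / L * (∫ v, ‖W v‖ ^ 2) + Bw ^ 2 / L ^ 2) := by
            refine mul_le_mul_of_nonneg_right ?_ hI
            rw [hCE]
            nlinarith
    · intro W Bw hWm hWb hWs
      have hBw : 0 ≤ Bw := (norm_nonneg _).trans (hWb 0)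
      have e : ∀ i ∈ T, ω i * ‖∫ v, ((Q i).D v - (Q i).g v) * W v‖ ^ 2 ≤
          ω i * (Bw / k) ^ 2 := by
        intro i hi
        refine mul_le_mul_of_nonneg_left ?_ (hom1 i)
        have : ∫ v, ((Q i).D v - (Q i).g v) * W v = (GK S k : ℂ)⁻¹ *
            ∫ v, (DD S k Δ (θ i) L Θ (v + c0 S k Δ) - (GD k S.d (v + cG S k) : ℂ)) * W v := by
          rw [← integral_const_mul]
          congr 1; funext v
          rw [hPD i hi]; ring
        rw [this, norm_mul, hnorm]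
        have h5 := h2 k (by omega) he (F.td i) L rfl W Bw hWm hWb
          (fun v hv => hWs v hv)
        have h6 : (GK S k)⁻¹ * ‖∫ v, (DD S k Δ (θ i) L Θ (v + c0 S k Δ) -
            (GD k S.d (v + cG S k) : ℂ)) * W v‖ ≤ Bw / k := by
          calc _ ≤ (GK S k)⁻¹ * (GK S k * Bw / k) := by gcongr
            _ = Bw / k := by field_simp
        gcongr
      have hk1 : (Bw / k) ^ 2 ≤ Bw ^ 2 / L ^ 2 := by
        rw [div_pow]
        have hLk : L ≤ k := by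
          have h8 : Real.log k ≤ k := by
            have := Real.log_le_sub_one_of_pos (show (0 : ℝ) < k by linarith)
            linarith
          have h9 : L ≤ Real.log k := by
            rw [hL]; exact div_le_self hlog.le hB0
          linarith
        gcongr
      have hI : 0 ≤ ∫ v, ‖W v‖ ^ 2 := integral_nonneg fun v => by positivity
      calc ∑ i ∈ T, ω i * ‖∫ v, ((Q i).D v - (Q i).g v) * W v‖ ^ 2
          ≤ ∑ i ∈ T, ω i * (Bw / k) ^ 2 := Finset.sum_le_sum e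
        _ = (∑ i ∈ T, ω i) * (Bw / k) ^ 2 := by rw [Finset.sum_mul]
        _ ≤ Om * (Bw ^ 2 / L ^ 2) := by
            gcongr
            exact (Finset.sum_le_sum_of_subset_of_nonneg (Finset.subset_univ _)
              fun i _ _ => hom1 i).trans hom2
        _ ≤ CE * Om * (1 / L * (∫ v, ‖W v‖ ^ 2) + Bw ^ 2 / L ^ 2) := by
            have h7 : 0 ≤ Bw ^ 2 / L ^ 2 := by positivity
            have h8 : 0 ≤ 1 / L * (∫ v, ‖W v‖ ^ 2) := by positivity
            have h9 : 1 ≤ CE := by rw [hCE]; linarith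
            calc Om * (Bw ^ 2 / L ^ 2) ≤ Om * (1 / L * (∫ v, ‖W v‖ ^ 2) + Bw ^ 2 / L ^ 2) := by
                  gcongr; linarith
              _ = 1 * Om * (1 / L * (∫ v, ‖W v‖ ^ 2) + Bw ^ 2 / L ^ 2) := by ring
              _ ≤ _ := by gcongr
    · intro t
      have e : ∀ i ∈ T, ω i * ‖hat (Q i).f t‖ ^ 2 =
          (GK S k)⁻¹ ^ 2 * (ω i * ‖hat (ff S k Δ (θ i) L Θ) t‖ ^ 2) := by
        intro i hi
        rw [hPf i hi]
        have : hat (fun v => ff S k Δ (θ i) L Θ v * (GK S k : ℂ)⁻¹) t =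
            (GK S k : ℂ)⁻¹ * hat (ff S k Δ (θ i) L Θ) t := by
          rw [← ABS.hat_const_mul]; congr 1; funext v; ring
        rw [this, norm_mul, hnorm, mul_pow]; ring
      rw [Finset.sum_congr rfl e, ← Finset.mul_sum]
      have h5 := h3 k (by omega) he θ ω F L rfl t
      have h6 : ∑ i ∈ T, ω i * ‖hat (ff S k Δ (θ i) L Θ) t‖ ^ 2 ≤
          ∑ i, ω i * ‖hat (ff S k Δ (θ i) L Θ) t‖ ^ 2 :=
        Finset.sum_le_sum_of_subset_of_nonneg (Finset.subset_univ _)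
          fun i _ _ => mul_nonneg (hom1 i) (by positivity)
      calc (GK S k)⁻¹ ^ 2 * ∑ i ∈ T, ω i * ‖hat (ff S k Δ (θ i) L Θ) t‖ ^ 2
          ≤ (GK S k)⁻¹ ^ 2 * (C3 * GK S k ^ 2) := by
            gcongr
            exact h6.trans h5
        _ = C3 := by field_simp
        _ ≤ CE * Om := by rw [hCE]; nlinarith
    · intro i _
      exact hgm
    · intro i _ t ht
      exact (href k (by omega)).1 t ht
    · intro i _ t s ht hs hts
      exact (href k (by omega)).2 t s ht hs hts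
  have hfinal := hend (c * √k) ι T ω Q L Om hL1 hfam α β h H
    (by linarith) (by linarith) hH hH1 hHh hba hXx
  refine hfinal.trans (le_of_eq ?_)
  rw [← hBL]
  field_simp

end Pool.Agent.HS
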