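import Pool.Agent.Lib_helper45.HS.Defs
import Pool.Agent.Lib_helper98.WSF.F3A
import Pool.Agent.Lib_helper45.HSF.F1
import Pool.Agent.Lib_helper45.HSF.G0
import Pool.Agent.Lib_helper45.HSF.H1C
import Pool.Agent.Lib_helper45.HSF.P0
import Pool.Agent.Lib_helper45.HSF.P1
import Pool.Agent.Lib_helper45.HSF.T2

/-! HS block F3A (ZUA): `zer_up`. Cites F1, H1C, G0, T2, P0, P1. -/

namespace Pool.Agent.HS

open Complex MeasureTheory Filter Topology
open scoped ENNReal Classical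
open Pool.Agent.WA (gd gk)
open Pool.Agent.SEL (NL Adm)
open Pool.Agent.SQS (hat)
open Pool.Agent.WS (st EE RT cc hl Step)
open Finset.HasAntidiagonal (antidiagonal)

variable {P : Type} (S : PSys P)

lemma f3a_int {k n : ℕ} (hk : 1 ≤ k) (hn : 1 ≤ n) :
    Integrable (fun u : ℝ => GD k n u * Real.exp (16 * u)) ∧
    ∫ u : ℝ, GD k n u * Real.exp (16 * u) = WS.f3_G k ^ n := by
  have hk' : (0 : ℝ) < k := by exact_mod_cast hk
  obtain ⟨h1, h2⟩ := GD_mellin (k := k) (n := n) hk hn (z := 16) (by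
    have : ((16 : ℂ)).re = 16 := by simp
    rw [this]; linarith)
  have e : (fun u : ℝ => (GD k n u : ℂ) * cexp (16 * u)) =
      fun u : ℝ => ((GD k n u * Real.exp (16 * u) : ℝ) : ℂ) := by
    funext u; push_cast; rfl
  rw [e] at h1 h2
  refine ⟨h1.re, ?_⟩
  have e1 : ((Real.Gamma ((k : ℝ) / 2 + 16) : ℝ) : ℂ) = Complex.Gamma ((k : ℂ) / 2 + 16) := by
    rw [← Complex.Gamma_ofReal]; push_cast; rfl
  have e2 : (((2 * Real.pi) ^ (-((k : ℝ) / 2 + 16)) : ℝ) : ℂ) =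
      ((2 * Real.pi : ℝ) : ℂ) ^ (-((k : ℂ) / 2 + 16)) := by
    rw [Complex.ofReal_cpow (by positivity)]; push_cast; rfl
  have h3 : ((∫ u : ℝ, GD k n u * Real.exp (16 * u) : ℝ) : ℂ) = ((WS.f3_G k ^ n : ℝ) : ℂ) := by
    rw [← integral_complex_ofReal]
    rw [show (∫ u : ℝ, ((GD k n u * Real.exp (16 * u) : ℝ) : ℂ)) = _ from h2]
    rw [← e1, ← e2]
    unfold WS.f3_G
    push_cast
    rfl
  exact_mod_cast h3

include S in
lemma f3a_countable : Countable P := by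
  have h : (Set.univ : Set P).Countable := by
    have h1 : (Set.univ : Set P) = ⋃ l : ℕ, {p | S.und p = l} := by
      ext p
      simp
    rw [h1]
    refine Set.countable_iUnion fun l => Set.Finite.countable ?_
    have h2 := S.fib l
    exact Set.encard_lt_top_iff.1 (lt_of_le_of_lt h2 (by simp))
  exact Set.countable_univ_iff.1 h

lemma f3a_G_nonneg (k : ℕ) : 0 ≤ WS.f3_G k := by
  unfold WS.f3_G
  have := Real.Gamma_pos_of_pos (show (0 : ℝ) < k / 2 + 16 by positivity)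
  positivity

lemma f3a_term {k : ℕ} (hk : 1 ≤ k) (Δ : ℝ) {θ : P → ℝ}
    (hθ : ∀ p, |θ p| ≤ √(S.q p : ℝ) + 1 / √(S.q p : ℝ)) (m : P →₀ ℕ) :
    ∫⁻ u : ℝ, ENNReal.ofReal (|hs θ m| / √(S.nrm m : ℝ) *
        GD k S.d (u + Real.log (S.nrm m) - Δ) * Real.exp (16 * u)) ≤
      ENNReal.ofReal (Real.exp (16 * Δ) * WS.f3_G k ^ S.d * (S.nrm m : ℝ) ^ (-(15 : ℝ))) := by
  obtain ⟨i1, i2⟩ := f3a_int (k := k) (n := S.d) hk S.d_pos
  have hN : (0 : ℝ) < S.nrm m := by exact_mod_cast nrm_pos S m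
  have hsq : 0 < √(S.nrm m : ℝ) := Real.sqrt_pos.2 hN
  set c : ℝ := Real.log (S.nrm m) - Δ with hc
  set a : ℝ := |hs θ m| / √(S.nrm m : ℝ) with ha
  have ha0 : 0 ≤ a := by positivity
  have e1 : ∀ u : ℝ, a * GD k S.d (u + Real.log (S.nrm m) - Δ) * Real.exp (16 * u) =
      a * Real.exp (-(16 * c)) * (GD k S.d (u + c) * Real.exp (16 * (u + c))) := by
    intro u
    have h1 : u + Real.log (S.nrm m) - Δ = u + c := by rw [hc]; ring
    have h2 : Real.exp (16 * u) = Real.exp (-(16 * c)) * Real.exp (16 * (u + c)) := by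
      rw [← Real.exp_add]; congr 1; ring
    rw [h1, h2]; ring
  have i3 : Integrable (fun u : ℝ => GD k S.d (u + c) * Real.exp (16 * (u + c))) :=
    i1.comp_add_right c
  have i4 : ∫ u : ℝ, GD k S.d (u + c) * Real.exp (16 * (u + c)) = WS.f3_G k ^ S.d := by
    rw [← i2]
    exact integral_add_right_eq_self (fun u : ℝ => GD k S.d u * Real.exp (16 * u)) c
  simp only [e1]
  rw [← ofReal_integral_eq_lintegral_ofReal (i3.const_mul _)
    (Filter.Eventually.of_forall fun u => by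
      have := GD_nonneg k S.d (u + c)
      simp only [Pi.zero_apply]
      positivity)]
  apply ENNReal.ofReal_le_ofReal
  rw [integral_const_mul, i4]
  have hG := f3a_G_nonneg k
  have t1 := (triv S hθ m).1
  have t2 : a ≤ S.nrm m := by
    rw [ha, div_le_iff₀ hsq]
    refine t1.trans (le_of_eq ?_)
    rw [Real.sqrt_eq_rpow]
    nth_rewrite 2 [← Real.rpow_one (S.nrm m : ℝ)]
    rw [← Real.rpow_add hN]
    norm_num
  have t3 : Real.exp (-(16 * c)) = Real.exp (16 * Δ) * (S.nrm m : ℝ) ^ (-(16 : ℝ)) := by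
    rw [Real.rpow_def_of_pos hN, ← Real.exp_add, hc]
    congr 1
    ring
  have t4 : (S.nrm m : ℝ) * (S.nrm m : ℝ) ^ (-(16 : ℝ)) = (S.nrm m : ℝ) ^ (-(15 : ℝ)) := by
    nth_rewrite 1 [← Real.rpow_one (S.nrm m : ℝ)]
    rw [← Real.rpow_add hN]
    norm_num
  calc a * Real.exp (-(16 * c)) * WS.f3_G k ^ S.d
      ≤ (S.nrm m : ℝ) * Real.exp (-(16 * c)) * WS.f3_G k ^ S.d := by gcongr
    _ = _ := by rw [t3, ← t4]; ring

lemma f3a_lint {k : ℕ} (hk : 1 ≤ k) {Δ : ℝ} {θ : P → ℝ} (H : TD S k Δ θ) :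
    ∫⁻ u : ℝ, ENNReal.ofReal (‖(Dd S k Δ θ u : ℂ)‖ * Real.exp (16 * u)) ≤
      ENNReal.ofReal (Real.exp (16 * Δ) * WS.f3_G k ^ S.d *
        ∑' m : P →₀ ℕ, (S.nrm m : ℝ) ^ (-(15 : ℝ))) := by
  haveI := f3a_countable S
  have hG := f3a_G_nonneg k
  obtain ⟨hsum, -⟩ := Db_facts S hk Δ H.triv 0
  simp only [zero_add] at hsum
  set F : (P →₀ ℕ) → ℝ → ℝ := fun m u => |hs θ m| / √(S.nrm m : ℝ) *
    GD k S.d (u + Real.log (S.nrm m) - Δ) * Real.exp (16 * u) with hF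
  have hF0 : ∀ m u, 0 ≤ F m u := fun m u => by
    have := GD_nonneg k S.d (u + Real.log (S.nrm m) - Δ)
    simp only [hF]; positivity
  have hFc : ∀ m, Continuous (F m) := by
    intro m
    have h1 := GD_cont (k := k) (n := S.d) hk
    have h2 : Continuous (fun u : ℝ => GD k S.d (u + Real.log (S.nrm m) - Δ)) :=
      h1.comp (by fun_prop)
    simp only [hF]
    fun_prop
  have hpt : ∀ u : ℝ, ENNReal.ofReal (‖(Dd S k Δ θ u : ℂ)‖ * Real.exp (16 * u)) ≤
      ∑' m, ENNReal.ofReal (F m u) := by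
    intro u
    have h2 : Summable (fun m : P →₀ ℕ => ‖hs θ m / √(S.nrm m : ℝ) *
        GD k S.d (u + Real.log (S.nrm m) - Δ)‖) := by
      refine (hsum u).congr fun m => ?_
      rw [norm_mul, norm_div, Real.norm_eq_abs, Real.norm_eq_abs, Real.norm_eq_abs,
        abs_of_nonneg (Real.sqrt_nonneg _), abs_of_nonneg (GD_nonneg _ _ _)]
    have h4 : ‖(Dd S k Δ θ u : ℂ)‖ ≤ ∑' m : P →₀ ℕ, |hs θ m| / √(S.nrm m : ℝ) *
        GD k S.d (u + Real.log (S.nrm m) - Δ) := by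
      rw [Complex.norm_real, Dd]
      refine (norm_tsum_le_tsum_norm h2).trans (le_of_eq (tsum_congr fun m => ?_))
      rw [norm_mul, norm_div, Real.norm_eq_abs, Real.norm_eq_abs, Real.norm_eq_abs,
        abs_of_nonneg (Real.sqrt_nonneg _), abs_of_nonneg (GD_nonneg _ _ _)]
    have h5 : Summable (fun m => F m u) := (hsum u).mul_right (Real.exp (16 * u))
    rw [← ENNReal.ofReal_tsum_of_nonneg (fun m => hF0 m u) h5]
    apply ENNReal.ofReal_le_ofReal
    have h6 : ∑' m, F m u = (∑' m : P →₀ ℕ, |hs θ m| / √(S.nrm m : ℝ) *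
        GD k S.d (u + Real.log (S.nrm m) - Δ)) * Real.exp (16 * u) := by
      rw [← tsum_mul_right]
    rw [h6]
    exact mul_le_mul_of_nonneg_right h4 (Real.exp_pos _).le
  refine (lintegral_mono hpt).trans ?_
  have hlt : ∫⁻ u : ℝ, ∑' m, ENNReal.ofReal (F m u) =
      ∑' m, ∫⁻ u : ℝ, ENNReal.ofReal (F m u) :=
    lintegral_tsum (fun m => (ENNReal.measurable_ofReal.comp (hFc m).measurable).aemeasurable)
  rw [hlt]
  refine (ENNReal.tsum_le_tsum fun m => f3a_term S hk Δ H.triv m).trans ?_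
  have hz : Summable (fun m : P →₀ ℕ => (S.nrm m : ℝ) ^ (-(15 : ℝ))) :=
    sum_nrm S (s := 15) (by norm_num)
  rw [← ENNReal.ofReal_tsum_of_nonneg (fun m => by positivity) (hz.mul_left _), tsum_mul_left]

theorem zer_up (Δ : ℝ) : ∃ (C : ℝ) (k₀ : ℕ), 0 < C ∧ ∀ k : ℕ, k₀ ≤ k → Even k → ∀ {θ : P → ℝ},
    TD S k Δ θ → ∀ Λ : ℂ → ℂ, IsLam S k Δ θ Λ → ∀ s : ℂ, |s.re - 1 / 2| ≤ 12 →
      ‖Λ s‖ ≤ GK S k * (k : ℝ) ^ C := by
  set Z : ℝ := ∑' m : P →₀ ℕ, (S.nrm m : ℝ) ^ (-(15 : ℝ)) with hZ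
  have hZ0 : 0 ≤ Z := tsum_nonneg fun m => by positivity
  refine ⟨16 * S.d + 1, max 30 ⌈Real.exp (Δ / 2) * (2 * (Real.exp (16 * Δ) * Z))⌉₊,
    by positivity, ?_⟩
  intro k hk he θ H Λ hΛ s hs
  have hk30' : 30 ≤ k := le_trans (le_max_left _ _) hk
  have hk1 : 1 ≤ k := by omega
  have hk30 : (30 : ℝ) ≤ k := by exact_mod_cast hk30'
  have hkZ : Real.exp (Δ / 2) * (2 * (Real.exp (16 * Δ) * Z)) ≤ k :=
    (Nat.le_ceil _).trans (by exact_mod_cast le_trans (le_max_right _ _) hk)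
  obtain ⟨Λ', hΛ', hm⟩ := lam_mellin S hk1 H
  have hE : Λ = Λ' := lam_unique S hk1 hΛ hΛ'
  rw [hE, (hm s).2]
  set A : ℝ → ℂ := fun u => (Dd S k Δ θ u : ℂ) with hA
  have hAc : Continuous A := Complex.continuous_ofReal.comp (Dd_nice S hk1 H).2
  obtain ⟨ε, hε, hsym⟩ := H.sym
  have hsymn : ∀ u, ‖A (-u)‖ = ‖A u‖ := by
    intro u
    simp only [hA]
    rw [hsym u, Complex.ofReal_mul, norm_mul]
    rcases hε with h | h <;> simp [h]
  have hG0 := f3a_G_nonneg k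
  set D : ℝ := Real.exp (16 * Δ) * WS.f3_G k ^ S.d * Z with hD
  have hD0 : 0 ≤ D := by positivity
  have h1 : ‖∫ u : ℝ, A u * cexp ((s - 1 / 2) * u)‖ ≤ 2 * D := by
    refine (norm_integral_le_lintegral_norm _).trans ?_
    apply ENNReal.toReal_le_of_le_ofReal (by positivity)
    have h2 : ∀ u : ℝ, ENNReal.ofReal ‖A u * cexp ((s - 1 / 2) * u)‖ ≤
        ENNReal.ofReal (‖A u‖ * Real.exp (16 * u)) +
          ENNReal.ofReal (‖A (-u)‖ * Real.exp (16 * (-u))) := by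
      intro u
      rw [← ENNReal.ofReal_add (by positivity) (by positivity), hsymn]
      apply ENNReal.ofReal_le_ofReal
      rw [norm_mul, ← mul_add]
      apply mul_le_mul_of_nonneg_left _ (norm_nonneg _)
      rw [Complex.norm_exp]
      have e1 : ((s - 1 / 2) * (u : ℂ)).re = (s.re - 1 / 2) * u := by
        simp [Complex.mul_re]
      rw [e1]
      have hab := abs_le.1 hs
      rcases le_total 0 u with hu | hu
      · have : Real.exp ((s.re - 1 / 2) * u) ≤ Real.exp (16 * u) :=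
          Real.exp_le_exp.2 (by nlinarith)
        have := Real.exp_pos (16 * (-u))
        linarith
      · have : Real.exp ((s.re - 1 / 2) * u) ≤ Real.exp (16 * (-u)) :=
          Real.exp_le_exp.2 (by nlinarith)
        have := Real.exp_pos (16 * u)
        linarith
    refine (lintegral_mono h2).trans ?_
    have hmeas : Measurable (fun u : ℝ => ENNReal.ofReal (‖A u‖ * Real.exp (16 * u))) := by
      apply ENNReal.measurable_ofReal.comp
      apply Continuous.measurable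
      fun_prop
    rw [lintegral_add_left hmeas]
    have h3 : ∫⁻ u : ℝ, ENNReal.ofReal (‖A (-u)‖ * Real.exp (16 * (-u))) =
        ∫⁻ u : ℝ, ENNReal.ofReal (‖A u‖ * Real.exp (16 * u)) :=
      lintegral_neg_eq_self (μ := volume)
        (fun u : ℝ => ENNReal.ofReal (‖A u‖ * Real.exp (16 * u)))
    rw [h3]
    have h4 := f3a_lint S hk1 H
    refine (add_le_add h4 h4).trans ?_
    rw [← ENNReal.ofReal_add (by positivity) (by positivity)]
    apply ENNReal.ofReal_le_ofReal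
    simp only [hD]
    linarith
  have h5 := WS.f3_G_le hk30'
  have hg : 0 ≤ gk k := by
    unfold gk
    have := Real.Gamma_pos_of_pos (show (0 : ℝ) < (k : ℝ) / 2 by positivity)
    positivity
  have h5' : WS.f3_G k ^ S.d ≤ GK S k * ((k : ℝ) ^ 16) ^ S.d := by
    rw [GK, ← mul_pow]
    exact pow_le_pow_left₀ hG0 h5 _
  have hGK : 0 ≤ GK S k := by
    unfold GK
    positivity
  have hkp : (0 : ℝ) < k := by linarith
  have h6 : (k : ℝ) ^ (16 * S.d + 1 : ℝ) = ((k : ℝ) ^ 16) ^ S.d * k := by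
    rw [Real.rpow_add hkp, Real.rpow_one]
    congr 1
    rw [← pow_mul, ← Real.rpow_natCast]
    push_cast
    rfl
  rw [norm_mul, h6]
  have h7 : ‖cexp ((Δ : ℂ) / 2)‖ = Real.exp (Δ / 2) := by
    rw [Complex.norm_exp]
    congr 1
    simp
  rw [h7]
  calc Real.exp (Δ / 2) * ‖∫ u : ℝ, A u * cexp ((s - 1 / 2) * u)‖
      ≤ Real.exp (Δ / 2) * (2 * D) := by gcongr
    _ = Real.exp (Δ / 2) * (2 * (Real.exp (16 * Δ) * Z)) * WS.f3_G k ^ S.d := by
        rw [hD]; ring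
    _ ≤ k * (GK S k * ((k : ℝ) ^ 16) ^ S.d) := by
        gcongr
    _ = _ := by ring


end Pool.Agent.HS
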