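import Pool.Agent.Lib_helper45.HS.Defs
import Pool.Agent.Lib_helper24.ABS.Data
import Pool.Agent.Lib_helper45.HSF.F2
import Pool.Agent.Lib_helper45.HSF.G0
import Pool.Agent.Lib_helper45.HSF.H1C

/-! # HS block F3B (ZLB): the lower bound for `Λ` on `Re s = 7/2` -/

namespace Pool.Agent.HS

open Complex MeasureTheory Filter Topology
open scoped ENNReal Classical
open Pool.Agent.WA (gd gk)
open Pool.Agent.SEL (NL Adm)
open Pool.Agent.SQS (hat)
open Pool.Agent.WS (st EE RT cc hl Step)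
open Finset.HasAntidiagonal (antidiagonal)

variable {P : Type} (S : PSys P)

theorem f3b_GK_pos {k : ℕ} (hk : 1 ≤ k) : 0 < GK S k := by
  unfold GK
  refine pow_pos ?_ _
  unfold WA.gk
  apply mul_pos
  · apply Real.Gamma_pos_of_pos
    have : (0 : ℝ) < k := by exact_mod_cast hk
    linarith
  · positivity

theorem f3b_gam_ne {k : ℕ} (hk : 1 ≤ k) (Δ : ℝ) {s : ℂ} (hs : 3 / 2 < s.re) :
    gam S k Δ s ≠ 0 := by
  unfold gam
  refine mul_ne_zero (Complex.exp_ne_zero _) (pow_ne_zero _ (mul_ne_zero ?_ ?_))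
  · have h1 : (((2 * Real.pi : ℝ)) : ℂ) ≠ 0 := by
      exact_mod_cast (by positivity : (2 * Real.pi : ℝ) ≠ 0)
    exact (Complex.cpow_ne_zero_iff_of_exponent_ne_zero (by
      intro h
      have h2 := congrArg Complex.re h
      have h3 : (1 : ℝ) ≤ k := by exact_mod_cast hk
      simp at h2
      linarith)).2 h1
  · apply Complex.Gamma_ne_zero_of_re_pos
    have h3 : (1 : ℝ) ≤ k := by exact_mod_cast hk
    simp
    linarith

/-- the Fourier transform of the normalised gamma density -/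
theorem f3b_hat {k : ℕ} (hk : 1 ≤ k) (t : ℝ) :
    ‖hat (fun u => (GD k S.d (u + cG S k) : ℂ) / (GK S k : ℂ)) t‖ * GK S k =
      (‖Complex.Gamma ((k : ℂ) / 2 + t * I)‖ * (2 * Real.pi) ^ (-((k : ℝ) / 2))) ^ S.d := by
  have hg := f3b_GK_pos S hk
  have e1 : hat (fun u => (GD k S.d (u + cG S k) : ℂ) / (GK S k : ℂ)) t =
      cexp (-(t * (cG S k : ℝ) * I)) * hat (fun v => (GK S k : ℂ)⁻¹ * (GD k S.d v : ℂ)) t := by
    rw [← ABS.hat_shift]
    congr 1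
    funext u
    rw [div_eq_inv_mul]
  rw [e1, ABS.hat_const_mul, norm_mul, norm_mul]
  have e2 : ‖cexp (-(t * (cG S k : ℝ) * I))‖ = 1 := by
    rw [show -((t : ℂ) * (cG S k : ℝ) * I) = ((-(t * cG S k) : ℝ) : ℂ) * I by push_cast; ring]
    exact norm_exp_ofReal_mul_I _
  have e3 : hat (fun v => (GD k S.d v : ℂ)) t =
      (Complex.Gamma ((k : ℂ) / 2 + t * I) *
        ((2 * Real.pi : ℝ) : ℂ) ^ (-((k : ℂ) / 2 + t * I))) ^ S.d := by
    have hk' : (0 : ℝ) < k := by exact_mod_cast hk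
    rw [← (GD_mellin (k := k) (n := S.d) hk S.d_pos (z := t * I) (by simp; positivity)).2]
    unfold hat
    congr 1
    funext u
    congr 2
    ring
  rw [e2, e3, norm_pow, norm_mul, norm_inv, Complex.norm_real, Real.norm_of_nonneg hg.le]
  have e4 : ‖((2 * Real.pi : ℝ) : ℂ) ^ (-((k : ℂ) / 2 + t * I))‖ =
      (2 * Real.pi) ^ (-((k : ℝ) / 2)) := by
    rw [norm_cpow_eq_rpow_re_of_pos (by positivity)]
    simp
  rw [e4]
  field_simp

theorem zer_low (Δ : ℝ) : ∃ (c₂ : ℝ) (k₀ : ℕ), 0 < c₂ ∧ ∀ k : ℕ, k₀ ≤ k → Even k → ∀ {θ : P → ℝ},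
    TD S k Δ θ → ∀ Λ : ℂ → ℂ, IsLam S k Δ θ Λ → ∀ t : ℝ, |t| ≤ c₂ * √k →
      c₂ * GK S k ≤ ‖Λ (7 / 2 + t * I)‖ := by
  obtain ⟨c₁, k₀, hc₁, hr⟩ := ref_low S
  obtain ⟨c, hc, hlow⟩ := hs_low S
  set b : ℝ := Real.exp (Δ * (7 / 2)) * (((2 * Real.pi) ^ 3)⁻¹) ^ S.d with hb
  have hb0 : 0 < b := by
    rw [hb]
    positivity
  refine ⟨min c₁ (b * (1 / 2) * c), max k₀ 2, lt_min hc₁ (by positivity), ?_⟩
  intro k hk he θ H Λ hΛ t ht
  have hk0 : k₀ ≤ k := (le_max_left _ _).trans hk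
  have hk2 : 2 ≤ k := (le_max_right _ _).trans hk
  have hk2' : (2 : ℝ) ≤ k := by exact_mod_cast hk2
  have hg := f3b_GK_pos S (k := k) (by omega)
  have ht1 : |t| ≤ c₁ * √k :=
    ht.trans (mul_le_mul_of_nonneg_right (min_le_left _ _) (Real.sqrt_nonneg _))
  have h1 := (hr k hk0).1 t ht1
  have h2 := f3b_hat S (k := k) (by omega) t
  set x : ℝ := ‖Complex.Gamma ((k : ℂ) / 2 + t * I)‖ * (2 * Real.pi) ^ (-((k : ℝ) / 2)) with hx
  have hx0 : 0 ≤ x := by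
    rw [hx]
    positivity
  have h3 : 1 / 2 * GK S k ≤ x ^ S.d := by
    rw [← h2]
    exact mul_le_mul_of_nonneg_right h1 hg.le
  set s : ℂ := 7 / 2 + t * I with hsdef
  have hsre : (3 : ℝ) / 2 < s.re := by
    rw [hsdef]
    simp
    norm_num
  have h4 : Λ s = gam S k Δ s * ∑' m : P →₀ ℕ, (hs θ m : ℂ) * (S.nrm m : ℂ) ^ (-s) := by
    have h5 := (hΛ.2 s hsre).unique (hs_sum S H.triv hsre).2.1
    have h6 := f3b_gam_ne S (k := k) (by omega) Δ hsre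
    rw [div_eq_iff h6] at h5
    rw [h5, mul_comm]
  -- Gamma factor
  have hz0 : ∀ z : ℂ, 1 ≤ z.re → ‖Complex.Gamma z‖ ≤ ‖Complex.Gamma (z + 1)‖ := by
    intro z hz
    have hz' : z ≠ 0 := by
      intro h; rw [h, zero_re] at hz; linarith
    rw [Complex.Gamma_add_one z hz', norm_mul]
    have : 1 ≤ ‖z‖ := hz.trans (Complex.re_le_norm z)
    nlinarith [norm_nonneg (Complex.Gamma z)]
  set w : ℂ := s + ((k : ℂ) - 1) / 2 with hw
  have hweq : w = (((k : ℂ) / 2 + t * I) + 1 + 1) + 1 := by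
    rw [hw, hsdef]; ring
  have hwre : w.re = (k : ℝ) / 2 + 3 := by
    rw [hweq]; simp; ring
  have hre0 : ((k : ℂ) / 2 + t * I).re = (k : ℝ) / 2 := by simp
  have h5 : ‖Complex.Gamma ((k : ℂ) / 2 + t * I)‖ ≤ ‖Complex.Gamma w‖ := by
    rw [hweq]
    refine (hz0 _ ?_).trans ((hz0 _ ?_).trans (hz0 _ ?_))
    · rw [hre0]; linarith
    · rw [add_re, hre0, one_re]; linarith
    · rw [add_re, add_re, hre0, one_re]; linarith
  have h7 : (2 * Real.pi) ^ (-((k : ℝ) / 2 + 3)) =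
      (2 * Real.pi) ^ (-((k : ℝ) / 2)) * ((2 * Real.pi) ^ 3)⁻¹ := by
    rw [neg_add, Real.rpow_add (by positivity)]
    congr 1
    rw [Real.rpow_neg (by positivity)]
    congr 1
    exact_mod_cast Real.rpow_natCast (2 * Real.pi) 3
  have h6 : x * ((2 * Real.pi) ^ 3)⁻¹ ≤ ‖((2 * Real.pi : ℝ) : ℂ) ^ (-w) * Complex.Gamma w‖ := by
    rw [norm_mul, norm_cpow_eq_rpow_re_of_pos (by positivity), neg_re, hwre, h7, hx]
    have h8 : (0 : ℝ) ≤ (2 * Real.pi) ^ (-((k : ℝ) / 2)) * ((2 * Real.pi) ^ 3)⁻¹ := by positivity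
    calc ‖Complex.Gamma ((k : ℂ) / 2 + t * I)‖ * (2 * Real.pi) ^ (-((k : ℝ) / 2)) *
          ((2 * Real.pi) ^ 3)⁻¹
        = ((2 * Real.pi) ^ (-((k : ℝ) / 2)) * ((2 * Real.pi) ^ 3)⁻¹) *
          ‖Complex.Gamma ((k : ℂ) / 2 + t * I)‖ := by ring
      _ ≤ _ := mul_le_mul_of_nonneg_left h5 h8
  have h9 : b * (1 / 2 * GK S k) ≤ ‖gam S k Δ s‖ := by
    unfold gam
    rw [norm_mul, norm_pow, Complex.norm_exp]
    have e1 : ((Δ : ℂ) * s).re = Δ * (7 / 2) := by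
      rw [hsdef]
      simp
    rw [e1]
    have e2 : (x * ((2 * Real.pi) ^ 3)⁻¹) ^ S.d ≤
        ‖((2 * Real.pi : ℝ) : ℂ) ^ (-w) * Complex.Gamma w‖ ^ S.d :=
      pow_le_pow_left₀ (by positivity) h6 _
    have e3 : b * (1 / 2 * GK S k) ≤ Real.exp (Δ * (7 / 2)) * (x * ((2 * Real.pi) ^ 3)⁻¹) ^ S.d := by
      rw [mul_pow, hb]
      calc Real.exp (Δ * (7 / 2)) * (((2 * Real.pi) ^ 3)⁻¹) ^ S.d * (1 / 2 * GK S k)
          ≤ Real.exp (Δ * (7 / 2)) * (((2 * Real.pi) ^ 3)⁻¹) ^ S.d * x ^ S.d :=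
            mul_le_mul_of_nonneg_left h3 (by positivity)
        _ = _ := by ring
    exact e3.trans (mul_le_mul_of_nonneg_left e2 (Real.exp_pos _).le)
  rw [h4, norm_mul]
  have h10 := hlow θ H.triv t
  calc min c₁ (b * (1 / 2) * c) * GK S k ≤ (b * (1 / 2) * c) * GK S k :=
        mul_le_mul_of_nonneg_right (min_le_right _ _) hg.le
    _ = (b * (1 / 2 * GK S k)) * c := by ring
    _ ≤ ‖gam S k Δ s‖ * ‖∑' m : P →₀ ℕ, (hs θ m : ℂ) * (S.nrm m : ℂ) ^ (-s)‖ :=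
        mul_le_mul h9 h10 hc.le (norm_nonneg _)


end Pool.Agent.HS
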