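import Pool.Agent.Lib_helper45.HS.Defs
import Pool.Agent.Lib_helper45.HSF.F1
import Pool.Agent.Lib_helper45.HSF.H1C

/-! Block F3C (ZST): the zeros lie in a strip. -/

namespace Pool.Agent.HS

open Complex MeasureTheory Filter Topology
open scoped ENNReal Classical
open Pool.Agent.WA (gd gk)
open Pool.Agent.SEL (NL Adm)
open Pool.Agent.WS (st EE RT cc hl Step)
open Pool.Agent.SQS (hat)

variable {P : Type} (S : PSys P)

/-- the completed L-function does not vanish to the right of `3/2` -/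
theorem f3c_ne {k : ℕ} {Δ : ℝ} {θ : P → ℝ} (H : TD S k Δ θ) {Λ : ℂ → ℂ}
    (h : IsLam S k Δ θ Λ) {s : ℂ} (hs : 3 / 2 < s.re) : Λ s ≠ 0 := by
  intro h0
  obtain ⟨-, hp, hne⟩ := hs_sum S H.triv hs
  have h1 := h.2 s hs
  rw [h0, zero_div] at h1
  exact hne (hp.unique h1)

/-- the functional equation -/
theorem f3c_fe {k : ℕ} (hk : 1 ≤ k) {Δ : ℝ} {θ : P → ℝ} (H : TD S k Δ θ) {Λ : ℂ → ℂ}
    (h : IsLam S k Δ θ Λ) : ∃ ε : ℂ, ∀ s : ℂ, Λ (1 - s) = ε * Λ s := by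
  obtain ⟨Λ', h', hint⟩ := lam_mellin S hk H
  have he : Λ = Λ' := lam_unique S hk h h'
  subst he
  obtain ⟨ε, -, hsym⟩ := H.sym
  refine ⟨(ε : ℂ), fun s => ?_⟩
  rw [(hint (1 - s)).2, (hint s).2]
  have e1 : ∫ u : ℝ, (Dd S k Δ θ u : ℂ) * cexp ((1 - s - 1 / 2) * u) =
      ∫ u : ℝ, (Dd S k Δ θ (-u) : ℂ) * cexp ((1 - s - 1 / 2) * ((-u : ℝ) : ℂ)) :=
    (integral_neg_eq_self (fun u : ℝ => (Dd S k Δ θ u : ℂ) * cexp ((1 - s - 1 / 2) * u))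
      volume).symm
  rw [e1]
  have e2 : ∀ u : ℝ, (Dd S k Δ θ (-u) : ℂ) * cexp ((1 - s - 1 / 2) * ((-u : ℝ) : ℂ)) =
      (ε : ℂ) * ((Dd S k Δ θ u : ℂ) * cexp ((s - 1 / 2) * u)) := by
    intro u
    rw [hsym u]
    push_cast
    rw [mul_assoc]
    congr 3
    ring
  simp_rw [e2]
  rw [integral_const_mul]
  ring

theorem zer_strip {k : ℕ} (hk : 1 ≤ k) {Δ : ℝ} {θ : P → ℝ} (H : TD S k Δ θ) {Λ : ℂ → ℂ}
    (h : IsLam S k Δ θ Λ) (ρ : ℂ) (hρ : Λ ρ = 0) : -1 / 2 ≤ ρ.re ∧ ρ.re ≤ 3 / 2 := by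
  obtain ⟨ε, hfe⟩ := f3c_fe S hk H h
  constructor
  · by_contra hlt
    push Not at hlt
    refine f3c_ne S H h (s := 1 - ρ) ?_ ?_
    · rw [sub_re, one_re]
      linarith
    · rw [hfe, hρ, mul_zero]
  · by_contra hlt
    push Not at hlt
    exact f3c_ne S H h hlt hρ

end Pool.Agent.HS
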