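import Pool.Agent.Lib_helper45.HS.Defs
import Pool.Agent.Lib_helper98.WSF.F4
import Pool.Agent.Lib_helper45.HSF.F3A
import Pool.Agent.Lib_helper45.HSF.F3B
import Pool.Agent.Lib_helper45.HSF.F3C

/-!
# HS, block F4: the number of zeros
-/

namespace Pool.Agent.HS

open Complex MeasureTheory Filter Topology
open scoped ENNReal Classical
open Pool.Agent.WA (gd gk)
open Pool.Agent.SEL (NL Adm)
open Pool.Agent.SQS (hat)
open Pool.Agent.WS (st EE RT cc hl Step)
open Finset.HasAntidiagonal (antidiagonal)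

variable {P : Type} (S : PSys P)

theorem zeros_count (Δ : ℝ) : ∃ (C c₂ : ℝ) (k₀ : ℕ), 0 < C ∧ 0 < c₂ ∧ ∀ k : ℕ, k₀ ≤ k → Even k →
    ∀ {θ : P → ℝ}, TD S k Δ θ → ∀ Λ : ℂ → ℂ, IsLam S k Δ θ Λ → ∀ x h : ℝ, 0 < h →
      -(c₂ * √k) ≤ x → x + h ≤ c₂ * √k →
      WS.allZer Λ x (x + h) ≤ ENNReal.ofReal (C * (1 + h) * Real.log k) := by
  obtain ⟨C₁, k₁, hC₁, hup⟩ := zer_up S Δ
  obtain ⟨c, k₂, hc, hlow⟩ := zer_low S Δ
  have hlog43 : 0 < Real.log (4 / 3) := Real.log_pos (by norm_num)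
  have hlog2 : 0 < Real.log 2 := Real.log_pos (by norm_num)
  refine ⟨3 * ((C₁ + |Real.log c| / Real.log 2) / Real.log (4 / 3)), c / 2,
    max (max k₁ k₂) (max 2 ⌈(4 / c) ^ 2⌉₊), by positivity, by positivity, ?_⟩
  intro k hk he θ H Λ hΛ x h hh hx1 hx2
  have hk1 : k₁ ≤ k := le_trans (le_trans (le_max_left _ _) (le_max_left _ _)) hk
  have hk2 : k₂ ≤ k := le_trans (le_trans (le_max_right _ _) (le_max_left _ _)) hk
  have hk3 : 2 ≤ k := le_trans (le_trans (le_max_left _ _) (le_max_right _ _)) hk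
  have hk4 : ⌈(4 / c) ^ 2⌉₊ ≤ k := le_trans (le_trans (le_max_right _ _) (le_max_right _ _)) hk
  have hkpos : 0 < k := by omega
  have hkR : (2 : ℝ) ≤ k := by exact_mod_cast hk3
  have hsq : 4 / c ≤ √k := by
    apply Real.le_sqrt_of_sq_le
    exact (Nat.le_ceil _).trans (by exact_mod_cast hk4)
  have hsq2 : 2 ≤ c / 2 * √k := by
    have h1 : c * (4 / c) ≤ c * √k := mul_le_mul_of_nonneg_left hsq hc.le
    have h2 : c * (4 / c) = 4 := by field_simp
    linarith
  have hg : 0 < GK S k := pow_pos (WS.f4_gk_pos hkpos) _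
  have hg0 : (GK S k : ℂ) ≠ 0 := by exact_mod_cast hg.ne'
  set b : ℂ := -1 / 2 + (x + h / 2 : ℝ) * I with hb
  have hbre : b.re = -1 / 2 := by simp [hb]
  have hbim : b.im = x + h / 2 := by simp [hb]
  set f : ℂ → ℂ := fun z => Λ (2 * z + b) / (GK S k : ℂ) with hf
  set K : ℕ := ⌈h / 4⌉₊ with hK
  have hKle : (K : ℝ) ≤ h / 4 + 1 := (Nat.ceil_lt_add_one (by positivity)).le
  have hfd : Differentiable ℂ f := by
    rw [hf]
    exact (hΛ.1.comp (by fun_prop)).div_const _
  have hM1 : 1 ≤ (k : ℝ) ^ C₁ := Real.one_le_rpow (by linarith) hC₁.le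
  have hcount := WS.f4_count f hfd K ((k : ℝ) ^ C₁) c hM1 hc ?_ ?_ ?_ (h / 4) (Nat.le_ceil _)
  · -- comparison of the sums
    have hle : WS.allZer Λ x (x + h) ≤
        ∑' z : {z : ℂ // |z.im| ≤ h / 4}, (analyticOrderNatAt f z.1 : ENNReal) := by
      unfold WS.allZer
      set i : {ρ : ℂ // x < ρ.im ∧ ρ.im < x + h} → {z : ℂ // |z.im| ≤ h / 4} := fun ρ =>
        ⟨(ρ.1 - b) / 2, by
          have h1 : ((ρ.1 - b) / 2).im = (ρ.1.im - b.im) / 2 := by
            rw [show (2 : ℂ) = ((2 : ℝ) : ℂ) by norm_num, Complex.div_ofReal_im, Complex.sub_im]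
          rw [h1, hbim, abs_le]
          constructor <;> linarith [ρ.2.1, ρ.2.2]⟩ with hi
      have hinj : Function.Injective i := by
        intro ρ ρ' hρ
        have h1 : (ρ.1 - b) / 2 = (ρ'.1 - b) / 2 := congrArg Subtype.val hρ
        apply Subtype.ext
        linear_combination 2 * h1
      have h2 : ∑' ρ : {ρ : ℂ // x < ρ.im ∧ ρ.im < x + h}, (analyticOrderNatAt Λ ρ.1 : ℝ≥0∞) =
          ∑' ρ : {ρ : ℂ // x < ρ.im ∧ ρ.im < x + h},
            (fun z : {z : ℂ // |z.im| ≤ h / 4} => (analyticOrderNatAt f z.1 : ENNReal)) (i ρ) := by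
        refine tsum_congr fun ρ => ?_
        show (analyticOrderNatAt Λ ρ.1 : ℝ≥0∞) = (analyticOrderNatAt f ((ρ.1 - b) / 2) : ENNReal)
        rw [hf, WS.f4_order hΛ.1 hg0 b ρ.1]
      rw [h2]
      exact ENNReal.tsum_comp_le_tsum_of_injective hinj _
    refine hle.trans (hcount.trans (ENNReal.ofReal_le_ofReal ?_))
    have hlogk : Real.log 2 ≤ Real.log k := Real.log_le_log (by norm_num) hkR
    have hlogk0 : 0 < Real.log k := lt_of_lt_of_le hlog2 hlogk
    have h3 : Real.log ((k : ℝ) ^ C₁ / c) ≤ (C₁ + |Real.log c| / Real.log 2) * Real.log k := by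
      rw [Real.log_div (by positivity) hc.ne', Real.log_rpow (by linarith), add_mul]
      have h4 : -Real.log c ≤ |Real.log c| / Real.log 2 * Real.log k := by
        rw [div_mul_eq_mul_div, le_div_iff₀ hlog2]
        calc -Real.log c * Real.log 2 ≤ |Real.log c| * Real.log 2 :=
              mul_le_mul_of_nonneg_right (neg_le_abs _) hlog2.le
          _ ≤ |Real.log c| * Real.log k := mul_le_mul_of_nonneg_left hlogk (abs_nonneg _)
      linarith
    have h5 : (2 * (K : ℝ) + 1) ≤ 3 * (1 + h) := by linarith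
    calc (2 * (K : ℝ) + 1) * (Real.log ((k : ℝ) ^ C₁ / c) / Real.log (4 / 3))
        ≤ (2 * (K : ℝ) + 1) *
          ((C₁ + |Real.log c| / Real.log 2) * Real.log k / Real.log (4 / 3)) := by
          apply mul_le_mul_of_nonneg_left _ (by positivity)
          exact div_le_div_of_nonneg_right h3 hlog43.le
      _ ≤ (3 * (1 + h)) *
          ((C₁ + |Real.log c| / Real.log 2) * Real.log k / Real.log (4 / 3)) := by
          apply mul_le_mul_of_nonneg_right h5 (by positivity)
      _ = _ := by ring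
  · -- lower bound
    intro j hj
    rw [Finset.mem_Icc] at hj
    have hj1 : -(K : ℝ) ≤ (j : ℝ) := by exact_mod_cast hj.1
    have hj2 : (j : ℝ) ≤ K := by exact_mod_cast hj.2
    have e1 : (2 : ℂ) * (2 + ((j : ℝ) : ℂ) * I) + b =
        7 / 2 + ((2 * j + (x + h / 2) : ℝ) : ℂ) * I := by
      rw [hb]
      push_cast
      ring
    rw [hf]
    simp only []
    rw [e1, norm_div, Complex.norm_real, Real.norm_eq_abs, abs_of_pos hg, le_div_iff₀ hg]
    apply hlow k hk2 he H Λ hΛ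
    rw [abs_le]
    constructor <;> linarith
  · -- upper bound
    intro z hz1 hz2
    rw [hf]
    simp only []
    rw [norm_div, Complex.norm_real, Real.norm_eq_abs, abs_of_pos hg, div_le_iff₀ hg,
      mul_comm ((k : ℝ) ^ C₁)]
    apply hup k hk1 he H Λ hΛ
    have e1 : (2 * z + b).re = 2 * z.re - 1 / 2 := by
      rw [Complex.add_re, hbre]
      simp
      ring
    rw [e1, abs_le]
    constructor <;> linarith
  · -- strip
    intro ρ hρ
    rw [hf] at hρ
    simp only [] at hρ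
    rw [div_eq_zero_iff] at hρ
    have h0 : Λ (2 * ρ + b) = 0 := by
      rcases hρ with h1 | h1
      · exact h1
      · exact absurd h1 hg0
    obtain ⟨h1, h2⟩ := zer_strip S (by omega) H hΛ _ h0
    have e1 : (2 * ρ + b).re = 2 * ρ.re - 1 / 2 := by
      rw [Complex.add_re, hbre]
      simp
      ring
    rw [e1] at h1 h2
    constructor <;> linarith

end Pool.Agent.HS
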