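import Pool.Agent.Lib_helper45.HS.Defs
import Pool.Agent.Lib_helper45.HSF.H1B
import Pool.Agent.Lib_helper45.HSF.H1C
import Pool.Agent.Lib_helper45.HSF.P0
import Pool.Agent.Lib_helper45.HSF.P1

/-! # Hilbert-Selberg, PART I: block N1 (NAA), the arithmetic of the natural count -/

namespace Pool.Agent.HS

open Complex MeasureTheory Filter Topology
open scoped ENNReal Classical
open Pool.Agent.WA (gd gk)
open Pool.Agent.SEL (NL Adm)
open Pool.Agent.SQS (hat)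
open Pool.Agent.WS (st EE RT cc hl Step)
open Finset.HasAntidiagonal (antidiagonal)

variable {P : Type} (S : PSys P)

theorem n1_one (m : P →₀ ℕ) : (1 : ℝ) ≤ S.nrm m := by exact_mod_cast nrm_pos S m

theorem n1_pos (m : P →₀ ℕ) : (0 : ℝ) < S.nrm m := by exact_mod_cast nrm_pos S m

theorem n1_add (m n : P →₀ ℕ) : (S.nrm (m + n) : ℝ) = S.nrm m * S.nrm n := by
  rw [nrm_add]
  push_cast
  rfl

/-- the dyadic majorant -/
theorem n1_dy {x y : ℝ} (hx : 0 < x) (hy : 0 < y) {J : ℕ} (hJ : y ≤ 2 ^ J * x) :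
    min 1 ((x / y) ^ 6) ≤ ∑ j ∈ Finset.range (J + 1),
      (1 / 2 : ℝ) ^ (6 * j) * (if y ≤ 2 ^ (j + 1) * x then 1 else 0) := by
  have hex : ∃ j : ℕ, y ≤ 2 ^ (j + 1) * x := by
    refine ⟨J, hJ.trans ?_⟩
    rw [pow_succ]
    nlinarith [pow_pos (show (0 : ℝ) < 2 by norm_num) J, mul_pos
      (pow_pos (show (0 : ℝ) < 2 by norm_num) J) hx]
  have h1 := Nat.find_spec hex
  have h2 : Nat.find hex ≤ J := Nat.find_min' hex (by
    refine hJ.trans ?_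
    rw [pow_succ]
    nlinarith [mul_pos (pow_pos (show (0 : ℝ) < 2 by norm_num) J) hx])
  set i := Nat.find hex with hi
  have h3 : (1 / 2 : ℝ) ^ (6 * i) * (if y ≤ 2 ^ (i + 1) * x then 1 else 0) ≤
      ∑ j ∈ Finset.range (J + 1),
        (1 / 2 : ℝ) ^ (6 * j) * (if y ≤ 2 ^ (j + 1) * x then 1 else 0) := by
    refine Finset.single_le_sum (f := fun j => (1 / 2 : ℝ) ^ (6 * j) *
      (if y ≤ 2 ^ (j + 1) * x then 1 else 0)) (fun j _ => ?_)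
      (Finset.mem_range.2 (Nat.lt_succ_of_le h2))
    show 0 ≤ (1 / 2 : ℝ) ^ (6 * j) * (if y ≤ 2 ^ (j + 1) * x then 1 else 0)
    split_ifs <;> positivity
  refine le_trans ?_ h3
  rw [if_pos h1, mul_one]
  rcases Nat.eq_zero_or_pos i with h4 | h4
  · rw [h4, mul_zero, pow_zero]
    exact min_le_left _ _
  · have h5 : ¬ y ≤ 2 ^ (i - 1 + 1) * x := Nat.find_min hex (by omega)
    rw [Nat.sub_add_cancel h4, not_le] at h5
    refine (min_le_right _ _).trans ?_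
    have h6 : x / y ≤ (1 / 2 : ℝ) ^ i := by
      rw [div_le_iff₀ hy]
      have h7 : (1 / 2 : ℝ) ^ i * (2 ^ i * x) = x := by
        rw [← mul_assoc, ← mul_pow]
        norm_num
      calc x = (1 / 2 : ℝ) ^ i * (2 ^ i * x) := h7.symm
        _ ≤ (1 / 2 : ℝ) ^ i * y := by gcongr
    calc (x / y) ^ 6 ≤ ((1 / 2 : ℝ) ^ i) ^ 6 := by gcongr
      _ = (1 / 2 : ℝ) ^ (6 * i) := by rw [← pow_mul, mul_comm]

theorem n1_geo (J : ℕ) : ∑ j ∈ Finset.range (J + 1), (1 / 2 : ℝ) ^ (5 * j) ≤ 2 := by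
  calc ∑ j ∈ Finset.range (J + 1), (1 / 2 : ℝ) ^ (5 * j) ≤
        ∑ j ∈ Finset.range (J + 1), (1 / 2 : ℝ) ^ j :=
        Finset.sum_le_sum fun j _ => pow_le_pow_of_le_one (by norm_num) (by norm_num) (by omega)
    _ ≤ ∑' j : ℕ, (1 / 2 : ℝ) ^ j :=
        Summable.sum_le_tsum _ (fun j _ => by positivity) summable_geometric_two
    _ = 2 := tsum_geometric_two

theorem n1_cnt {c₁ C₁ : ℝ} (hS : S.Ax c₁ C₁) (hC : 0 ≤ C₁) (T : Finset (P →₀ ℕ)) {y : ℝ}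
    (hy : 0 ≤ y) : ∑ n ∈ T, (if (S.nrm n : ℝ) ≤ y then (1 : ℝ) else 0) ≤ C₁ * y := by
  rw [← Finset.sum_filter, Finset.sum_const, nsmul_eq_mul, mul_one]
  have h1 : T.filter (fun n => (S.nrm n : ℝ) ≤ y) ⊆ S.BL (⌊y⌋₊ + 1) := by
    intro n hn
    rw [Finset.mem_filter] at hn
    rw [mem_BL]
    exact Nat.lt_succ_of_le (Nat.le_floor hn.2)
  calc ((T.filter (fun n => (S.nrm n : ℝ) ≤ y)).card : ℝ) ≤ ((S.BL (⌊y⌋₊ + 1)).card : ℝ) := by
        exact_mod_cast Finset.card_le_card h1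
    _ ≤ C₁ * (⌊y⌋₊ : ℕ) := hS.cnt _
    _ ≤ C₁ * y := by
        gcongr
        exact Nat.floor_le hy

theorem n1_sum {c₁ C₁ : ℝ} (hS : S.Ax c₁ C₁) (hC : 0 ≤ C₁) (T : Finset (P →₀ ℕ)) {x : ℝ}
    (hx : 1 ≤ x) : ∑ n ∈ T, min 1 ((x / S.nrm n) ^ 6) ≤ 4 * C₁ * x := by
  have hx0 : 0 < x := by linarith
  set J : ℕ := ∑ n ∈ T, S.nrm n with hJ
  have h1 : ∀ n ∈ T, (S.nrm n : ℝ) ≤ 2 ^ J * x := by
    intro n hn
    have h2 : S.nrm n ≤ J := Finset.single_le_sum (f := fun n => S.nrm n) (fun _ _ => Nat.zero_le _) hn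
    have h3 : S.nrm n ≤ 2 ^ J := h2.trans (Nat.lt_two_pow_self).le
    have h4 : (S.nrm n : ℝ) ≤ 2 ^ J := by exact_mod_cast h3
    nlinarith [pow_pos (show (0 : ℝ) < 2 by norm_num) J]
  calc ∑ n ∈ T, min 1 ((x / S.nrm n) ^ 6) ≤ ∑ n ∈ T, ∑ j ∈ Finset.range (J + 1),
          (1 / 2 : ℝ) ^ (6 * j) * (if (S.nrm n : ℝ) ≤ 2 ^ (j + 1) * x then 1 else 0) :=
        Finset.sum_le_sum fun n hn => n1_dy hx0 (n1_pos S n) (h1 n hn)
    _ = ∑ j ∈ Finset.range (J + 1), (1 / 2 : ℝ) ^ (6 * j) *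
          ∑ n ∈ T, (if (S.nrm n : ℝ) ≤ 2 ^ (j + 1) * x then 1 else 0) := by
        rw [Finset.sum_comm]
        refine Finset.sum_congr rfl fun j _ => ?_
        rw [Finset.mul_sum]
    _ ≤ ∑ j ∈ Finset.range (J + 1), (1 / 2 : ℝ) ^ (6 * j) * (C₁ * (2 ^ (j + 1) * x)) := by
        refine Finset.sum_le_sum fun j _ => ?_
        refine mul_le_mul_of_nonneg_left (n1_cnt S hS hC T (by positivity)) (by positivity)
    _ = 2 * C₁ * x * ∑ j ∈ Finset.range (J + 1), (1 / 2 : ℝ) ^ (5 * j) := by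
        rw [Finset.mul_sum]
        refine Finset.sum_congr rfl fun j _ => ?_
        have h5 : (1 / 2 : ℝ) ^ (6 * j) * 2 ^ j = (1 / 2 : ℝ) ^ (5 * j) := by
          rw [show 6 * j = 5 * j + j by ring, pow_add, mul_assoc, ← mul_pow]
          norm_num
        calc (1 / 2 : ℝ) ^ (6 * j) * (C₁ * (2 ^ (j + 1) * x)) =
              ((1 / 2 : ℝ) ^ (6 * j) * 2 ^ j) * (2 * C₁ * x) := by ring
          _ = 2 * C₁ * x * (1 / 2 : ℝ) ^ (5 * j) := by rw [h5]; ring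
    _ ≤ 2 * C₁ * x * 2 := by
        refine mul_le_mul_of_nonneg_left (n1_geo J) (by positivity)
    _ = 4 * C₁ * x := by ring

theorem n1_six (x : ℝ) (m : P →₀ ℕ) :
    (x / S.nrm m) ^ 6 = x ^ 6 * (S.nrm m : ℝ) ^ (-(6 : ℝ)) := by
  rw [Real.rpow_neg (n1_pos S m).le, div_pow, show (6 : ℝ) = ((6 : ℕ) : ℝ) by norm_num,
    Real.rpow_natCast, div_eq_mul_inv]

theorem n1_div (K : ℝ) (n l : P →₀ ℕ) : K / S.nrm (n + l) = K / S.nrm l / S.nrm n := by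
  rw [n1_add, div_div, mul_comm]

theorem n1_summ (x : ℝ) : Summable (fun n : P →₀ ℕ => min 1 ((x / S.nrm n) ^ 6)) := by
  refine Summable.of_nonneg_of_le (fun n => ?_) (fun n => ?_)
    ((sum_nrm S (show (1 : ℝ) < 6 by norm_num)).mul_left (x ^ 6))
  · refine le_min zero_le_one ?_
    positivity
  · rw [← n1_six]
    exact min_le_right _ _

theorem rl_le {c₁ C₁ : ℝ} (hS : S.Ax c₁ C₁) : ∃ C : ℝ, 0 < C ∧ ∀ (K : ℝ) (l : P →₀ ℕ), 1 ≤ K →
    Summable (fun n : P →₀ ℕ => min 1 ((K / S.nrm (n + l)) ^ 6)) ∧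
    ∑' n : P →₀ ℕ, min 1 ((K / S.nrm (n + l)) ^ 6) ≤
      C * min (K / S.nrm l) ((K / S.nrm l) ^ 6) := by
  have hC₁ : 0 ≤ C₁ := by
    have h1 := hS.cnt 1
    have h2 : (0 : ℝ) ≤ ((S.BL (1 + 1)).card : ℝ) := Nat.cast_nonneg _
    push_cast at h1
    linarith
  have h6 := sum_nrm S (show (1 : ℝ) < 6 by norm_num)
  have h60 : 0 ≤ ∑' n : P →₀ ℕ, (S.nrm n : ℝ) ^ (-(6 : ℝ)) :=
    tsum_nonneg fun n => by positivity
  refine ⟨(∑' n : P →₀ ℕ, (S.nrm n : ℝ) ^ (-(6 : ℝ))) + 4 * C₁ + 1, by positivity,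
    fun K l hK => ?_⟩
  simp only [n1_div]
  set x := K / S.nrm l with hx
  have hx0 : 0 < x := by
    have := n1_pos S l
    positivity
  refine ⟨n1_summ S x, ?_⟩
  rcases le_total x 1 with h1 | h1
  · have h2 : min x (x ^ 6) = x ^ 6 := by
      refine min_eq_right ?_
      calc x ^ 6 ≤ x ^ 1 := pow_le_pow_of_le_one hx0.le h1 (by norm_num)
        _ = x := pow_one x
    rw [h2]
    calc ∑' n : P →₀ ℕ, min 1 ((x / S.nrm n) ^ 6) ≤
          ∑' n : P →₀ ℕ, x ^ 6 * (S.nrm n : ℝ) ^ (-(6 : ℝ)) := by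
          refine Summable.tsum_le_tsum (fun n => ?_) (n1_summ S x) (h6.mul_left _)
          rw [← n1_six]
          exact min_le_right _ _
      _ = x ^ 6 * ∑' n : P →₀ ℕ, (S.nrm n : ℝ) ^ (-(6 : ℝ)) := tsum_mul_left
      _ ≤ ((∑' n : P →₀ ℕ, (S.nrm n : ℝ) ^ (-(6 : ℝ))) + 4 * C₁ + 1) * x ^ 6 := by
          have h3 : 0 < x ^ 6 := by positivity
          nlinarith
  · have h2 : min x (x ^ 6) = x := by
      refine min_eq_left ?_
      calc x = x ^ 1 := (pow_one x).symm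
        _ ≤ x ^ 6 := pow_le_pow_right₀ h1 (by norm_num)
    rw [h2]
    calc ∑' n : P →₀ ℕ, min 1 ((x / S.nrm n) ^ 6) ≤ 4 * C₁ * x :=
          (n1_summ S x).tsum_le_of_sum_le fun T => n1_sum S hS hC₁ T h1
      _ ≤ ((∑' n : P →₀ ℕ, (S.nrm n : ℝ) ^ (-(6 : ℝ))) + 4 * C₁ + 1) * x := by
          nlinarith

theorem n1_hs {θ : P → ℝ} (hθ : ∀ p, |θ p| ≤ √(S.q p : ℝ) + 1 / √(S.q p : ℝ)) (l : P →₀ ℕ) :
    |hs θ (l + l)| ≤ (S.nrm l : ℝ) ^ 3 := by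
  refine (triv S hθ (l + l)).1.trans (le_of_eq ?_)
  have h1 := n1_pos S l
  rw [n1_add, ← sq, ← Real.rpow_natCast (S.nrm l : ℝ) 2, ← Real.rpow_natCast (S.nrm l : ℝ) 3,
    ← Real.rpow_mul h1.le]
  norm_num

theorem n1_pairs {θ : P → ℝ} (hθ : ∀ p, |θ p| ≤ √(S.q p : ℝ) + 1 / √(S.q p : ℝ)) (K : ℝ) :
    Summable (fun p : (P →₀ ℕ) × (P →₀ ℕ) =>
      hs θ (p.2 + p.2) * min 1 ((K / S.nrm (p.1 + p.2)) ^ 6)) := by
  have h1 := (sum_nrm S (show (1 : ℝ) < 6 by norm_num)).mul_of_nonneg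
    (sum_nrm S (show (1 : ℝ) < 3 by norm_num)) (fun n => by positivity) (fun n => by positivity)
  refine Summable.of_norm_bounded (h1.mul_left (K ^ 6)) fun p => ?_
  have hp1 := n1_pos S p.1
  have hp2 := n1_pos S p.2
  have h2 : 0 ≤ min 1 ((K / S.nrm (p.1 + p.2)) ^ 6) := le_min zero_le_one (by positivity)
  rw [norm_mul, Real.norm_eq_abs, Real.norm_eq_abs, abs_of_nonneg h2]
  calc |hs θ (p.2 + p.2)| * min 1 ((K / S.nrm (p.1 + p.2)) ^ 6) ≤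
        (S.nrm p.2 : ℝ) ^ 3 * (K / S.nrm (p.1 + p.2)) ^ 6 :=
        mul_le_mul (n1_hs S hθ p.2) (min_le_right _ _) h2 (by positivity)
    _ = K ^ 6 * ((S.nrm p.1 : ℝ) ^ (-(6 : ℝ)) * (S.nrm p.2 : ℝ) ^ (-(3 : ℝ))) := by
        rw [n1_six, n1_add, Real.rpow_neg (by positivity), Real.rpow_neg hp1.le,
          Real.rpow_neg hp2.le, show (6 : ℝ) = ((6 : ℕ) : ℝ) by norm_num,
          show (3 : ℝ) = ((3 : ℕ) : ℝ) by norm_num, Real.rpow_natCast, Real.rpow_natCast,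
          Real.rpow_natCast]
        field_simp

theorem n1_anti {F : (P →₀ ℕ) × (P →₀ ℕ) → ℝ} (hF : Summable F) :
    ∑' m : P →₀ ℕ, ∑ p ∈ antidiagonal m, F p = ∑' p, F p := by
  rw [← Finset.HasAntidiagonal.sigmaAntidiagonalEquivProd.tsum_eq F]
  have h1 : Summable (F ∘ (Finset.HasAntidiagonal.sigmaAntidiagonalEquivProd (A := P →₀ ℕ))) :=
    Finset.HasAntidiagonal.sigmaAntidiagonalEquivProd.summable_iff.2 hF
  have h2 := h1.tsum_sigma' fun n => (hasSum_fintype _).summable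
  have h3 : ∀ m : P →₀ ℕ, ∑ p ∈ antidiagonal m, F p =
      ∑' c : (antidiagonal m : Finset ((P →₀ ℕ) × (P →₀ ℕ))),
        (F ∘ (Finset.HasAntidiagonal.sigmaAntidiagonalEquivProd (A := P →₀ ℕ))) ⟨m, c⟩ := by
    intro m
    rw [tsum_fintype, ← Finset.sum_finset_coe]
    rfl
  simp only [h3]
  exact h2.symm

theorem inv_om_le {θ : P → ℝ} (hθ : ∀ p, |θ p| ≤ √(S.q p : ℝ) + 1 / √(S.q p : ℝ)) {K : ℝ}
    (hK : 1 ≤ K) :
    Summable (fun l : P →₀ ℕ => |hs θ (l + l)| * ∑' n : P →₀ ℕ, min 1 ((K / S.nrm (n + l)) ^ 6)) ∧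
    ∑' m : P →₀ ℕ, hs θ m ^ 2 * min 1 ((K / S.nrm m) ^ 6) =
      ∑' l : P →₀ ℕ, hs θ (l + l) * ∑' n : P →₀ ℕ, min 1 ((K / S.nrm (n + l)) ^ 6) := by
  have hF := n1_pairs S hθ K
  set F : (P →₀ ℕ) × (P →₀ ℕ) → ℝ := fun p =>
    hs θ (p.2 + p.2) * min 1 ((K / S.nrm (p.1 + p.2)) ^ 6) with hFdef
  have hF' : Summable (fun p : (P →₀ ℕ) × (P →₀ ℕ) => F p.swap) :=
    (Equiv.prodComm _ _).summable_iff.2 hF
  constructor
  · have h1 := hF'.abs.prod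
    refine h1.congr fun l => ?_
    rw [← tsum_mul_left]
    refine tsum_congr fun n => ?_
    have h2 : 0 ≤ min 1 ((K / S.nrm (n + l)) ^ 6) := le_min zero_le_one (by positivity)
    show |hs θ (l + l) * min 1 ((K / S.nrm (n + l)) ^ 6)| =
      |hs θ (l + l)| * min 1 ((K / S.nrm (n + l)) ^ 6)
    rw [abs_mul, abs_of_nonneg h2]
  · have h1 : ∀ m : P →₀ ℕ, hs θ m ^ 2 * min 1 ((K / S.nrm m) ^ 6) =
        ∑ p ∈ antidiagonal m, F p := by
      intro m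
      rw [hs_sq, Finset.sum_mul]
      symm
      refine Finset.sum_nbij' (fun p => p.2) (fun b => (m - b, b)) ?_ ?_ ?_ ?_ ?_
      · intro p hp
        have h := Finset.HasAntidiagonal.mem_antidiagonal.1 hp
        rw [mem_dv, ← h]
        exact le_add_self
      · intro b hb
        exact Finset.HasAntidiagonal.mem_antidiagonal.2 (tsub_add_cancel_of_le (mem_dv.1 hb))
      · intro p hp
        have h := Finset.HasAntidiagonal.mem_antidiagonal.1 hp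
        refine Prod.ext ?_ rfl
        show m - p.2 = p.1
        rw [← h, add_tsub_cancel_right]
      · intro b _
        rfl
      · intro p hp
        have h := Finset.HasAntidiagonal.mem_antidiagonal.1 hp
        simp only [hFdef]
        rw [h]
    simp only [h1]
    rw [n1_anti hF, ← (Equiv.prodComm _ _).tsum_eq F]
    have h2 := hF'.tsum_prod
    have h3 : ∑' p : (P →₀ ℕ) × (P →₀ ℕ), F ((Equiv.prodComm (P →₀ ℕ) (P →₀ ℕ)) p) =
      ∑' p : (P →₀ ℕ) × (P →₀ ℕ), F p.swap := rfl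
    rw [h3, h2]
    refine tsum_congr fun l => ?_
    rw [← tsum_mul_left]
    rfl

end Pool.Agent.HS
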