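import Pool.Agent.Lib_helper45.HS.Defs
import Pool.Agent.Lib_helper45.HSF.N1
import Pool.Agent.Lib_helper45.HSF.P0

/-!
# HS, block N2 (NAB): the sum of the inverse harmonic weights
-/

namespace Pool.Agent.HS

open Complex MeasureTheory Filter Topology
open scoped ENNReal Classical
open Pool.Agent.WA (gd gk)
open Pool.Agent.SEL (NL Adm)
open Pool.Agent.SQS (hat)
open Pool.Agent.WS (st EE RT cc hl Step)
open Finset.HasAntidiagonal (antidiagonal)

variable {P : Type} (S : PSys P)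

theorem n2_geo {x : ℝ} (h0 : 0 ≤ x) (h1 : x < 1) (n : ℕ) :
    ∑ s ∈ Finset.range n, x ^ s ≤ 1 / (1 - x) := by
  have h2 := (summable_geometric_of_lt_one h0 h1).sum_le_tsum (Finset.range n)
    (fun i _ => pow_nonneg h0 i)
  rwa [tsum_geometric_of_lt_one h0 h1, ← one_div] at h2

theorem n2_geo2 {x : ℝ} (h0 : 0 ≤ x) (h1 : x < 1) (s₀ n : ℕ) :
    ∑ s ∈ Finset.range n, x ^ ((s₀ - s) + (s - s₀)) ≤ 2 / (1 - x) := by
  have h2 : ∀ s ∈ Finset.range n, x ^ ((s₀ - s) + (s - s₀)) ≤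
      (if s ≤ s₀ then x ^ (s₀ - s) else 0) + (if s₀ ≤ s then x ^ (s - s₀) else 0) := by
    intro s _
    rcases le_total s s₀ with h | h
    · rw [if_pos h, Nat.sub_eq_zero_of_le h, add_zero]
      have : 0 ≤ (if s₀ ≤ s then x ^ 0 else 0) := by split_ifs <;> simp
      linarith
    · rw [if_pos h, Nat.sub_eq_zero_of_le h, zero_add]
      have : 0 ≤ (if s ≤ s₀ then x ^ 0 else 0) := by split_ifs <;> simp
      linarith
  refine (Finset.sum_le_sum h2).trans ?_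
  rw [Finset.sum_add_distrib, ← Finset.sum_filter, ← Finset.sum_filter]
  have h3 : ∑ s ∈ (Finset.range n).filter (fun s => s ≤ s₀), x ^ (s₀ - s) ≤ 1 / (1 - x) := by
    refine (Finset.sum_le_sum_of_subset_of_nonneg (t := Finset.range (s₀ + 1)) ?_
      fun s _ _ => pow_nonneg h0 _).trans ?_
    · intro s hs
      rw [Finset.mem_filter] at hs
      rw [Finset.mem_range]
      omega
    · have := Finset.sum_range_reflect (fun j => x ^ j) (s₀ + 1)
      simp only [Nat.add_sub_cancel] at this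
      rw [this]
      exact n2_geo h0 h1 _
  have h4 : ∑ s ∈ (Finset.range n).filter (fun s => s₀ ≤ s), x ^ (s - s₀) ≤ 1 / (1 - x) := by
    have h5 : ∑ s ∈ (Finset.range n).filter (fun s => s₀ ≤ s), x ^ (s - s₀) =
        ∑ j ∈ ((Finset.range n).filter (fun s => s₀ ≤ s)).image (fun s => s - s₀), x ^ j := by
      rw [Finset.sum_image]
      intro a ha b hb hab
      have ha' := (Finset.mem_filter.1 (Finset.mem_coe.1 ha)).2
      have hb' := (Finset.mem_filter.1 (Finset.mem_coe.1 hb)).2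
      simp only at hab
      omega
    rw [h5]
    refine (Finset.sum_le_sum_of_subset_of_nonneg (t := Finset.range n) ?_
      fun s _ _ => pow_nonneg h0 _).trans (n2_geo h0 h1 n)
    intro j hj
    rw [Finset.mem_image] at hj
    obtain ⟨s, hs, rfl⟩ := hj
    rw [Finset.mem_filter, Finset.mem_range] at hs
    rw [Finset.mem_range]
    omega
  have h6 : 2 / (1 - x) = 1 / (1 - x) + 1 / (1 - x) := by ring
  rw [h6]
  exact add_le_add h3 h4

/-- the numerical estimate for a dyadic block -/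
theorem n2_num {K : ℝ} (hK : 1 ≤ K) {s₀ : ℕ} (h0 : (2 : ℝ) ^ s₀ ≤ K) (h1 : K < 2 ^ (s₀ + 1))
    (s : ℕ) : (1 + (4 : ℝ) ^ (s + 1) / K) * (2 ^ s * min (K / 2 ^ s) ((K / 2 ^ s) ^ 6) ^ 2) ≤
      10 * K ^ 2 * ((1 / 2) ^ s + (1 / 2) ^ ((s₀ - s) + (s - s₀))) := by
  have hK0 : 0 < K := by linarith
  set y : ℝ := 2 ^ s with hy
  have hy0 : 0 < y := by positivity
  have h4 : (4 : ℝ) ^ (s + 1) = 4 * y ^ 2 := by
    rw [hy, pow_succ, ← pow_mul, mul_comm s 2, pow_mul]; norm_num; ring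
  have hm0 : 0 ≤ min (K / y) ((K / y) ^ 6) := le_min (by positivity) (by positivity)
  rw [h4]
  have hhalf : (1 / 2 : ℝ) ^ s = 1 / y := by rw [hy, div_pow, one_pow]
  rcases le_or_gt s s₀ with h | h
  · have e1 : (s₀ - s) + (s - s₀) = s₀ - s := by omega
    rw [e1, hhalf]
    have h5 : min (K / y) ((K / y) ^ 6) ^ 2 ≤ (K / y) ^ 2 :=
      pow_le_pow_left₀ hm0 (min_le_left _ _) 2
    have h6 : (1 + 4 * y ^ 2 / K) * (y * (K / y) ^ 2) = K ^ 2 * (1 / y) + 4 * (K * y) := by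
      field_simp
    have h7 : y ≤ K * (1 / 2) ^ (s₀ - s) := by
      have h8 : y = 2 ^ s₀ * (1 / 2 : ℝ) ^ (s₀ - s) := by
        rw [hy, div_pow, one_pow]
        have : (2 : ℝ) ^ s₀ = 2 ^ s * 2 ^ (s₀ - s) := by rw [← pow_add]; congr 1; omega
        rw [this]
        field_simp
      rw [h8]
      exact mul_le_mul_of_nonneg_right h0 (by positivity)
    have h9 : 0 ≤ 1 / y := by positivity
    have h10 : 0 ≤ (1 / 2 : ℝ) ^ (s₀ - s) := by positivity
    calc (1 + 4 * y ^ 2 / K) * (y * min (K / y) ((K / y) ^ 6) ^ 2)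
        ≤ (1 + 4 * y ^ 2 / K) * (y * (K / y) ^ 2) := by gcongr
      _ = K ^ 2 * (1 / y) + 4 * (K * y) := h6
      _ ≤ K ^ 2 * (1 / y) + 4 * (K * (K * (1 / 2) ^ (s₀ - s))) := by gcongr
      _ = K ^ 2 * (1 / y) + 4 * K ^ 2 * (1 / 2) ^ (s₀ - s) := by ring
      _ ≤ _ := by nlinarith [mul_nonneg (sq_nonneg K) h9, mul_nonneg (sq_nonneg K) h10]
  · have e1 : (s₀ - s) + (s - s₀) = s - s₀ := by omega
    rw [e1, hhalf]
    have hyK : K < y := by
      refine h1.trans_le ?_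
      rw [hy]
      exact pow_le_pow_right₀ (by norm_num) h
    have h5 : min (K / y) ((K / y) ^ 6) ^ 2 ≤ ((K / y) ^ 6) ^ 2 :=
      pow_le_pow_left₀ hm0 (min_le_right _ _) 2
    have h6 : 1 + 4 * y ^ 2 / K ≤ 5 * y ^ 2 / K := by
      have : 1 ≤ y ^ 2 / K := by
        rw [le_div_iff₀ hK0]
        nlinarith
      have e : 5 * y ^ 2 / K = y ^ 2 / K + 4 * y ^ 2 / K := by ring
      rw [e]
      linarith
    have h7 : (K / y) ^ 9 ≤ K / y := by
      have h8 : K / y ≤ 1 := by rw [div_le_one hy0]; exact hyK.le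
      have h9 : 0 ≤ K / y := by positivity
      calc (K / y) ^ 9 ≤ (K / y) ^ 1 := pow_le_pow_of_le_one h9 h8 (by norm_num)
        _ = K / y := pow_one _
    have h8 : K / y ≤ 2 * (1 / 2) ^ (s - s₀) := by
      have h9 : (2 : ℝ) * (1 / 2) ^ (s - s₀) = 2 ^ (s₀ + 1) / y := by
        rw [hy, div_pow, one_pow]
        have : (2 : ℝ) ^ s = 2 ^ s₀ * 2 ^ (s - s₀) := by rw [← pow_add]; congr 1; omega
        rw [this, pow_succ]
        field_simp
      rw [h9]
      gcongr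
    have h10 : 0 ≤ 1 / y := by positivity
    calc (1 + 4 * y ^ 2 / K) * (y * min (K / y) ((K / y) ^ 6) ^ 2)
        ≤ (5 * y ^ 2 / K) * (y * ((K / y) ^ 6) ^ 2) := by gcongr
      _ = 5 * K ^ 2 * (K / y) ^ 9 := by field_simp
      _ ≤ 5 * K ^ 2 * (2 * (1 / 2) ^ (s - s₀)) := by
          gcongr
          exact h7.trans h8
      _ ≤ _ := by nlinarith [mul_nonneg (sq_nonneg K) h10]

/-- the arithmetic function `R` -/
noncomputable def n2_R (K : ℝ) (l : P →₀ ℕ) : ℝ :=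
  ∑' n : P →₀ ℕ, min 1 ((K / S.nrm (n + l)) ^ 6)

theorem n2_R_nonneg (K : ℝ) (l : P →₀ ℕ) : 0 ≤ n2_R S K l :=
  tsum_nonneg fun n => le_min (zero_le_one' ℝ) (by positivity)

/-- the dyadic blocks -/
noncomputable def n2_J (s : ℕ) : Finset (P →₀ ℕ) := S.BL (2 ^ (s + 1)) \ S.BL (2 ^ s)

theorem n2_mem_J {s : ℕ} {l : P →₀ ℕ} : l ∈ n2_J S s ↔ 2 ^ s ≤ S.nrm l ∧ S.nrm l < 2 ^ (s + 1) := by
  rw [n2_J, Finset.mem_sdiff, mem_BL, mem_BL]
  omega

/-- dyadic block -/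
noncomputable def n2_B (K : ℝ) (θ : P → ℝ) (s : ℕ) : ℝ :=
  ∑ l ∈ n2_J S s, hs θ (l + l) * n2_R S K l

theorem n2_partial (K : ℝ) (θ : P → ℝ) (n : ℕ) :
    ∑ s ∈ Finset.range n, n2_B S K θ s = ∑ l ∈ S.BL (2 ^ n), hs θ (l + l) * n2_R S K l := by
  induction n with
  | zero =>
    rw [Finset.range_zero, Finset.sum_empty]
    refine (Finset.sum_eq_zero fun l hl => ?_).symm
    rw [mem_BL, pow_zero] at hl
    have := nrm_pos S l
    omega
  | succ n ih =>
    rw [Finset.sum_range_succ, ih, n2_B, n2_J, add_comm]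
    refine Finset.sum_sdiff ?_
    intro l hl
    rw [mem_BL] at hl ⊢
    exact hl.trans (Nat.pow_lt_pow_right (by norm_num) (Nat.lt_succ_self n))

theorem n2_block {Δ C E : ℝ} {φ : (P →₀ ℕ) → ℝ} {k : ℕ} {ι : Type} [Fintype ι]
    {θ : ι → P → ℝ} {ω : ι → ℝ} (F : HFam S Δ C E φ k θ ω) (K : ℝ) (hKk : K = (k : ℝ) ^ S.d)
    (s : ℕ) :
    ∑ i, ω i * n2_B S K (θ i) s ^ 2 ≤
      C * (1 + (4 : ℝ) ^ (s + 1) / K) * ∑ l ∈ n2_J S s, n2_R S K l ^ 2 := by
  set g : (P →₀ ℕ) → (P →₀ ℕ) := fun l => l + l with hg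
  have hinj : Function.Injective g := by
    intro a b hab
    ext p
    have := DFunLike.congr_fun hab p
    simp only [hg, Finsupp.coe_add, Pi.add_apply] at this
    omega
  have hinv : ∀ l, Function.invFun g (g l) = l := Function.leftInverse_invFun hinj
  set J : Finset (P →₀ ℕ) := (n2_J S s).image g with hJ
  have hsub : J ⊆ S.BL (4 ^ (s + 1) + 1) := by
    intro n hn
    rw [hJ, Finset.mem_image] at hn
    obtain ⟨l, hl, rfl⟩ := hn
    rw [n2_mem_J] at hl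
    rw [mem_BL, hg, nrm_add]
    have h2 : (4 : ℕ) ^ (s + 1) = 2 ^ (s + 1) * 2 ^ (s + 1) := by
      rw [← mul_pow]; norm_num
    rw [h2]
    have := Nat.mul_le_mul hl.2.le hl.2.le
    omega
  have key : ∀ {M : Type} [AddCommMonoid M] (ψ : (P →₀ ℕ) → M),
      ∑ n ∈ S.BL (4 ^ (s + 1) + 1), (if n ∈ J then ψ n else 0) =
      ∑ l ∈ n2_J S s, ψ (g l) := by
    intro M _ ψ
    rw [Finset.sum_ite_mem, Finset.inter_eq_right.mpr hsub, hJ, Finset.sum_image hinj.injOn]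
  have h1 := F.LS (4 ^ (s + 1)) (fun n => if n ∈ J then (n2_R S K (Function.invFun g n) : ℂ) else 0)
  have h2 : ∀ i, ∑ n ∈ S.BL (4 ^ (s + 1) + 1),
      (if n ∈ J then (n2_R S K (Function.invFun g n) : ℂ) else 0) * (hs (θ i) n : ℂ) =
      (n2_B S K (θ i) s : ℂ) := by
    intro i
    have h3 : ∀ n, (if n ∈ J then (n2_R S K (Function.invFun g n) : ℂ) else 0) *
        (hs (θ i) n : ℂ) =
        if n ∈ J then (n2_R S K (Function.invFun g n) : ℂ) * (hs (θ i) n : ℂ) else 0 := by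
      intro n; split_ifs <;> simp
    simp_rw [h3]
    rw [key, n2_B]
    push_cast
    refine Finset.sum_congr rfl fun l _ => ?_
    rw [hinv, mul_comm]
  have h4 : ∑ n ∈ S.BL (4 ^ (s + 1) + 1),
      ‖(if n ∈ J then (n2_R S K (Function.invFun g n) : ℂ) else 0)‖ ^ 2 =
      ∑ l ∈ n2_J S s, n2_R S K l ^ 2 := by
    have h3 : ∀ n, ‖(if n ∈ J then (n2_R S K (Function.invFun g n) : ℂ) else 0)‖ ^ 2 =
        if n ∈ J then n2_R S K (Function.invFun g n) ^ 2 else 0 := by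
      intro n
      split_ifs
      · rw [Complex.norm_real, Real.norm_eq_abs, sq_abs]
      · simp
    simp_rw [h3]
    rw [key]
    refine Finset.sum_congr rfl fun l _ => ?_
    rw [hinv]
  rw [h4] at h1
  simp_rw [h2] at h1
  have h5 : ∀ i, ‖(n2_B S K (θ i) s : ℂ)‖ ^ 2 = n2_B S K (θ i) s ^ 2 := by
    intro i
    rw [Complex.norm_real, Real.norm_eq_abs, sq_abs]
  simp_rw [h5] at h1
  push_cast at h1
  rw [← hKk] at h1
  exact h1

theorem inv_om_sum {c₁ C₁ : ℝ} (hS : S.Ax c₁ C₁) (Δ C E : ℝ) (φ : (P →₀ ℕ) → ℝ) :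
    ∃ C' : ℝ, 0 < C' ∧ ∀ k : ℕ, 1 ≤ k →
    ∀ {ι : Type} [Fintype ι] (θ : ι → P → ℝ) (ω : ι → ℝ), HFam S Δ C E φ k θ ω →
      ∑ i, 1 / ω i ≤ C' * ((k : ℝ) ^ S.d) ^ 2 := by
  obtain ⟨C2, hC2, hrl⟩ := rl_le S hS
  set D : ℝ := 20 * |C| * |C₁| * C2 ^ 2 with hD
  have hD0 : 0 ≤ D := by positivity
  refine ⟨108 * |C| ^ 2 * D + 1, by positivity, ?_⟩
  intro k hk ι _ θ ω F
  set K : ℝ := (k : ℝ) ^ S.d with hKdef
  have hK : 1 ≤ K := by
    rw [hKdef]
    exact one_le_pow₀ (by exact_mod_cast hk)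
  have hK0 : 0 < K := by linarith
  obtain ⟨s₀, hs0, hs1⟩ : ∃ s₀ : ℕ, (2 : ℝ) ^ s₀ ≤ K ∧ K < 2 ^ (s₀ + 1) := by
    refine ⟨Nat.log 2 ⌊K⌋₊, ?_, ?_⟩
    · have h1 : 1 ≤ ⌊K⌋₊ := Nat.le_floor (by exact_mod_cast hK)
      have h2 : 2 ^ Nat.log 2 ⌊K⌋₊ ≤ ⌊K⌋₊ := Nat.pow_log_le_self 2 (by omega)
      exact (by exact_mod_cast h2 : (2 : ℝ) ^ Nat.log 2 ⌊K⌋₊ ≤ (⌊K⌋₊ : ℝ)).trans
        (Nat.floor_le hK0.le)
    · have h2 : ⌊K⌋₊ + 1 ≤ 2 ^ (Nat.log 2 ⌊K⌋₊ + 1) := Nat.lt_pow_succ_log_self (by norm_num) _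
      refine (Nat.lt_floor_add_one K).trans_le ?_
      exact_mod_cast h2
  -- the blocks
  have hR0 := n2_R_nonneg S K
  have hE : ∀ s, ∑ i, ω i * n2_B S K (θ i) s ^ 2 ≤
      D * K ^ 2 * ((1 / 2) ^ s + (1 / 2) ^ ((s₀ - s) + (s - s₀))) := by
    intro s
    have h1 := n2_block S F K hKdef s
    have h2 : ∑ l ∈ n2_J S s, n2_R S K l ^ 2 ≤
        (2 * |C₁| * 2 ^ s) * (C2 * min (K / 2 ^ s) ((K / 2 ^ s) ^ 6)) ^ 2 := by
      have h3 : ∀ l ∈ n2_J S s, n2_R S K l ^ 2 ≤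
          (C2 * min (K / 2 ^ s) ((K / 2 ^ s) ^ 6)) ^ 2 := by
        intro l hl
        refine pow_le_pow_left₀ (hR0 l) ?_ 2
        refine (hrl K l hK).2.trans ?_
        have h4 : (2 : ℝ) ^ s ≤ S.nrm l := by exact_mod_cast ((n2_mem_J S).1 hl).1
        have h5 : K / S.nrm l ≤ K / 2 ^ s := by gcongr
        have h6 : (0 : ℝ) ≤ K / S.nrm l := by positivity
        refine mul_le_mul_of_nonneg_left (min_le_min h5 (pow_le_pow_left₀ h6 h5 6)) hC2.le
      refine (Finset.sum_le_card_nsmul _ _ _ h3).trans ?_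
      rw [nsmul_eq_mul]
      refine mul_le_mul_of_nonneg_right ?_ (sq_nonneg _)
      have h7 : (n2_J S s).card ≤ (S.BL (2 ^ (s + 1) + 1)).card := by
        refine Finset.card_le_card fun l hl => ?_
        rw [n2_mem_J] at hl
        rw [mem_BL]
        omega
      have h8 := hS.cnt (2 ^ (s + 1))
      have h9 : ((n2_J S s).card : ℝ) ≤ ((S.BL (2 ^ (s + 1) + 1)).card : ℝ) := by
        exact_mod_cast h7
      refine (h9.trans h8).trans ?_
      push_cast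
      rw [pow_succ]
      have h10 := le_abs_self C₁
      have h11 : (0 : ℝ) < 2 ^ s := by positivity
      nlinarith
    have h3 : 0 ≤ 1 + (4 : ℝ) ^ (s + 1) / K := by positivity
    have h4 : 0 ≤ ∑ l ∈ n2_J S s, n2_R S K l ^ 2 := Finset.sum_nonneg fun l _ => sq_nonneg _
    have h5 := n2_num hK hs0 hs1 s
    calc ∑ i, ω i * n2_B S K (θ i) s ^ 2
        ≤ C * (1 + (4 : ℝ) ^ (s + 1) / K) * ∑ l ∈ n2_J S s, n2_R S K l ^ 2 := h1
      _ ≤ |C| * (1 + (4 : ℝ) ^ (s + 1) / K) * ∑ l ∈ n2_J S s, n2_R S K l ^ 2 := by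
          gcongr
          exact le_abs_self C
      _ ≤ |C| * (1 + (4 : ℝ) ^ (s + 1) / K) *
          ((2 * |C₁| * 2 ^ s) * (C2 * min (K / 2 ^ s) ((K / 2 ^ s) ^ 6)) ^ 2) := by
          gcongr
      _ = 2 * |C| * |C₁| * C2 ^ 2 * ((1 + (4 : ℝ) ^ (s + 1) / K) *
          (2 ^ s * min (K / 2 ^ s) ((K / 2 ^ s) ^ 6) ^ 2)) := by ring
      _ ≤ 2 * |C| * |C₁| * C2 ^ 2 *
          (10 * K ^ 2 * ((1 / 2) ^ s + (1 / 2) ^ ((s₀ - s) + (s - s₀)))) := by
          gcongr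
      _ = _ := by rw [hD]; ring
  -- the weights
  set v : ℕ → ℝ := fun s => (3 / 4) ^ s + (3 / 4) ^ ((s₀ - s) + (s - s₀)) with hv
  have hv0 : ∀ s, 0 < v s := fun s => by simp only [hv]; positivity
  have hvsum : ∀ n, ∑ s ∈ Finset.range n, v s ≤ 12 := by
    intro n
    simp only [hv]
    rw [Finset.sum_add_distrib]
    have h1 := n2_geo (x := 3 / 4) (by norm_num) (by norm_num) n
    have h2 := n2_geo2 (x := 3 / 4) (by norm_num) (by norm_num) s₀ n
    norm_num at h1 h2 ⊢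
    linarith
  have husum : ∀ n, ∑ s ∈ Finset.range n, ((2 / 3 : ℝ) ^ s + (2 / 3) ^ ((s₀ - s) + (s - s₀))) ≤
      9 := by
    intro n
    rw [Finset.sum_add_distrib]
    have h1 := n2_geo (x := 2 / 3) (by norm_num) (by norm_num) n
    have h2 := n2_geo2 (x := 2 / 3) (by norm_num) (by norm_num) s₀ n
    norm_num at h1 h2 ⊢
    linarith
  have hEv : ∀ s, (∑ i, ω i * n2_B S K (θ i) s ^ 2) / v s ≤
      D * K ^ 2 * ((2 / 3 : ℝ) ^ s + (2 / 3) ^ ((s₀ - s) + (s - s₀))) := by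
    intro s
    rw [div_le_iff₀ (hv0 s)]
    refine (hE s).trans ?_
    rw [mul_assoc (D * K ^ 2)]
    refine mul_le_mul_of_nonneg_left ?_ (by positivity)
    simp only [hv]
    set t := (s₀ - s) + (s - s₀) with ht
    have e1 : (1 / 2 : ℝ) ^ s = (2 / 3) ^ s * (3 / 4) ^ s := by rw [← mul_pow]; norm_num
    have e2 : (1 / 2 : ℝ) ^ t = (2 / 3) ^ t * (3 / 4) ^ t := by rw [← mul_pow]; norm_num
    rw [e1, e2]
    have p1 : (0 : ℝ) ≤ (2 / 3) ^ s * (3 / 4) ^ t := by positivity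
    have p2 : (0 : ℝ) ≤ (2 / 3) ^ t * (3 / 4) ^ s := by positivity
    nlinarith
  set TT : ℕ → ι → ℝ := fun n i => ∑ s ∈ Finset.range n, n2_B S K (θ i) s with hTT
  have hfin : ∀ n : ℕ, ∑ i, ω i * TT n i ^ 2 ≤ 108 * D * K ^ 2 := by
    intro n
    have h1 : ∀ i, TT n i ^ 2 ≤ (∑ s ∈ Finset.range n, v s) *
        ∑ s ∈ Finset.range n, n2_B S K (θ i) s ^ 2 / v s := by
      intro i
      apply Finset.sum_sq_le_sum_mul_sum_of_sq_le_mul
      · intro s _; exact (hv0 s).le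
      · intro s _; exact div_nonneg (sq_nonneg _) (hv0 s).le
      · intro s _
        have := hv0 s
        apply le_of_eq
        field_simp
    have hV0 : 0 ≤ ∑ s ∈ Finset.range n, v s := Finset.sum_nonneg fun s _ => (hv0 s).le
    calc ∑ i, ω i * TT n i ^ 2
        ≤ ∑ i, ω i * ((∑ s ∈ Finset.range n, v s) *
          ∑ s ∈ Finset.range n, n2_B S K (θ i) s ^ 2 / v s) :=
          Finset.sum_le_sum fun i _ => mul_le_mul_of_nonneg_left (h1 i) (F.pos i).le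
      _ = (∑ s ∈ Finset.range n, v s) * ∑ s ∈ Finset.range n,
          (∑ i, ω i * n2_B S K (θ i) s ^ 2) / v s := by
          rw [Finset.mul_sum]
          simp_rw [Finset.sum_div, Finset.mul_sum]
          rw [Finset.sum_comm]
          refine Finset.sum_congr rfl fun s _ => Finset.sum_congr rfl fun i _ => ?_
          ring
      _ ≤ (∑ s ∈ Finset.range n, v s) * ∑ s ∈ Finset.range n,
          D * K ^ 2 * ((2 / 3 : ℝ) ^ s + (2 / 3) ^ ((s₀ - s) + (s - s₀))) := by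
          apply mul_le_mul_of_nonneg_left _ hV0
          exact Finset.sum_le_sum fun s _ => hEv s
      _ = (∑ s ∈ Finset.range n, v s) * (D * K ^ 2 * ∑ s ∈ Finset.range n,
          ((2 / 3 : ℝ) ^ s + (2 / 3) ^ ((s₀ - s) + (s - s₀)))) := by
          congr 1
          rw [Finset.mul_sum]
      _ ≤ 12 * (D * K ^ 2 * 9) := by
          have h2 := husum n
          have h3 : 0 ≤ ∑ s ∈ Finset.range n,
              ((2 / 3 : ℝ) ^ s + (2 / 3) ^ ((s₀ - s) + (s - s₀))) :=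
            Finset.sum_nonneg fun s _ => by positivity
          refine mul_le_mul (hvsum n) (mul_le_mul_of_nonneg_left h2 (by positivity))
            (by positivity) (by norm_num)
      _ = 108 * D * K ^ 2 := by ring
  set X : ι → ℝ := fun i => ∑' l : P →₀ ℕ, hs (θ i) (l + l) * n2_R S K l with hX
  have hlim : ∀ i, Tendsto (fun n => TT n i) atTop (𝓝 (X i)) := by
    intro i
    have h1 := (inv_om_le S (F.td i).triv hK).1
    have h2 : Summable (fun l : P →₀ ℕ => hs (θ i) (l + l) * n2_R S K l) := by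
      apply Summable.of_norm
      refine h1.congr fun l => ?_
      rw [Real.norm_eq_abs, abs_mul, abs_of_nonneg (hR0 l)]
      rfl
    have h3 : Tendsto (fun n : ℕ => S.BL (2 ^ n)) atTop atTop := by
      apply tendsto_atTop_finset_of_monotone
      · intro a b hab l hl
        rw [mem_BL] at hl ⊢
        exact hl.trans_le (Nat.pow_le_pow_right (by norm_num) hab)
      · intro l
        exact ⟨S.nrm l, (mem_BL S).2 Nat.lt_two_pow_self⟩
    have h4 := h2.hasSum.comp h3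
    refine h4.congr fun n => ?_
    simp only [Function.comp_apply, hTT]
    rw [n2_partial]
  have hlim2 : Tendsto (fun n => ∑ i, ω i * TT n i ^ 2) atTop (𝓝 (∑ i, ω i * X i ^ 2)) := by
    apply tendsto_finsetSum
    intro i _
    exact ((hlim i).pow 2).const_mul _
  have hfin2 := le_of_tendsto' hlim2 hfin
  have hXi : ∀ i, 0 ≤ X i ∧ 1 / ω i ≤ |C| * X i := by
    intro i
    have h1 := (inv_om_le S (F.td i).triv hK).2
    have h2 : 0 ≤ X i := by
      have : X i = ∑' m : P →₀ ℕ, hs (θ i) m ^ 2 * min 1 ((K / S.nrm m) ^ 6) := h1.symm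
      rw [this]
      exact tsum_nonneg fun m => mul_nonneg (sq_nonneg _) (le_min zero_le_one (by positivity))
    refine ⟨h2, ?_⟩
    have h3 := (F.PN i).2
    have h4 : ∑' m : P →₀ ℕ, hs (θ i) m ^ 2 * min 1 (((k : ℝ) ^ S.d / S.nrm m) ^ 6) = X i := h1
    rw [h4] at h3
    exact h3.trans (mul_le_mul_of_nonneg_right (le_abs_self C) h2)
  calc ∑ i, 1 / ω i ≤ ∑ i, |C| ^ 2 * (ω i * X i ^ 2) := by
        refine Finset.sum_le_sum fun i _ => ?_
        have h2 := F.pos i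
        have h3 : 0 < 1 / ω i := by positivity
        calc 1 / ω i = ω i * (1 / ω i) ^ 2 := by field_simp
          _ ≤ ω i * (|C| * X i) ^ 2 := by
              apply mul_le_mul_of_nonneg_left _ h2.le
              exact pow_le_pow_left₀ h3.le (hXi i).2 2
          _ = _ := by ring
    _ = |C| ^ 2 * ∑ i, ω i * X i ^ 2 := by rw [Finset.mul_sum]
    _ ≤ |C| ^ 2 * (108 * D * K ^ 2) := by gcongr
    _ ≤ (108 * |C| ^ 2 * D + 1) * K ^ 2 := by nlinarith [sq_nonneg K]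

end Pool.Agent.HS
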