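import Pool.Agent.Lib_helper45.HS.Defs
import Pool.Agent.Lib_helper45.HSF.C1
import Pool.Agent.Lib_helper45.HSF.E1
import Pool.Agent.Lib_helper45.HSF.F4
import Pool.Agent.Lib_helper45.HSF.N2

/-! # HS block E2 (NAT), helper23 -/

namespace Pool.Agent.HS

open Complex MeasureTheory Filter Topology
open scoped ENNReal Classical
open Pool.Agent.WA (gd gk)
open Pool.Agent.SEL (NL Adm)
open Pool.Agent.SQS (hat)
open Pool.Agent.WS (st EE RT cc hl Step)
open Finset.HasAntidiagonal (antidiagonal)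

variable {P : Type} (S : PSys P)

/-- Cauchy-Schwarz for the harmonic weights -/
theorem e2_cs {ι : Type} (T : Finset ι) {ω : ι → ℝ} (hpos : ∀ i, 0 < ω i) :
    (T.card : ℝ) ^ 2 ≤ (∑ i ∈ T, ω i) * ∑ i ∈ T, 1 / ω i := by
  have := Finset.sum_mul_sq_le_sq_mul_sq T (fun i => √(ω i)) (fun i => √(1 / ω i))
  have e1 : ∀ i ∈ T, √(ω i) * √(1 / ω i) = 1 := by
    intro i _
    rw [← Real.sqrt_mul (hpos i).le, mul_one_div_cancel (hpos i).ne', Real.sqrt_one]
  rw [Finset.sum_congr rfl e1] at this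
  have e2 : ∀ i ∈ T, √(ω i) ^ 2 = ω i := fun i _ => Real.sq_sqrt (hpos i).le
  have e3 : ∀ i ∈ T, √(1 / ω i) ^ 2 = 1 / ω i := fun i _ =>
    Real.sq_sqrt (by have := hpos i; positivity)
  rw [Finset.sum_congr rfl e2, Finset.sum_congr rfl e3] at this
  simpa using this

/-- a family which is not good has few zeros somewhere -/
theorem e2_bad {k : ℕ} {Δ : ℝ} {θ : P → ℝ} {C₂ A α β h H : ℝ} (hC₂ : 0 < C₂)
    (hA : 2 * C₂ ≤ A) (hH : 0 < H) (hHh : H ≤ h) (hlog : 0 < Real.log k)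
    (h2 : ∀ Λ : ℂ → ℂ, IsLam S k Δ θ Λ → ∀ x : ℝ, α ≤ x → x + h ≤ β →
      WS.allZer Λ x (x + h) ≤ ENNReal.ofReal (C₂ * (1 + h) * Real.log k))
    (hno : ¬ Good S k Δ θ A α β h H) : BadU S k Δ θ α β h ⌊h / H⌋₊ := by
  rintro ⟨Λ, hΛ, hx⟩
  have hh : 0 < h := hH.trans_le hHh
  have hA0 : 0 < A := by linarith
  refine hno ⟨Λ, hΛ, fun x hxa hxb => ?_⟩
  have hm := hx x hxa hxb
  set Z : Set ℝ := {t : ℝ | x < t ∧ t < x + h ∧
      Odd (analyticOrderNatAt Λ (1 / 2 + t * I))} with hZ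
  have hodd : WS.oddCrit Λ x (x + h) = (Z.encard : ℝ≥0∞) := rfl
  have hcount : ((⌊h / H⌋₊ : ℕ) : ℝ≥0∞) + 1 ≤ (Z.encard : ℝ≥0∞) := by
    have e1 : ((⌊h / H⌋₊ : ℕ) : ℕ∞) + 1 ≤ Z.encard := Order.add_one_le_of_lt hm
    have e2 := ENat.toENNReal_le.mpr e1
    simpa using e2
  have hgt : ENNReal.ofReal (h / H) < (Z.encard : ℝ≥0∞) := by
    refine lt_of_lt_of_le ?_ hcount
    have e3 : h / H < (⌊h / H⌋₊ : ℝ) + 1 := Nat.lt_floor_add_one _
    have e4 : ENNReal.ofReal (h / H) < ENNReal.ofReal ((⌊h / H⌋₊ : ℝ) + 1) :=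
      (ENNReal.ofReal_lt_ofReal_iff (by positivity)).mpr e3
    refine e4.trans_le (le_of_eq ?_)
    rw [ENNReal.ofReal_add (by positivity) (by norm_num), ENNReal.ofReal_natCast,
      ENNReal.ofReal_one]
  refine ⟨by rw [hodd]; exact hgt, ?_⟩
  have hall := h2 Λ hΛ x hxa hxb
  calc ENNReal.ofReal (min h 1 / (A * H * Real.log k)) * WS.allZer Λ x (x + h)
      ≤ ENNReal.ofReal (min h 1 / (A * H * Real.log k)) *
          ENNReal.ofReal (C₂ * (1 + h) * Real.log k) := by gcongr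
    _ = ENNReal.ofReal ((min h 1 * (1 + h) / H) * (C₂ / A)) := by
        rw [← ENNReal.ofReal_mul (by positivity)]
        congr 1
        field_simp
    _ ≤ ENNReal.ofReal (h / H) := by
        apply ENNReal.ofReal_le_ofReal
        have e5 : min h 1 * (1 + h) ≤ 2 * h := by
          rcases le_total h 1 with h' | h'
          · rw [min_eq_left h']; nlinarith
          · rw [min_eq_right h']; linarith
        have e6 : C₂ / A ≤ 1 / 2 := by
          rw [div_le_div_iff₀ hA0 (by norm_num)]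
          linarith
        calc min h 1 * (1 + h) / H * (C₂ / A) ≤ 2 * h / H * (1 / 2) := by
              gcongr
          _ = h / H := by field_simp
    _ ≤ WS.oddCrit Λ x (x + h) := by rw [hodd]; exact hgt.le

/-- E2. PART I -/
theorem part_one {c₁ C₁ : ℝ} (hS : S.Ax c₁ C₁) {φ : (P →₀ ℕ) → ℝ} (hφ : Tot S φ) (Δ C E : ℝ) :
    ∃ (c₂ C' : ℝ) (k₀ : ℕ), 0 < c₂ ∧ 0 < C' ∧ ∀ k : ℕ, k₀ ≤ k → Even k →
    ∀ {ι : Type} [Fintype ι] (θ : ι → P → ℝ) (ω : ι → ℝ), HFam S Δ C E φ k θ ω →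
      (Fintype.card ι : ℝ) ≤ C' * (k : ℝ) ^ S.d ∧ ∀ (A α β h H : ℝ), C' ≤ A →
      -(c₂ * √k) ≤ α → β ≤ c₂ * √k → 0 < H → H ≤ 1 → H ≤ h → h ≤ β - α →
      ((Finset.univ.filter fun i => ¬ Good S k Δ (θ i) A α β h H).card : ℝ) ≤
        C' * √((β - α) / (h * H * Real.log k)) * (k : ℝ) ^ S.d := by
  obtain ⟨ch, Ch, kh, hch, hCh, h1⟩ := harmonic S hS hφ Δ C E
  obtain ⟨C2, hC2, h2⟩ := inv_om_sum S hS Δ C E φ
  obtain ⟨C3, c3, k3, hC3, hc3, h3⟩ := zeros_count S Δ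
  set D1 : ℝ := √(2 * |C|) * √C2 with hD1
  set D2 : ℝ := √Ch * √C2 with hD2
  have hD10 : 0 ≤ D1 := by positivity
  have hD20 : 0 ≤ D2 := by positivity
  refine ⟨min ch c3, D1 + D2 + 2 * C3, kh + k3 + 2, lt_min hch hc3, by positivity,
    fun k hk he ι _ θ ω F => ?_⟩
  have hk2 : 2 ≤ k := by omega
  have hkr : (2 : ℝ) ≤ k := by exact_mod_cast hk2
  have hkd : 0 ≤ (k : ℝ) ^ S.d := by positivity
  have hsq : 0 ≤ √(k : ℝ) := Real.sqrt_nonneg _
  have hm1 : min ch c3 * √(k : ℝ) ≤ ch * √k := mul_le_mul_of_nonneg_right (min_le_left _ _) hsq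
  have hm2 : min ch c3 * √(k : ℝ) ≤ c3 * √k := mul_le_mul_of_nonneg_right (min_le_right _ _) hsq
  have hlog : 0 < Real.log k := Real.log_pos (by linarith)
  have hinv := h2 k (by omega) θ ω F
  have htot := om_total S (by omega) F
  have hinv0 : ∀ T : Finset ι, ∑ i ∈ T, 1 / ω i ≤ C2 * ((k : ℝ) ^ S.d) ^ 2 := fun T =>
    (Finset.sum_le_sum_of_subset_of_nonneg (Finset.subset_univ _)
      fun i _ _ => by have := F.pos i; positivity).trans hinv
  have hinvn : ∀ T : Finset ι, 0 ≤ ∑ i ∈ T, 1 / ω i := fun T =>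
    Finset.sum_nonneg fun i _ => by have := F.pos i; positivity
  -- the Cauchy-Schwarz bound
  have key : ∀ (T : Finset ι) (M : ℝ), 0 ≤ M → ∑ i ∈ T, ω i ≤ M →
      (T.card : ℝ) ≤ √M * √C2 * (k : ℝ) ^ S.d := by
    intro T M hM hT
    have h5 : (T.card : ℝ) ^ 2 ≤ M * (C2 * ((k : ℝ) ^ S.d) ^ 2) :=
      (e2_cs T F.pos).trans (mul_le_mul hT (hinv0 T) (hinvn T) hM)
    have h6 : (T.card : ℝ) ≤ √(M * (C2 * ((k : ℝ) ^ S.d) ^ 2)) := Real.le_sqrt_of_sq_le h5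
    have h7 : √(M * (C2 * ((k : ℝ) ^ S.d) ^ 2)) = √M * √C2 * (k : ℝ) ^ S.d := by
      rw [Real.sqrt_mul hM, Real.sqrt_mul hC2.le, Real.sqrt_sq hkd]
      ring
    rwa [h7] at h6
  refine ⟨?_, fun A α β h H hA ha hb hH hH1 hHh hba => ?_⟩
  · have h8 := key Finset.univ (2 * |C|) (by positivity)
      (htot.trans (by have := le_abs_self C; linarith))
    rw [Finset.card_univ] at h8
    refine h8.trans ?_
    apply mul_le_mul_of_nonneg_right _ hkd
    linarith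
  · have hh : 0 < h := hH.trans_le hHh
    have hba0 : 0 < β - α := lt_of_lt_of_le hh hba
    set T : Finset ι := Finset.univ.filter fun i => ¬ Good S k Δ (θ i) A α β h H with hT
    have hbad : ∀ i ∈ T, BadU S k Δ (θ i) α β h ⌊h / H⌋₊ := by
      intro i hi
      refine e2_bad S hC3 (by linarith) hH hHh hlog ?_ (Finset.mem_filter.1 hi).2
      intro Λ hΛ x hxa hxb
      exact h3 k (by omega) he (F.td i) Λ hΛ x h hh (by linarith) (by linarith)
    have h4 := h1 k (by omega) he θ ω F T α β h H (by linarith) (by linarith) hH hH1 hHh hba hbad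
    set Q : ℝ := (β - α) / (h * H * Real.log k) with hQ
    have hQ0 : 0 ≤ Q := by positivity
    have h5 : ∑ i ∈ T, ω i ≤ Ch * Q := by
      refine h4.trans (le_of_eq ?_)
      rw [hQ]
      ring
    have h6 := key T (Ch * Q) (by positivity) h5
    rw [Real.sqrt_mul hCh.le] at h6
    refine h6.trans ?_
    have hQs : 0 ≤ √Q := Real.sqrt_nonneg _
    have e : √Ch * √Q * √C2 * (k : ℝ) ^ S.d = D2 * √Q * (k : ℝ) ^ S.d := by
      rw [hD2]
      ring
    rw [e]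
    apply mul_le_mul_of_nonneg_right _ hkd
    apply mul_le_mul_of_nonneg_right _ hQs
    linarith


end Pool.Agent.HS
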