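import Pool.Agent.Lib_helper45.HS.DefsK
import Pool.Agent.Lib_helper45.HS.DefsK
import Pool.Agent.Lib_helper45.HSF.KI
import Pool.Agent.Lib_helper45.HSF.P0

/-!
# HS, block KA (KAX): counting ideals (helper47)
-/

set_option autoImplicit false

namespace Pool.Agent.HS

open NumberField IsDedekindDomain Filter Topology
open scoped nonZeroDivisors Classical

variable {K : Type} [Field K] [NumberField K]

/-- the integral ideal `∏ p^{m_p}` -/
noncomputable def ka_J (m : HeightOneSpectrum (𝓞 K) →₀ ℕ) : Ideal (𝓞 K) :=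
  m.prod fun p i => p.asIdeal ^ i

theorem ka_coe (m : HeightOneSpectrum (𝓞 K) →₀ ℕ) :
    ((ka_J m : Ideal (𝓞 K)) : FractionalIdeal (𝓞 K)⁰ K) =
      (idl m : FractionalIdeal (𝓞 K)⁰ K) := by
  unfold ka_J idl
  rw [Finsupp.prod, Finsupp.prod, Units.coe_prod]
  have h := map_prod (FractionalIdeal.coeIdealHom (𝓞 K)⁰ K) (fun p => p.asIdeal ^ m p) m.support
  simp only [FractionalIdeal.coeIdealHom_apply] at h
  rw [h]
  apply Finset.prod_congr rfl
  intro p _
  rw [FractionalIdeal.coeIdeal_pow, Units.val_pow_eq_pow_val]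
  rfl

theorem ka_inj : Function.Injective (ka_J (K := K)) := by
  intro m n h
  apply idl_inj
  apply Units.ext
  rw [← ka_coe, ← ka_coe, h]

theorem ka_ne (m : HeightOneSpectrum (𝓞 K) →₀ ℕ) : ka_J m ≠ 0 := by
  intro h
  have h1 := ka_coe m
  rw [h] at h1
  exact (idl m).ne_zero (by rw [← h1]; simp)

theorem ka_surj (I : Ideal (𝓞 K)) (hI : I ≠ 0) : ∃ m, ka_J (K := K) m = I := by
  have h0 : (I : FractionalIdeal (𝓞 K)⁰ K) ≠ 0 := FractionalIdeal.coeIdeal_ne_zero.2 hI
  obtain ⟨m, hm⟩ := (idl_surj (Units.mk0 (I : FractionalIdeal (𝓞 K)⁰ K) h0)).1 (by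
    rw [Units.val_mk0]
    exact FractionalIdeal.coeIdeal_le_one)
  refine ⟨m, ?_⟩
  apply FractionalIdeal.coeIdeal_injective (K := K)
  show ((ka_J m : Ideal (𝓞 K)) : FractionalIdeal (𝓞 K)⁰ K) = (I : FractionalIdeal (𝓞 K)⁰ K)
  rw [ka_coe, hm, Units.val_mk0]

theorem ka_nrm (m : HeightOneSpectrum (𝓞 K) →₀ ℕ) :
    Ideal.absNorm (ka_J m) = (PK K).nrm m := by
  unfold ka_J PSys.nrm
  rw [Finsupp.prod, Finsupp.prod, map_prod]
  apply Finset.prod_congr rfl
  intro p _
  rw [map_pow]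
  rfl

variable (K) in
theorem ka_card (N : ℕ) : (((PK K).BL (N + 1)).card : ℝ) =
    (Nat.card {I : (Ideal (𝓞 K))⁰ // (Ideal.absNorm (I : Ideal (𝓞 K)) : ℝ) ≤ (N : ℝ)} : ℝ) := by
  have h1 : ((PK K).BL (N + 1)).card = Nat.card {m // m ∈ (PK K).BL (N + 1)} := by
    rw [Nat.card_eq_fintype_card, Fintype.card_coe]
  rw [h1]
  congr 1
  apply Nat.card_congr
  refine Equiv.ofBijective (fun m => ⟨⟨ka_J m.1, mem_nonZeroDivisors_of_ne_zero (ka_ne m.1)⟩, ?_⟩) ?_
  · have := (mem_BL (PK K)).1 m.2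
    simp only
    rw [ka_nrm]
    exact_mod_cast Nat.lt_succ_iff.1 this
  · constructor
    · intro m n h
      have h2 := congrArg (fun x => (x.1 : Ideal (𝓞 K))) h
      exact Subtype.ext (ka_inj h2)
    · rintro ⟨⟨I, hI⟩, hN⟩
      obtain ⟨m, hm⟩ := ka_surj I (nonZeroDivisors.ne_zero hI)
      refine ⟨⟨m, ?_⟩, ?_⟩
      · rw [mem_BL (PK K), ← ka_nrm, hm]
        simp only at hN
        have : Ideal.absNorm I ≤ N := by exact_mod_cast hN
        omega
      · apply Subtype.ext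
        apply Subtype.ext
        exact hm

variable (K) in
theorem ka_lim : ∃ ρ : ℝ, 0 < ρ ∧
    Tendsto (fun N : ℕ => (((PK K).BL (N + 1)).card : ℝ) / N) atTop (𝓝 ρ) := by
  refine ⟨_, ?_, ((NumberField.Ideal.tendsto_norm_le_div_atTop₀ K).comp
    tendsto_natCast_atTop_atTop).congr fun n => ?_⟩
  · have h1 := Units.regulator_pos K
    have h2 : 0 < classNumber K := by
      unfold classNumber
      exact Fintype.card_pos
    have h3 : 0 < Units.torsionOrder K := Units.torsionOrder_pos K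
    have h4 : (0 : ℝ) < |(discr K : ℝ)| := by
      rw [abs_pos]
      exact_mod_cast discr_ne_zero K
    have h5 : 0 < Real.sqrt |(discr K : ℝ)| := Real.sqrt_pos.2 h4
    have h6 := Real.pi_pos
    positivity
  · rw [Function.comp_apply, ka_card K n]

theorem ka_upper {u : ℕ → ℝ} {ρ : ℝ} (h : Tendsto (fun N : ℕ => u N / N) atTop (𝓝 ρ))
    (h0 : u 0 = 0) : ∃ C : ℝ, ∀ N : ℕ, u N ≤ C * N := by
  obtain ⟨C, hC⟩ := h.bddAbove_range
  refine ⟨C, fun N => ?_⟩
  rcases Nat.eq_zero_or_pos N with rfl | hN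
  · simp [h0]
  · have h1 := hC (Set.mem_range_self N)
    have h2 : (0 : ℝ) < N := by exact_mod_cast hN
    rwa [div_le_iff₀ h2] at h1

theorem ka_double {u : ℕ → ℝ} {ρ : ℝ} (hρ : 0 < ρ)
    (h : Tendsto (fun N : ℕ => u N / N) atTop (𝓝 ρ)) :
    ∃ y0 : ℕ, 1 ≤ y0 ∧ ∀ y : ℕ, y0 ≤ y → ρ / 4 * y ≤ u (2 * y) - u y := by
  have h1 := h.eventually (Ioo_mem_nhds (show 3 / 4 * ρ < ρ by linarith)
    (show ρ < 5 / 4 * ρ by linarith))
  obtain ⟨y0, hy0⟩ := eventually_atTop.1 h1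
  refine ⟨max y0 1, le_max_right _ _, fun y hy => ?_⟩
  have hy1 : 1 ≤ y := le_trans (le_max_right _ _) hy
  have hy2 : y0 ≤ y := le_trans (le_max_left _ _) hy
  have hyp : (0 : ℝ) < y := by exact_mod_cast hy1
  have h2 := (hy0 y hy2).2
  have h3 := (hy0 (2 * y) (by omega)).1
  rw [div_lt_iff₀ hyp] at h2
  rw [lt_div_iff₀ (by positivity)] at h3
  push_cast at h3
  nlinarith

variable (K) in
/-- a dyadic block -/
theorem ka_block {ρ : ℝ} {y : ℕ} (hy : 1 ≤ y)
    (h : ρ / 4 * y ≤ (((PK K).BL (2 * y + 1)).card : ℝ) - (((PK K).BL (y + 1)).card : ℝ)) :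
    ρ / 8 + ∑ m ∈ (PK K).BL (y + 1), 1 / ((PK K).nrm m : ℝ) ≤
      ∑ m ∈ (PK K).BL (2 * y + 1), 1 / ((PK K).nrm m : ℝ) := by
  have hsub : (PK K).BL (y + 1) ⊆ (PK K).BL (2 * y + 1) := by
    intro m hm
    rw [mem_BL (PK K)] at hm ⊢
    omega
  rw [← Finset.sum_sdiff hsub, add_comm (ρ / 8)]
  rw [add_comm (∑ m ∈ (PK K).BL (2 * y + 1) \ (PK K).BL (y + 1), 1 / ((PK K).nrm m : ℝ))]
  apply add_le_add le_rfl
  have hyp : (0 : ℝ) < y := by exact_mod_cast hy
  have h1 : ((((PK K).BL (2 * y + 1) \ (PK K).BL (y + 1)).card : ℕ) : ℝ) * (1 / (2 * y : ℝ)) ≤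
      ∑ m ∈ (PK K).BL (2 * y + 1) \ (PK K).BL (y + 1), 1 / ((PK K).nrm m : ℝ) := by
    rw [← nsmul_eq_mul]
    apply Finset.card_nsmul_le_sum
    intro m hm
    rw [Finset.mem_sdiff, mem_BL (PK K)] at hm
    have hp := nrm_pos (PK K) m
    apply one_div_le_one_div_of_le (by exact_mod_cast hp)
    have : (PK K).nrm m ≤ 2 * y := by omega
    exact_mod_cast this
  refine le_trans ?_ h1
  rw [Finset.cast_card_sdiff hsub, mul_one_div, le_div_iff₀ (by positivity)]
  nlinarith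

/-! ## Block KA (KAX) -/

variable (K) in
/-- the counting axioms (Mathlib: `NumberField.Ideal.tendsto_norm_le_div_atTop₀`) -/
theorem PK_ax : ∃ c C : ℝ, (PK K).Ax c C := by
  obtain ⟨ρ, hρ, hlim⟩ := ka_lim K
  have hz : (((PK K).BL (0 + 1)).card : ℝ) = 0 := by
    rw [Nat.cast_eq_zero, Finset.card_eq_zero, Finset.eq_empty_iff_forall_notMem]
    intro m hm
    rw [mem_BL (PK K)] at hm
    have := nrm_pos (PK K) m
    omega
  obtain ⟨C, hC⟩ := ka_upper (u := fun N => (((PK K).BL (N + 1)).card : ℝ)) hlim hz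
  obtain ⟨y0, hy1, hy0⟩ := ka_double (u := fun N => (((PK K).BL (N + 1)).card : ℝ)) hρ hlim
  have hlog2 : 0 < Real.log 2 := Real.log_pos (by norm_num)
  have hy0' : (1 : ℝ) ≤ y0 := by exact_mod_cast hy1
  have hlogy : 0 ≤ Real.log y0 := Real.log_nonneg hy0'
  set c := min (ρ / (16 * Real.log 2)) (1 / (2 * (Real.log 2 + Real.log y0))) with hc
  have hcpos : 0 < c := lt_min (by positivity) (by positivity)
  have hc1 : c * Real.log 2 ≤ ρ / 16 := by
    have := min_le_left (ρ / (16 * Real.log 2)) (1 / (2 * (Real.log 2 + Real.log y0)))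
    calc c * Real.log 2 ≤ ρ / (16 * Real.log 2) * Real.log 2 :=
          mul_le_mul_of_nonneg_right this hlog2.le
      _ = ρ / 16 := by field_simp
  have hc2 : c * (Real.log 2 + Real.log y0) ≤ 1 / 2 := by
    have := min_le_right (ρ / (16 * Real.log 2)) (1 / (2 * (Real.log 2 + Real.log y0)))
    calc c * (Real.log 2 + Real.log y0) ≤
          1 / (2 * (Real.log 2 + Real.log y0)) * (Real.log 2 + Real.log y0) :=
          mul_le_mul_of_nonneg_right this (by positivity)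
      _ = 1 / 2 := by
          have : Real.log 2 + Real.log y0 ≠ 0 := by positivity
          field_simp
  -- the sum over the blocks
  have hblocks : ∀ k : ℕ, ρ / 8 * k ≤
      ∑ m ∈ (PK K).BL (2 ^ k * y0 + 1), 1 / ((PK K).nrm m : ℝ) := by
    intro k
    induction k with
    | zero =>
      simp only [Nat.cast_zero, mul_zero]
      exact Finset.sum_nonneg fun m _ => by positivity
    | succ k ih =>
      have h1 : y0 ≤ 2 ^ k * y0 := Nat.le_mul_of_pos_left _ (by positivity)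
      have h2 := ka_block K (ρ := ρ) (y := 2 ^ k * y0) (by omega) (hy0 _ h1)
      have h3 : 2 ^ (k + 1) * y0 + 1 = 2 * (2 ^ k * y0) + 1 := by ring
      rw [h3]
      push_cast
      linarith
  have hmono : ∀ a b : ℕ, a ≤ b → ∑ m ∈ (PK K).BL a, 1 / ((PK K).nrm m : ℝ) ≤
      ∑ m ∈ (PK K).BL b, 1 / ((PK K).nrm m : ℝ) := by
    intro a b hab
    apply Finset.sum_le_sum_of_subset_of_nonneg
    · intro m hm
      rw [mem_BL (PK K)] at hm ⊢
      omega
    · intro m _ _
      positivity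
  refine ⟨c, C, hcpos, ?_, hC⟩
  intro N hN
  have hone : (1 : ℝ) ≤ ∑ m ∈ (PK K).BL N, 1 / ((PK K).nrm m : ℝ) := by
    have h0 : (0 : HeightOneSpectrum (𝓞 K) →₀ ℕ) ∈ (PK K).BL N := by
      rw [mem_BL (PK K), nrm_zero]
      omega
    have := Finset.single_le_sum (f := fun m => 1 / ((PK K).nrm m : ℝ))
      (fun m _ => by positivity) h0
    rw [nrm_zero] at this
    simpa using this
  have hNp : (0 : ℝ) < N := by
    have : 0 < N := by omega
    exact_mod_cast this
  rcases Nat.lt_or_ge (N - 1) y0 with hlt | hge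
  · have h1 : (N : ℝ) ≤ y0 := by
      have : N ≤ y0 := by omega
      exact_mod_cast this
    have h2 := Real.log_le_log hNp h1
    have h3 : c * Real.log N ≤ c * (Real.log 2 + Real.log y0) :=
      mul_le_mul_of_nonneg_left (by linarith) hcpos.le
    linarith
  · set k := Nat.log 2 ((N - 1) / y0) with hk
    have hq : (N - 1) / y0 ≠ 0 := (Nat.div_pos hge (by omega)).ne'
    have h1 : 2 ^ k ≤ (N - 1) / y0 := Nat.pow_log_le_self 2 hq
    have h2 : (N - 1) / y0 < 2 ^ (k + 1) := Nat.lt_pow_succ_log_self (by norm_num) _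
    have h3 : 2 ^ k * y0 ≤ N - 1 := (Nat.le_div_iff_mul_le (by omega)).1 h1
    have h4 : N - 1 < 2 ^ (k + 1) * y0 := (Nat.div_lt_iff_lt_mul (by omega)).1 h2
    have h5 : (N : ℝ) ≤ 2 ^ (k + 1) * y0 := by
      have : N ≤ 2 ^ (k + 1) * y0 := by omega
      exact_mod_cast this
    have h6 := Real.log_le_log hNp h5
    rw [Real.log_mul (by positivity) (by positivity), Real.log_pow] at h6
    push_cast at h6
    have h7 := (hblocks k).trans (hmono _ N (by omega))
    have h8 : c * Real.log N ≤ c * ((k + 1) * Real.log 2 + Real.log y0) :=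
      mul_le_mul_of_nonneg_left h6 hcpos.le
    have h9 : c * ((k + 1) * Real.log 2 + Real.log y0) =
        k * (c * Real.log 2) + c * (Real.log 2 + Real.log y0) := by ring
    have h10 : (k : ℝ) * (c * Real.log 2) ≤ k * (ρ / 16) :=
      mul_le_mul_of_nonneg_left hc1 (Nat.cast_nonneg k)
    linarith


end Pool.Agent.HS
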