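import Pool.Agent.Lib_helper45.HS.DefsK
import Pool.Agent.Lib_helper45.HSF.H1
import Pool.Agent.Lib_helper45.HSF.KI

/-!
# HS block KJ (KHR), helper16: Hecke recursion (cites P0, H1, KI)
-/

namespace Pool.Agent.HS

open NumberField IsDedekindDomain
open scoped nonZeroDivisors Classical

variable {K : Type} [Field K] [NumberField K]

theorem kj_step {A : (FractionalIdeal (𝓞 K)⁰ K)ˣ → ℂ} {θ : HeightOneSpectrum (𝓞 K) → ℝ}
    (h : ∀ (m : HeightOneSpectrum (𝓞 K) →₀ ℕ) (p : HeightOneSpectrum (𝓞 K)),
      A (idl m * frP p) = (θ p : ℂ) * A (idl m) - if m p = 0 then 0 else A (idl m * (frP p)⁻¹))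
    (m : HeightOneSpectrum (𝓞 K) →₀ ℕ) (p : HeightOneSpectrum (𝓞 K)) (hp : m p = 0) (i : ℕ) :
    A (idl (Finsupp.single p i + m)) = A (idl m) * (SEL.Uc (θ p) i : ℂ) := by
  induction i using Nat.twoStepInduction with
  | zero => simp [SEL.Uc]
  | one =>
    have h1 := h m p
    rw [if_pos hp, sub_zero] at h1
    rw [idl_add, idl_single, pow_one, mul_comm (frP p), h1]
    simp [SEL.Uc, mul_comm]
  | more i ih1 ih2 =>
    have h1 := h (Finsupp.single p (i + 1) + m) p
    have h2 : (Finsupp.single p (i + 1) + m) p = i + 1 := by simp [hp]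
    rw [if_neg (by omega)] at h1
    have h3 : idl (Finsupp.single p (i + 1) + m) * frP p = idl (Finsupp.single p (i + 2) + m) := by
      rw [idl_add, idl_add, idl_single, idl_single, pow_succ (frP p) (i + 1)]
      exact mul_right_comm _ _ _
    have h4 : idl (Finsupp.single p (i + 1) + m) * (frP p)⁻¹ = idl (Finsupp.single p i + m) := by
      rw [idl_add, idl_add, idl_single, idl_single, pow_succ (frP p) i, mul_right_comm,
        mul_inv_cancel_right]
    rw [h3, h4, ih1, ih2] at h1
    rw [h1]
    have h5 : SEL.Uc (θ p) (i + 2) = θ p * SEL.Uc (θ p) (i + 1) - SEL.Uc (θ p) i := rfl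
    rw [h5]
    push_cast
    ring

/-- functions on the ideals satisfying the Hecke recursion are multiples of `hs` -/
theorem hs_of_rec {A : (FractionalIdeal (𝓞 K)⁰ K)ˣ → ℂ} {θ : HeightOneSpectrum (𝓞 K) → ℝ}
    (h : ∀ (m : HeightOneSpectrum (𝓞 K) →₀ ℕ) (p : HeightOneSpectrum (𝓞 K)),
      A (idl m * frP p) = (θ p : ℂ) * A (idl m) - if m p = 0 then 0 else A (idl m * (frP p)⁻¹))
    (m : HeightOneSpectrum (𝓞 K) →₀ ℕ) : A (idl m) = A 1 * (hs θ m : ℂ) := by
  induction m using Finsupp.induction with
  | zero => rw [idl_zero, hs_zero, Complex.ofReal_one, mul_one]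
  | single_add p i m hp _ ih =>
    have h0 : m p = 0 := Finsupp.notMem_support_iff.1 hp
    have hd : Disjoint (Finsupp.single p i).support m.support :=
      Finset.disjoint_left.2 fun x hx hx' => by
        have := Finsupp.support_single_subset hx
        rw [Finset.mem_singleton] at this
        subst this
        exact hp hx'
    rw [kj_step h m p h0 i, ih, hs_disj θ hd, hs_single]
    push_cast
    ring

/-- the totient function: any `φ` with the right divisor sums is a totient function -/
theorem tot_of_card {φ : (HeightOneSpectrum (𝓞 K) →₀ ℕ) → ℕ}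
    (h : ∀ g, ∑ c ∈ dv g, φ c = (PK K).nrm g) : Tot (PK K) (fun c => (φ c : ℝ)) where
  nonneg c := Nat.cast_nonneg _
  sum g := by exact_mod_cast h g

end Pool.Agent.HS
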